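import Pool.Agent.H.MP_b7167f_an.SS.Defs

/-!
PROOF.  Elementary inequalities for the matrix `M = Σ_l λ_l ω_l ω_lᵀ + e` where
`λ₁ = λ₂ = 1 + i t`, `λ₃ = λ₄ = 1 - i t`, `0 ≤ e ≤ 1`.
Notation: `m = sin²(θ₁-θ₂)`, `m' = sin²(θ₃-θ₄)`, `D2 = D²`.
(`alg_det`) `Re det = 2m + 2m' + (1+t²) D2 + 4e + e²`, `Im det = 2 t (m - m')`: expand; it is a
polynomial identity in `cos θ_l, sin θ_l` modulo `cos²+sin²=1` (write `cos(θ₁+θ₂-θ₃-θ₄)` etc. with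
`Real.cos_add ...`; check the real and the imaginary part separately).
(`alg_num`) `NN cA cB cC θ φ = Σ_l λ_l sin(θ_l-θ) sin(θ_l-φ) + e cos(θ-φ)`.
(`alg_main`) Let `R = Re NN`, `V t = Im NN`.  For `θ, φ` among the `θ_l`:
 (a) `|R| ≤ Pdet := 2m+2m'+D2+4e+e²`.  Indeed `Pdet = Σ_{k<l} sin²(θ_k-θ_l) + 4e + e²` (identity, case
   `t = 0` of `alg_det` and Cauchy-Binet), `R(θ,θ) = Σ_l sin²(θ_l-θ) + e ≤ Pdet` for `θ` one of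
   the four, and `|R(θ,φ)| ≤ (R(θ,θ)+R(φ,φ))/2` (termwise AM-GM).
 (b) also `R(θ,θ) ≤ 4 + e ≤ 5`, so `R(θ,φ)² ≤ R(θ,θ) R(φ,φ) ≤ 5 Pdet` (Cauchy-Schwarz, or bound
   `R(θ,φ)² ≤ ((R(θ,θ)+R(φ,φ))/2)² ≤ 5 Pdet`).
 (c) `V(θ,φ) = -(d₁ cos(θ+φ) + d₂ sin(θ+φ))` where `d = ½ Σ σ_l (cos 2θ_l, sin 2θ_l)`,
   `σ = (+,+,-,-)`, `d₁²+d₂² = D2`.  So `|V| ≤ D := √D2`.
 (d) `|t| |V(θ,φ)| ≤ 4 ‖det‖`: with `S = θ₁+θ₂` and `χ = θ+φ-S`: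
   `|d·e(S+χ)| ≤ |d·e(S)| + |sin χ| D`; `|sin χ| ≤ |sin(θ-θ₁)|+|sin(φ-θ₂)| ≤ 2 √Pdet`, so
   `|t| |sin χ| D ≤ 2 √Pdet |t| D ≤ Pdet + t² D2 = Re det ≤ ‖det‖`.  With
   `p = cos(θ₁-θ₂)`, `p' = cos(θ₃-θ₄)`, `ψ = θ₁+θ₂-θ₃-θ₄`: `d·e(S) = p - p' cos ψ` and
   `2 p (p - p' cos ψ) = p² - p'² + D2 = m' - m + D2`.  If `|p| ≥ 1/2`:
   `|t| |d·e(S)| ≤ |t||m-m'| + |t| D2 ≤ ‖det‖/2 + (D2 + t² D2) ≤ 2‖det‖`.  If `|p| < 1/2` then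
   `m > 3/4`, `Re det ≥ 3/2 + t² D2` and `|t| |d·e(S)| ≤ |t| D ≤ (1 + t² D2)/2 ≤ ‖det‖`.
 So `‖NN‖ ≤ |R| + |t||V| ≤ 5‖det‖`; and `|t| D ‖NN‖ ≤ |t| D |R| + t² D2`, where by (b)
 `|t| D |R| ≤ |t| D √(5 Pdet) ≤ (5 Pdet + t² D2)/2`.  All constants are below 10.
-/

open MeasureTheory Set Complex

namespace Pool.Agent.H.MP_b7167f_an.SS

noncomputable def cA (t e θ₁ θ₂ θ₃ θ₄ : ℝ) : ℂ :=
  (1 + t * I) * (Real.cos θ₁ ^ 2 + Real.cos θ₂ ^ 2 : ℝ) +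
    (1 - t * I) * (Real.cos θ₃ ^ 2 + Real.cos θ₄ ^ 2 : ℝ) + e

noncomputable def cB (t θ₁ θ₂ θ₃ θ₄ : ℝ) : ℂ :=
  (1 + t * I) * (Real.cos θ₁ * Real.sin θ₁ + Real.cos θ₂ * Real.sin θ₂ : ℝ) +
    (1 - t * I) * (Real.cos θ₃ * Real.sin θ₃ + Real.cos θ₄ * Real.sin θ₄ : ℝ)

noncomputable def cC (t e θ₁ θ₂ θ₃ θ₄ : ℝ) : ℂ :=
  (1 + t * I) * (Real.sin θ₁ ^ 2 + Real.sin θ₂ ^ 2 : ℝ) +
    (1 - t * I) * (Real.sin θ₃ ^ 2 + Real.sin θ₄ ^ 2 : ℝ) + e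

noncomputable def cdet (t e θ₁ θ₂ θ₃ θ₄ : ℝ) : ℂ :=
  cA t e θ₁ θ₂ θ₃ θ₄ * cC t e θ₁ θ₂ θ₃ θ₄ - cB t θ₁ θ₂ θ₃ θ₄ ^ 2

/-- `D² = |e₁+e₂-e₃-e₄|²/4` with `e_l = (cos 2θ_l, sin 2θ_l)`. -/
noncomputable def D2 (θ₁ θ₂ θ₃ θ₄ : ℝ) : ℝ :=
  Real.cos (θ₁ - θ₂) ^ 2 + Real.cos (θ₃ - θ₄) ^ 2
    - 2 * Real.cos (θ₁ - θ₂) * Real.cos (θ₃ - θ₄) * Real.cos (θ₁ + θ₂ - θ₃ - θ₄)

private theorem alg_q (x y : ℝ) :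
    Real.cos (x - y) * Real.cos (x + y) = Real.cos x ^ 2 + Real.cos y ^ 2 - 1 := by
  rw [Real.cos_sub, Real.cos_add]
  have hx := Real.sin_sq_add_cos_sq x
  have hy := Real.sin_sq_add_cos_sq y
  linear_combination (-(Real.sin y ^ 2)) * hx + (Real.cos x ^ 2 - 1) * hy

private theorem alg_r (x y : ℝ) :
    Real.cos (x - y) * Real.sin (x + y)
      = Real.cos x * Real.sin x + Real.cos y * Real.sin y := by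
  rw [Real.cos_sub, Real.sin_add]
  have hx := Real.sin_sq_add_cos_sq x
  have hy := Real.sin_sq_add_cos_sq y
  linear_combination (Real.cos y * Real.sin y) * hx + (Real.cos x * Real.sin x) * hy

private theorem alg_D2 (θ₁ θ₂ θ₃ θ₄ : ℝ) :
    D2 θ₁ θ₂ θ₃ θ₄ =
      (Real.cos (θ₁ - θ₂) * Real.cos (θ₁ + θ₂) - Real.cos (θ₃ - θ₄) * Real.cos (θ₃ + θ₄)) ^ 2
      + (Real.cos (θ₁ - θ₂) * Real.sin (θ₁ + θ₂) - Real.cos (θ₃ - θ₄) * Real.sin (θ₃ + θ₄)) ^ 2 := by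
  unfold D2
  have h : θ₁ + θ₂ - θ₃ - θ₄ = (θ₁ + θ₂) - (θ₃ + θ₄) := by ring
  rw [h, Real.cos_sub (θ₁ + θ₂) (θ₃ + θ₄)]
  have h1 := Real.sin_sq_add_cos_sq (θ₁ + θ₂)
  have h2 := Real.sin_sq_add_cos_sq (θ₃ + θ₄)
  linear_combination (-(Real.cos (θ₁ - θ₂) ^ 2)) * h1 + (-(Real.cos (θ₃ - θ₄) ^ 2)) * h2

theorem D2_nonneg (θ₁ θ₂ θ₃ θ₄ : ℝ) : 0 ≤ D2 θ₁ θ₂ θ₃ θ₄ := by
  rw [alg_D2]
  positivity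

private theorem alg_D2' (θ₁ θ₂ θ₃ θ₄ : ℝ) :
    D2 θ₁ θ₂ θ₃ θ₄ =
      (Real.cos θ₁ ^ 2 + Real.cos θ₂ ^ 2 - Real.cos θ₃ ^ 2 - Real.cos θ₄ ^ 2) ^ 2
      + (Real.cos θ₁ * Real.sin θ₁ + Real.cos θ₂ * Real.sin θ₂
        - Real.cos θ₃ * Real.sin θ₃ - Real.cos θ₄ * Real.sin θ₄) ^ 2 := by
  rw [alg_D2, alg_q, alg_q, alg_r, alg_r]
  ring

private theorem alg_cA (t e θ₁ θ₂ θ₃ θ₄ : ℝ) :
    cA t e θ₁ θ₂ θ₃ θ₄ =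
      ((Real.cos θ₁ ^ 2 + Real.cos θ₂ ^ 2 + Real.cos θ₃ ^ 2 + Real.cos θ₄ ^ 2 + e : ℝ) : ℂ)
      + ((t * (Real.cos θ₁ ^ 2 + Real.cos θ₂ ^ 2 - Real.cos θ₃ ^ 2 - Real.cos θ₄ ^ 2) : ℝ) : ℂ)
        * I := by
  unfold cA
  push_cast
  ring

private theorem alg_cB (t θ₁ θ₂ θ₃ θ₄ : ℝ) :
    cB t θ₁ θ₂ θ₃ θ₄ =
      ((Real.cos θ₁ * Real.sin θ₁ + Real.cos θ₂ * Real.sin θ₂
        + Real.cos θ₃ * Real.sin θ₃ + Real.cos θ₄ * Real.sin θ₄ : ℝ) : ℂ)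
      + ((t * (Real.cos θ₁ * Real.sin θ₁ + Real.cos θ₂ * Real.sin θ₂
        - Real.cos θ₃ * Real.sin θ₃ - Real.cos θ₄ * Real.sin θ₄) : ℝ) : ℂ)
        * I := by
  unfold cB
  push_cast
  ring

private theorem alg_cC (t e θ₁ θ₂ θ₃ θ₄ : ℝ) :
    cC t e θ₁ θ₂ θ₃ θ₄ =
      ((Real.sin θ₁ ^ 2 + Real.sin θ₂ ^ 2 + Real.sin θ₃ ^ 2 + Real.sin θ₄ ^ 2 + e : ℝ) : ℂ)
      + ((t * (-(Real.cos θ₁ ^ 2 + Real.cos θ₂ ^ 2 - Real.cos θ₃ ^ 2 - Real.cos θ₄ ^ 2)) : ℝ) : ℂ)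
        * I := by
  unfold cC
  have h : -(Real.cos θ₁ ^ 2 + Real.cos θ₂ ^ 2 - Real.cos θ₃ ^ 2 - Real.cos θ₄ ^ 2)
      = Real.sin θ₁ ^ 2 + Real.sin θ₂ ^ 2 - Real.sin θ₃ ^ 2 - Real.sin θ₄ ^ 2 := by
    rw [Real.sin_sq, Real.sin_sq, Real.sin_sq, Real.sin_sq]
    ring
  rw [h]
  push_cast
  ring

/-- Product formula for numbers in the form `x + y i`. -/
private theorem alg_prod (a b c x y z : ℝ) :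
    ((a : ℂ) + (x : ℂ) * I) * ((c : ℂ) + (z : ℂ) * I) - ((b : ℂ) + (y : ℂ) * I) ^ 2
      = ((a * c - x * z - b ^ 2 + y ^ 2 : ℝ) : ℂ) + ((a * z + x * c - 2 * b * y : ℝ) : ℂ) * I := by
  push_cast
  linear_combination ((x : ℂ) * (z : ℂ) - (y : ℂ) ^ 2) * Complex.I_sq

theorem alg_det (t e θ₁ θ₂ θ₃ θ₄ : ℝ) :
    cdet t e θ₁ θ₂ θ₃ θ₄ =
      ((2 * Real.sin (θ₁ - θ₂) ^ 2 + 2 * Real.sin (θ₃ - θ₄) ^ 2 + (1 + t ^ 2) * D2 θ₁ θ₂ θ₃ θ₄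
        + 4 * e + e ^ 2 : ℝ) : ℂ)
      + ((2 * t * (Real.sin (θ₁ - θ₂) ^ 2 - Real.sin (θ₃ - θ₄) ^ 2) : ℝ) : ℂ) * I := by
  unfold cdet
  rw [alg_cA, alg_cB, alg_cC, alg_prod]
  have q := alg_q θ₁ θ₂
  have q' := alg_q θ₃ θ₄
  have r := alg_r θ₁ θ₂
  have r' := alg_r θ₃ θ₄
  have p2 : Real.cos (θ₁ - θ₂) ^ 2 = (Real.cos θ₁ ^ 2 + Real.cos θ₂ ^ 2 - 1) ^ 2
      + (Real.cos θ₁ * Real.sin θ₁ + Real.cos θ₂ * Real.sin θ₂) ^ 2 := by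
    rw [← q, ← r]
    have h1 := Real.sin_sq_add_cos_sq (θ₁ + θ₂)
    linear_combination (-(Real.cos (θ₁ - θ₂) ^ 2)) * h1
  have p2' : Real.cos (θ₃ - θ₄) ^ 2 = (Real.cos θ₃ ^ 2 + Real.cos θ₄ ^ 2 - 1) ^ 2
      + (Real.cos θ₃ * Real.sin θ₃ + Real.cos θ₄ * Real.sin θ₄) ^ 2 := by
    rw [← q', ← r']
    have h1 := Real.sin_sq_add_cos_sq (θ₃ + θ₄)
    linear_combination (-(Real.cos (θ₃ - θ₄) ^ 2)) * h1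
  rw [Real.sin_sq (θ₁ - θ₂), Real.sin_sq (θ₃ - θ₄), p2, p2', alg_D2',
    Real.sin_sq θ₁, Real.sin_sq θ₂, Real.sin_sq θ₃, Real.sin_sq θ₄]
  have e1 : ∀ x y z w : ℝ, x = z → y = w →
      (x : ℂ) + (y : ℂ) * I = (z : ℂ) + (w : ℂ) * I := by
    intro x y z w h1 h2
    rw [h1, h2]
  apply e1
  · ring
  · ring

/-- The real part of the determinant as a sum over pairs (Cauchy-Binet). -/
private theorem alg_CB (e θ₁ θ₂ θ₃ θ₄ : ℝ) :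
    2 * Real.sin (θ₁ - θ₂) ^ 2 + 2 * Real.sin (θ₃ - θ₄) ^ 2 + D2 θ₁ θ₂ θ₃ θ₄ + 4 * e + e ^ 2
      = Real.sin (θ₁ - θ₂) ^ 2 + Real.sin (θ₁ - θ₃) ^ 2 + Real.sin (θ₁ - θ₄) ^ 2
        + Real.sin (θ₂ - θ₃) ^ 2 + Real.sin (θ₂ - θ₄) ^ 2 + Real.sin (θ₃ - θ₄) ^ 2
        + 4 * e + e ^ 2 := by
  have key : ∀ x y : ℝ, Real.sin (x - y) ^ 2 = Real.cos x ^ 2 + Real.cos y ^ 2
      - 2 * Real.cos x ^ 2 * Real.cos y ^ 2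
      - 2 * (Real.cos x * Real.sin x) * (Real.cos y * Real.sin y) := by
    intro x y
    rw [Real.sin_sub]
    have hx := Real.sin_sq_add_cos_sq x
    have hy := Real.sin_sq_add_cos_sq y
    linear_combination (Real.cos y ^ 2) * hx + (Real.cos x ^ 2) * hy
  have kk : ∀ x : ℝ, (Real.cos x * Real.sin x) ^ 2 = Real.cos x ^ 2 - Real.cos x ^ 4 := by
    intro x
    have hx := Real.sin_sq_add_cos_sq x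
    linear_combination (Real.cos x ^ 2) * hx
  rw [alg_D2', key θ₁ θ₂, key θ₃ θ₄, key θ₁ θ₃, key θ₁ θ₄, key θ₂ θ₃, key θ₂ θ₄]
  linear_combination kk θ₁ + kk θ₂ + kk θ₃ + kk θ₄

/-- The real part of the numerator. -/
private noncomputable def algR (e θ₁ θ₂ θ₃ θ₄ θ φ : ℝ) : ℝ :=
  Real.sin (θ₁ - θ) * Real.sin (θ₁ - φ) + Real.sin (θ₂ - θ) * Real.sin (θ₂ - φ)
    + Real.sin (θ₃ - θ) * Real.sin (θ₃ - φ) + Real.sin (θ₄ - θ) * Real.sin (θ₄ - φ)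
    + e * Real.cos (θ - φ)

/-- The imaginary part of the numerator divided by `t`. -/
private noncomputable def algV (θ₁ θ₂ θ₃ θ₄ θ φ : ℝ) : ℝ :=
  -((Real.cos (θ₁ - θ₂) * Real.cos (θ₁ + θ₂) - Real.cos (θ₃ - θ₄) * Real.cos (θ₃ + θ₄))
      * Real.cos (θ + φ)
    + (Real.cos (θ₁ - θ₂) * Real.sin (θ₁ + θ₂) - Real.cos (θ₃ - θ₄) * Real.sin (θ₃ + θ₄))
      * Real.sin (θ + φ))

private theorem alg_num (t e θ₁ θ₂ θ₃ θ₄ θ φ : ℝ) :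
    NN (cA t e θ₁ θ₂ θ₃ θ₄) (cB t θ₁ θ₂ θ₃ θ₄) (cC t e θ₁ θ₂ θ₃ θ₄) θ φ
      = ((algR e θ₁ θ₂ θ₃ θ₄ θ φ : ℝ) : ℂ) + ((t * algV θ₁ θ₂ θ₃ θ₄ θ φ : ℝ) : ℂ) * I := by
  unfold NN algR algV
  rw [alg_cA, alg_cB, alg_cC, alg_q, alg_q, alg_r, alg_r]
  simp only [Real.sin_sub, Real.cos_sub, Real.sin_add, Real.cos_add]
  push_cast
  ring

private theorem alg_norm_le (x y : ℝ) : ‖(x : ℂ) + (y : ℂ) * I‖ ≤ |x| + |y| := by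
  refine (norm_add_le _ _).trans ?_
  rw [norm_mul, Complex.norm_I, mul_one, Complex.norm_real, Complex.norm_real, Real.norm_eq_abs,
    Real.norm_eq_abs]

private theorem alg_re_le (x y : ℝ) : x ≤ ‖(x : ℂ) + (y : ℂ) * I‖ := by
  have h := Complex.re_le_norm ((x : ℂ) + (y : ℂ) * I)
  simpa using h

private theorem alg_im_le (x y : ℝ) : |y| ≤ ‖(x : ℂ) + (y : ℂ) * I‖ := by
  have h := Complex.abs_im_le_norm ((x : ℂ) + (y : ℂ) * I)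
  simpa using h

private theorem alg_two (x y : ℝ) : |x * y| ≤ (x ^ 2 + y ^ 2) / 2 := by
  rw [abs_le]
  constructor
  · nlinarith [sq_nonneg (x + y)]
  · nlinarith [sq_nonneg (x - y)]

private theorem alg_R_abs (e θ₁ θ₂ θ₃ θ₄ θ φ : ℝ) (he : 0 ≤ e) :
    |algR e θ₁ θ₂ θ₃ θ₄ θ φ|
      ≤ (algR e θ₁ θ₂ θ₃ θ₄ θ θ + algR e θ₁ θ₂ θ₃ θ₄ φ φ) / 2 := by
  unfold algR
  rw [sub_self, sub_self, Real.cos_zero]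
  have h1 := alg_two (Real.sin (θ₁ - θ)) (Real.sin (θ₁ - φ))
  have h2 := alg_two (Real.sin (θ₂ - θ)) (Real.sin (θ₂ - φ))
  have h3 := alg_two (Real.sin (θ₃ - θ)) (Real.sin (θ₃ - φ))
  have h4 := alg_two (Real.sin (θ₄ - θ)) (Real.sin (θ₄ - φ))
  have h5 : |e * Real.cos (θ - φ)| ≤ e := by
    rw [abs_mul, abs_of_nonneg he]
    exact mul_le_of_le_one_right he (Real.abs_cos_le_one _)
  rw [abs_le] at h1 h2 h3 h4 h5 ⊢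
  constructor <;> nlinarith [h1.1, h1.2, h2.1, h2.2, h3.1, h3.2, h4.1, h4.2, h5.1, h5.2]

private theorem alg_sin2_comm (x y : ℝ) : Real.sin (x - y) ^ 2 = Real.sin (y - x) ^ 2 := by
  have h : x - y = -(y - x) := by ring
  rw [h, Real.sin_neg]
  ring

/-- Upper bounds for the diagonal values. -/
private theorem alg_R_diag (e θ₁ θ₂ θ₃ θ₄ θ : ℝ) (he : 0 ≤ e) (he1 : e ≤ 1)
    (h : θ = θ₁ ∨ θ = θ₂ ∨ θ = θ₃ ∨ θ = θ₄) :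
    algR e θ₁ θ₂ θ₃ θ₄ θ θ ≤ 2 * Real.sin (θ₁ - θ₂) ^ 2 + 2 * Real.sin (θ₃ - θ₄) ^ 2
      + D2 θ₁ θ₂ θ₃ θ₄ + 4 * e + e ^ 2 ∧ algR e θ₁ θ₂ θ₃ θ₄ θ θ ≤ 5 := by
  constructor
  · rw [alg_CB]
    unfold algR
    rw [sub_self, Real.cos_zero]
    have p1 := sq_nonneg (Real.sin (θ₁ - θ₂))
    have p2 := sq_nonneg (Real.sin (θ₁ - θ₃))
    have p3 := sq_nonneg (Real.sin (θ₁ - θ₄))
    have p4 := sq_nonneg (Real.sin (θ₂ - θ₃))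
    have p5 := sq_nonneg (Real.sin (θ₂ - θ₄))
    have p6 := sq_nonneg (Real.sin (θ₃ - θ₄))
    have c1 := alg_sin2_comm θ₁ θ₂
    have c2 := alg_sin2_comm θ₁ θ₃
    have c3 := alg_sin2_comm θ₁ θ₄
    have c4 := alg_sin2_comm θ₂ θ₃
    have c5 := alg_sin2_comm θ₂ θ₄
    have c6 := alg_sin2_comm θ₃ θ₄
    rcases h with h | h | h | h <;> subst h <;> rw [sub_self, Real.sin_zero] <;> nlinarith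
  · unfold algR
    rw [sub_self, Real.cos_zero]
    have s1 := Real.sin_sq_le_one (θ₁ - θ)
    have s2 := Real.sin_sq_le_one (θ₂ - θ)
    have s3 := Real.sin_sq_le_one (θ₃ - θ)
    have s4 := Real.sin_sq_le_one (θ₄ - θ)
    nlinarith

private theorem alg_R_nonneg (e θ₁ θ₂ θ₃ θ₄ θ : ℝ) (he : 0 ≤ e) :
    0 ≤ algR e θ₁ θ₂ θ₃ θ₄ θ θ := by
  unfold algR
  rw [sub_self, Real.cos_zero]
  nlinarith [mul_self_nonneg (Real.sin (θ₁ - θ)), mul_self_nonneg (Real.sin (θ₂ - θ)),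
    mul_self_nonneg (Real.sin (θ₃ - θ)), mul_self_nonneg (Real.sin (θ₄ - θ))]

/-- `|x cos u + y sin u|² ≤ x² + y²`. -/
private theorem alg_rot (x y u : ℝ) : (x * Real.cos u + y * Real.sin u) ^ 2 ≤ x ^ 2 + y ^ 2 := by
  have h := Real.sin_sq_add_cos_sq u
  have h2 : x ^ 2 + y ^ 2 - (x * Real.cos u + y * Real.sin u) ^ 2
      = (x * Real.sin u - y * Real.cos u) ^ 2 := by
    linear_combination (-(x ^ 2 + y ^ 2)) * h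
  nlinarith [sq_nonneg (x * Real.sin u - y * Real.cos u)]

private theorem alg_V_sq (θ₁ θ₂ θ₃ θ₄ θ φ : ℝ) :
    algV θ₁ θ₂ θ₃ θ₄ θ φ ^ 2 ≤ D2 θ₁ θ₂ θ₃ θ₄ := by
  unfold algV
  rw [neg_sq, alg_D2]
  exact alg_rot _ _ _

private theorem alg_V_abs (θ₁ θ₂ θ₃ θ₄ θ φ : ℝ) :
    |algV θ₁ θ₂ θ₃ θ₄ θ φ| ≤ Real.sqrt (D2 θ₁ θ₂ θ₃ θ₄) :=
  Real.abs_le_sqrt (alg_V_sq θ₁ θ₂ θ₃ θ₄ θ φ)

/-- Every squared sine of a difference of two of the angles is at most `Pdet`. -/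
private theorem alg_pair (e θ₁ θ₂ θ₃ θ₄ θ φ : ℝ) (he : 0 ≤ e)
    (h : θ = θ₁ ∨ θ = θ₂ ∨ θ = θ₃ ∨ θ = θ₄) (h' : φ = θ₁ ∨ φ = θ₂ ∨ φ = θ₃ ∨ φ = θ₄) :
    Real.sin (θ - φ) ^ 2 ≤ 2 * Real.sin (θ₁ - θ₂) ^ 2 + 2 * Real.sin (θ₃ - θ₄) ^ 2
      + D2 θ₁ θ₂ θ₃ θ₄ + 4 * e + e ^ 2 := by
  rw [alg_CB]
  have p1 := sq_nonneg (Real.sin (θ₁ - θ₂))
  have p2 := sq_nonneg (Real.sin (θ₁ - θ₃))
  have p3 := sq_nonneg (Real.sin (θ₁ - θ₄))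
  have p4 := sq_nonneg (Real.sin (θ₂ - θ₃))
  have p5 := sq_nonneg (Real.sin (θ₂ - θ₄))
  have p6 := sq_nonneg (Real.sin (θ₃ - θ₄))
  have c1 := alg_sin2_comm θ₁ θ₂
  have c2 := alg_sin2_comm θ₁ θ₃
  have c3 := alg_sin2_comm θ₁ θ₄
  have c4 := alg_sin2_comm θ₂ θ₃
  have c5 := alg_sin2_comm θ₂ θ₄
  have c6 := alg_sin2_comm θ₃ θ₄
  have z : ∀ x : ℝ, Real.sin (x - x) ^ 2 = 0 := by
    intro x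
    rw [sub_self, Real.sin_zero]
    norm_num
  have e2 := sq_nonneg e
  have z1 := z θ₁
  have z2 := z θ₂
  have z3 := z θ₃
  have z4 := z θ₄
  rcases h with h | h | h | h <;> rcases h' with h' | h' | h' | h' <;> rw [h, h'] <;> linarith

/-- `|t| |V| ≤ 2 ‖det‖`. -/
private theorem alg_tV (t e θ₁ θ₂ θ₃ θ₄ θ φ N : ℝ) (he : 0 ≤ e)
    (h : θ = θ₁ ∨ θ = θ₂ ∨ θ = θ₃ ∨ θ = θ₄) (h' : φ = θ₁ ∨ φ = θ₂ ∨ φ = θ₃ ∨ φ = θ₄)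
    (hre : 2 * Real.sin (θ₁ - θ₂) ^ 2 + 2 * Real.sin (θ₃ - θ₄) ^ 2
      + (1 + t ^ 2) * D2 θ₁ θ₂ θ₃ θ₄ + 4 * e + e ^ 2 ≤ N)
    (him : |2 * t * (Real.sin (θ₁ - θ₂) ^ 2 - Real.sin (θ₃ - θ₄) ^ 2)| ≤ N) :
    |t| * |algV θ₁ θ₂ θ₃ θ₄ θ φ| ≤ 2 * N := by
  have hD := D2_nonneg θ₁ θ₂ θ₃ θ₄
  set D := Real.sqrt (D2 θ₁ θ₂ θ₃ θ₄) with hDd
  have hD0 : 0 ≤ D := Real.sqrt_nonneg _
  have hDD : D ^ 2 = D2 θ₁ θ₂ θ₃ θ₄ := Real.sq_sqrt hD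
  have hx2 := alg_pair e θ₁ θ₂ θ₃ θ₄ θ θ₁ he h (Or.inl rfl)
  have hy2 := alg_pair e θ₁ θ₂ θ₃ θ₄ φ θ₂ he h' (Or.inr (Or.inl rfl))
  have ht2 : |t| ^ 2 = t ^ 2 := sq_abs t
  -- the sine of `χ`
  have hsin : |Real.sin ((θ - θ₁) + (φ - θ₂))| ≤ |Real.sin (θ - θ₁)| + |Real.sin (φ - θ₂)| := by
    rw [Real.sin_add]
    refine (abs_add_le _ _).trans ?_
    rw [abs_mul, abs_mul]
    have a1 := Real.abs_cos_le_one (φ - θ₂)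
    have a2 := Real.abs_cos_le_one (θ - θ₁)
    have b1 := abs_nonneg (Real.sin (θ - θ₁))
    have b2 := abs_nonneg (Real.sin (φ - θ₂))
    nlinarith
  -- decomposition of `V`
  set W := (Real.cos (θ₁ - θ₂) * Real.cos (θ₁ + θ₂) - Real.cos (θ₃ - θ₄) * Real.cos (θ₃ + θ₄))
      * Real.cos (θ₁ + θ₂)
    + (Real.cos (θ₁ - θ₂) * Real.sin (θ₁ + θ₂) - Real.cos (θ₃ - θ₄) * Real.sin (θ₃ + θ₄))
      * Real.sin (θ₁ + θ₂) with hW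
  set U := (Real.cos (θ₁ - θ₂) * Real.sin (θ₁ + θ₂) - Real.cos (θ₃ - θ₄) * Real.sin (θ₃ + θ₄))
      * Real.cos (θ₁ + θ₂)
    + (-(Real.cos (θ₁ - θ₂) * Real.cos (θ₁ + θ₂) - Real.cos (θ₃ - θ₄) * Real.cos (θ₃ + θ₄)))
      * Real.sin (θ₁ + θ₂) with hU
  have hV : algV θ₁ θ₂ θ₃ θ₄ θ φ
      = -(W * Real.cos ((θ - θ₁) + (φ - θ₂)) + U * Real.sin ((θ - θ₁) + (φ - θ₂))) := by
    unfold algV
    have hs : θ + φ = (θ₁ + θ₂) + ((θ - θ₁) + (φ - θ₂)) := by ring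
    rw [hs, Real.cos_add (θ₁ + θ₂), Real.sin_add (θ₁ + θ₂), hW, hU]
    ring
  have hWsq : W ^ 2 ≤ D2 θ₁ θ₂ θ₃ θ₄ := by
    rw [alg_D2]
    exact alg_rot _ _ _
  have hUsq : U ^ 2 ≤ D2 θ₁ θ₂ θ₃ θ₄ := by
    rw [alg_D2]
    refine (alg_rot _ _ _).trans (le_of_eq ?_)
    ring
  have hWD : |W| ≤ D := Real.abs_le_sqrt hWsq
  have hUD : |U| ≤ D := Real.abs_le_sqrt hUsq
  have hVle : |algV θ₁ θ₂ θ₃ θ₄ θ φ|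
      ≤ |W| + D * (|Real.sin (θ - θ₁)| + |Real.sin (φ - θ₂)|) := by
    rw [hV, abs_neg]
    refine (abs_add_le _ _).trans ?_
    rw [abs_mul, abs_mul]
    refine add_le_add ?_ ?_
    · exact mul_le_of_le_one_right (abs_nonneg _) (Real.abs_cos_le_one _)
    · exact mul_le_mul hUD hsin (abs_nonneg _) hD0
  -- the part with `W`
  have hWval : 2 * Real.cos (θ₁ - θ₂) * W
      = Real.sin (θ₃ - θ₄) ^ 2 - Real.sin (θ₁ - θ₂) ^ 2 + D2 θ₁ θ₂ θ₃ θ₄ := by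
    rw [hW, alg_D2, Real.sin_sq (θ₃ - θ₄), Real.sin_sq (θ₁ - θ₂)]
    have h1 := Real.sin_sq_add_cos_sq (θ₁ + θ₂)
    have h2 := Real.sin_sq_add_cos_sq (θ₃ + θ₄)
    linear_combination (Real.cos (θ₁ - θ₂) ^ 2) * h1 + (-(Real.cos (θ₃ - θ₄) ^ 2)) * h2
  have hm1 := sq_nonneg (Real.sin (θ₁ - θ₂))
  have hm2 := sq_nonneg (Real.sin (θ₃ - θ₄))
  have hee := sq_nonneg e
  have ht0 : 0 ≤ |t| := abs_nonneg t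
  have hWt : |t| * |W| ≤ N := by
    by_cases hp : 1 / 2 ≤ |Real.cos (θ₁ - θ₂)|
    · have h1 : |W| ≤ |Real.sin (θ₁ - θ₂) ^ 2 - Real.sin (θ₃ - θ₄) ^ 2| + D2 θ₁ θ₂ θ₃ θ₄ := by
        have h2 : |W| ≤ |2 * Real.cos (θ₁ - θ₂) * W| := by
          rw [abs_mul, abs_mul, abs_two]
          have := abs_nonneg W
          nlinarith
        refine h2.trans ?_
        rw [hWval]
        refine (abs_add_le _ _).trans ?_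
        rw [abs_sub_comm, abs_of_nonneg hD]
      have h3 : |2 * t * (Real.sin (θ₁ - θ₂) ^ 2 - Real.sin (θ₃ - θ₄) ^ 2)|
          = 2 * (|t| * |Real.sin (θ₁ - θ₂) ^ 2 - Real.sin (θ₃ - θ₄) ^ 2|) := by
        rw [abs_mul, abs_mul, abs_two]
        ring
      rw [h3] at him
      have h4 : |t| * |W| ≤ |t| * |Real.sin (θ₁ - θ₂) ^ 2 - Real.sin (θ₃ - θ₄) ^ 2|
          + |t| * D2 θ₁ θ₂ θ₃ θ₄ := by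
        rw [← mul_add]
        exact mul_le_mul_of_nonneg_left h1 ht0
      have h5 : |t| * D2 θ₁ θ₂ θ₃ θ₄ ≤ (1 + t ^ 2) / 2 * D2 θ₁ θ₂ θ₃ θ₄ := by
        refine mul_le_mul_of_nonneg_right ?_ hD
        nlinarith [sq_nonneg (|t| - 1)]
      nlinarith
    · push Not at hp
      have h1 : Real.cos (θ₁ - θ₂) ^ 2 ≤ 1 / 4 := by
        have h2 : |Real.cos (θ₁ - θ₂)| ^ 2 = Real.cos (θ₁ - θ₂) ^ 2 := sq_abs _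
        have h3 := abs_nonneg (Real.cos (θ₁ - θ₂))
        nlinarith
      have h2 : 3 / 4 ≤ Real.sin (θ₁ - θ₂) ^ 2 := by
        rw [Real.sin_sq]
        linarith
      have h3 : |t| * |W| ≤ |t| * D := mul_le_mul_of_nonneg_left hWD ht0
      have h4 : |t| * D ≤ (1 + t ^ 2 * D2 θ₁ θ₂ θ₃ θ₄) / 2 := by
        rw [← hDD, ← ht2]
        nlinarith [sq_nonneg (|t| * D - 1)]
      nlinarith
  -- the part with `U`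
  have hX : |t| * (D * |Real.sin (θ - θ₁)|)
      ≤ (Real.sin (θ - θ₁) ^ 2 + t ^ 2 * D2 θ₁ θ₂ θ₃ θ₄) / 2 := by
    rw [← hDD, ← ht2, ← sq_abs (Real.sin (θ - θ₁))]
    nlinarith [sq_nonneg (|t| * D - |Real.sin (θ - θ₁)|)]
  have hY : |t| * (D * |Real.sin (φ - θ₂)|)
      ≤ (Real.sin (φ - θ₂) ^ 2 + t ^ 2 * D2 θ₁ θ₂ θ₃ θ₄) / 2 := by
    rw [← hDD, ← ht2, ← sq_abs (Real.sin (φ - θ₂))]
    nlinarith [sq_nonneg (|t| * D - |Real.sin (φ - θ₂)|)]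
  have hfin : |t| * |algV θ₁ θ₂ θ₃ θ₄ θ φ|
      ≤ |t| * |W| + (|t| * (D * |Real.sin (θ - θ₁)|) + |t| * (D * |Real.sin (φ - θ₂)|)) := by
    refine (mul_le_mul_of_nonneg_left hVle ht0).trans (le_of_eq ?_)
    ring
  nlinarith

theorem alg_main (t e θ₁ θ₂ θ₃ θ₄ : ℝ) (he : 0 ≤ e) (he1 : e ≤ 1) :
    2 * (Real.sin (θ₁ - θ₂) ^ 2 + Real.sin (θ₃ - θ₄) ^ 2) ≤ ‖cdet t e θ₁ θ₂ θ₃ θ₄‖ ∧
    2 * |t| * |Real.sin (θ₁ - θ₂) ^ 2 - Real.sin (θ₃ - θ₄) ^ 2| ≤ ‖cdet t e θ₁ θ₂ θ₃ θ₄‖ ∧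
    (∀ θ φ : ℝ, (θ = θ₁ ∨ θ = θ₂ ∨ θ = θ₃ ∨ θ = θ₄) → (φ = θ₁ ∨ φ = θ₂ ∨ φ = θ₃ ∨ φ = θ₄) →
      ‖NN (cA t e θ₁ θ₂ θ₃ θ₄) (cB t θ₁ θ₂ θ₃ θ₄) (cC t e θ₁ θ₂ θ₃ θ₄) θ φ‖
        ≤ 10 * ‖cdet t e θ₁ θ₂ θ₃ θ₄‖ ∧
      |t| * Real.sqrt (D2 θ₁ θ₂ θ₃ θ₄) *
        ‖NN (cA t e θ₁ θ₂ θ₃ θ₄) (cB t θ₁ θ₂ θ₃ θ₄) (cC t e θ₁ θ₂ θ₃ θ₄) θ φ‖
        ≤ 10 * ‖cdet t e θ₁ θ₂ θ₃ θ₄‖) := by
  have hre : 2 * Real.sin (θ₁ - θ₂) ^ 2 + 2 * Real.sin (θ₃ - θ₄) ^ 2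
      + (1 + t ^ 2) * D2 θ₁ θ₂ θ₃ θ₄ + 4 * e + e ^ 2 ≤ ‖cdet t e θ₁ θ₂ θ₃ θ₄‖ := by
    rw [alg_det]
    exact alg_re_le _ _
  have him : |2 * t * (Real.sin (θ₁ - θ₂) ^ 2 - Real.sin (θ₃ - θ₄) ^ 2)|
      ≤ ‖cdet t e θ₁ θ₂ θ₃ θ₄‖ := by
    rw [alg_det]
    exact alg_im_le _ _
  set N := ‖cdet t e θ₁ θ₂ θ₃ θ₄‖ with hN
  have hD := D2_nonneg θ₁ θ₂ θ₃ θ₄
  have ht2 : 0 ≤ t ^ 2 * D2 θ₁ θ₂ θ₃ θ₄ := mul_nonneg (sq_nonneg t) hD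
  have hee := sq_nonneg e
  have hm1 := sq_nonneg (Real.sin (θ₁ - θ₂))
  have hm2 := sq_nonneg (Real.sin (θ₃ - θ₄))
  have hN0 : 0 ≤ N := norm_nonneg _
  refine ⟨by nlinarith, ?_, ?_⟩
  · refine le_trans (le_of_eq ?_) him
    rw [abs_mul, abs_mul, abs_two]
  · intro θ φ h h'
    have hR := alg_R_abs e θ₁ θ₂ θ₃ θ₄ θ φ he
    obtain ⟨r1, r2⟩ := alg_R_diag e θ₁ θ₂ θ₃ θ₄ θ he he1 h
    obtain ⟨r3, r4⟩ := alg_R_diag e θ₁ θ₂ θ₃ θ₄ φ he he1 h'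
    have r5 := alg_R_nonneg e θ₁ θ₂ θ₃ θ₄ θ he
    have r6 := alg_R_nonneg e θ₁ θ₂ θ₃ θ₄ φ he
    set R := algR e θ₁ θ₂ θ₃ θ₄ θ φ with hRd
    set P := 2 * Real.sin (θ₁ - θ₂) ^ 2 + 2 * Real.sin (θ₃ - θ₄) ^ 2
      + D2 θ₁ θ₂ θ₃ θ₄ + 4 * e + e ^ 2 with hP
    have hPN : P + t ^ 2 * D2 θ₁ θ₂ θ₃ θ₄ ≤ N := by
      rw [hP]
      linarith
    have hR1 : |R| ≤ P := by linarith
    have hR2 : |R| ≤ 5 := by linarith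
    have hR0 : 0 ≤ |R| := abs_nonneg R
    have hRsq : |R| ^ 2 ≤ 5 * P := by nlinarith
    have hV1 := alg_tV t e θ₁ θ₂ θ₃ θ₄ θ φ N he h h' hre him
    have hV2 := alg_V_abs θ₁ θ₂ θ₃ θ₄ θ φ
    have hnn : ‖NN (cA t e θ₁ θ₂ θ₃ θ₄) (cB t θ₁ θ₂ θ₃ θ₄) (cC t e θ₁ θ₂ θ₃ θ₄) θ φ‖
        ≤ |R| + |t| * |algV θ₁ θ₂ θ₃ θ₄ θ φ| := by
      rw [alg_num, ← abs_mul]
      exact alg_norm_le _ _
    refine ⟨by linarith, ?_⟩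
    set D := Real.sqrt (D2 θ₁ θ₂ θ₃ θ₄) with hDd
    have hD0 : 0 ≤ D := Real.sqrt_nonneg _
    have hDD : D ^ 2 = D2 θ₁ θ₂ θ₃ θ₄ := Real.sq_sqrt hD
    have ht0 : 0 ≤ |t| := abs_nonneg t
    have htD : 0 ≤ |t| * D := mul_nonneg ht0 hD0
    have htsq : (|t| * D) ^ 2 = t ^ 2 * D2 θ₁ θ₂ θ₃ θ₄ := by
      rw [mul_pow, sq_abs, hDD]
    have s1 : |t| * D * (|R| + |t| * |algV θ₁ θ₂ θ₃ θ₄ θ φ|)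
        ≤ |t| * D * |R| + (|t| * D) ^ 2 := by
      have s2 : |t| * D * (|t| * |algV θ₁ θ₂ θ₃ θ₄ θ φ|) ≤ (|t| * D) * (|t| * D) :=
        mul_le_mul_of_nonneg_left (mul_le_mul_of_nonneg_left hV2 ht0) htD
      nlinarith
    have s3 : |t| * D * |R| ≤ ((|t| * D) ^ 2 + |R| ^ 2) / 2 := by
      nlinarith [sq_nonneg (|t| * D - |R|)]
    have s4 := mul_le_mul_of_nonneg_left hnn htD
    nlinarith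

end Pool.Agent.H.MP_b7167f_an.SS
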