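import Pool.Agent.H.MP_b7167f_an.SS.Defs

/-!
PROOF.  (`bv_exp`) For `z = 1 - iη`, `Φ(s) = (exp(zs) - 1)/z`, `Φ' = exp(zs)`, `‖Φ‖ ≤ 4/‖z‖` on `[0,1]`
(`e < 3`).  For `n ≥ 1`, `s_k = k/n`:
`∫_0^1 G Φ' = Σ_k G(s_k)(Φ(s_{k+1}) - Φ(s_k)) + Σ_k ∫_{s_k}^{s_{k+1}} (G(s) - G(s_k)) Φ'(s) ds`.
Abel summation: the first sum is at most `(2M + V) sup‖Φ‖`.  The second: `‖G(s)-G(s_k)‖ ≤` variation of
`G` on `[s_k, s_{k+1}]`, and the variations add up to `V` (`eVariationOn.Icc_add_Icc`, or bound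
`Σ_k ‖G(s_k + a) - G(s_k)‖ ≤ V` for every `a ∈ [0,1/n]` by `eVariationOn.sum_le` and integrate over `a`),
so it is at most `3 V/n → 0`.  Hence `‖∫_0^1 G exp(zs)‖ ≤ 4(2M+V)/‖z‖`, and `‖z‖ ≥ (1+|η|)/2`.
(`gh_bound`) `s ↦ h(√s ω)` on `[0,1]` is `r ↦ h(rω)` composed with the monotone map `√`
(`eVariationOn.comp_le_of_monotoneOn`), so `V ≤ M`.
(`gh_meas`) the integrand is jointly measurable in `(θ,η,s)`:
`StronglyMeasurable.integral_prod_right` (write the interval integral as a set integral over `Ioc 0 1`).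
-/

open MeasureTheory Set Complex

namespace Pool.Agent.H.MP_b7167f_an.SS

/-- A variation function: its increments dominate those of `G`. -/
theorem BVF_exists_W (G : ℝ → ℂ) (V : ℝ) (hV : 0 ≤ V)
    (hvar : eVariationOn G (Icc 0 1) ≤ ENNReal.ofReal V) :
    ∃ W : ℝ → ℝ, (∀ s t, 0 ≤ s → s ≤ t → t ≤ 1 → ‖G t - G s‖ ≤ W t - W s) ∧ W 1 - W 0 ≤ V := by
  have hfin : ∀ a b : ℝ, 0 ≤ a → b ≤ 1 → eVariationOn G (Icc a b) ≠ ⊤ := by
    intro a b ha hb
    have h1 : eVariationOn G (Icc a b) ≤ eVariationOn G (Icc 0 1) :=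
      eVariationOn.mono G (Icc_subset_Icc ha hb)
    exact ne_top_of_le_ne_top ENNReal.ofReal_ne_top (h1.trans hvar)
  refine ⟨fun s => (eVariationOn G (Icc 0 s)).toReal, ?_, ?_⟩
  · intro s t hs hst ht
    have hadd : eVariationOn G (Icc 0 s) + eVariationOn G (Icc s t) = eVariationOn G (Icc 0 t) := by
      have h := eVariationOn.Icc_add_Icc G (s := Set.univ) hs hst (Set.mem_univ s)
      simpa only [Set.univ_inter] using h
    have h1 : (eVariationOn G (Icc 0 t)).toReal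
        = (eVariationOn G (Icc 0 s)).toReal + (eVariationOn G (Icc s t)).toReal := by
      rw [← hadd, ENNReal.toReal_add (hfin 0 s le_rfl (hst.trans ht)) (hfin s t hs ht)]
    have h2 : edist (G t) (G s) ≤ eVariationOn G (Icc s t) :=
      eVariationOn.edist_le G (right_mem_Icc.2 hst) (left_mem_Icc.2 hst)
    have h3 : ‖G t - G s‖ ≤ (eVariationOn G (Icc s t)).toReal := by
      rw [← dist_eq_norm, ← ENNReal.ofReal_le_iff_le_toReal (hfin s t hs ht), ← edist_dist]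
      exact h2
    simp only [h1]
    linarith
  · have h0 : (0 : ℝ) ≤ (eVariationOn G (Icc 0 0)).toReal := ENNReal.toReal_nonneg
    have h1 : (eVariationOn G (Icc 0 1)).toReal ≤ V := by
      have := ENNReal.toReal_mono ENNReal.ofReal_ne_top hvar
      rwa [ENNReal.toReal_ofReal hV] at this
    linarith

/-- Abel summation. -/
theorem BVF_abel (Φ G : ℕ → ℂ) (W : ℕ → ℝ) (B M : ℝ) (n : ℕ) (hB : ∀ k, k ≤ n → ‖Φ k‖ ≤ B)
    (hM : ∀ k, ‖G k‖ ≤ M) (hW : ∀ k, k < n → ‖G (k + 1) - G k‖ ≤ W (k + 1) - W k) :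
    ‖∑ k ∈ Finset.range n, (Φ (k + 1) - Φ k) * G k‖ ≤ 2 * M * B + B * (W n - W 0) := by
  have hB0 : 0 ≤ B := (norm_nonneg _).trans (hB n le_rfl)
  have h1 : ∑ k ∈ Finset.range n, (Φ (k + 1) - Φ k) * G k
      = (Φ n * G n - Φ 0 * G 0) - ∑ k ∈ Finset.range n, Φ (k + 1) * (G (k + 1) - G k) := by
    rw [← Finset.sum_range_sub (fun k => Φ k * G k) n, ← Finset.sum_sub_distrib]
    refine Finset.sum_congr rfl fun k _ => ?_
    ring
  have h2 : ‖∑ k ∈ Finset.range n, Φ (k + 1) * (G (k + 1) - G k)‖ ≤ B * (W n - W 0) := by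
    refine (norm_sum_le _ _).trans ?_
    rw [← Finset.sum_range_sub (fun k => W k) n, Finset.mul_sum]
    refine Finset.sum_le_sum fun k hk => ?_
    have hk' := Finset.mem_range.1 hk
    rw [norm_mul]
    exact mul_le_mul (hB _ hk') (hW k hk') (norm_nonneg _) hB0
  have h3 : ∀ k, k ≤ n → ‖Φ k * G k‖ ≤ B * M := by
    intro k hk
    rw [norm_mul]
    exact mul_le_mul (hB k hk) (hM k) (norm_nonneg _) hB0
  rw [h1]
  have h4 := norm_sub_le (Φ n * G n - Φ 0 * G 0)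
    (∑ k ∈ Finset.range n, Φ (k + 1) * (G (k + 1) - G k))
  have h5 := norm_sub_le (Φ n * G n) (Φ 0 * G 0)
  have h6 := h3 n le_rfl
  have h7 := h3 0 (Nat.zero_le n)
  linarith

/-- One cell of the subdivision. -/
theorem BVF_cell (G Φ Φ' : ℝ → ℂ) (W : ℝ → ℝ) (C : ℝ) (a b : ℝ) (ha : 0 ≤ a) (hab : a ≤ b)
    (hb : b ≤ 1)
    (hW : ∀ s t, 0 ≤ s → s ≤ t → t ≤ 1 → ‖G t - G s‖ ≤ W t - W s)
    (hd : ∀ s, HasDerivAt Φ (Φ' s) s) (hc : Continuous Φ')
    (hC : ∀ s, 0 ≤ s → s ≤ 1 → ‖Φ' s‖ ≤ C)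
    (hint : IntervalIntegrable (fun s => Φ' s * G s) volume a b) :
    ‖(∫ s in a..b, Φ' s * G s) - (Φ b - Φ a) * G a‖ ≤ C * (W b - W a) * (b - a) := by
  have hC0 : 0 ≤ C := (norm_nonneg _).trans (hC a ha (hab.trans hb))
  have hi2 : IntervalIntegrable (fun s => Φ' s * G a) volume a b :=
    (hc.mul continuous_const).intervalIntegrable _ _
  have h1 : ∫ s in a..b, Φ' s = Φ b - Φ a :=
    intervalIntegral.integral_eq_sub_of_hasDerivAt (fun s _ => hd s) (hc.intervalIntegrable _ _)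
  have h2 : (∫ s in a..b, Φ' s * G s) - (Φ b - Φ a) * G a
      = ∫ s in a..b, (Φ' s * G s - Φ' s * G a) := by
    rw [intervalIntegral.integral_sub hint hi2, intervalIntegral.integral_mul_const, h1]
  rw [h2]
  have h3 : ‖∫ s in a..b, (Φ' s * G s - Φ' s * G a)‖ ≤ (C * (W b - W a)) * |b - a| := by
    refine intervalIntegral.norm_integral_le_of_norm_le_const fun s hs => ?_
    rw [uIoc_of_le hab] at hs
    have hs0 : 0 ≤ s := ha.trans hs.1.le
    have hs1 : s ≤ 1 := hs.2.trans hb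
    have e1 : Φ' s * G s - Φ' s * G a = Φ' s * (G s - G a) := by ring
    rw [e1, norm_mul]
    have e2 : ‖G s - G a‖ ≤ W b - W a := by
      have := hW a s ha hs.1.le hs1
      have h4 := hW s b hs0 hs.2 hb
      have h5 := norm_nonneg (G b - G s)
      linarith
    exact mul_le_mul (hC s hs0 hs1) e2 (norm_nonneg _) hC0
  rwa [abs_of_nonneg (sub_nonneg.2 hab)] at h3

/-- The bound for a subdivision of `[0,1]` into `n` equal cells. -/
theorem BVF_step (G Φ Φ' : ℝ → ℂ) (W : ℝ → ℝ) (M B C : ℝ) (n : ℕ) (hn : 0 < n)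
    (hM : ∀ s, ‖G s‖ ≤ M)
    (hW : ∀ s t, 0 ≤ s → s ≤ t → t ≤ 1 → ‖G t - G s‖ ≤ W t - W s)
    (hd : ∀ s, HasDerivAt Φ (Φ' s) s) (hc : Continuous Φ')
    (hB : ∀ s, 0 ≤ s → s ≤ 1 → ‖Φ s‖ ≤ B)
    (hC : ∀ s, 0 ≤ s → s ≤ 1 → ‖Φ' s‖ ≤ C)
    (hint : ∀ a b, IntervalIntegrable (fun s => Φ' s * G s) volume a b) :
    ‖∫ s in (0 : ℝ)..1, Φ' s * G s‖ ≤
      2 * M * B + B * (W 1 - W 0) + C * (W 1 - W 0) / n := by
  have hn' : (0 : ℝ) < n := Nat.cast_pos.2 hn
  set u : ℕ → ℝ := fun k => (k : ℝ) / n with hu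
  have hu0 : ∀ k, 0 ≤ u k := fun k => by positivity
  have hu1 : ∀ k, k ≤ n → u k ≤ 1 := fun k hk => by
    rw [hu]
    simp only
    rw [div_le_one hn']
    exact_mod_cast hk
  have huS : ∀ k, u (k + 1) - u k = 1 / n := fun k => by
    simp only [hu]
    push_cast
    field_simp
    ring
  have huM : ∀ k, u k ≤ u (k + 1) := fun k => by
    have h := huS k
    have : (0 : ℝ) < 1 / n := by positivity
    linarith
  have hun : u n = 1 := by
    simp only [hu]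
    exact div_self hn'.ne'
  have hu00 : u 0 = 0 := by
    simp only [hu, Nat.cast_zero, zero_div]
  have h1 : ∫ s in (0 : ℝ)..1, Φ' s * G s
      = ∑ k ∈ Finset.range n, ∫ s in u k..u (k + 1), Φ' s * G s := by
    rw [intervalIntegral.sum_integral_adjacent_intervals (fun k _ => hint _ _), hun, hu00]
  have h2 : ∫ s in (0 : ℝ)..1, Φ' s * G s
      = ∑ k ∈ Finset.range n, ((∫ s in u k..u (k + 1), Φ' s * G s)
          - (Φ (u (k + 1)) - Φ (u k)) * G (u k))
        + ∑ k ∈ Finset.range n, (Φ (u (k + 1)) - Φ (u k)) * G (u k) := by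
    rw [h1, ← Finset.sum_add_distrib]
    refine Finset.sum_congr rfl fun k _ => ?_
    ring
  have h3 : ‖∑ k ∈ Finset.range n, (Φ (u (k + 1)) - Φ (u k)) * G (u k)‖
      ≤ 2 * M * B + B * (W 1 - W 0) := by
    have := BVF_abel (fun k => Φ (u k)) (fun k => G (u k)) (fun k => W (u k)) B M n
      (fun k hk => hB _ (hu0 k) (hu1 k hk)) (fun k => hM _)
      (fun k hk => hW _ _ (hu0 k) (huM k) (hu1 _ hk))
    simpa only [hun, hu00] using this
  have h4 : ‖∑ k ∈ Finset.range n, ((∫ s in u k..u (k + 1), Φ' s * G s)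
          - (Φ (u (k + 1)) - Φ (u k)) * G (u k))‖ ≤ C * (W 1 - W 0) / n := by
    refine (norm_sum_le _ _).trans ?_
    have h5 : C * (W 1 - W 0) / n
        = ∑ k ∈ Finset.range n, C * (W (u (k + 1)) - W (u k)) * (u (k + 1) - u k) := by
      have h6 : ∑ k ∈ Finset.range n, C * (W (u (k + 1)) - W (u k)) * (u (k + 1) - u k)
          = ∑ k ∈ Finset.range n, (C * (1 / n)) * (W (u (k + 1)) - W (u k)) := by
        refine Finset.sum_congr rfl fun k _ => ?_
        rw [huS k]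
        ring
      rw [h6, ← Finset.mul_sum, Finset.sum_range_sub (fun k => W (u k)) n, hun, hu00]
      ring
    rw [h5]
    refine Finset.sum_le_sum fun k hk => ?_
    exact BVF_cell G Φ Φ' W C (u k) (u (k + 1)) (hu0 k) (huM k) (hu1 _ (Finset.mem_range.1 hk))
      hW hd hc hC (hint _ _)
  rw [h2]
  refine (norm_add_le _ _).trans ?_
  linarith

/-- The bound in the limit. -/
theorem BVF_lim (G Φ Φ' : ℝ → ℂ) (W : ℝ → ℝ) (M V B C : ℝ)
    (hM : ∀ s, ‖G s‖ ≤ M)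
    (hW : ∀ s t, 0 ≤ s → s ≤ t → t ≤ 1 → ‖G t - G s‖ ≤ W t - W s)
    (hV : W 1 - W 0 ≤ V)
    (hd : ∀ s, HasDerivAt Φ (Φ' s) s) (hc : Continuous Φ')
    (hB : ∀ s, 0 ≤ s → s ≤ 1 → ‖Φ s‖ ≤ B)
    (hC : ∀ s, 0 ≤ s → s ≤ 1 → ‖Φ' s‖ ≤ C)
    (hint : ∀ a b, IntervalIntegrable (fun s => Φ' s * G s) volume a b) :
    ‖∫ s in (0 : ℝ)..1, Φ' s * G s‖ ≤ (2 * M + V) * B := by
  have hB0 : 0 ≤ B := (norm_nonneg _).trans (hB 0 le_rfl zero_le_one)
  have hlim : Filter.Tendsto (fun n : ℕ => 2 * M * B + B * (W 1 - W 0) + C * (W 1 - W 0) / n)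
      Filter.atTop (nhds (2 * M * B + B * (W 1 - W 0) + 0)) :=
    tendsto_const_nhds.add (tendsto_const_div_atTop_nhds_zero_nat _)
  have h1 : ‖∫ s in (0 : ℝ)..1, Φ' s * G s‖ ≤ 2 * M * B + B * (W 1 - W 0) + 0 := by
    refine ge_of_tendsto hlim ?_
    filter_upwards [Filter.eventually_gt_atTop 0] with n hn
    exact BVF_step G Φ Φ' W M B C n hn hM hW hd hc hB hC hint
  have h2 : B * (W 1 - W 0) ≤ B * V := mul_le_mul_of_nonneg_left hV hB0
  linarith

theorem BVF_norm_exp_le (η s : ℝ) (hs1 : s ≤ 1) : ‖cexp ((1 - η * I) * s)‖ ≤ 3 := by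
  rw [Complex.norm_exp]
  have h1 : ((1 - (η : ℂ) * I) * (s : ℂ)).re = s := by simp
  rw [h1]
  calc Real.exp s ≤ Real.exp 1 := Real.exp_le_exp.2 hs1
    _ ≤ 3 := by
      have := Real.exp_one_lt_d9
      linarith

theorem bv_exp (G : ℝ → ℂ) (M V : ℝ) (hV : 0 ≤ V) (hG : Measurable G) (hM : ∀ s, ‖G s‖ ≤ M)
    (hvar : eVariationOn G (Icc 0 1) ≤ ENNReal.ofReal V) (η : ℝ) :
    ‖∫ s in (0 : ℝ)..1, cexp ((1 - η * I) * s) * G s‖ ≤ 8 * (2 * M + V) / (1 + |η|) := by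
  obtain ⟨W, hW, hWV⟩ := BVF_exists_W G V hV hvar
  set z : ℂ := 1 - η * I with hz
  have hzre : z.re = 1 := by simp [hz]
  have hzim : z.im = -η := by simp [hz]
  have hn1 : 1 ≤ ‖z‖ := by
    have := Complex.abs_re_le_norm z
    rwa [hzre, abs_one] at this
  have hn2 : |η| ≤ ‖z‖ := by
    have := Complex.abs_im_le_norm z
    rwa [hzim, abs_neg] at this
  have hzpos : 0 < ‖z‖ := by linarith
  have hz0 : z ≠ 0 := norm_pos_iff.1 hzpos
  have hE : ∀ s : ℝ, s ≤ 1 → ‖cexp (z * s)‖ ≤ 3 := fun s hs => by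
    rw [hz]
    exact BVF_norm_exp_le η s hs
  have hM0 : 0 ≤ M := (norm_nonneg _).trans (hM 0)
  have hcont : Continuous fun s : ℝ => cexp (z * s) := by fun_prop
  have hd : ∀ s : ℝ, HasDerivAt (fun s : ℝ => (cexp (z * s) - 1) / z) (cexp (z * s)) s := by
    intro s
    have h1 : HasDerivAt (fun s : ℝ => z * (s : ℂ)) z s := by
      simpa using (Complex.ofRealCLM.hasDerivAt (x := s)).const_mul z
    have h2 := ((h1.cexp).sub_const 1).div_const z
    have h3 : cexp (z * s) * z / z = cexp (z * s) := by field_simp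
    rw [h3] at h2
    exact h2
  have hB : ∀ s : ℝ, 0 ≤ s → s ≤ 1 → ‖(cexp (z * s) - 1) / z‖ ≤ 4 / ‖z‖ := by
    intro s _ hs
    rw [norm_div]
    refine div_le_div_of_nonneg_right ?_ hzpos.le
    have h1 := norm_sub_le (cexp (z * s)) 1
    rw [norm_one] at h1
    have h2 := hE s hs
    linarith
  have hint : ∀ a b : ℝ, IntervalIntegrable (fun s : ℝ => cexp (z * s) * G s) volume a b := by
    intro a b
    have hG1 : IntervalIntegrable G volume a b := by
      rw [intervalIntegrable_iff]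
      refine Measure.integrableOn_of_bounded (M := M) (by simp) hG.aestronglyMeasurable ?_
      exact Filter.Eventually.of_forall fun s => hM s
    exact hG1.continuousOn_mul hcont.continuousOn
  have key := BVF_lim G (fun s : ℝ => (cexp (z * s) - 1) / z) (fun s : ℝ => cexp (z * s)) W M V
    (4 / ‖z‖) 3 hM hW hWV hd hcont hB (fun s _ hs => hE s hs) hint
  refine key.trans ?_
  have h5 : (1 + |η|) ≤ 2 * ‖z‖ := by linarith
  have h6 : 0 < 1 + |η| := by positivity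
  have h7 : 0 ≤ 2 * M + V := by linarith
  have h8 : 4 / ‖z‖ ≤ 8 / (1 + |η|) := by
    rw [div_le_div_iff₀ hzpos h6]
    linarith
  calc (2 * M + V) * (4 / ‖z‖) ≤ (2 * M + V) * (8 / (1 + |η|)) := mul_le_mul_of_nonneg_left h8 h7
    _ = 8 * (2 * M + V) / (1 + |η|) := by ring

theorem gh_bound (h : ℝ × ℝ → ℂ) (M : ℝ) (hA : Adm M h) (θ η : ℝ) :
    ‖gh h θ η‖ ≤ 24 * M / (1 + |η|) := by
  have hM0 : 0 ≤ M := (norm_nonneg _).trans (hA.bdd 0)
  have hvar : eVariationOn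
      (fun s : ℝ => h (Real.sqrt s * Real.cos θ, Real.sqrt s * Real.sin θ)) (Icc 0 1)
      ≤ ENNReal.ofReal M := by
    refine le_trans ?_ (hA.var θ)
    exact eVariationOn.comp_le_of_monotoneOn
      (fun r : ℝ => h (r * Real.cos θ, r * Real.sin θ)) Real.sqrt
      (fun a _ b _ hab => Real.sqrt_le_sqrt hab) (fun a _ => Real.sqrt_nonneg a)
  have hm : Measurable (fun s : ℝ => h (Real.sqrt s * Real.cos θ, Real.sqrt s * Real.sin θ)) := by
    refine hA.meas.comp ?_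
    exact ((Real.continuous_sqrt.mul continuous_const).prodMk
      (Real.continuous_sqrt.mul continuous_const)).measurable
  have h1 := bv_exp (fun s : ℝ => h (Real.sqrt s * Real.cos θ, Real.sqrt s * Real.sin θ)) M M hM0
    hm (fun s => hA.bdd _) hvar η
  unfold gh
  refine h1.trans (le_of_eq ?_)
  ring

theorem gh_meas (h : ℝ × ℝ → ℂ) (hh : Measurable h) :
    Measurable (fun p : ℝ × ℝ => gh h p.1 p.2) := by
  have h1 : (fun p : ℝ × ℝ => gh h p.1 p.2) = fun p : ℝ × ℝ =>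
      ∫ s, Complex.exp ((1 - p.2 * Complex.I) * (s : ℂ)) *
        h (Real.sqrt s * Real.cos p.1, Real.sqrt s * Real.sin p.1)
        ∂(volume.restrict (Ioc (0 : ℝ) 1)) := by
    funext p
    unfold gh
    rw [intervalIntegral.integral_of_le zero_le_one]
  rw [h1]
  refine StronglyMeasurable.measurable ?_
  refine MeasureTheory.StronglyMeasurable.integral_prod_right
    (f := fun (p : ℝ × ℝ) (s : ℝ) => Complex.exp ((1 - p.2 * Complex.I) * (s : ℂ)) *
        h (Real.sqrt s * Real.cos p.1, Real.sqrt s * Real.sin p.1)) ?_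
  refine Measurable.stronglyMeasurable ?_
  have hc1 : Continuous (fun q : (ℝ × ℝ) × ℝ =>
      Complex.exp ((1 - q.1.2 * Complex.I) * (q.2 : ℂ))) := by fun_prop
  have hc2 : Continuous (fun q : (ℝ × ℝ) × ℝ =>
      (Real.sqrt q.2 * Real.cos q.1.1, Real.sqrt q.2 * Real.sin q.1.1)) := by fun_prop
  exact hc1.measurable.mul (hh.comp hc2.measurable)

end Pool.Agent.H.MP_b7167f_an.SS
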