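import Pool.Agent.H.MP_b7167f_an.SS.Mink1

/-!
PROOF.  (`mink`) If `∫ w = ⊤` the right side is `⊤`.  Otherwise, with `q' = q/(q-1)`: for every `x`
`∫ φ(τ,x) dτ = ∫ (φ w^(-1/q')) w^(1/q') dτ ≤ (∫ φ^q w^(1-q) dτ)^(1/q) (∫ w)^(1/q')`
(`ENNReal.lintegral_mul_le_Lp_mul_Lq`; `-q/q' = 1-q`), so
`(∫ φ dτ)^q ≤ (∫ w)^(q-1) ∫ φ^q w^(1-q) dτ`; integrate over `x` (Tonelli, `lintegral_lintegral_swap`):
`≤ (∫ w)^(q-1) ∫ w^(1-q) (∫ φ^q dx) dτ ≤ (∫ w)^(q-1) ∫ w^(1-q) w^q = (∫ w)^q`.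
(`conv`) `1+|t| ≤ 2 max(1+|τ|, 1+|τ-t|)`, so `(1+|t|)^β'` times the integrand is at most
`2 [(1+|τ-t|)^(-1) (1+|τ|)^(-(β-β')) + (1+|τ-t|)^(-(1-β')) (1+|τ|)^(-β)]`, and for `a, b ≥ 1`,
`p, r > 0`, `p + r = 1 + (β-β')`: `a^(-p) b^(-r) ≤ a^(-(1+β-β')) + b^(-(1+β-β'))` (compare with the smaller
of `a, b`); the integrals `∫ (1+|τ|)^(-(1+κ)) dτ`, `κ = β-β' > 0`, are finite and translation
invariant (`integrable_one_add_norm`-type lemma: `finite_integral_one_add_norm`).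
(`t1_smul`) linearity of the integral.  (`phi_meas`) joint measurability of the integrand in
`(θ, x, t, τ)`, `gh_meas`-type argument (here `g` is any jointly measurable function) and
`StronglyMeasurable.integral_prod_right`.
-/

open MeasureTheory Set Complex
open scoped ENNReal

namespace Pool.Agent.H.MP_b7167f_an.SS

private theorem Mink_pt {a b p r : ℝ} (ha : 1 ≤ a) (hb : 1 ≤ b) (hp : 0 ≤ p) (hr : 0 ≤ r) :
    a ^ (-p) * b ^ (-r) ≤ a ^ (-(p + r)) + b ^ (-(p + r)) := by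
  have ha0 : 0 < a := by linarith
  have hb0 : 0 < b := by linarith
  rcases le_total a b with h | h
  · have h1 : b ^ (-r) ≤ a ^ (-r) := Real.rpow_le_rpow_of_nonpos ha0 h (by linarith)
    calc a ^ (-p) * b ^ (-r) ≤ a ^ (-p) * a ^ (-r) :=
          mul_le_mul_of_nonneg_left h1 (Real.rpow_nonneg ha0.le _)
      _ = a ^ (-(p + r)) := by rw [← Real.rpow_add ha0]; congr 1; ring
      _ ≤ _ := le_add_of_nonneg_right (Real.rpow_nonneg hb0.le _)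
  · have h1 : a ^ (-p) ≤ b ^ (-p) := Real.rpow_le_rpow_of_nonpos hb0 h (by linarith)
    calc a ^ (-p) * b ^ (-r) ≤ b ^ (-p) * b ^ (-r) :=
          mul_le_mul_of_nonneg_right h1 (Real.rpow_nonneg hb0.le _)
      _ = b ^ (-(p + r)) := by rw [← Real.rpow_add hb0]; congr 1; ring
      _ ≤ _ := le_add_of_nonneg_left (Real.rpow_nonneg ha0.le _)

private theorem Mink_T {T b β' : ℝ} (hT : 0 < T) (h : T ≤ 2 * b) (h0 : 0 < β') :
    b ^ (-β') ≤ 2 ^ β' * T ^ (-β') := by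
  have hb : T / 2 ≤ b := by linarith
  calc b ^ (-β') ≤ (T / 2) ^ (-β') := Real.rpow_le_rpow_of_nonpos (by positivity) hb (by linarith)
    _ = 2 ^ β' * T ^ (-β') := by
      rw [Real.div_rpow hT.le (by norm_num), Real.rpow_neg (by norm_num : (0 : ℝ) ≤ 2),
        div_inv_eq_mul, mul_comm]

private theorem Mink_key {a b T β β' : ℝ} (ha : 1 ≤ a) (hb : 1 ≤ b) (hT : 0 < T) (hTab : T ≤ a + b)
    (h0 : 0 < β') (h1 : β' < β) (h2 : β < 1) :
    a ^ (-1 : ℝ) * b ^ (-β) ≤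
      2 ^ β' * T ^ (-β') * (a ^ (-(1 + (β - β'))) + b ^ (-(1 + (β - β')))) := by
  have ha0 : 0 < a := by linarith
  have hb0 : 0 < b := by linarith
  rcases le_total a b with h | h
  · have e1 := Mink_T hT (b := b) (by linarith) h0
    have e2 : b ^ (-β) = b ^ (-(β - β')) * b ^ (-β') := by
      rw [← Real.rpow_add hb0]; congr 1; ring
    have e3 := Mink_pt ha hb (p := 1) (r := β - β') (by norm_num) (by linarith)
    have e4 : 0 ≤ a ^ (-1 : ℝ) * b ^ (-(β - β')) :=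
      mul_nonneg (Real.rpow_nonneg ha0.le _) (Real.rpow_nonneg hb0.le _)
    calc a ^ (-1 : ℝ) * b ^ (-β) = (a ^ (-1 : ℝ) * b ^ (-(β - β'))) * b ^ (-β') := by rw [e2]; ring
      _ ≤ (a ^ (-1 : ℝ) * b ^ (-(β - β'))) * (2 ^ β' * T ^ (-β')) :=
          mul_le_mul_of_nonneg_left e1 e4
      _ = (2 ^ β' * T ^ (-β')) * (a ^ (-1 : ℝ) * b ^ (-(β - β'))) := by ring
      _ ≤ _ := mul_le_mul_of_nonneg_left e3
          (mul_nonneg (Real.rpow_nonneg (by norm_num) _) (Real.rpow_nonneg hT.le _))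
  · have e1 := Mink_T hT (b := a) (by linarith) h0
    have e2 : a ^ (-1 : ℝ) = a ^ (-(1 - β')) * a ^ (-β') := by
      rw [← Real.rpow_add ha0]; congr 1; ring
    have e3 := Mink_pt ha hb (p := 1 - β') (r := β) (by linarith) (by linarith)
    have e5 : 1 - β' + β = 1 + (β - β') := by ring
    rw [e5] at e3
    have e4 : 0 ≤ a ^ (-(1 - β')) * b ^ (-β) :=
      mul_nonneg (Real.rpow_nonneg ha0.le _) (Real.rpow_nonneg hb0.le _)
    calc a ^ (-1 : ℝ) * b ^ (-β) = (a ^ (-(1 - β')) * b ^ (-β)) * a ^ (-β') := by rw [e2]; ring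
      _ ≤ (a ^ (-(1 - β')) * b ^ (-β)) * (2 ^ β' * T ^ (-β')) :=
          mul_le_mul_of_nonneg_left e1 e4
      _ = (2 ^ β' * T ^ (-β')) * (a ^ (-(1 - β')) * b ^ (-β)) := by ring
      _ ≤ _ := mul_le_mul_of_nonneg_left e3
          (mul_nonneg (Real.rpow_nonneg (by norm_num) _) (Real.rpow_nonneg hT.le _))

theorem conv (β β' : ℝ) (h0 : 0 < β') (h1 : β' < β) (h2 : β < 1) : ∃ C : ℝ, 0 < C ∧
    ∀ t : ℝ, ∫⁻ τ : ℝ, ENNReal.ofReal ((1 + |τ - t|) ^ (-1 : ℝ) * (1 + |τ|) ^ (-β))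
      ≤ ENNReal.ofReal (C * (1 + |t|) ^ (-β')) := by
  obtain ⟨κ, hκ⟩ : ∃ κ, κ = 1 + (β - β') := ⟨_, rfl⟩
  have hfin : ∫⁻ τ : ℝ, ENNReal.ofReal ((1 + |τ|) ^ (-κ)) < ⊤ := by
    have := finite_integral_one_add_norm (E := ℝ) (μ := (volume : Measure ℝ)) (r := κ)
      (by rw [Module.finrank_self, hκ]; push_cast; linarith)
    simpa only [Real.norm_eq_abs] using this
  obtain ⟨I, hI⟩ : ∃ I, I = ∫⁻ τ : ℝ, ENNReal.ofReal ((1 + |τ|) ^ (-κ)) := ⟨_, rfl⟩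
  rw [← hI] at hfin
  refine ⟨2 ^ β' * (2 * I.toReal) + 1, by positivity, fun t => ?_⟩
  have hT : 0 < 1 + |t| := by positivity
  have hshift : ∫⁻ τ : ℝ, ENNReal.ofReal ((1 + |τ - t|) ^ (-κ)) = I := by
    rw [hI]
    exact lintegral_sub_right_eq_self (fun τ : ℝ => ENNReal.ofReal ((1 + |τ|) ^ (-κ))) t
  have hm : ∀ s : ℝ, Measurable fun τ : ℝ => ENNReal.ofReal ((1 + |τ - s|) ^ (-κ)) := by
    intro s
    fun_prop
  have hm0 : Measurable fun τ : ℝ => ENNReal.ofReal ((1 + |τ|) ^ (-κ)) := by fun_prop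
  have hc : 0 ≤ 2 ^ β' * (1 + |t|) ^ (-β') :=
    mul_nonneg (Real.rpow_nonneg (by norm_num) _) (Real.rpow_nonneg hT.le _)
  have hpt : ∀ τ : ℝ, ENNReal.ofReal ((1 + |τ - t|) ^ (-1 : ℝ) * (1 + |τ|) ^ (-β)) ≤
      ENNReal.ofReal (2 ^ β' * (1 + |t|) ^ (-β')) *
        (ENNReal.ofReal ((1 + |τ - t|) ^ (-κ)) + ENNReal.ofReal ((1 + |τ|) ^ (-κ))) := by
    intro τ
    have ha : 1 ≤ 1 + |τ - t| := by linarith [abs_nonneg (τ - t)]
    have hb : 1 ≤ 1 + |τ| := by linarith [abs_nonneg τ]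
    have hab : 1 + |t| ≤ (1 + |τ - t|) + (1 + |τ|) := by
      have e1 : t = τ - (τ - t) := by ring
      have e2 : |t| ≤ |τ| + |τ - t| := by
        conv_lhs => rw [e1]
        exact abs_sub _ _
      linarith
    have key := Mink_key ha hb hT hab h0 h1 h2
    rw [← hκ] at key
    rw [← ENNReal.ofReal_add (Real.rpow_nonneg (by linarith) _) (Real.rpow_nonneg (by linarith) _),
      ← ENNReal.ofReal_mul hc]
    exact ENNReal.ofReal_le_ofReal key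
  calc ∫⁻ τ : ℝ, ENNReal.ofReal ((1 + |τ - t|) ^ (-1 : ℝ) * (1 + |τ|) ^ (-β))
      ≤ ∫⁻ τ : ℝ, ENNReal.ofReal (2 ^ β' * (1 + |t|) ^ (-β')) *
        (ENNReal.ofReal ((1 + |τ - t|) ^ (-κ)) + ENNReal.ofReal ((1 + |τ|) ^ (-κ))) :=
        lintegral_mono hpt
    _ = ENNReal.ofReal (2 ^ β' * (1 + |t|) ^ (-β')) * (I + I) := by
        rw [lintegral_const_mul' _ _ ENNReal.ofReal_ne_top, lintegral_add_left (hm t), hshift, ← hI]
    _ = ENNReal.ofReal (2 ^ β' * (1 + |t|) ^ (-β') * (2 * I.toReal)) := by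
        rw [ENNReal.ofReal_mul hc, ENNReal.ofReal_mul (by norm_num : (0 : ℝ) ≤ 2),
          ENNReal.ofReal_toReal hfin.ne]
        congr 1
        rw [← two_mul]
        congr 1
        norm_num
    _ ≤ ENNReal.ofReal ((2 ^ β' * (2 * I.toReal) + 1) * (1 + |t|) ^ (-β')) := by
        refine ENNReal.ofReal_le_ofReal ?_
        have e3 : 0 ≤ (1 + |t|) ^ (-β') := Real.rpow_nonneg hT.le _
        nlinarith

theorem t1_smul (t : ℝ) (c : ℝ → ℂ) (k : ℂ) (x : ℝ × ℝ) :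
    T1 t (fun θ => k * c θ) x = k * T1 t c x := by
  unfold T1
  rw [← integral_const_mul]
  refine integral_congr_ae (Filter.Eventually.of_forall fun θ => ?_)
  simp only
  ring

theorem phi_meas (g : ℝ × ℝ → ℂ) (hg : Measurable g) :
    Measurable (fun p : (ℝ × ℝ) × (ℝ × ℝ) => T1 p.1.2 (fun θ => g (θ, p.1.2 - p.1.1)) p.2) := by
  haveI : SFinite nu := by unfold nu; infer_instance
  have hgm : Measurable fun y : ((ℝ × ℝ) × (ℝ × ℝ)) × ℝ => g (y.2, y.1.1.2 - y.1.1.1) :=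
    hg.comp (measurable_snd.prodMk (by fun_prop))
  have hdt : Measurable fun y : ((ℝ × ℝ) × (ℝ × ℝ)) × ℝ => (dt y.1.2 y.2 : ℂ) := by
    unfold dt
    fun_prop
  have haa : Measurable fun y : ((ℝ × ℝ) × (ℝ × ℝ)) × ℝ => aa y.1.1.2 := by
    unfold aa
    fun_prop
  have hm : Measurable fun y : ((ℝ × ℝ) × (ℝ × ℝ)) × ℝ =>
      g (y.2, y.1.1.2 - y.1.1.1) * (dt y.1.2 y.2 : ℂ) *
        Complex.exp (-(dt y.1.2 y.2 : ℂ) ^ 2 / (4 * aa y.1.1.2)) := by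
    refine (hgm.mul hdt).mul (Complex.measurable_exp.comp ?_)
    exact (hdt.pow_const 2).neg.div (measurable_const.mul haa)
  have h1 : StronglyMeasurable fun p : (ℝ × ℝ) × (ℝ × ℝ) =>
      ∫ θ, g (θ, p.1.2 - p.1.1) * (dt p.2 θ : ℂ) *
        Complex.exp (-(dt p.2 θ : ℂ) ^ 2 / (4 * aa p.1.2)) ∂nu :=
    StronglyMeasurable.integral_prod_right (ν := nu) hm.stronglyMeasurable
  exact h1.measurable

end Pool.Agent.H.MP_b7167f_an.SS
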