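import Pool.Agent.H.MP_b7167f_an.SS.Defs

/-!
Polar coordinates for the extension operator of an odd function.
-/

open MeasureTheory Set Complex

namespace Pool.Agent.H.MP_b7167f_an.SS

/-- The integrand in the variables `θ`, `s = r²`. -/
private noncomputable def RepPolarF (h : ℝ × ℝ → ℂ) (x : ℝ × ℝ) (t θ s : ℝ) : ℂ :=
  h (Real.sqrt s * Real.cos θ, Real.sqrt s * Real.sin θ) *
    cexp (I * ((Real.sqrt s * dt x θ + t * s : ℝ) : ℂ))

private theorem RepPolar_meas {h : ℝ × ℝ → ℂ} (hm : Measurable h) (x : ℝ × ℝ) (t : ℝ) :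
    Measurable fun p : ℝ × ℝ => RepPolarF h x t p.1 p.2 := by
  unfold RepPolarF dt
  apply Measurable.mul
  · apply hm.comp
    fun_prop
  · fun_prop

private theorem RepPolar_norm {h : ℝ × ℝ → ℂ} {M : ℝ} (hb : ∀ z, ‖h z‖ ≤ M) (x : ℝ × ℝ)
    (t θ s : ℝ) : ‖RepPolarF h x t θ s‖ ≤ M := by
  unfold RepPolarF
  rw [norm_mul, mul_comm I, Complex.norm_exp_ofReal_mul_I, mul_one]
  exact hb _

private theorem RepPolar_inner {h : ℝ × ℝ → ℂ} {M : ℝ} (hA : Adm M h) (x : ℝ × ℝ) (t θ : ℝ) :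
    ∫ r in Ioi (0 : ℝ), r • (h (r * Real.cos θ, r * Real.sin θ) *
      cexp (I * ((x.1 * (r * Real.cos θ) + x.2 * (r * Real.sin θ) +
        t * ((r * Real.cos θ) ^ 2 + (r * Real.sin θ) ^ 2) : ℝ) : ℂ))) =
      (1 / 2 : ℂ) * ∫ s in (0 : ℝ)..1, RepPolarF h x t θ s := by
  have h1 := integral_comp_rpow_Ioi_of_pos (g := RepPolarF h x t θ) (p := 2) two_pos
  have h2 : ∫ s in Ioi (0 : ℝ), RepPolarF h x t θ s = ∫ s in (0 : ℝ)..1, RepPolarF h x t θ s := by
    rw [intervalIntegral.integral_of_le zero_le_one, ← Ioc_union_Ioi_eq_Ioi zero_le_one,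
      setIntegral_eq_of_subset_of_forall_sdiff_eq_zero]
    · exact measurableSet_Ioc.union measurableSet_Ioi
    · exact subset_union_left
    · intro s hs
      have hs1 : 1 < s := by
        rcases hs with ⟨hs | hs, hs'⟩
        · exact absurd hs hs'
        · exact hs
      unfold RepPolarF
      rw [hA.supp, zero_mul]
      show 1 < (Real.sqrt s * Real.cos θ) ^ 2 + (Real.sqrt s * Real.sin θ) ^ 2
      rw [mul_pow, mul_pow, ← mul_add, Real.cos_sq_add_sin_sq, mul_one,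
        Real.sq_sqrt (by linarith)]
      exact hs1
  rw [← h2, ← h1, ← integral_const_mul]
  refine setIntegral_congr_fun measurableSet_Ioi fun r hr => ?_
  have hr0 : (0 : ℝ) < r := hr
  have e1 : Real.sqrt (r ^ (2 : ℝ)) = r := by
    rw [Real.rpow_two, Real.sqrt_sq hr0.le]
  have e2 : (r : ℝ) ^ ((2 : ℝ) - 1) = r := by
    norm_num
  unfold RepPolarF dt
  rw [e1, e2]
  have e3 : r * (x.1 * Real.cos θ + x.2 * Real.sin θ) + t * r ^ (2 : ℝ) =
      x.1 * (r * Real.cos θ) + x.2 * (r * Real.sin θ) +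
        t * ((r * Real.cos θ) ^ 2 + (r * Real.sin θ) ^ 2) := by
    rw [Real.rpow_two]
    have := Real.cos_sq_add_sin_sq θ
    linear_combination (-(t * r ^ 2)) * this
  rw [e3, Complex.real_smul, Complex.real_smul]
  push_cast
  ring

private theorem RepPolar_A {h : ℝ × ℝ → ℂ} {M : ℝ} (hA : Adm M h) (x : ℝ × ℝ) (t : ℝ) :
    E0 h (x, t) = (1 / 2 : ℂ) * ∫ θ in (-Real.pi)..Real.pi,
      ∫ s in (0 : ℝ)..1, RepPolarF h x t θ s := by
  have hpi : -Real.pi ≤ Real.pi := by linarith [Real.pi_pos]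
  unfold E0
  rw [← integral_comp_polarCoord_symm]
  have e0 : polarCoord.target = Ioi (0 : ℝ) ×ˢ Ioo (-Real.pi) Real.pi := rfl
  rw [e0]
  obtain ⟨G, hG⟩ : ∃ G : ℝ × ℝ → ℂ, G = fun p => p.1 • (h (p.1 * Real.cos p.2, p.1 * Real.sin p.2) *
      cexp (I * ((x.1 * (p.1 * Real.cos p.2) + x.2 * (p.1 * Real.sin p.2) +
        t * ((p.1 * Real.cos p.2) ^ 2 + (p.1 * Real.sin p.2) ^ 2) : ℝ) : ℂ))) := ⟨_, rfl⟩
  have hGm : Measurable G := by
    rw [hG]
    apply Measurable.smul measurable_fst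
    apply Measurable.mul
    · apply hA.meas.comp
      fun_prop
    · fun_prop
  have hG0 : ∀ p : ℝ × ℝ, 1 < p.1 → G p = 0 := by
    intro p hp
    rw [hG]
    simp only
    rw [hA.supp, zero_mul, smul_zero]
    show 1 < (p.1 * Real.cos p.2) ^ 2 + (p.1 * Real.sin p.2) ^ 2
    rw [mul_pow, mul_pow, ← mul_add, Real.cos_sq_add_sin_sq, mul_one]
    nlinarith
  have hM0 : 0 ≤ M := (norm_nonneg _).trans (hA.bdd 0)
  have hGb : ∀ p : ℝ × ℝ, 0 < p.1 → ‖G p‖ ≤ M := by
    intro p hp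
    by_cases h1 : 1 < p.1
    · rw [hG0 p h1, norm_zero]
      exact hM0
    · rw [hG]
      simp only
      rw [norm_smul, norm_mul, mul_comm I, Complex.norm_exp_ofReal_mul_I, mul_one,
        Real.norm_of_nonneg hp.le]
      have h2 := hA.bdd (p.1 * Real.cos p.2, p.1 * Real.sin p.2)
      have h3 := norm_nonneg (h (p.1 * Real.cos p.2, p.1 * Real.sin p.2))
      nlinarith [not_lt.1 h1]
  have hGi : IntegrableOn G (Ioi (0 : ℝ) ×ˢ Ioo (-Real.pi) Real.pi) := by
    have h1 : IntegrableOn G (Ioc (0 : ℝ) 1 ×ˢ Ioo (-Real.pi) Real.pi) := by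
      refine Measure.integrableOn_of_bounded (M := M) ?_ hGm.aestronglyMeasurable ?_
      · rw [Measure.volume_eq_prod, Measure.prod_prod, Real.volume_Ioc, Real.volume_Ioo]
        exact ENNReal.mul_ne_top ENNReal.ofReal_ne_top ENNReal.ofReal_ne_top
      · refine (ae_restrict_iff' (measurableSet_Ioc.prod measurableSet_Ioo)).2
          (Filter.Eventually.of_forall fun p hp => hGb p hp.1.1)
    refine h1.of_forall_sdiff_eq_zero (measurableSet_Ioi.prod measurableSet_Ioo) ?_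
    rintro p ⟨⟨hp1, hp2⟩, hp3⟩
    apply hG0
    by_contra h2
    exact hp3 ⟨⟨hp1, not_lt.1 h2⟩, hp2⟩
  have e1 : ∫ p in Ioi (0 : ℝ) ×ˢ Ioo (-Real.pi) Real.pi, p.1 • (h (polarCoord.symm p) *
      cexp (I * (((x, t) : (ℝ × ℝ) × ℝ).1.1 * (polarCoord.symm p).1 +
        ((x, t) : (ℝ × ℝ) × ℝ).1.2 * (polarCoord.symm p).2 + ((x, t) : (ℝ × ℝ) × ℝ).2 *
          ((polarCoord.symm p).1 ^ 2 + (polarCoord.symm p).2 ^ 2) : ℝ))) =
      ∫ p in Ioi (0 : ℝ) ×ˢ Ioo (-Real.pi) Real.pi, G p := by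
    rw [hG]
    rfl
  rw [e1, Measure.volume_eq_prod, ← Measure.prod_restrict, integral_prod_symm]
  · rw [intervalIntegral.integral_of_le hpi, integral_Ioc_eq_integral_Ioo, ← integral_const_mul]
    refine setIntegral_congr_fun measurableSet_Ioo fun θ _ => ?_
    rw [← RepPolar_inner hA x t θ, hG]
  · rw [Measure.prod_restrict]
    exact hGi

theorem rep_polar (h : ℝ × ℝ → ℂ) (M : ℝ) (hA : Adm M h) (ho : IsOdd h) (x : ℝ × ℝ) (t : ℝ) :
    E0 h (x, t) = (1 / 2 : ℂ) * ∫ θ, (∫ s in (0 : ℝ)..1,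
      h (Real.sqrt s * Real.cos θ, Real.sqrt s * Real.sin θ) *
        (I * Real.sin (Real.sqrt s * dt x θ)) * cexp (I * t * s)) ∂nu := by
  have hpi : -Real.pi ≤ Real.pi := by linarith [Real.pi_pos]
  rw [RepPolar_A hA x t]
  congr 1
  unfold nu
  rw [← intervalIntegral.integral_of_le hpi]
  obtain ⟨P, hP⟩ : ∃ P : ℝ → ℂ, P = fun θ => ∫ s in (0 : ℝ)..1, RepPolarF h x t θ s := ⟨_, rfl⟩
  have hM0 : 0 ≤ M := (norm_nonneg _).trans (hA.bdd 0)
  have hPm : Measurable P := by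
    rw [hP]
    simp only [intervalIntegral.integral_of_le zero_le_one]
    exact ((RepPolar_meas hA.meas x t).stronglyMeasurable.integral_prod_right'
      (f := fun p : ℝ × ℝ => RepPolarF h x t p.1 p.2)).measurable
  have hPb : ∀ θ, ‖P θ‖ ≤ M := by
    intro θ
    rw [hP]
    have := intervalIntegral.norm_integral_le_of_norm_le_const (a := (0 : ℝ)) (b := 1)
      (f := RepPolarF h x t θ) (C := M) (fun s _ => RepPolar_norm hA.bdd x t θ s)
    simpa using this
  have hPi : ∀ a b : ℝ, IntervalIntegrable P volume a b := by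
    intro a b
    rw [intervalIntegrable_iff]
    refine Measure.integrableOn_of_bounded (M := M) ?_ hPm.aestronglyMeasurable
      (Filter.Eventually.of_forall hPb)
    rw [uIoc, Real.volume_Ioc]
    exact ENNReal.ofReal_ne_top
  have hper : Function.Periodic P (2 * Real.pi) := by
    intro θ
    rw [hP]
    simp only
    unfold RepPolarF dt
    rw [Real.cos_add_two_pi, Real.sin_add_two_pi]
  have hshift : ∫ θ in (-Real.pi)..Real.pi, P θ = ∫ θ in (-Real.pi)..Real.pi, P (θ + Real.pi) := by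
    rw [intervalIntegral.integral_comp_add_right (fun θ => P θ) Real.pi]
    have h1 := hper.intervalIntegral_add_eq (-Real.pi) 0
    have e1 : -Real.pi + 2 * Real.pi = Real.pi := by ring
    have e2 : -Real.pi + Real.pi = 0 := by ring
    have e3 : Real.pi + Real.pi = 0 + 2 * Real.pi := by ring
    rw [e1] at h1
    rw [e2, e3]
    exact h1
  have hPi' : IntervalIntegrable (fun θ => P (θ + Real.pi)) volume (-Real.pi) Real.pi := by
    have := (hPi (-Real.pi + Real.pi) (Real.pi + Real.pi)).comp_add_right Real.pi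
    simpa using this
  have hsum : ∫ θ in (-Real.pi)..Real.pi, P θ =
      ∫ θ in (-Real.pi)..Real.pi, (1 / 2 : ℂ) * (P θ + P (θ + Real.pi)) := by
    rw [intervalIntegral.integral_const_mul, intervalIntegral.integral_add (hPi _ _) hPi',
      ← hshift]
    ring
  have hgoal : ∫ θ in (-Real.pi)..Real.pi, ∫ s in (0 : ℝ)..1, RepPolarF h x t θ s =
      ∫ θ in (-Real.pi)..Real.pi, P θ := by
    rw [hP]
  rw [hgoal, hsum]
  refine intervalIntegral.integral_congr fun θ _ => ?_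
  have hFi : ∀ θ, IntervalIntegrable (RepPolarF h x t θ) volume 0 1 := by
    intro θ
    rw [intervalIntegrable_iff]
    refine Measure.integrableOn_of_bounded (M := M) ?_
      ((RepPolar_meas hA.meas x t).comp
        (measurable_const.prodMk measurable_id)).aestronglyMeasurable
      (Filter.Eventually.of_forall fun s => RepPolar_norm hA.bdd x t θ s)
    rw [uIoc, Real.volume_Ioc]
    exact ENNReal.ofReal_ne_top
  rw [hP]
  simp only
  rw [← intervalIntegral.integral_add (hFi θ) (hFi (θ + Real.pi)),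
    ← intervalIntegral.integral_const_mul]
  refine intervalIntegral.integral_congr fun s _ => ?_
  unfold RepPolarF
  have e1 : h (Real.sqrt s * Real.cos (θ + Real.pi), Real.sqrt s * Real.sin (θ + Real.pi)) =
      -h (Real.sqrt s * Real.cos θ, Real.sqrt s * Real.sin θ) := by
    rw [Real.cos_add_pi, Real.sin_add_pi, ← ho]
    congr 1
    ext <;> simp
  have e2 : dt x (θ + Real.pi) = -dt x θ := by
    unfold dt
    rw [Real.cos_add_pi, Real.sin_add_pi]
    ring
  rw [e1, e2]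
  have e3 : cexp (I * ((Real.sqrt s * dt x θ + t * s : ℝ) : ℂ)) =
      cexp (((Real.sqrt s * dt x θ : ℝ) : ℂ) * I) * cexp (I * t * s) := by
    rw [← Complex.exp_add]
    congr 1
    push_cast
    ring
  have e4 : cexp (I * ((Real.sqrt s * -dt x θ + t * s : ℝ) : ℂ)) =
      cexp (-((Real.sqrt s * dt x θ : ℝ) : ℂ) * I) * cexp (I * t * s) := by
    rw [← Complex.exp_add]
    congr 1
    push_cast
    ring
  have e5 := Complex.two_sin ((Real.sqrt s * dt x θ : ℝ) : ℂ)
  rw [e3, e4, Complex.ofReal_sin]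
  have hI : I * I = -1 := Complex.I_mul_I
  obtain ⟨A, hAd⟩ : ∃ A : ℂ, A = cexp (((Real.sqrt s * dt x θ : ℝ) : ℂ) * I) := ⟨_, rfl⟩
  obtain ⟨B, hBd⟩ : ∃ B : ℂ, B = cexp (-((Real.sqrt s * dt x θ : ℝ) : ℂ) * I) := ⟨_, rfl⟩
  rw [← hAd, ← hBd] at e5 ⊢
  linear_combination (h (Real.sqrt s * Real.cos θ, Real.sqrt s * Real.sin θ) *
    cexp (I * t * s)) * (-(1 / 2 * I)) * e5 +
    (h (Real.sqrt s * Real.cos θ, Real.sqrt s * Real.sin θ) *
    cexp (I * t * s)) * (-(1 / 2 * (B - A))) * hI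

end Pool.Agent.H.MP_b7167f_an.SS
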