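import Pool.Agent.H.MP_b7167f_an.SS.KInv
import Pool.Agent.H.MP_b7167f_an.SS.RepPolar

/-!
PROOF.  Write `ω = (cos θ, sin θ)`, `u = dt x θ`.
(`rep_polar`) Polar coordinates (`integral_comp_polarCoord_symm`):
 `E0 h (x,t) = ∫_{θ ∈ (-π,π)} ∫_{r>0} r h(rω) exp(i(ru + t r²)) dr dθ`.  Averaging over `θ` and `θ+π`
 (the inner integral is `2π`-periodic in `θ`; `h(-rω) = -h(rω)`, `dt x (θ+π) = -dt x θ`):
 `= ∫_θ ∫_{r>0} r h(rω) i sin(ru) exp(i t r²) dr dθ`, and with `s = r²`, `h = 0` for `r > 1`: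
 `= ½ ∫_θ ∫_0^1 h(√s ω) i sin(√s u) exp(i t s) ds dθ`.
(`rep`) insert `i sin(√s u) = exp(s) (1/2π) ∫ kap u τ exp(-iτs) dτ` (`kap_inv`) and use Fubini: the
 function `kap u τ exp(...) h(√s ω)` of `(τ,θ,s) ∈ ℝ × (-π,π] × [0,1]` is integrable by `kap_bound`
 (`|u| ≤ |x.1|+|x.2|`, `(1+τ²)^(-3/4)` integrable).  The integral over `s` is
 `gh h θ (τ-t) = ∫_0^1 exp((1-i(τ-t))s) h(√s ω) ds`, and `∫_θ kap (dt x θ) τ * gh h θ (τ-t)` is
 `I/(2 aa τ) (π/aa τ)^(1/2) * T1 τ (gh h · (τ-t)) x`.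
-/

open MeasureTheory Set Complex

namespace Pool.Agent.H.MP_b7167f_an.SS

private theorem rep_dt (x : ℝ × ℝ) (θ : ℝ) : |dt x θ| ≤ |x.1| + |x.2| := by
  unfold dt
  calc |x.1 * Real.cos θ + x.2 * Real.sin θ| ≤ |x.1 * Real.cos θ| + |x.2 * Real.sin θ| :=
        abs_add_le _ _
    _ ≤ |x.1| + |x.2| := by
        rw [abs_mul, abs_mul]
        have h1 := mul_le_mul_of_nonneg_left (Real.abs_cos_le_one θ) (abs_nonneg x.1)
        have h2 := mul_le_mul_of_nonneg_left (Real.abs_sin_le_one θ) (abs_nonneg x.2)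
        linarith

/-- The integrand of Fubini's theorem. -/
private noncomputable def repF (h : ℝ × ℝ → ℂ) (x : ℝ × ℝ) (t τ : ℝ) (p : ℝ × ℝ) : ℂ :=
  kap (dt x p.1) τ * (cexp ((1 - ((τ - t : ℝ) : ℂ) * I) * (p.2 : ℂ)) *
    h (Real.sqrt p.2 * Real.cos p.1, Real.sqrt p.2 * Real.sin p.1))

private theorem repF_meas (h : ℝ × ℝ → ℂ) (hh : Measurable h) (x : ℝ × ℝ) (t : ℝ) :
    Measurable (Function.uncurry (repF h x t)) := by
  have h1 : Measurable (fun q : ℝ × (ℝ × ℝ) => ((dt x q.2.1, q.1) : ℝ × ℝ)) := by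
    refine Measurable.prodMk ?_ measurable_fst
    have : Continuous (fun q : ℝ × (ℝ × ℝ) => dt x q.2.1) := by unfold dt; fun_prop
    exact this.measurable
  have h2 := kap_meas.comp h1
  have h3 : Measurable
      (fun q : ℝ × (ℝ × ℝ) => cexp ((1 - ((q.1 - t : ℝ) : ℂ) * I) * (q.2.2 : ℂ))) := by
    have : Continuous
        (fun q : ℝ × (ℝ × ℝ) => cexp ((1 - ((q.1 - t : ℝ) : ℂ) * I) * (q.2.2 : ℂ))) := by
      fun_prop
    exact this.measurable
  have h4 : Measurable (fun q : ℝ × (ℝ × ℝ) =>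
        ((Real.sqrt q.2.2 * Real.cos q.2.1, Real.sqrt q.2.2 * Real.sin q.2.1) : ℝ × ℝ)) := by
    have : Continuous (fun q : ℝ × (ℝ × ℝ) =>
        ((Real.sqrt q.2.2 * Real.cos q.2.1, Real.sqrt q.2.2 * Real.sin q.2.1) : ℝ × ℝ)) := by
      fun_prop
    exact this.measurable
  exact h2.mul (h3.mul (hh.comp h4))

private theorem repF_bound (h : ℝ × ℝ → ℂ) (M : ℝ) (hb : ∀ z, ‖h z‖ ≤ M) (x : ℝ × ℝ) (t τ : ℝ)
    (p : ℝ × ℝ) :
    ‖repF h x t τ p‖ ≤ ((|x.1| + |x.2|) * (1 + τ ^ 2) ^ (-(3 / 4) : ℝ)) * (M * Real.exp p.2) := by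
  unfold repF
  rw [norm_mul, norm_mul]
  have h1 : ‖kap (dt x p.1) τ‖ ≤ (|x.1| + |x.2|) * (1 + τ ^ 2) ^ (-(3 / 4) : ℝ) :=
    (kap_bound _ _).trans (mul_le_mul_of_nonneg_right (rep_dt x p.1) (by positivity))
  have h2 : ‖cexp ((1 - ((τ - t : ℝ) : ℂ) * I) * (p.2 : ℂ))‖ = Real.exp p.2 := by
    rw [Complex.norm_exp]
    congr 1
    simp
  have hM : 0 ≤ M := (norm_nonneg _).trans (hb 0)
  refine mul_le_mul h1 ?_ (by positivity) (by positivity)
  rw [h2, mul_comm M]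
  exact mul_le_mul_of_nonneg_left (hb _) (Real.exp_pos _).le

private theorem rep_j : Integrable (fun τ : ℝ => (1 + τ ^ 2) ^ (-(3 / 4) : ℝ)) := by
  have h := integrable_rpow_neg_one_add_norm_sq (E := ℝ) (μ := volume) (r := 3 / 2) (by simp; norm_num)
  refine h.congr (Filter.Eventually.of_forall fun τ => ?_)
  simp only [Real.norm_eq_abs, sq_abs]
  norm_num

private theorem repF_int (h : ℝ × ℝ → ℂ) (M : ℝ) (hh : Measurable h) (hb : ∀ z, ‖h z‖ ≤ M)
    (x : ℝ × ℝ) (t : ℝ) :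
    Integrable (Function.uncurry (repF h x t))
      ((volume : Measure ℝ).prod (nu.prod (volume.restrict (Ioc (0 : ℝ) 1)))) := by
  have : IsFiniteMeasure nu := by unfold nu; infer_instance
  have h1 : Integrable (fun τ : ℝ => (|x.1| + |x.2|) * (1 + τ ^ 2) ^ (-(3 / 4) : ℝ)) :=
    rep_j.const_mul _
  have h2 : Integrable (fun p : ℝ × ℝ => M * Real.exp p.2)
      (nu.prod (volume.restrict (Ioc (0 : ℝ) 1))) := by
    have h3 : Integrable (fun s : ℝ => Real.exp s) (volume.restrict (Ioc (0 : ℝ) 1)) := by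
      have := (Real.continuous_exp.intervalIntegrable (μ := volume) 0 1)
      rw [intervalIntegrable_iff_integrableOn_Ioc_of_le zero_le_one] at this
      exact this
    have h4 : Integrable (fun _ : ℝ => M) nu := integrable_const _
    exact h4.mul_prod h3
  refine (h1.mul_prod h2).mono' (repF_meas h hh x t).aestronglyMeasurable ?_
  exact Filter.Eventually.of_forall fun q => repF_bound h M hb x t q.1 q.2

private theorem repF_int2 (h : ℝ × ℝ → ℂ) (M : ℝ) (hh : Measurable h) (hb : ∀ z, ‖h z‖ ≤ M)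
    (x : ℝ × ℝ) (t τ : ℝ) :
    Integrable (repF h x t τ) (nu.prod (volume.restrict (Ioc (0 : ℝ) 1))) := by
  have : IsFiniteMeasure nu := by unfold nu; infer_instance
  have h2 : Integrable (fun p : ℝ × ℝ => M * Real.exp p.2)
      (nu.prod (volume.restrict (Ioc (0 : ℝ) 1))) := by
    have h3 : Integrable (fun s : ℝ => Real.exp s) (volume.restrict (Ioc (0 : ℝ) 1)) := by
      have := (Real.continuous_exp.intervalIntegrable (μ := volume) 0 1)
      rw [intervalIntegrable_iff_integrableOn_Ioc_of_le zero_le_one] at this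
      exact this
    have h4 : Integrable (fun _ : ℝ => M) nu := integrable_const _
    exact h4.mul_prod h3
  refine (h2.const_mul ((|x.1| + |x.2|) * (1 + τ ^ 2) ^ (-(3 / 4) : ℝ))).mono'
    ((repF_meas h hh x t).comp measurable_prodMk_left).aestronglyMeasurable ?_
  exact Filter.Eventually.of_forall fun q => repF_bound h M hb x t τ q

private theorem rep_inner (h : ℝ × ℝ → ℂ) (x : ℝ × ℝ) (t : ℝ) (p : ℝ × ℝ) (hp : 0 ≤ p.2) :
    ((1 / (2 * Real.pi) : ℝ) : ℂ) * ∫ τ : ℝ, repF h x t τ p =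
      h (Real.sqrt p.2 * Real.cos p.1, Real.sqrt p.2 * Real.sin p.1) *
        (I * Real.sin (Real.sqrt p.2 * dt x p.1)) * cexp (I * t * p.2) := by
  have h1 : ∀ τ : ℝ, repF h x t τ p = (kap (dt x p.1) τ * cexp (-(I * τ * p.2))) *
      (cexp ((1 + t * I) * p.2) *
        h (Real.sqrt p.2 * Real.cos p.1, Real.sqrt p.2 * Real.sin p.1)) := by
    intro τ
    unfold repF
    rw [show (1 - ((τ - t : ℝ) : ℂ) * I) * (p.2 : ℂ) =
      (-(I * τ * p.2)) + ((1 + t * I) * p.2) by push_cast; ring, Complex.exp_add]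
    ring
  simp_rw [h1]
  rw [integral_mul_const, ← mul_assoc, kap_inv _ _ hp]
  rw [show (1 + (t : ℂ) * I) * p.2 = (p.2 : ℂ) + I * t * p.2 by ring, Complex.exp_add]
  have h2 : cexp (-(p.2 : ℂ)) * cexp (p.2 : ℂ) = 1 := by
    rw [← Complex.exp_add]; simp
  linear_combination (h (Real.sqrt p.2 * Real.cos p.1, Real.sqrt p.2 * Real.sin p.1) *
        (I * Real.sin (Real.sqrt p.2 * dt x p.1)) * cexp (I * t * p.2)) * h2

private theorem rep_gh (h : ℝ × ℝ → ℂ) (x : ℝ × ℝ) (t τ θ : ℝ) :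
    ∫ s in Ioc (0 : ℝ) 1, repF h x t τ (θ, s) = kap (dt x θ) τ * gh h θ (τ - t) := by
  unfold gh
  rw [intervalIntegral.integral_of_le zero_le_one, ← integral_const_mul]
  rfl

theorem rep (h : ℝ × ℝ → ℂ) (M : ℝ) (hA : Adm M h) (ho : IsOdd h) (x : ℝ × ℝ) (t : ℝ) :
    E0 h (x, t) = ((1 / (4 * Real.pi) : ℝ) : ℂ) * ∫ τ : ℝ,
      I / (2 * aa τ) * (Real.pi / aa τ) ^ (1 / 2 : ℂ) * T1 τ (fun θ => gh h θ (τ - t)) x := by
  have hF := repF_int h M hA.meas hA.bdd x t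
  have hfin : IsFiniteMeasure nu := by unfold nu; infer_instance
  -- the right hand side
  have hR : ∀ τ : ℝ, ∫ p, repF h x t τ p ∂(nu.prod (volume.restrict (Ioc (0 : ℝ) 1))) =
      I / (2 * aa τ) * (Real.pi / aa τ) ^ (1 / 2 : ℂ) * T1 τ (fun θ => gh h θ (τ - t)) x := by
    intro τ
    rw [integral_prod _ (repF_int2 h M hA.meas hA.bdd x t τ)]
    unfold T1
    rw [← integral_const_mul]
    refine integral_congr_ae (Filter.Eventually.of_forall fun θ => ?_)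
    show ∫ s in Ioc (0 : ℝ) 1, repF h x t τ (θ, s) = _
    rw [rep_gh]
    unfold kap
    ring
  have hsw := integral_integral_swap hF
  have hI : Integrable (fun p : ℝ × ℝ => ∫ τ : ℝ, repF h x t τ p)
      (nu.prod (volume.restrict (Ioc (0 : ℝ) 1))) := hF.integral_prod_right
  have hL : ∫ θ, (∫ s in (0 : ℝ)..1,
      h (Real.sqrt s * Real.cos θ, Real.sqrt s * Real.sin θ) *
        (I * Real.sin (Real.sqrt s * dt x θ)) * cexp (I * t * s)) ∂nu
      = ((1 / (2 * Real.pi) : ℝ) : ℂ) *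
      ∫ p, (∫ τ : ℝ, repF h x t τ p) ∂(nu.prod (volume.restrict (Ioc (0 : ℝ) 1))) := by
    rw [integral_prod _ hI, ← integral_const_mul]
    refine integral_congr_ae (Filter.Eventually.of_forall fun θ => ?_)
    show ∫ s in (0 : ℝ)..1, _ = _ * ∫ s in Ioc (0 : ℝ) 1, _
    rw [intervalIntegral.integral_of_le zero_le_one, ← integral_const_mul]
    refine setIntegral_congr_fun measurableSet_Ioc fun s hs => ?_
    exact (rep_inner h x t (θ, s) hs.1.le).symm
  rw [rep_polar h M hA ho x t, hL, ← hsw]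
  simp_rw [hR]
  rw [← mul_assoc]
  congr 1
  push_cast
  field_simp
  norm_num

end Pool.Agent.H.MP_b7167f_an.SS
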