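import Mathlib

/-!
Functions of bounded variation along the rays from a point: definitions.
-/

open MeasureTheory Set

namespace Pool.Agent.H.MP_b7167f_an.SS

/-- Scalar product of `x` with the unit vector `(cos θ, sin θ)`. -/
noncomputable def dt (x : ℝ × ℝ) (θ : ℝ) : ℝ := x.1 * Real.cos θ + x.2 * Real.sin θ

/-- `a = 1 - i t`. -/
noncomputable def aa (t : ℝ) : ℂ := 1 - t * Complex.I

/-- Lebesgue measure on the angles `(-π, π]`. -/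
noncomputable def nu : Measure ℝ := volume.restrict (Ioc (-Real.pi) Real.pi)

/-- The operator `T c(x) = ∫ c(θ) (x·ω) exp (-(x·ω)²/(4a)) dθ`. -/
noncomputable def T1 (t : ℝ) (c : ℝ → ℂ) (x : ℝ × ℝ) : ℂ :=
  ∫ θ, c θ * (dt x θ : ℂ) * Complex.exp (-(dt x θ : ℂ) ^ 2 / (4 * aa t)) ∂nu

/-- The extension operator of the paraboloid in `ℝ³` without cutoff. -/
noncomputable def E0 (h : ℝ × ℝ → ℂ) (y : (ℝ × ℝ) × ℝ) : ℂ :=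
  ∫ z : ℝ × ℝ, h z *
    Complex.exp (Complex.I * ((y.1.1 * z.1 + y.1.2 * z.2 + y.2 * (z.1 ^ 2 + z.2 ^ 2) : ℝ) : ℂ))

/-- The admissible functions: measurable, bounded by `M`, zero outside the closed unit disc, and
of variation at most `M` along every ray from `0`. -/
structure Adm (M : ℝ) (h : ℝ × ℝ → ℂ) : Prop where
  meas : Measurable h
  bdd : ∀ z, ‖h z‖ ≤ M
  supp : ∀ z : ℝ × ℝ, 1 < z.1 ^ 2 + z.2 ^ 2 → h z = 0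
  var : ∀ θ : ℝ, eVariationOn (fun r : ℝ => h (r * Real.cos θ, r * Real.sin θ)) (Ici 0)
    ≤ ENNReal.ofReal M

/-- Odd functions. -/
def IsOdd (h : ℝ × ℝ → ℂ) : Prop := ∀ z, h (-z) = -h z

/-- Even functions. -/
def IsEven (h : ℝ × ℝ → ℂ) : Prop := ∀ z, h (-z) = h z

/-- The quadratic form `A x₁² + 2 B x₁ x₂ + C x₂²`. -/
noncomputable def qf (A B C : ℂ) (x : ℝ × ℝ) : ℂ :=
  A * (x.1 : ℂ) ^ 2 + 2 * B * (x.1 : ℂ) * (x.2 : ℂ) + C * (x.2 : ℂ) ^ 2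

/-- `nᵀ M n'` for the matrix `M = (A, B; B, C)` and the normals `n = (-sin θ, cos θ)`,
`n' = (-sin φ, cos φ)`. -/
noncomputable def NN (A B C : ℂ) (θ φ : ℝ) : ℂ :=
  A * (Real.sin θ * Real.sin φ : ℝ) - B * (Real.sin θ * Real.cos φ + Real.cos θ * Real.sin φ : ℝ)
    + C * (Real.cos θ * Real.cos φ : ℝ)

/-- Kernel of `∫ |T1|² exp (-ε |x|²)`. -/
noncomputable def K2 (t ε θ φ : ℝ) : ℂ :=
  ∫ x : ℝ × ℝ, (dt x θ : ℂ) * (dt x φ : ℂ) *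
    Complex.exp (-(dt x θ : ℂ) ^ 2 / (4 * aa t) - (dt x φ : ℂ) ^ 2 / (4 * aa (-t))
      - ε * ((x.1 : ℂ) ^ 2 + (x.2 : ℂ) ^ 2))

/-- Kernel of `∫ |T1|⁴ exp (-ε |x|²)`. -/
noncomputable def K4 (t ε θ₁ θ₂ θ₃ θ₄ : ℝ) : ℂ :=
  ∫ x : ℝ × ℝ, (dt x θ₁ : ℂ) * (dt x θ₂ : ℂ) * (dt x θ₃ : ℂ) * (dt x θ₄ : ℂ) *
    Complex.exp (-(dt x θ₁ : ℂ) ^ 2 / (4 * aa t) - (dt x θ₂ : ℂ) ^ 2 / (4 * aa t)
      - (dt x θ₃ : ℂ) ^ 2 / (4 * aa (-t)) - (dt x θ₄ : ℂ) ^ 2 / (4 * aa (-t))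
      - ε * ((x.1 : ℂ) ^ 2 + (x.2 : ℂ) ^ 2))

/-- The weight `|sin(θ₁-θ₂+θ₃-θ₄) sin(θ₁-θ₂-θ₃+θ₄) sin(θ₁+θ₂-θ₃-θ₄)|`. -/
noncomputable def S3 (θ₁ θ₂ θ₃ θ₄ : ℝ) : ℝ :=
  |Real.sin (θ₁ - θ₂ + θ₃ - θ₄) * Real.sin (θ₁ - θ₂ - θ₃ + θ₄) * Real.sin (θ₁ + θ₂ - θ₃ - θ₄)|

/-- `∫₀¹ e^{(1-iη)s} h(√s ω) ds`. -/
noncomputable def gh (h : ℝ × ℝ → ℂ) (θ η : ℝ) : ℂ :=
  ∫ s in (0 : ℝ)..1, Complex.exp ((1 - η * Complex.I) * s) *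
    h (Real.sqrt s * Real.cos θ, Real.sqrt s * Real.sin θ)

/-- `kap u τ = ∫₀^∞ e^{-(1-iτ)s} i sin(√s u) ds` in closed form. -/
noncomputable def kap (u τ : ℝ) : ℂ :=
  Complex.I * u / (2 * aa τ) * (Real.pi / aa τ) ^ (1 / 2 : ℂ) *
    Complex.exp (-(u : ℂ) ^ 2 / (4 * aa τ))

end Pool.Agent.H.MP_b7167f_an.SS
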