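import Pool.Agent.H.MP_b7167f_an.SS.RScale
import Pool.Agent.H.MP_b7167f_an.Def

/-!
Galilean invariance, first part: the cut off function with origin `p`.

integrable_Fp: `Fp f p` is measurable, bounded by `A` and zero outside of a compact square.
norm_extOp_eq: rewrite the set integral as an integral of the indicator, pass to `ℝ × ℝ` with
`MeasurableEquiv.finTwoArrow`, translate `ξ = p + z`; the phase is
`2π((p+z)·x + |p+z|² t) = 2π(p·x + |p|² t) + z·(2π(x + 2 t p)) + 2π t |z|²`; the first summand does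
not depend on `z` and gives a factor of norm `1`.
adm_Fp: the ray function is the indicator of an interval of `r ↦ f (p + r v)`.
-/

open MeasureTheory Set Filter
open scoped ENNReal NNReal

namespace Pool.Agent.H.MP_b7167f_an.SS

/-- The function `f`, cut off outside of the square, as a function on the plane with origin `p`. -/
noncomputable def Fp (f : (Fin 2 → ℝ) → ℂ) (p : Fin 2 → ℝ) (z : ℝ × ℝ) : ℂ :=
  (Icc (fun _ : Fin 2 => (-1 : ℝ)) (fun _ => (1 : ℝ))).indicator f (fun i => p i + ![z.1, z.2] i)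

theorem RGal1_meas {f : (Fin 2 → ℝ) → ℂ} (hf : Measurable f) (p : Fin 2 → ℝ) :
    Measurable (Fp f p) := by
  have h1 : Measurable (fun z : ℝ × ℝ => fun i : Fin 2 => p i + ![z.1, z.2] i) := by
    rw [measurable_pi_iff, Fin.forall_fin_two]
    exact ⟨measurable_const.add measurable_fst, measurable_const.add measurable_snd⟩
  exact (hf.indicator measurableSet_Icc).comp h1

theorem RGal1_bdd {f : (Fin 2 → ℝ) → ℂ} {A : ℝ≥0} (hA : ∀ ξ, ‖f ξ‖ ≤ A) (p : Fin 2 → ℝ)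
    (z : ℝ × ℝ) : ‖Fp f p z‖ ≤ A := by
  unfold Fp
  exact (norm_indicator_le_norm_self _ _).trans (hA _)

theorem RGal1_supp {f : (Fin 2 → ℝ) → ℂ} {p : Fin 2 → ℝ} {z : ℝ × ℝ} (h : Fp f p z ≠ 0) :
    |p 0 + z.1| ≤ 1 ∧ |p 1 + z.2| ≤ 1 := by
  have h1 : (fun i => p i + ![z.1, z.2] i) ∈
      Icc (fun _ : Fin 2 => (-1 : ℝ)) (fun _ => (1 : ℝ)) := mem_of_indicator_ne_zero h
  exact ⟨abs_le.2 ⟨h1.1 0, h1.2 0⟩, abs_le.2 ⟨h1.1 1, h1.2 1⟩⟩

theorem integrable_Fp {f : (Fin 2 → ℝ) → ℂ} (hf : Measurable f) {A : ℝ≥0}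
    (hA : ∀ ξ, ‖f ξ‖ ≤ A) (p : Fin 2 → ℝ) : Integrable (Fp f p) := by
  obtain ⟨S, hS⟩ : ∃ S : Set (ℝ × ℝ), S = Icc (-1 - p 0) (1 - p 0) ×ˢ Icc (-1 - p 1) (1 - p 1) :=
    ⟨_, rfl⟩
  have hc : IsCompact S := by
    rw [hS]
    exact isCompact_Icc.prod isCompact_Icc
  have h1 : IsFiniteMeasure (volume.restrict S) :=
    ⟨by rw [Measure.restrict_apply_univ]; exact hc.measure_lt_top⟩
  have h2 : IntegrableOn (Fp f p) S :=
    Integrable.of_bound (RGal1_meas hf p).aestronglyMeasurable A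
      (Eventually.of_forall fun z => RGal1_bdd hA p z)
  refine h2.integrable_of_forall_notMem_eq_zero fun z hz => ?_
  by_contra h0
  apply hz
  obtain ⟨h3, h4⟩ := RGal1_supp h0
  rw [abs_le] at h3 h4
  rw [hS]
  exact ⟨⟨by linarith [h3.1], by linarith [h3.2]⟩, ⟨by linarith [h4.1], by linarith [h4.2]⟩⟩

theorem norm_extOp_eq (f : (Fin 2 → ℝ) → ℂ) (p : Fin 2 → ℝ) (y : (Fin 2 → ℝ) × ℝ) :
    ‖extOp 2 f y‖ = ‖E0 (Fp f p) ((2 * Real.pi * (y.1 0 + 2 * y.2 * p 0),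
      2 * Real.pi * (y.1 1 + 2 * y.2 * p 1)), 2 * Real.pi * y.2)‖ := by
  obtain ⟨e, he⟩ : ∃ e : (Fin 2 → ℝ) → ℂ, e = fun ξ => Complex.exp (2 * Real.pi * Complex.I *
      (((∑ j, ξ j * y.1 j) + (∑ j, ξ j ^ 2) * y.2 : ℝ) : ℂ)) := ⟨_, rfl⟩
  obtain ⟨g, hg⟩ : ∃ g : (Fin 2 → ℝ) → ℂ,
    g = (Icc (fun _ : Fin 2 => (-1 : ℝ)) (fun _ => (1 : ℝ))).indicator f := ⟨_, rfl⟩
  have h1 : extOp 2 f y = ∫ ξ, g ξ * e ξ := by
    unfold extOp
    rw [← integral_indicator measurableSet_Icc]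
    refine integral_congr_ae (Eventually.of_forall fun ξ => ?_)
    by_cases hξ : ξ ∈ Icc (fun _ : Fin 2 => (-1 : ℝ)) (fun _ => (1 : ℝ))
    · simp only [hg, he, indicator_of_mem hξ]
    · simp only [hg, indicator_of_notMem hξ, zero_mul]
  have h2 : ∫ ξ, g ξ * e ξ = ∫ z : ℝ × ℝ, g ![z.1, z.2] * e ![z.1, z.2] :=
    ((volume_preserving_finTwoArrow ℝ).symm.integral_comp' (fun ξ => g ξ * e ξ)).symm
  have h3 : ∫ z : ℝ × ℝ, g ![z.1, z.2] * e ![z.1, z.2] =
      ∫ z : ℝ × ℝ, g ![p 0 + z.1, p 1 + z.2] * e ![p 0 + z.1, p 1 + z.2] :=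
    (integral_add_left_eq_self (fun z : ℝ × ℝ => g ![z.1, z.2] * e ![z.1, z.2])
      ((p 0, p 1) : ℝ × ℝ)).symm
  have h4 : ∀ z : ℝ × ℝ, (fun i => p i + ![z.1, z.2] i) = ![p 0 + z.1, p 1 + z.2] := by
    intro z
    funext i
    fin_cases i <;> rfl
  obtain ⟨c, hc⟩ : ∃ c : ℝ, c = 2 * Real.pi * (p 0 * y.1 0 + p 1 * y.1 1 +
    (p 0 ^ 2 + p 1 ^ 2) * y.2) := ⟨_, rfl⟩
  have h5 : ∀ z : ℝ × ℝ, e ![p 0 + z.1, p 1 + z.2] = Complex.exp (c * Complex.I) *
      Complex.exp (Complex.I * ((2 * Real.pi * (y.1 0 + 2 * y.2 * p 0) * z.1 +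
        2 * Real.pi * (y.1 1 + 2 * y.2 * p 1) * z.2 +
          2 * Real.pi * y.2 * (z.1 ^ 2 + z.2 ^ 2) : ℝ) : ℂ)) := by
    intro z
    rw [he, hc, ← Complex.exp_add]
    simp only [Fin.sum_univ_two, Matrix.cons_val_zero, Matrix.cons_val_one]
    congr 1
    push_cast
    ring
  have h6 : extOp 2 f y = Complex.exp (c * Complex.I) * E0 (Fp f p)
      ((2 * Real.pi * (y.1 0 + 2 * y.2 * p 0), 2 * Real.pi * (y.1 1 + 2 * y.2 * p 1)),
        2 * Real.pi * y.2) := by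
    rw [h1, h2, h3]
    unfold E0
    rw [← integral_const_mul]
    refine integral_congr_ae (Eventually.of_forall fun z => ?_)
    have h7 : Fp f p z = g ![p 0 + z.1, p 1 + z.2] := by
      rw [hg, ← h4]
      rfl
    simp only [h5, h7]
    ring
  rw [h6, norm_mul, Complex.norm_exp_ofReal_mul_I, one_mul]

theorem RGal1_ord (p v : Fin 2 → ℝ) :
    ({r : ℝ | 0 ≤ r ∧ p + r • v ∈ Icc (fun _ => (-1 : ℝ)) (fun _ => (1 : ℝ))}).OrdConnected := by
  refine ⟨fun x hx z hz r hr => ⟨hx.1.trans hr.1, fun i => ?_, fun i => ?_⟩⟩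
  · have h1 : -1 ≤ p i + x * v i := hx.2.1 i
    have h2 : -1 ≤ p i + z * v i := hz.2.1 i
    show -1 ≤ p i + r * v i
    rcases le_total 0 (v i) with h | h
    · have := mul_le_mul_of_nonneg_right hr.1 h
      linarith
    · have := mul_le_mul_of_nonpos_right hr.2 h
      linarith
  · have h1 : p i + x * v i ≤ 1 := hx.2.2 i
    have h2 : p i + z * v i ≤ 1 := hz.2.2 i
    show p i + r * v i ≤ 1
    rcases le_total 0 (v i) with h | h
    · have := mul_le_mul_of_nonneg_right hr.2 h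
      linarith
    · have := mul_le_mul_of_nonpos_right hr.1 h
      linarith

/-- The scaled function is admissible. -/
theorem adm_Fp {f : (Fin 2 → ℝ) → ℂ} (hf : Measurable f) {A : ℝ≥0} (hA : ∀ ξ, ‖f ξ‖ ≤ A)
    {p : Fin 2 → ℝ} {R : ℝ} (hR : 0 ≤ R) (hp : ‖p‖ ≤ R)
    (hv : ∀ v : Fin 2 → ℝ, eVariationOn (fun r : ℝ => f (p + r • v))
      {r : ℝ | 0 ≤ r ∧ p + r • v ∈ Icc (fun _ => (-1 : ℝ)) (fun _ => (1 : ℝ))} ≤ A) :
    Adm (3 * A) (fun z => Fp f p (2 * (1 + R) * z.1, 2 * (1 + R) * z.2)) := by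
  have hA0 : (0 : ℝ) ≤ A := A.2
  refine
    { meas := ?_
      bdd := ?_
      supp := ?_
      var := ?_ }
  · exact (RGal1_meas hf p).comp
      ((measurable_const.mul measurable_fst).prodMk (measurable_const.mul measurable_snd))
  · intro z
    refine (RGal1_bdd hA p _).trans ?_
    linarith
  · intro z hz
    by_contra h0
    obtain ⟨h1, h2⟩ := RGal1_supp h0
    simp only at h1 h2
    have hp0 := abs_le.1 ((norm_le_pi_norm p 0).trans hp)
    have hp1 := abs_le.1 ((norm_le_pi_norm p 1).trans hp)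
    have key : ∀ a b : ℝ, |a + 2 * (1 + R) * b| ≤ 1 → -R ≤ a → a ≤ R → b ^ 2 ≤ 1 / 4 := by
      intro a b h3 h4 h5
      rw [abs_le] at h3
      have h6 : b ≤ 1 / 2 := by
        by_contra hc
        push Not at hc
        nlinarith [h3.2]
      have h7 : -(1 / 2) ≤ b := by
        by_contra hc
        push Not at hc
        nlinarith [h3.1]
      nlinarith
    have h3 := key _ _ h1 hp0.1 hp0.2
    have h4 := key _ _ h2 hp1.1 hp1.2
    linarith
  · intro θ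
    obtain ⟨v, hvd⟩ : ∃ v : Fin 2 → ℝ,
      v = ![2 * (1 + R) * Real.cos θ, 2 * (1 + R) * Real.sin θ] := ⟨_, rfl⟩
    obtain ⟨J, hJ⟩ : ∃ J : Set ℝ, J = {r : ℝ | 0 ≤ r ∧ p + r • v ∈
      Icc (fun _ => (-1 : ℝ)) (fun _ => (1 : ℝ))} := ⟨_, rfl⟩
    have h1 : EqOn (fun r : ℝ => Fp f p (2 * (1 + R) * (r * Real.cos θ),
        2 * (1 + R) * (r * Real.sin θ))) (J.indicator fun r : ℝ => f (p + r • v)) (Ici 0) := by
      intro r hr
      have h2 : (fun i => p i + ![2 * (1 + R) * (r * Real.cos θ),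
          2 * (1 + R) * (r * Real.sin θ)] i) = p + r • v := by
        rw [hvd]
        funext i
        fin_cases i
        · show p 0 + 2 * (1 + R) * (r * Real.cos θ) = p 0 + r * (2 * (1 + R) * Real.cos θ)
          ring
        · show p 1 + 2 * (1 + R) * (r * Real.sin θ) = p 1 + r * (2 * (1 + R) * Real.sin θ)
          ring
      show Fp f p (2 * (1 + R) * (r * Real.cos θ), 2 * (1 + R) * (r * Real.sin θ)) = _
      unfold Fp
      simp only [h2]
      by_cases h3 : p + r • v ∈ Icc (fun _ : Fin 2 => (-1 : ℝ)) (fun _ => (1 : ℝ))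
      · have h4 : r ∈ J := by
          rw [hJ]
          exact ⟨hr, h3⟩
        rw [indicator_of_mem h3, indicator_of_mem h4]
      · have h4 : r ∉ J := by
          rw [hJ]
          exact fun h => h3 h.2
        rw [indicator_of_notMem h3, indicator_of_notMem h4]
    have h2 : eVariationOn (fun r : ℝ => Fp f p (2 * (1 + R) * (r * Real.cos θ),
        2 * (1 + R) * (r * Real.sin θ))) (Ici 0) ≤ A + 2 * A := by
      rw [eVariationOn.eq_of_eqOn h1]
      have h3 : J.OrdConnected := by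
        rw [hJ]
        exact RGal1_ord p v
      refine (evar_indicator_le h3 (A := A) fun x _ => hA _).trans ?_
      gcongr
      rw [hJ]
      exact hv v
    refine h2.trans (le_of_eq ?_)
    have h4 : (3 : ℝ) * (A : ℝ) = ((3 * A : ℝ≥0) : ℝ) := by push_cast; rfl
    rw [h4, ENNReal.ofReal_coe_nnreal]
    push_cast
    ring

end Pool.Agent.H.MP_b7167f_an.SS
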