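import Pool.Agent.H.MP_b7167f_an.SS.RScale
import Pool.Agent.H.MP_b7167f_an.SS.RGal1

/-!
Galilean invariance: from the extension operator on the square to `E0`.

PROOF PLAN (helper71).
integrable_Fp: Fp f p is measurable, bounded by A and zero outside of a compact square.
norm_extOp_eq: rewrite the set integral as an integral of the indicator, pass to ℝ × ℝ with
MeasurableEquiv.finTwoArrow (volume_preserving_finTwoArrow), translate xi = p + z (integral_add_left_eq_self); the phase is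
2 pi ((p+z).x + |p+z|^2 t) = 2 pi (p.x + |p|^2 t) + z.(2 pi (x + 2 t p)) + 2 pi t |z|^2; the first summand does not depend
on z and gives a factor of norm 1.
eLpNorm_shear: the map y -> ((y.1 0 + y.2 a, y.1 1 + y.2 b), y.2) from (Fin 2 → ℝ) × ℝ to (ℝ × ℝ) × ℝ is measure
preserving (finTwoArrow times id, then a shear: MeasurePreserving.skew_product after Prod.swap, or lintegral_prod_symm
and translation invariance for each t).
eLpNorm_extOp_le: norm_extOp_eq + eLpNorm_congr_norm_ae, eLpNorm_shear applied to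
y -> E0 (Fp f p) ((2 pi y1, 2 pi y2), 2 pi y3), a = 2 p 0, b = 2 p 1, then eLpNorm_diag (RScale), factor <= 1.
adm_Fp: support: |p_i + l z_i| <= 1 gives |z_i| <= (1+R)/(2(1+R)) = 1/2, so |z|^2 <= 1/2 <= 1. var: with
v = (l cos theta, l sin theta), l = 2(1+R), the ray function on Ici 0 is the indicator of
J = {r | 0 <= r and p + r v in the square} (order connected: the square is convex) of r -> f (p + r v); evar_indicator_le,
variation <= A + 2 A (values for r < 0 do not matter: eVariationOn.congr on Ici 0).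
-/

open MeasureTheory Set Filter
open scoped ENNReal NNReal

namespace Pool.Agent.H.MP_b7167f_an.SS

/-- Invariance under the shear. -/
theorem eLpNorm_shear {q : ℝ≥0∞} {F : (ℝ × ℝ) × ℝ → ℂ} (hF : Continuous F) (a b : ℝ) :
    eLpNorm (fun y : (Fin 2 → ℝ) × ℝ => F ((y.1 0 + y.2 * a, y.1 1 + y.2 * b), y.2)) q volume =
      eLpNorm F q volume := by
  have h1 : MeasurePreserving (fun y : (Fin 2 → ℝ) × ℝ => ((y.1 0, y.1 1), y.2))
      (volume : Measure ((Fin 2 → ℝ) × ℝ)) (volume : Measure ((ℝ × ℝ) × ℝ)) :=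
    (volume_preserving_finTwoArrow ℝ).prod (MeasurePreserving.id volume)
  have h2 : MeasurePreserving (fun y : ℝ × (ℝ × ℝ) => (y.1, (y.2.1 + y.1 * a, y.2.2 + y.1 * b)))
      ((volume : Measure ℝ).prod (volume : Measure (ℝ × ℝ)))
      ((volume : Measure ℝ).prod (volume : Measure (ℝ × ℝ))) := by
    refine (MeasurePreserving.id (volume : Measure ℝ)).skew_product
      (g := fun (t : ℝ) (x : ℝ × ℝ) => (x.1 + t * a, x.2 + t * b)) (by
        unfold Function.uncurry
        fun_prop) (Eventually.of_forall fun t => ?_)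
    exact (measurePreserving_add_right (volume : Measure (ℝ × ℝ)) (t * a, t * b)).map_eq
  have h3 : MeasurePreserving (Prod.swap : (ℝ × ℝ) × ℝ → ℝ × (ℝ × ℝ))
      ((volume : Measure (ℝ × ℝ)).prod (volume : Measure ℝ))
      ((volume : Measure ℝ).prod (volume : Measure (ℝ × ℝ))) := Measure.measurePreserving_swap
  have h4 : MeasurePreserving (Prod.swap : ℝ × (ℝ × ℝ) → (ℝ × ℝ) × ℝ)
      ((volume : Measure ℝ).prod (volume : Measure (ℝ × ℝ)))
      ((volume : Measure (ℝ × ℝ)).prod (volume : Measure ℝ)) := Measure.measurePreserving_swap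
  have h5 := (h4.comp (h2.comp h3)).comp h1
  exact eLpNorm_comp_measurePreserving (p := q) hF.aestronglyMeasurable h5

theorem eLpNorm_extOp_le {q : ℝ} (hq : 1 ≤ q) {f : (Fin 2 → ℝ) → ℂ} (hf : Measurable f) {A : ℝ≥0}
    (hA : ∀ ξ, ‖f ξ‖ ≤ A) (p : Fin 2 → ℝ) :
    eLpNorm (extOp 2 f) (ENNReal.ofReal q) volume ≤
      eLpNorm (E0 (Fp f p)) (ENNReal.ofReal q) volume := by
  obtain ⟨F, hF⟩ : ∃ F : (ℝ × ℝ) × ℝ → ℂ, F = fun y => E0 (Fp f p)
      ((2 * Real.pi * y.1.1, 2 * Real.pi * y.1.2), 2 * Real.pi * y.2) := ⟨_, rfl⟩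
  have hE : Continuous (E0 (Fp f p)) := E0_continuous (integrable_Fp hf hA p)
  have hFc : Continuous F := by
    rw [hF]
    exact hE.comp (by fun_prop)
  have h1 : eLpNorm (extOp 2 f) (ENNReal.ofReal q) volume = eLpNorm (fun y : (Fin 2 → ℝ) × ℝ =>
      F ((y.1 0 + y.2 * (2 * p 0), y.1 1 + y.2 * (2 * p 1)), y.2)) (ENNReal.ofReal q) volume := by
    refine eLpNorm_congr_norm_ae (Eventually.of_forall fun y => ?_)
    rw [norm_extOp_eq f p y, hF]
    show _ = ‖E0 (Fp f p) ((2 * Real.pi * (y.1 0 + y.2 * (2 * p 0)),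
      2 * Real.pi * (y.1 1 + y.2 * (2 * p 1))), 2 * Real.pi * y.2)‖
    rw [show y.2 * (2 * p 0) = 2 * y.2 * p 0 by ring,
      show y.2 * (2 * p 1) = 2 * y.2 * p 1 by ring]
  have hpi : 0 < 2 * Real.pi := by positivity
  have h2 : eLpNorm F (ENNReal.ofReal q) volume =
      ENNReal.ofReal ((2 * Real.pi * (2 * Real.pi) * (2 * Real.pi)) ^ (-(1 / q))) *
      eLpNorm (E0 (Fp f p)) (ENNReal.ofReal q) volume := by
    rw [hF]
    exact eLpNorm_diag hq hpi hpi hpi hE
  rw [h1, eLpNorm_shear hFc, h2]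
  have h3 : (1 : ℝ) ≤ 2 * Real.pi := by linarith [Real.pi_gt_three]
  have h4 : (1 : ℝ) ≤ 2 * Real.pi * (2 * Real.pi) * (2 * Real.pi) :=
    one_le_mul_of_one_le_of_one_le (one_le_mul_of_one_le_of_one_le h3 h3) h3
  have h5 : (2 * Real.pi * (2 * Real.pi) * (2 * Real.pi)) ^ (-(1 / q)) ≤ 1 :=
    Real.rpow_le_one_of_one_le_of_nonpos h4 (by
      have : 0 ≤ 1 / q := by positivity
      linarith)
  calc ENNReal.ofReal ((2 * Real.pi * (2 * Real.pi) * (2 * Real.pi)) ^ (-(1 / q))) *
        eLpNorm (E0 (Fp f p)) (ENNReal.ofReal q) volume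
      ≤ 1 * eLpNorm (E0 (Fp f p)) (ENNReal.ofReal q) volume := by
        gcongr
        rw [← ENNReal.ofReal_one]
        exact ENNReal.ofReal_le_ofReal h5
    _ = eLpNorm (E0 (Fp f p)) (ENNReal.ofReal q) volume := one_mul _

end Pool.Agent.H.MP_b7167f_an.SS
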