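import Pool.Agent.H.MP_b7167f_an.SS.RAll
import Pool.Agent.H.MP_b7167f_an.SS.RGal
import Pool.Agent.H.MP_b7167f_an.SS.CoreOdd

/-!
The extension operator on functions of bounded variation along the rays from a point.
-/

open MeasureTheory Set Filter
open scoped ENNReal NNReal

namespace Pool.Agent.H.MP_b7167f_an.SS

theorem core_all (q : ℝ) (hq : 3 < q) :
    ∃ C : ℝ≥0, ∀ h : ℝ × ℝ → ℂ, Adm 1 h → eLpNorm (E0 h) (ENNReal.ofReal q) volume ≤ C := by
  by_cases hq4 : q < 4
  · obtain ⟨C, hC⟩ := core_odd q hq hq4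
    exact all_of_odd (by linarith) hC
  · obtain ⟨C, hC⟩ := core_odd (7 / 2) (by norm_num) (by norm_num)
    obtain ⟨C', hC'⟩ := all_of_odd (q := 7 / 2) (by norm_num) hC
    exact all_larger (by norm_num) (by linarith) hC'

theorem bv_rays (q R : ℝ) (hq : 3 < q) : ∃ C : ℝ≥0, ∀ p : Fin 2 → ℝ, ‖p‖ ≤ R → ∀ A : ℝ≥0,
    ∀ f : (Fin 2 → ℝ) → ℂ, Measurable f → (∀ ξ, ‖f ξ‖ ≤ A) →
    (∀ v : Fin 2 → ℝ, eVariationOn (fun r : ℝ => f (p + r • v))
      {r : ℝ | 0 ≤ r ∧ p + r • v ∈ Icc (fun _ => (-1 : ℝ)) (fun _ => (1 : ℝ))} ≤ A) →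
    eLpNorm (extOp 2 f) (ENNReal.ofReal q) volume ≤ C * A := by
  obtain ⟨C, hC⟩ := core_all q hq
  set R' : ℝ := max R 0 with hR'
  set l : ℝ := 2 * (1 + R') with hl
  have hR0 : 0 ≤ R' := le_max_right _ _
  have hl0 : 0 < l := by positivity
  refine ⟨Real.toNNReal (l ^ (2 - 4 / q)) * (3 * C), ?_⟩
  intro p hp A f hf hA hv
  rcases eq_or_ne A 0 with h0 | h0
  · have e : extOp 2 f = 0 := by
      funext y
      unfold extOp
      have : ∀ ξ, f ξ = 0 := fun ξ => by
        have := hA ξ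
        rw [h0] at this
        simpa using this
      simp [this]
    rw [e]
    simp
  · have hA0 : 0 < (A : ℝ) := by
      have : 0 < A := pos_iff_ne_zero.2 h0
      exact_mod_cast this
    have h1 := adm_Fp hf hA hR0 (hp.trans (le_max_left _ _)) hv
    have h2 := eLpNorm_of_adm (q := ENNReal.ofReal q) (C := C) (P := fun _ => True)
      (fun _ _ _ => trivial) (fun h _ H => hC h H) (M := 3 * A) (by positivity) trivial h1
    calc eLpNorm (extOp 2 f) (ENNReal.ofReal q) volume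
        ≤ eLpNorm (E0 (Fp f p)) (ENNReal.ofReal q) volume :=
          eLpNorm_extOp_le (by linarith) hf hA p
      _ = ENNReal.ofReal (l ^ (2 - 4 / q)) *
          eLpNorm (E0 (fun z => Fp f p (l * z.1, l * z.2))) (ENNReal.ofReal q) volume :=
          eLpNorm_E0_scale (by linarith) hl0 (integrable_Fp hf hA p)
      _ ≤ ENNReal.ofReal (l ^ (2 - 4 / q)) * (ENNReal.ofReal (3 * A) * C) :=
          mul_le_mul' le_rfl h2
      _ = ((Real.toNNReal (l ^ (2 - 4 / q)) * (3 * C) : ℝ≥0) : ℝ≥0∞) * A := by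
          rw [ENNReal.ofReal_mul (by norm_num), ENNReal.ofReal_coe_nnreal]
          push_cast
          rw [ENNReal.ofReal]
          norm_num
          ring

end Pool.Agent.H.MP_b7167f_an.SS
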