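import Pool.Agent.H.MP_b7167f_an.SS.Defs

/-!
PROOF.  Complex Gaussian moments in one variable.  `g1_0` is `integral_cexp_quadratic` (Mathlib,
file Gaussian/FourierTransform) with `b = -A`, `c = -2w`, `d = 0`.  The others by the recursion
`∫ (x^k exp(-A x² - 2 w x))' = 0`, i.e. `k M(k-1) - 2 A M(k+1) - 2 w M(k) = 0` for the moments `M(k)`
(`integral_of_hasDerivAt_of_tendsto` with limits 0, or `integral_eq_zero_of_hasDerivAt_of_integrable`);
integrability of `x^k exp(-A x² - 2 w x)`: its norm is `|x|^k exp(-A.re x² - 2 w.re x)`, bounded by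
`C exp(-A.re x²/2)`; or use `integrable_cexp_quadratic` type lemmas with a smaller `A.re` and
`|x|^k ≤ C exp(c x²)`.
-/

open MeasureTheory Set Complex

namespace Pool.Agent.H.MP_b7167f_an.SS

noncomputable def I0 (A w : ℂ) : ℂ := (Real.pi / A) ^ (1 / 2 : ℂ) * cexp (w ^ 2 / A)

private theorem Gauss1_bound (ε : ℝ) (hε : 0 < ε) (k : ℕ) (x : ℝ) :
    |x| ^ k * Real.exp (-(ε * x ^ 2)) ≤ 1 + (k.factorial : ℝ) / ε ^ k := by
  have h0 : 0 ≤ ε * x ^ 2 := by positivity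
  have h1 := Real.pow_div_factorial_le_exp _ h0 k
  have hk : (0 : ℝ) < k.factorial := by exact_mod_cast k.factorial_pos
  have h2 : (x ^ 2) ^ k ≤ (k.factorial : ℝ) / ε ^ k * Real.exp (ε * x ^ 2) := by
    rw [mul_pow, div_le_iff₀ hk] at h1
    have hε' : 0 < ε ^ k := by positivity
    rw [div_mul_eq_mul_div, le_div_iff₀ hε']
    nlinarith
  have h3 : |x| ^ k ≤ 1 + (x ^ 2) ^ k := by
    rw [← sq_abs, ← pow_mul, mul_comm 2 k, pow_mul]
    have h4 : 0 ≤ |x| ^ k := by positivity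
    nlinarith [sq_nonneg (|x| ^ k - 1), sq_nonneg (|x| ^ k)]
  have h5 : (1 : ℝ) ≤ Real.exp (ε * x ^ 2) := Real.one_le_exp h0
  have h6 : |x| ^ k ≤ (1 + (k.factorial : ℝ) / ε ^ k) * Real.exp (ε * x ^ 2) := by
    calc |x| ^ k ≤ 1 + (x ^ 2) ^ k := h3
      _ ≤ Real.exp (ε * x ^ 2) + (k.factorial : ℝ) / ε ^ k * Real.exp (ε * x ^ 2) :=
          add_le_add h5 h2
      _ = _ := by ring
  rw [Real.exp_neg, ← div_eq_mul_inv, div_le_iff₀ (Real.exp_pos _)]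
  exact h6

theorem g1_int (A w : ℂ) (hA : 0 < A.re) (k : ℕ) :
    Integrable (fun x : ℝ => (x : ℂ) ^ k * cexp (-(A * (x : ℂ) ^ 2) - 2 * w * x)) := by
  obtain ⟨ε, hε⟩ : ∃ ε : ℝ, ε = A.re / 2 := ⟨_, rfl⟩
  have hε0 : 0 < ε := by rw [hε]; linarith
  have h1 : Integrable fun x : ℝ => cexp (-(A - ε) * (x : ℂ) ^ 2 + (-2 * w) * x + 0) := by
    refine integrable_cexp_quadratic' ?_ _ _
    simp only [neg_re, sub_re, ofReal_re]
    rw [hε]
    linarith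
  have h2 : Integrable fun x : ℝ => ((x : ℂ) ^ k * cexp (-(ε * (x : ℂ) ^ 2))) *
      cexp (-(A - ε) * (x : ℂ) ^ 2 + (-2 * w) * x + 0) := by
    refine h1.bdd_mul (c := 1 + (k.factorial : ℝ) / ε ^ k) ?_ ?_
    · refine Continuous.aestronglyMeasurable ?_
      fun_prop
    · refine Filter.Eventually.of_forall fun x => ?_
      rw [norm_mul, norm_pow, norm_real, Complex.norm_exp]
      have h3 : (-((ε : ℂ) * (x : ℂ) ^ 2)).re = -(ε * x ^ 2) := by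
        rw [← ofReal_pow, ← ofReal_mul, ← ofReal_neg, ofReal_re]
      rw [h3]
      exact Gauss1_bound ε hε0 k x
  refine h2.congr (Filter.Eventually.of_forall fun x => ?_)
  show ((x : ℂ) ^ k * cexp (-(ε * (x : ℂ) ^ 2))) *
      cexp (-(A - ε) * (x : ℂ) ^ 2 + (-2 * w) * x + 0) = _
  rw [mul_assoc, ← Complex.exp_add]
  congr 2
  ring

theorem g1_0 (A w : ℂ) (hA : 0 < A.re) :
    ∫ x : ℝ, cexp (-(A * (x : ℂ) ^ 2) - 2 * w * x) = I0 A w := by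
  have h1 := integral_cexp_quadratic (b := -A) (by rw [neg_re]; linarith) (-2 * w) 0
  have hA0 : A ≠ 0 := by
    intro h
    rw [h, zero_re] at hA
    exact lt_irrefl _ hA
  have h2 : (fun x : ℝ => cexp (-(A * (x : ℂ) ^ 2) - 2 * w * x)) =
      fun x : ℝ => cexp (-A * (x : ℂ) ^ 2 + -2 * w * x + 0) := by
    funext x
    congr 1
    ring
  rw [h2, h1, neg_neg]
  unfold I0
  congr 2
  field_simp
  ring

private theorem Gauss1_rec0 (A w : ℂ) (hA : 0 < A.re) :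
    2 * A * ∫ x : ℝ, (x : ℂ) ^ 1 * cexp (-(A * (x : ℂ) ^ 2) - 2 * w * x) =
      -(2 * w) * ∫ x : ℝ, (x : ℂ) ^ 0 * cexp (-(A * (x : ℂ) ^ 2) - 2 * w * x) := by
  have hd : ∀ x : ℝ, HasDerivAt (fun x : ℝ => (x : ℂ) ^ 0 * cexp (-(A * (x : ℂ) ^ 2) - 2 * w * x))
      (-(2 * A) * ((x : ℂ) ^ 1 * cexp (-(A * (x : ℂ) ^ 2) - 2 * w * x)) +
        -(2 * w) * ((x : ℂ) ^ 0 * cexp (-(A * (x : ℂ) ^ 2) - 2 * w * x))) x := by
    intro x
    have h1 : HasDerivAt (fun z : ℂ => -(A * z ^ 2) - 2 * w * z)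
        (-(A * (2 * (x : ℂ))) - 2 * w) (x : ℂ) := by
      refine HasDerivAt.congr_deriv (((hasDerivAt_pow 2 (x : ℂ)).const_mul A).neg.sub
        ((hasDerivAt_id (x : ℂ)).const_mul (2 * w))) ?_
      simp
    have h3 := (h1.cexp).comp_ofReal
    have h4 : (fun x : ℝ => (x : ℂ) ^ 0 * cexp (-(A * (x : ℂ) ^ 2) - 2 * w * x)) =
        fun x : ℝ => cexp (-(A * (x : ℂ) ^ 2) - 2 * w * x) := by
      funext y
      rw [pow_zero, one_mul]
    rw [h4]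
    refine h3.congr_deriv ?_
    ring
  have hi0 := g1_int A w hA 0
  have hi1 := g1_int A w hA 1
  have h5 := integral_eq_zero_of_hasDerivAt_of_integrable hd
    ((hi1.const_mul _).add (hi0.const_mul _)) hi0
  rw [integral_add (hi1.const_mul _) (hi0.const_mul _), integral_const_mul,
    integral_const_mul] at h5
  linear_combination -h5

private theorem Gauss1_rec (A w : ℂ) (hA : 0 < A.re) (n : ℕ) :
    2 * A * ∫ x : ℝ, (x : ℂ) ^ (n + 2) * cexp (-(A * (x : ℂ) ^ 2) - 2 * w * x) =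
      (n + 1 : ℂ) * (∫ x : ℝ, (x : ℂ) ^ n * cexp (-(A * (x : ℂ) ^ 2) - 2 * w * x)) -
      (2 * w) * ∫ x : ℝ, (x : ℂ) ^ (n + 1) * cexp (-(A * (x : ℂ) ^ 2) - 2 * w * x) := by
  have hd : ∀ x : ℝ, HasDerivAt
      (fun x : ℝ => (x : ℂ) ^ (n + 1) * cexp (-(A * (x : ℂ) ^ 2) - 2 * w * x))
      ((n + 1 : ℂ) * ((x : ℂ) ^ n * cexp (-(A * (x : ℂ) ^ 2) - 2 * w * x)) +
        (-(2 * A) * ((x : ℂ) ^ (n + 2) * cexp (-(A * (x : ℂ) ^ 2) - 2 * w * x)) +
        -(2 * w) * ((x : ℂ) ^ (n + 1) * cexp (-(A * (x : ℂ) ^ 2) - 2 * w * x)))) x := by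
    intro x
    have h1 : HasDerivAt (fun z : ℂ => -(A * z ^ 2) - 2 * w * z)
        (-(A * (2 * (x : ℂ))) - 2 * w) (x : ℂ) := by
      refine HasDerivAt.congr_deriv (((hasDerivAt_pow 2 (x : ℂ)).const_mul A).neg.sub
        ((hasDerivAt_id (x : ℂ)).const_mul (2 * w))) ?_
      simp
    have h3 := ((hasDerivAt_pow (n + 1) (x : ℂ)).mul h1.cexp).comp_ofReal
    refine h3.congr_deriv ?_
    rw [Nat.add_sub_cancel]
    push_cast
    ring
  have hi0 := g1_int A w hA n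
  have hi1 := g1_int A w hA (n + 1)
  have hi2 := g1_int A w hA (n + 2)
  have h5 := integral_eq_zero_of_hasDerivAt_of_integrable hd
    ((hi0.const_mul _).add ((hi2.const_mul _).add (hi1.const_mul _))) hi1
  have h6 : Integrable (fun x : ℝ =>
      -(2 * A) * ((x : ℂ) ^ (n + 2) * cexp (-(A * (x : ℂ) ^ 2) - 2 * w * x)) +
        -(2 * w) * ((x : ℂ) ^ (n + 1) * cexp (-(A * (x : ℂ) ^ 2) - 2 * w * x))) :=
    (hi2.const_mul _).add (hi1.const_mul _)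
  rw [integral_add (hi0.const_mul _) h6,
    integral_add (hi2.const_mul _) (hi1.const_mul _), integral_const_mul,
    integral_const_mul, integral_const_mul] at h5
  linear_combination -h5

private theorem Gauss1_ne {A : ℂ} (hA : 0 < A.re) : A ≠ 0 := by
  intro h
  rw [h, zero_re] at hA
  exact lt_irrefl _ hA

private theorem Gauss1_m0 (A w : ℂ) (hA : 0 < A.re) :
    ∫ x : ℝ, (x : ℂ) ^ 0 * cexp (-(A * (x : ℂ) ^ 2) - 2 * w * x) = I0 A w := by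
  rw [← g1_0 A w hA]
  refine integral_congr_ae (Filter.Eventually.of_forall fun x => ?_)
  show (x : ℂ) ^ 0 * _ = _
  rw [pow_zero, one_mul]

private theorem Gauss1_m1 (A w : ℂ) (hA : 0 < A.re) :
    ∫ x : ℝ, (x : ℂ) ^ 1 * cexp (-(A * (x : ℂ) ^ 2) - 2 * w * x) = -(w / A) * I0 A w := by
  have hA0 := Gauss1_ne hA
  have h1 := Gauss1_rec0 A w hA
  rw [Gauss1_m0 A w hA] at h1
  have h2 : (2 * A) ≠ 0 := mul_ne_zero two_ne_zero hA0
  apply mul_left_cancel₀ h2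
  rw [h1]
  field_simp

theorem g1_1 (A w : ℂ) (hA : 0 < A.re) :
    ∫ x : ℝ, (x : ℂ) * cexp (-(A * (x : ℂ) ^ 2) - 2 * w * x) = -(w / A) * I0 A w := by
  rw [← Gauss1_m1 A w hA]
  refine integral_congr_ae (Filter.Eventually.of_forall fun x => ?_)
  show (x : ℂ) * _ = (x : ℂ) ^ 1 * _
  rw [pow_one]

theorem g1_2 (A w : ℂ) (hA : 0 < A.re) :
    ∫ x : ℝ, (x : ℂ) ^ 2 * cexp (-(A * (x : ℂ) ^ 2) - 2 * w * x)
      = (1 / (2 * A) + w ^ 2 / A ^ 2) * I0 A w := by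
  have hA0 := Gauss1_ne hA
  have h1 := Gauss1_rec A w hA 0
  rw [Gauss1_m0 A w hA, Gauss1_m1 A w hA] at h1
  have h2 : (2 * A) ≠ 0 := mul_ne_zero two_ne_zero hA0
  apply mul_left_cancel₀ h2
  rw [h1]
  push_cast
  field_simp
  ring

theorem g1_3 (A w : ℂ) (hA : 0 < A.re) :
    ∫ x : ℝ, (x : ℂ) ^ 3 * cexp (-(A * (x : ℂ) ^ 2) - 2 * w * x)
      = -(3 * w / (2 * A ^ 2) + w ^ 3 / A ^ 3) * I0 A w := by
  have hA0 := Gauss1_ne hA
  have h1 := Gauss1_rec A w hA 1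
  rw [Gauss1_m1 A w hA, show (1 + 1 : ℕ) = 2 from rfl, g1_2 A w hA] at h1
  have h2 : (2 * A) ≠ 0 := mul_ne_zero two_ne_zero hA0
  apply mul_left_cancel₀ h2
  rw [h1]
  push_cast
  field_simp
  ring

theorem g1_4 (A w : ℂ) (hA : 0 < A.re) :
    ∫ x : ℝ, (x : ℂ) ^ 4 * cexp (-(A * (x : ℂ) ^ 2) - 2 * w * x)
      = (3 / (4 * A ^ 2) + 3 * w ^ 2 / A ^ 3 + w ^ 4 / A ^ 4) * I0 A w := by
  have hA0 := Gauss1_ne hA
  have h1 := Gauss1_rec A w hA 2
  rw [show (2 + 1 : ℕ) = 3 from rfl, g1_2 A w hA, g1_3 A w hA] at h1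
  have h2 : (2 * A) ≠ 0 := mul_ne_zero two_ne_zero hA0
  apply mul_left_cancel₀ h2
  rw [h1]
  push_cast
  field_simp
  ring

end Pool.Agent.H.MP_b7167f_an.SS
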