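import Pool.Agent.H.MP_b7167f_an.SS.Gauss1

/-!
PROOF.  Two dimensional complex Gaussian moments of 2 and 4 linear forms (only the modulus of the
normalising constant `Z` is stated, so no branch of the square root matters).
Put `D = C - B²/A`.  Then `0 < D.re`: with `A = a + i a'`, `B = b + i b'` one has
`Re (B²/A) ≤ b²/a` because `b²(a²+a'²) - ((b²-b'²)a² + 2 b b' a a') = (b'a - b a')²`, and
`b² < a C.re`.  Fubini (`integral_prod`; integrability on `ℝ × ℝ`: the norm of the integrand is at most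
`|x|^k exp(-c|x|²)`, `c > 0`, since the real part of `qf` is a positive definite form), inner integral
over `x.1` by `g1_k` with `w = B x.2`, which gives `I0 A (B y) = (π/A)^(1/2) exp(B² y²/A)` times a
polynomial in `y = x.2`; outer integral by `g1_k` with `A` replaced by `D` and `w = 0`.
`Z = (π/A)^(1/2) (π/D)^(1/2)`, `‖Z‖ = √(π/‖A‖) √(π/‖D‖) = π/√‖A D‖`, `A D = A C - B²`
(`‖z ^ (1/2)‖ = ‖z‖ ^ (1/2)`: `Complex.norm_cpow_eq_rpow_re_of_pos` does not apply, use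
`Complex.norm_cpow_of_ne_zero` or `(z^(1/2))^2 = z`, `Complex.cpow_nat_inv_pow`).
The covariances: `E x² = C/(2 det)`, `E xy = -B/(2 det)`, `E y² = A/(2 det)`, `det = A C - B²`, and for
four factors the sum over the three pairings; expand the product of the `dt`s in monomials
`x^(4-j) y^j` and check with `field_simp; ring`.
-/

open MeasureTheory Set Complex

namespace Pool.Agent.H.MP_b7167f_an.SS

theorem Gauss2_qf_re (A B C : ℂ) (x : ℝ × ℝ) :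
    (qf A B C x).re = A.re * x.1 ^ 2 + 2 * B.re * x.1 * x.2 + C.re * x.2 ^ 2 := by
  unfold qf
  have h1 : (A * (x.1 : ℂ) ^ 2).re = A.re * x.1 ^ 2 := by
    rw [← Complex.ofReal_pow, Complex.re_mul_ofReal]
  have h2 : (2 * B * (x.1 : ℂ) * (x.2 : ℂ)).re = 2 * B.re * x.1 * x.2 := by
    rw [Complex.re_mul_ofReal, Complex.re_mul_ofReal]
    simp
  have h3 : (C * (x.2 : ℂ) ^ 2).re = C.re * x.2 ^ 2 := by
    rw [← Complex.ofReal_pow, Complex.re_mul_ofReal]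
  rw [Complex.add_re, Complex.add_re, h1, h2, h3]

/-- The real part of `qf` is positive definite. -/
theorem qf_re_pos (A B C : ℂ) (hA : 0 < A.re) (hdet : B.re ^ 2 < A.re * C.re) :
    ∃ c : ℝ, 0 < c ∧ ∀ x : ℝ × ℝ, c * (x.1 ^ 2 + x.2 ^ 2) ≤ (qf A B C x).re := by
  have hC : 0 < C.re := by
    by_contra h
    have h1 : A.re * C.re ≤ 0 := mul_nonpos_of_nonneg_of_nonpos hA.le (not_lt.1 h)
    have h2 := sq_nonneg B.re
    linarith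
  have hT : 0 < A.re + C.re := by linarith
  refine ⟨(A.re * C.re - B.re ^ 2) / (A.re + C.re), div_pos (by linarith) hT, fun x => ?_⟩
  rw [Gauss2_qf_re, div_mul_eq_mul_div, div_le_iff₀ hT]
  nlinarith [sq_nonneg (A.re * x.1 + B.re * x.2), sq_nonneg (B.re * x.1 + C.re * x.2)]

theorem schur_re_pos (A B C : ℂ) (hA : 0 < A.re) (hdet : B.re ^ 2 < A.re * C.re) :
    0 < (C - B ^ 2 / A).re := by
  have hN : 0 < Complex.normSq A := Complex.normSq_pos.2 (fun h => by simp [h] at hA)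
  have h1 : (B ^ 2 / A).re =
      ((B.re ^ 2 - B.im ^ 2) * A.re + 2 * B.re * B.im * A.im) / Complex.normSq A := by
    rw [Complex.div_re, ← add_div]
    congr 1
    have h2 : (B ^ 2).re = B.re ^ 2 - B.im ^ 2 := by rw [sq, Complex.mul_re]; ring
    have h3 : (B ^ 2).im = 2 * B.re * B.im := by rw [sq, Complex.mul_im]; ring
    rw [h2, h3]
  rw [Complex.sub_re, h1, sub_pos, div_lt_iff₀ hN]
  have h4 : Complex.normSq A = A.re ^ 2 + A.im ^ 2 := by rw [Complex.normSq_apply]; ring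
  rw [h4] at hN ⊢
  have h5 : B.re ^ 2 * (A.re ^ 2 + A.im ^ 2) < A.re * C.re * (A.re ^ 2 + A.im ^ 2) :=
    mul_lt_mul_of_pos_right hdet hN
  have h6 : A.re * ((B.re ^ 2 - B.im ^ 2) * A.re + 2 * B.re * B.im * A.im) <
      A.re * (C.re * (A.re ^ 2 + A.im ^ 2)) := by
    nlinarith [sq_nonneg (B.im * A.re - B.re * A.im)]
  exact lt_of_mul_lt_mul_left h6 hA.le

theorem Gauss2_cont (A B C : ℂ) (j k : ℕ) :
    Continuous (fun x : ℝ × ℝ => (x.1 : ℂ) ^ j * (x.2 : ℂ) ^ k * cexp (-qf A B C x)) := by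
  unfold qf
  fun_prop

theorem g2_mono (A B C : ℂ) (hA : 0 < A.re) (hdet : B.re ^ 2 < A.re * C.re) (j k : ℕ) :
    Integrable (fun x : ℝ × ℝ => (x.1 : ℂ) ^ j * (x.2 : ℂ) ^ k * cexp (-qf A B C x)) := by
  obtain ⟨c, hc, hq⟩ := qf_re_pos A B C hA hdet
  have hF := (g1_int (c : ℂ) 0 (by simpa using hc) j).mul_prod (ν := volume)
    (g1_int (c : ℂ) 0 (by simpa using hc) k)
  rw [← Measure.volume_eq_prod] at hF
  refine hF.mono (Gauss2_cont A B C j k).aestronglyMeasurable (Filter.Eventually.of_forall ?_)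
  intro x
  have hn : ∀ y : ℝ, ‖cexp (-((c : ℂ) * (y : ℂ) ^ 2) - 2 * 0 * y)‖ = Real.exp (-(c * y ^ 2)) := by
    intro y
    rw [Complex.norm_exp]
    congr 1
    have : (-((c : ℂ) * (y : ℂ) ^ 2) - 2 * 0 * y) = ((-(c * y ^ 2) : ℝ) : ℂ) := by
      push_cast
      ring
    rw [this, Complex.ofReal_re]
  simp only [norm_mul, hn, Complex.norm_exp, Complex.neg_re]
  have h1 : Real.exp (-(qf A B C x).re) ≤ Real.exp (-(c * x.1 ^ 2)) * Real.exp (-(c * x.2 ^ 2)) := by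
    rw [← Real.exp_add]
    refine Real.exp_le_exp.2 ?_
    have := hq x
    linarith
  calc ‖(x.1 : ℂ) ^ j‖ * ‖(x.2 : ℂ) ^ k‖ * Real.exp (-(qf A B C x).re)
      ≤ ‖(x.1 : ℂ) ^ j‖ * ‖(x.2 : ℂ) ^ k‖ *
        (Real.exp (-(c * x.1 ^ 2)) * Real.exp (-(c * x.2 ^ 2))) :=
        mul_le_mul_of_nonneg_left h1 (by positivity)
    _ = ‖(x.1 : ℂ) ^ j‖ * Real.exp (-(c * x.1 ^ 2)) *
        (‖(x.2 : ℂ) ^ k‖ * Real.exp (-(c * x.2 ^ 2))) := by ring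

/-- The inner integral. -/
theorem Gauss2_fub (A B C : ℂ) (hA : 0 < A.re) (hdet : B.re ^ 2 < A.re * C.re) (j k : ℕ)
    (P : ℝ → ℂ) (hP : ∀ y : ℝ, ∫ x : ℝ, (x : ℂ) ^ j * cexp (-(A * (x : ℂ) ^ 2) - 2 * (B * y) * x) =
      P y * I0 A (B * y)) :
    ∫ x : ℝ × ℝ, (x.1 : ℂ) ^ j * (x.2 : ℂ) ^ k * cexp (-qf A B C x) =
      (Real.pi / A) ^ (1 / 2 : ℂ) * ∫ y : ℝ, P y * (y : ℂ) ^ k *
        cexp (-((C - B ^ 2 / A) * (y : ℂ) ^ 2) - 2 * 0 * y) := by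
  have hi := g2_mono A B C hA hdet j k
  rw [Measure.volume_eq_prod] at hi ⊢
  rw [integral_prod_symm _ hi, ← integral_const_mul]
  refine integral_congr_ae (Filter.Eventually.of_forall fun y => ?_)
  dsimp only
  have h1 : (fun x : ℝ => (x : ℂ) ^ j * (y : ℂ) ^ k * cexp (-qf A B C (x, y))) =
      fun x : ℝ => ((y : ℂ) ^ k * cexp (-(C * (y : ℂ) ^ 2))) *
        ((x : ℂ) ^ j * cexp (-(A * (x : ℂ) ^ 2) - 2 * (B * y) * x)) := by
    funext x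
    have h2 : cexp (-qf A B C (x, y)) =
        cexp (-(C * (y : ℂ) ^ 2)) * cexp (-(A * (x : ℂ) ^ 2) - 2 * (B * y) * x) := by
      rw [← Complex.exp_add]
      congr 1
      unfold qf
      ring
    rw [h2]
    ring
  rw [h1, integral_const_mul, hP y]
  unfold I0
  have h3 : cexp (-((C - B ^ 2 / A) * (y : ℂ) ^ 2) - 2 * 0 * y) =
      cexp (-(C * (y : ℂ) ^ 2)) * cexp ((B * y) ^ 2 / A) := by
    rw [← Complex.exp_add]
    congr 1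
    ring
  rw [h3]
  ring

theorem Gauss2_lin3 {α : Type*} [MeasurableSpace α] {μ : Measure α} {f0 f1 f2 : α → ℂ}
    (h0 : Integrable f0 μ) (h1 : Integrable f1 μ) (h2 : Integrable f2 μ) (a0 a1 a2 : ℂ) :
    ∫ x, (a0 * f0 x + a1 * f1 x) + a2 * f2 x ∂μ =
      a0 * ∫ x, f0 x ∂μ + a1 * ∫ x, f1 x ∂μ + a2 * ∫ x, f2 x ∂μ := by
  have e0 : Integrable (fun x => a0 * f0 x) μ := h0.const_mul a0
  have e1 : Integrable (fun x => a1 * f1 x) μ := h1.const_mul a1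
  have e2 : Integrable (fun x => a2 * f2 x) μ := h2.const_mul a2
  have e01 : Integrable (fun x => a0 * f0 x + a1 * f1 x) μ := e0.add e1
  rw [integral_add e01 e2, integral_add e0 e1, integral_const_mul, integral_const_mul,
    integral_const_mul]

theorem Gauss2_lin5 {α : Type*} [MeasurableSpace α] {μ : Measure α} {f0 f1 f2 f3 f4 : α → ℂ}
    (h0 : Integrable f0 μ) (h1 : Integrable f1 μ) (h2 : Integrable f2 μ) (h3 : Integrable f3 μ)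
    (h4 : Integrable f4 μ) (a0 a1 a2 a3 a4 : ℂ) :
    ∫ x, (((a0 * f0 x + a1 * f1 x) + a2 * f2 x) + a3 * f3 x) + a4 * f4 x ∂μ =
      a0 * ∫ x, f0 x ∂μ + a1 * ∫ x, f1 x ∂μ + a2 * ∫ x, f2 x ∂μ + a3 * ∫ x, f3 x ∂μ +
        a4 * ∫ x, f4 x ∂μ := by
  have e0 : Integrable (fun x => a0 * f0 x) μ := h0.const_mul a0
  have e1 : Integrable (fun x => a1 * f1 x) μ := h1.const_mul a1
  have e2 : Integrable (fun x => a2 * f2 x) μ := h2.const_mul a2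
  have e3 : Integrable (fun x => a3 * f3 x) μ := h3.const_mul a3
  have e4 : Integrable (fun x => a4 * f4 x) μ := h4.const_mul a4
  have e01 : Integrable (fun x => a0 * f0 x + a1 * f1 x) μ := e0.add e1
  have e02 : Integrable (fun x => (a0 * f0 x + a1 * f1 x) + a2 * f2 x) μ := e01.add e2
  have e03 : Integrable (fun x => ((a0 * f0 x + a1 * f1 x) + a2 * f2 x) + a3 * f3 x) μ :=
    e02.add e3
  rw [integral_add e03 e4, integral_add e02 e3, integral_add e01 e2, integral_add e0 e1,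
    integral_const_mul, integral_const_mul, integral_const_mul, integral_const_mul,
    integral_const_mul]

/-- The outer integral. -/
theorem Gauss2_outer (D : ℂ) (hD : 0 < D.re) (p0 p2 p4 : ℂ) :
    ∫ y : ℝ, (p0 + p2 * (y : ℂ) ^ 2 + p4 * (y : ℂ) ^ 4) *
      cexp (-(D * (y : ℂ) ^ 2) - 2 * 0 * y) =
      (p0 + p2 / (2 * D) + p4 * (3 / (4 * D ^ 2))) * I0 D 0 := by
  have i0 := g1_int D 0 hD 0
  have i2 := g1_int D 0 hD 2
  have i4 := g1_int D 0 hD 4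
  have h1 : (fun y : ℝ => (p0 + p2 * (y : ℂ) ^ 2 + p4 * (y : ℂ) ^ 4) *
      cexp (-(D * (y : ℂ) ^ 2) - 2 * 0 * y)) = fun y : ℝ =>
      (p0 * ((y : ℂ) ^ 0 * cexp (-(D * (y : ℂ) ^ 2) - 2 * 0 * y)) +
        p2 * ((y : ℂ) ^ 2 * cexp (-(D * (y : ℂ) ^ 2) - 2 * 0 * y))) +
        p4 * ((y : ℂ) ^ 4 * cexp (-(D * (y : ℂ) ^ 2) - 2 * 0 * y)) := by
    funext y
    ring
  rw [h1, Gauss2_lin3 i0 i2 i4 p0 p2 p4, g1_2 D 0 hD, g1_4 D 0 hD]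
  have h0 : ∫ y : ℝ, (y : ℂ) ^ 0 * cexp (-(D * (y : ℂ) ^ 2) - 2 * 0 * y) = I0 D 0 := by
    rw [← g1_0 D 0 hD]
    simp only [pow_zero, one_mul]
  rw [h0]
  have hD0 : D ≠ 0 := fun h => by simp [h] at hD
  field_simp
  ring

theorem Gauss2_mom (A B C : ℂ) (hA : 0 < A.re) (hdet : B.re ^ 2 < A.re * C.re) (j k : ℕ)
    (P : ℝ → ℂ) (hP : ∀ y : ℝ, ∫ x : ℝ, (x : ℂ) ^ j * cexp (-(A * (x : ℂ) ^ 2) - 2 * (B * y) * x) =
      P y * I0 A (B * y)) (p0 p2 p4 : ℂ)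
    (hp : ∀ y : ℝ, P y * (y : ℂ) ^ k = p0 + p2 * (y : ℂ) ^ 2 + p4 * (y : ℂ) ^ 4) :
    ∫ x : ℝ × ℝ, (x.1 : ℂ) ^ j * (x.2 : ℂ) ^ k * cexp (-qf A B C x) =
      ((Real.pi / A) ^ (1 / 2 : ℂ) * I0 (C - B ^ 2 / A) 0) *
        (p0 + p2 / (2 * (C - B ^ 2 / A)) + p4 * (3 / (4 * (C - B ^ 2 / A) ^ 2))) := by
  rw [Gauss2_fub A B C hA hdet j k P hP]
  simp only [hp]
  rw [Gauss2_outer _ (schur_re_pos A B C hA hdet)]
  ring

theorem Gauss2_norm (A B C : ℂ) (hA : 0 < A.re) :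
    ‖(Real.pi / A) ^ (1 / 2 : ℂ) * I0 (C - B ^ 2 / A) 0‖ =
      Real.pi / Real.sqrt ‖A * C - B ^ 2‖ := by
  have hA0 : A ≠ 0 := fun h => by simp [h] at hA
  have hn : ∀ z : ℂ, ‖z ^ (1 / 2 : ℂ)‖ = Real.sqrt ‖z‖ := by
    intro z
    have : (1 / 2 : ℂ) = ((1 / 2 : ℝ) : ℂ) := by push_cast; ring
    rw [this, Complex.norm_cpow_real, Real.sqrt_eq_rpow]
  have hdet' : A * C - B ^ 2 = A * (C - B ^ 2 / A) := by
    field_simp
  unfold I0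
  rw [norm_mul, norm_mul, hn, hn, hdet']
  have h1 : cexp (0 ^ 2 / (C - B ^ 2 / A)) = 1 := by
    rw [zero_pow two_ne_zero, zero_div, Complex.exp_zero]
  rw [h1, norm_one, mul_one, norm_div, norm_div, norm_mul, Complex.norm_real,
    Real.norm_of_nonneg Real.pi_pos.le, Real.sqrt_div Real.pi_pos.le, Real.sqrt_div Real.pi_pos.le,
    Real.sqrt_mul (norm_nonneg _), div_mul_div_comm, Real.mul_self_sqrt Real.pi_pos.le]

theorem gauss2 (A B C : ℂ) (hA : 0 < A.re) (hdet : B.re ^ 2 < A.re * C.re) :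
    ∃ Z : ℂ, ‖Z‖ = Real.pi / Real.sqrt ‖A * C - B ^ 2‖ ∧
      (∀ θ φ : ℝ, ∫ x : ℝ × ℝ, (dt x θ : ℂ) * (dt x φ : ℂ) * cexp (-qf A B C x)
        = Z * (NN A B C θ φ / (2 * (A * C - B ^ 2)))) ∧
      (∀ θ₁ θ₂ θ₃ θ₄ : ℝ, ∫ x : ℝ × ℝ, (dt x θ₁ : ℂ) * (dt x θ₂ : ℂ) * (dt x θ₃ : ℂ) *
          (dt x θ₄ : ℂ) * cexp (-qf A B C x)
        = Z * ((NN A B C θ₁ θ₂ * NN A B C θ₃ θ₄ + NN A B C θ₁ θ₃ * NN A B C θ₂ θ₄ +
            NN A B C θ₁ θ₄ * NN A B C θ₂ θ₃) / (4 * (A * C - B ^ 2) ^ 2))) := by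
  have hA0 : A ≠ 0 := fun h => by simp [h] at hA
  have hDre := schur_re_pos A B C hA hdet
  obtain ⟨D, hD⟩ : ∃ D, D = C - B ^ 2 / A := ⟨_, rfl⟩
  rw [← hD] at hDre
  have hD0 : D ≠ 0 := fun h => by simp [h] at hDre
  have hdt : A * C - B ^ 2 = A * D := by rw [hD]; field_simp
  have hC : C = D + B ^ 2 / A := by rw [hD]; ring
  obtain ⟨Z, hZ⟩ : ∃ Z, Z = (Real.pi / A) ^ (1 / 2 : ℂ) * I0 (C - B ^ 2 / A) 0 := ⟨_, rfl⟩
  have hnorm := Gauss2_norm A B C hA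
  have P0 : ∀ y : ℝ, ∫ x : ℝ, (x : ℂ) ^ 0 * cexp (-(A * (x : ℂ) ^ 2) - 2 * (B * y) * x) =
      (fun _ : ℝ => (1 : ℂ)) y * I0 A (B * y) := by
    intro y
    rw [← g1_0 A (B * y) hA]
    simp only [pow_zero, one_mul]
  have P1 : ∀ y : ℝ, ∫ x : ℝ, (x : ℂ) ^ 1 * cexp (-(A * (x : ℂ) ^ 2) - 2 * (B * y) * x) =
      (fun y : ℝ => -(B * y / A)) y * I0 A (B * y) := by
    intro y
    simp only [pow_one]
    exact g1_1 A (B * y) hA
  have P2 := fun y : ℝ => g1_2 A (B * y) hA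
  have P3 := fun y : ℝ => g1_3 A (B * y) hA
  have P4 := fun y : ℝ => g1_4 A (B * y) hA
  have m20 := Gauss2_mom A B C hA hdet 2 0 (fun y : ℝ => 1 / (2 * A) + (B * y) ^ 2 / A ^ 2) P2
    (1 / (2 * A)) (B ^ 2 / A ^ 2) 0 (fun y => by ring)
  have m11 := Gauss2_mom A B C hA hdet 1 1 (fun y : ℝ => -(B * y / A)) P1
    0 (-(B / A)) 0 (fun y => by ring)
  have m02 := Gauss2_mom A B C hA hdet 0 2 (fun _ : ℝ => (1 : ℂ)) P0
    0 1 0 (fun y => by ring)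
  have m40 := Gauss2_mom A B C hA hdet 4 0
    (fun y : ℝ => 3 / (4 * A ^ 2) + 3 * (B * y) ^ 2 / A ^ 3 + (B * y) ^ 4 / A ^ 4) P4
    (3 / (4 * A ^ 2)) (3 * B ^ 2 / A ^ 3) (B ^ 4 / A ^ 4) (fun y => by ring)
  have m31 := Gauss2_mom A B C hA hdet 3 1
    (fun y : ℝ => -(3 * (B * y) / (2 * A ^ 2) + (B * y) ^ 3 / A ^ 3)) P3
    0 (-(3 * B / (2 * A ^ 2))) (-(B ^ 3 / A ^ 3)) (fun y => by ring)
  have m22 := Gauss2_mom A B C hA hdet 2 2 (fun y : ℝ => 1 / (2 * A) + (B * y) ^ 2 / A ^ 2) P2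
    0 (1 / (2 * A)) (B ^ 2 / A ^ 2) (fun y => by ring)
  have m13 := Gauss2_mom A B C hA hdet 1 3 (fun y : ℝ => -(B * y / A)) P1
    0 0 (-(B / A)) (fun y => by ring)
  have m04 := Gauss2_mom A B C hA hdet 0 4 (fun _ : ℝ => (1 : ℂ)) P0
    0 0 1 (fun y => by ring)
  rw [← hZ] at hnorm m20 m11 m02 m40 m31 m22 m13 m04
  rw [← hD] at m20 m11 m02 m40 m31 m22 m13 m04
  have i := g2_mono A B C hA hdet
  refine ⟨Z, hnorm, fun θ φ => ?_, fun θ₁ θ₂ θ₃ θ₄ => ?_⟩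
  · obtain ⟨c1, hc1⟩ : ∃ c : ℂ, c = (Real.cos θ : ℂ) := ⟨_, rfl⟩
    obtain ⟨s1, hs1⟩ : ∃ c : ℂ, c = (Real.sin θ : ℂ) := ⟨_, rfl⟩
    obtain ⟨c2, hc2⟩ : ∃ c : ℂ, c = (Real.cos φ : ℂ) := ⟨_, rfl⟩
    obtain ⟨s2, hs2⟩ : ∃ c : ℂ, c = (Real.sin φ : ℂ) := ⟨_, rfl⟩
    have h1 : (fun x : ℝ × ℝ => (dt x θ : ℂ) * (dt x φ : ℂ) * cexp (-qf A B C x)) =
        fun x : ℝ × ℝ =>
          ((c1 * c2) * ((x.1 : ℂ) ^ 2 * (x.2 : ℂ) ^ 0 * cexp (-qf A B C x)) +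
          (c1 * s2 + s1 * c2) * ((x.1 : ℂ) ^ 1 * (x.2 : ℂ) ^ 1 * cexp (-qf A B C x))) +
          (s1 * s2) * ((x.1 : ℂ) ^ 0 * (x.2 : ℂ) ^ 2 * cexp (-qf A B C x)) := by
      funext x
      unfold dt
      rw [hc1, hs1, hc2, hs2]
      push_cast
      ring
    have h2 : NN A B C θ φ = A * (s1 * s2) - B * (s1 * c2 + c1 * s2) + C * (c1 * c2) := by
      unfold NN
      rw [hc1, hs1, hc2, hs2]
      push_cast
      ring
    rw [h1, Gauss2_lin3 (i 2 0) (i 1 1) (i 0 2), m20, m11, m02, h2, hdt, hC]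
    field_simp
    ring
  · obtain ⟨c1, hc1⟩ : ∃ c : ℂ, c = (Real.cos θ₁ : ℂ) := ⟨_, rfl⟩
    obtain ⟨s1, hs1⟩ : ∃ c : ℂ, c = (Real.sin θ₁ : ℂ) := ⟨_, rfl⟩
    obtain ⟨c2, hc2⟩ : ∃ c : ℂ, c = (Real.cos θ₂ : ℂ) := ⟨_, rfl⟩
    obtain ⟨s2, hs2⟩ : ∃ c : ℂ, c = (Real.sin θ₂ : ℂ) := ⟨_, rfl⟩
    obtain ⟨c3, hc3⟩ : ∃ c : ℂ, c = (Real.cos θ₃ : ℂ) := ⟨_, rfl⟩
    obtain ⟨s3, hs3⟩ : ∃ c : ℂ, c = (Real.sin θ₃ : ℂ) := ⟨_, rfl⟩
    obtain ⟨c4, hc4⟩ : ∃ c : ℂ, c = (Real.cos θ₄ : ℂ) := ⟨_, rfl⟩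
    obtain ⟨s4, hs4⟩ : ∃ c : ℂ, c = (Real.sin θ₄ : ℂ) := ⟨_, rfl⟩
    have h1 : (fun x : ℝ × ℝ => (dt x θ₁ : ℂ) * (dt x θ₂ : ℂ) * (dt x θ₃ : ℂ) * (dt x θ₄ : ℂ) *
          cexp (-qf A B C x)) =
        fun x : ℝ × ℝ =>
          ((((c1 * c2 * c3 * c4) * ((x.1 : ℂ) ^ 4 * (x.2 : ℂ) ^ 0 * cexp (-qf A B C x)) +
          (s1 * c2 * c3 * c4 + c1 * s2 * c3 * c4 + c1 * c2 * s3 * c4 + c1 * c2 * c3 * s4) *
            ((x.1 : ℂ) ^ 3 * (x.2 : ℂ) ^ 1 * cexp (-qf A B C x))) +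
          (s1 * s2 * c3 * c4 + s1 * c2 * s3 * c4 + s1 * c2 * c3 * s4 + c1 * s2 * s3 * c4 +
            c1 * s2 * c3 * s4 + c1 * c2 * s3 * s4) *
            ((x.1 : ℂ) ^ 2 * (x.2 : ℂ) ^ 2 * cexp (-qf A B C x))) +
          (c1 * s2 * s3 * s4 + s1 * c2 * s3 * s4 + s1 * s2 * c3 * s4 + s1 * s2 * s3 * c4) *
            ((x.1 : ℂ) ^ 1 * (x.2 : ℂ) ^ 3 * cexp (-qf A B C x))) +
          (s1 * s2 * s3 * s4) *
            ((x.1 : ℂ) ^ 0 * (x.2 : ℂ) ^ 4 * cexp (-qf A B C x)) := by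
      funext x
      unfold dt
      rw [hc1, hs1, hc2, hs2, hc3, hs3, hc4, hs4]
      push_cast
      ring
    have n12 : NN A B C θ₁ θ₂ = A * (s1 * s2) - B * (s1 * c2 + c1 * s2) + C * (c1 * c2) := by
      unfold NN
      rw [hc1, hs1, hc2, hs2]
      push_cast
      ring
    have n34 : NN A B C θ₃ θ₄ = A * (s3 * s4) - B * (s3 * c4 + c3 * s4) + C * (c3 * c4) := by
      unfold NN
      rw [hc3, hs3, hc4, hs4]
      push_cast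
      ring
    have n13 : NN A B C θ₁ θ₃ = A * (s1 * s3) - B * (s1 * c3 + c1 * s3) + C * (c1 * c3) := by
      unfold NN
      rw [hc1, hs1, hc3, hs3]
      push_cast
      ring
    have n24 : NN A B C θ₂ θ₄ = A * (s2 * s4) - B * (s2 * c4 + c2 * s4) + C * (c2 * c4) := by
      unfold NN
      rw [hc2, hs2, hc4, hs4]
      push_cast
      ring
    have n14 : NN A B C θ₁ θ₄ = A * (s1 * s4) - B * (s1 * c4 + c1 * s4) + C * (c1 * c4) := by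
      unfold NN
      rw [hc1, hs1, hc4, hs4]
      push_cast
      ring
    have n23 : NN A B C θ₂ θ₃ = A * (s2 * s3) - B * (s2 * c3 + c2 * s3) + C * (c2 * c3) := by
      unfold NN
      rw [hc2, hs2, hc3, hs3]
      push_cast
      ring
    rw [h1, Gauss2_lin5 (i 4 0) (i 3 1) (i 2 2) (i 1 3) (i 0 4),
      m40, m31, m22, m13, m04, n12, n34, n13, n24, n14, n23, hdt, hC]
    clear hc1 hs1 hc2 hs2 hc3 hs3 hc4 hs4 n12 n34 n13 n24 n14 n23 h1 i m20 m11 m02 m40 m31 m22 m13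
      m04 P0 P1 P2 P3 P4 hnorm hZ hC hdt hD hDre
    field_simp
    ring

end Pool.Agent.H.MP_b7167f_an.SS
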