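import Pool.Agent.H.MP_b7167f_an.SS.Alg

/-!
PROOF (`maj`).  Write `β = θ₁-θ₂`, `β' = θ₃-θ₄`, `ψ = θ₁+θ₂-θ₃-θ₄`, `p = cos β`, `p' = cos β'`,
`m = sin²β`, `m' = sin²β'`, `X = |p-p'|`, `Y = |p+p'|`, `c = |cos(ψ/2)|`, `s = |sin(ψ/2)|`,
`D = √D2`, `s₁ = |sin(β+β')|`, `s₂ = |sin(β-β')|`, `s₃ = |sin ψ|`, so `S3 = s₁ s₂ s₃ ≤ 1`.
Identities: `m' - m = p² - p'² = -sin(β+β') sin(β-β')`, so `|m-m'| = X Y = s₁ s₂`;
`D2 = X² c² + Y² s²`; `2 c s = s₃`.  Hence `D2 ≥ 2 X Y c s = S3`, so `D ≥ √S3 > 0`.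
Let `γ = 1 - δ/3 ∈ [2/3, 1)`.
(0) `|t| ≤ 1`: `μ ≥ 2(m+m') ≥ 2|m-m'| = 2 s₁ s₂ ≥ S3`, so `n²/√μ ≤ 100 S3^(-1/2) ≤ 100 S3^(-γ)`, and
  `(1+|t|)^(-2+δ) ≥ 1/4`.
(1) `|t| ≥ 1`, `m + m' ≥ 1/2`: `μ ≥ 1`, `n² ≤ 100 min(1, (|t|D)⁻²) ≤ 100 (|t|D)^(-(2-δ))
   ≤ 100 |t|^(-2+δ) S3^(-(1-δ/2)) ≤ 100 |t|^(-2+δ) S3^(-γ)`.
(2) `|t| ≥ 1`, `m + m' < 1/2`: `n²/√μ ≤ 100 (|t|D)^(-(3/2-δ)) (|t| X Y)^(-1/2)
   = 100 |t|^(-2+δ) D^(-(3/2-δ)) (XY)^(-1/2)`.  (For `δ ≤ 1` one has `0 < 3/2-δ < 2`, so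
   `min(1, w⁻²) ≤ w^(-(3/2-δ))` for `w > 0`.)  Now `p², p'² ≥ 1/2`, so `Y ≥ 1` if `p p' > 0`, `X ≥ 1` if
   `p p' < 0`.  Case `Y ≥ 1`: weighted AM-GM (or: `u + v ≥ u^(1/3) v^(2/3)` for `u, v ≥ 0`)
   `D2 ≥ (X²c²)^(1/3) (Y²s²)^(2/3) ≥ X^(2/3) (c s)^(4/3)` (as `Y ≥ 1`, `c ≤ 1`), so
   `D^(-(3/2-δ)) ≤ X^(-(1/2-δ/3)) (c s)^(-(1-2δ/3))` and `(XY)^(-1/2) ≤ X^(-1/2)`; product
   `≤ X^(-γ) (c s)^(-γ)`, and `X ≥ XY/2 = s₁s₂/2`, `c s = s₃/2`: `≤ 4^γ S3^(-γ) ≤ 4 S3^(-γ)`.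
   (For `δ > 3/4` the exponent `1/2-δ/3` is still positive as `δ ≤ 1`.)  Case `X ≥ 1` symmetric.
Finally `|t|^(-2+δ) ≤ 4 (1+|t|)^(-2+δ)` for `|t| ≥ 1`.  `C = 10000` is enough.
-/

open MeasureTheory Set Complex

namespace Pool.Agent.H.MP_b7167f_an.SS

private theorem Maj_log (a b C n μ T W : ℝ) (hC : 0 < C) (hn : 0 < n) (hμ : 0 < μ) (hT : 0 < T)
    (hW : 0 < W)
    (h : 2 * Real.log n - Real.log μ / 2 ≤ Real.log C + a * Real.log T + b * Real.log W) :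
    n ^ 2 / Real.sqrt μ ≤ C * T ^ a * W ^ b := by
  have hTa : 0 < T ^ a := Real.rpow_pos_of_pos hT a
  have hWb : 0 < W ^ b := Real.rpow_pos_of_pos hW b
  have hsq : 0 < Real.sqrt μ := Real.sqrt_pos.mpr hμ
  have h1 : Real.log (n ^ 2 / Real.sqrt μ) = 2 * Real.log n - Real.log μ / 2 := by
    rw [Real.log_div (by positivity) hsq.ne', Real.log_pow, Real.log_sqrt hμ.le]
    norm_num
  have h2 : Real.log (C * T ^ a * W ^ b) = Real.log C + a * Real.log T + b * Real.log W := by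
    rw [Real.log_mul (by positivity) hWb.ne', Real.log_mul hC.ne' hTa.ne', Real.log_rpow hT,
      Real.log_rpow hW]
  have h3 : Real.log (n ^ 2 / Real.sqrt μ) ≤ Real.log (C * T ^ a * W ^ b) := by
    rw [h1, h2]; exact h
  exact (Real.log_le_log_iff (by positivity) (by positivity)).mp h3

private theorem Maj_core (δ : ℝ) (hδ : 0 < δ) (hδ1 : δ ≤ 1) (X Y c s M t n μ : ℝ)
    (hX : 0 < X) (hY : 0 < Y) (hc : 0 < c) (hs : 0 < s) (hcs : c ^ 2 + s ^ 2 = 1)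
    (hX2 : X ≤ 2) (hY2 : Y ≤ 2) (hXY : X * Y ≤ 1) (hM : X * Y ≤ M)
    (hmm : M < 1 / 2 → 1 ≤ X ∨ 1 ≤ Y)
    (ht : 0 ≤ t) (hn : 0 < n) (hn10 : n ≤ 10)
    (htn : t * Real.sqrt (X ^ 2 * c ^ 2 + Y ^ 2 * s ^ 2) * n ≤ 10)
    (hμ1 : 2 * M ≤ μ) (hμ2 : 2 * t * (X * Y) ≤ μ) :
    n ^ 2 / Real.sqrt μ ≤
      10000 * (1 + t) ^ (-2 + δ) * (2 * (X * Y) * (c * s)) ^ (-(1 - δ / 3)) := by
  have hXYp : 0 < X * Y := mul_pos hX hY
  have hz : 0 < c * s := mul_pos hc hs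
  have hz1 : 2 * (c * s) ≤ 1 := by nlinarith [sq_nonneg (c - s)]
  have hW : 0 < 2 * (X * Y) * (c * s) := by positivity
  have hWXY : 2 * (X * Y) * (c * s) ≤ X * Y := by nlinarith
  have hW1 : 2 * (X * Y) * (c * s) ≤ 1 := hWXY.trans hXY
  have hμ : 0 < μ := by nlinarith
  have hD : 2 * (X * Y) * (c * s) ≤ X ^ 2 * c ^ 2 + Y ^ 2 * s ^ 2 := by
    nlinarith [sq_nonneg (X * c - Y * s)]
  have hDp : 0 < X ^ 2 * c ^ 2 + Y ^ 2 * s ^ 2 := lt_of_lt_of_le hW hD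
  have lW0 : Real.log (2 * (X * Y) * (c * s)) ≤ 0 := Real.log_nonpos hW.le hW1
  have l2 : 0 ≤ Real.log 2 := Real.log_nonneg (by norm_num)
  have l210 : 2 * Real.log 2 ≤ Real.log 10 := by
    have h : Real.log ((2 : ℝ) ^ 2) ≤ Real.log 10 := Real.log_le_log (by norm_num) (by norm_num)
    rw [Real.log_pow] at h
    push_cast at h
    exact h
  have l10000 : Real.log 10000 = 4 * Real.log 10 := by
    have h : (10000 : ℝ) = 10 ^ 4 := by norm_num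
    rw [h, Real.log_pow]; push_cast; ring
  have ln : Real.log n ≤ Real.log 10 := Real.log_le_log hn hn10
  have lT0 : 0 ≤ Real.log (1 + t) := Real.log_nonneg (by linarith)
  apply Maj_log _ _ _ _ _ _ _ (by norm_num) hn hμ (by linarith) hW
  rw [l10000]
  rcases le_total t 1 with ht1 | ht1
  · have lμ : Real.log (2 * (X * Y) * (c * s)) ≤ Real.log μ :=
      Real.log_le_log hW (by linarith)
    have lT : Real.log (1 + t) ≤ Real.log 2 := Real.log_le_log (by linarith) (by linarith)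
    nlinarith [mul_nonneg hδ.le lT0,
      mul_nonneg (show (0 : ℝ) ≤ 1 / 2 - δ / 3 by linarith)
        (show 0 ≤ -Real.log (2 * (X * Y) * (c * s)) by linarith)]
  · have htp : 0 < t := by linarith
    have lt0 : 0 ≤ Real.log t := Real.log_nonneg ht1
    have lT : Real.log (1 + t) ≤ Real.log 2 + Real.log t := by
      rw [← Real.log_mul (by norm_num) htp.ne']
      exact Real.log_le_log (by linarith) (by linarith)
    have lD : Real.log (2 * (X * Y) * (c * s)) ≤ Real.log (X ^ 2 * c ^ 2 + Y ^ 2 * s ^ 2) :=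
      Real.log_le_log hW hD
    have ltn : Real.log t + Real.log (X ^ 2 * c ^ 2 + Y ^ 2 * s ^ 2) / 2 + Real.log n
        ≤ Real.log 10 := by
      have hsq : 0 < Real.sqrt (X ^ 2 * c ^ 2 + Y ^ 2 * s ^ 2) := Real.sqrt_pos.mpr hDp
      rw [← Real.log_sqrt hDp.le, ← Real.log_mul htp.ne' hsq.ne',
        ← Real.log_mul (by positivity) hn.ne']
      exact Real.log_le_log (by positivity) htn
    have lTt : (-2 + δ) * (Real.log 2 + Real.log t) ≤ (-2 + δ) * Real.log (1 + t) :=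
      mul_le_mul_of_nonpos_left lT (by linarith)
    rcases le_or_gt (1 / 2) M with hM2 | hM2
    · have lμ : 0 ≤ Real.log μ := Real.log_nonneg (by linarith)
      nlinarith [mul_nonneg hδ.le (sub_nonneg.mpr ln), mul_nonneg hδ.le l2,
        mul_nonneg (show (0 : ℝ) ≤ 2 - δ by linarith) (sub_nonneg.mpr ltn),
        mul_nonneg (show (0 : ℝ) ≤ 1 - δ / 2 by linarith) (sub_nonneg.mpr lD),
        mul_nonneg hδ.le (show 0 ≤ -Real.log (2 * (X * Y) * (c * s)) by linarith)]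
    · have lμ : Real.log 2 + Real.log t + (Real.log X + Real.log Y) ≤ Real.log μ := by
        rw [← Real.log_mul (by norm_num) htp.ne', ← Real.log_mul hX.ne' hY.ne',
          ← Real.log_mul (by positivity) (by positivity)]
        exact Real.log_le_log (by positivity) hμ2
      have lW : Real.log (2 * (X * Y) * (c * s)) =
          Real.log 2 + Real.log X + Real.log Y + (Real.log c + Real.log s) := by
        rw [Real.log_mul (by positivity) hz.ne', Real.log_mul (by norm_num) hXYp.ne',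
          Real.log_mul hX.ne' hY.ne', Real.log_mul hc.ne' hs.ne']
        ring
      have hc1 : c ≤ 1 := by nlinarith
      have hs1 : s ≤ 1 := by nlinarith
      have lc : Real.log c ≤ 0 := Real.log_nonpos hc.le hc1
      have ls : Real.log s ≤ 0 := Real.log_nonpos hs.le hs1
      have lX2 : Real.log X ≤ Real.log 2 := Real.log_le_log hX hX2
      have lY2 : Real.log Y ≤ Real.log 2 := Real.log_le_log hY hY2
      have h3 : ∀ u v : ℝ, 0 < u → 0 < v → Real.log u + 2 * Real.log v ≤ 3 * Real.log (u + v) := by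
        intro u v hu hv
        have h : Real.log (u * v ^ 2) ≤ Real.log ((u + v) ^ 3) := by
          apply Real.log_le_log (by positivity)
          nlinarith [mul_pos hu hv, mul_pos hu hu, mul_pos hv hv,
            mul_pos (mul_pos hu hu) hu, mul_pos (mul_pos hv hv) hv,
            mul_pos (mul_pos hu hu) hv, mul_pos (mul_pos hu hv) hv]
        rw [Real.log_mul hu.ne' (by positivity), Real.log_pow, Real.log_pow] at h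
        push_cast at h
        exact h
      have lu : Real.log (X ^ 2 * c ^ 2) = 2 * Real.log X + 2 * Real.log c := by
        rw [Real.log_mul (by positivity) (by positivity), Real.log_pow, Real.log_pow]
        push_cast; ring
      have lv : Real.log (Y ^ 2 * s ^ 2) = 2 * Real.log Y + 2 * Real.log s := by
        rw [Real.log_mul (by positivity) (by positivity), Real.log_pow, Real.log_pow]
        push_cast; ring
      rw [lW]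
      rcases hmm hM2 with hX1 | hY1
      · have lX0 : 0 ≤ Real.log X := Real.log_nonneg hX1
        have h := h3 (Y ^ 2 * s ^ 2) (X ^ 2 * c ^ 2) (by positivity) (by positivity)
        rw [add_comm (Y ^ 2 * s ^ 2), lu, lv] at h
        nlinarith [mul_nonneg (show (0 : ℝ) ≤ 3 / 2 - δ by linarith) (sub_nonneg.mpr ltn),
          mul_nonneg (show (0 : ℝ) ≤ 1 / 2 + δ by linarith) (sub_nonneg.mpr ln),
          mul_nonneg (show (0 : ℝ) ≤ 1 / 4 - δ / 6 by linarith) (sub_nonneg.mpr h),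
          mul_nonneg (show (0 : ℝ) ≤ 1 - δ / 3 by linarith) (sub_nonneg.mpr lX2),
          mul_nonneg hδ.le l2, mul_nonneg hδ.le lX0, mul_nonneg hδ.le (neg_nonneg.mpr lc),
          mul_nonneg hδ.le (neg_nonneg.mpr ls),
          mul_nonneg (show (0 : ℝ) ≤ 1 / 4 - δ / 6 by linarith) (neg_nonneg.mpr lc),
          mul_nonneg (show (0 : ℝ) ≤ 1 / 4 - δ / 6 by linarith) (neg_nonneg.mpr ls),
          mul_nonneg (show (0 : ℝ) ≤ 1 / 4 - δ / 6 by linarith) lX0]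
      · have lY0 : 0 ≤ Real.log Y := Real.log_nonneg hY1
        have h := h3 (X ^ 2 * c ^ 2) (Y ^ 2 * s ^ 2) (by positivity) (by positivity)
        rw [lu, lv] at h
        nlinarith [mul_nonneg (show (0 : ℝ) ≤ 3 / 2 - δ by linarith) (sub_nonneg.mpr ltn),
          mul_nonneg (show (0 : ℝ) ≤ 1 / 2 + δ by linarith) (sub_nonneg.mpr ln),
          mul_nonneg (show (0 : ℝ) ≤ 1 / 4 - δ / 6 by linarith) (sub_nonneg.mpr h),
          mul_nonneg (show (0 : ℝ) ≤ 1 - δ / 3 by linarith) (sub_nonneg.mpr lY2),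
          mul_nonneg hδ.le l2, mul_nonneg hδ.le lY0, mul_nonneg hδ.le (neg_nonneg.mpr lc),
          mul_nonneg hδ.le (neg_nonneg.mpr ls),
          mul_nonneg (show (0 : ℝ) ≤ 1 / 4 - δ / 6 by linarith) (neg_nonneg.mpr lc),
          mul_nonneg (show (0 : ℝ) ≤ 1 / 4 - δ / 6 by linarith) (neg_nonneg.mpr ls),
          mul_nonneg (show (0 : ℝ) ≤ 1 / 4 - δ / 6 by linarith) lY0]

theorem maj (δ : ℝ) (hδ : 0 < δ) (hδ1 : δ ≤ 1) : ∃ C : ℝ, 0 < C ∧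
    ∀ t θ₁ θ₂ θ₃ θ₄ n μ : ℝ, 0 < S3 θ₁ θ₂ θ₃ θ₄ → 0 ≤ n → n ≤ 10 →
      |t| * Real.sqrt (D2 θ₁ θ₂ θ₃ θ₄) * n ≤ 10 →
      2 * (Real.sin (θ₁ - θ₂) ^ 2 + Real.sin (θ₃ - θ₄) ^ 2) ≤ μ →
      2 * |t| * |Real.sin (θ₁ - θ₂) ^ 2 - Real.sin (θ₃ - θ₄) ^ 2| ≤ μ →
      n ^ 2 / Real.sqrt μ ≤ C * (1 + |t|) ^ (-2 + δ) * S3 θ₁ θ₂ θ₃ θ₄ ^ (-(1 - δ / 3)) := by
  refine ⟨10000, by norm_num, ?_⟩
  intro t θ₁ θ₂ θ₃ θ₄ n μ hS hn0 hn10 htn hμ1 hμ2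
  rcases hn0.eq_or_lt with h0 | hn
  · rw [← h0]
    have h1 : 0 ≤ (1 + |t|) ^ (-2 + δ) := Real.rpow_nonneg (by positivity) _
    have h2 : 0 ≤ S3 θ₁ θ₂ θ₃ θ₄ ^ (-(1 - δ / 3)) := Real.rpow_nonneg hS.le _
    have h3 : 0 ≤ 10000 * (1 + |t|) ^ (-2 + δ) * S3 θ₁ θ₂ θ₃ θ₄ ^ (-(1 - δ / 3)) := by positivity
    simpa using h3
  have e1 : Real.sin (θ₁ - θ₂ + θ₃ - θ₄) * Real.sin (θ₁ - θ₂ - θ₃ + θ₄) =
      (Real.cos (θ₃ - θ₄) - Real.cos (θ₁ - θ₂)) * (Real.cos (θ₁ - θ₂) + Real.cos (θ₃ - θ₄)) := by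
    have a1 : θ₁ - θ₂ + θ₃ - θ₄ = (θ₁ - θ₂) + (θ₃ - θ₄) := by ring
    have a2 : θ₁ - θ₂ - θ₃ + θ₄ = (θ₁ - θ₂) - (θ₃ - θ₄) := by ring
    rw [a1, a2, Real.sin_add (θ₁ - θ₂) (θ₃ - θ₄), Real.sin_sub (θ₁ - θ₂) (θ₃ - θ₄)]
    have b1 := Real.sin_sq_add_cos_sq (θ₁ - θ₂)
    have b2 := Real.sin_sq_add_cos_sq (θ₃ - θ₄)
    linear_combination (Real.cos (θ₃ - θ₄)) ^ 2 * b1 - (Real.cos (θ₁ - θ₂)) ^ 2 * b2
  have e2 : Real.sin (θ₁ + θ₂ - θ₃ - θ₄) = 2 * Real.sin ((θ₁ + θ₂ - θ₃ - θ₄) / 2) *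
      Real.cos ((θ₁ + θ₂ - θ₃ - θ₄) / 2) := by
    rw [← Real.sin_two_mul]; congr 1; ring
  have e3 : Real.cos (θ₁ + θ₂ - θ₃ - θ₄) = Real.cos ((θ₁ + θ₂ - θ₃ - θ₄) / 2) ^ 2 -
      Real.sin ((θ₁ + θ₂ - θ₃ - θ₄) / 2) ^ 2 := by
    rw [← Real.cos_two_mul']; congr 1; ring
  have e4 := Real.sin_sq_add_cos_sq ((θ₁ + θ₂ - θ₃ - θ₄) / 2)
  have b1 := Real.sin_sq_add_cos_sq (θ₁ - θ₂)
  have b2 := Real.sin_sq_add_cos_sq (θ₃ - θ₄)
  have hS3 : S3 θ₁ θ₂ θ₃ θ₄ = 2 * (|Real.cos (θ₁ - θ₂) - Real.cos (θ₃ - θ₄)| *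
      |Real.cos (θ₁ - θ₂) + Real.cos (θ₃ - θ₄)|) * (|Real.cos ((θ₁ + θ₂ - θ₃ - θ₄) / 2)| *
      |Real.sin ((θ₁ + θ₂ - θ₃ - θ₄) / 2)|) := by
    unfold S3
    rw [e1, e2, abs_mul, abs_mul, abs_mul, abs_mul, abs_sub_comm (Real.cos (θ₃ - θ₄))]
    rw [abs_of_pos (show (0 : ℝ) < 2 by norm_num)]
    ring
  have hD2 : D2 θ₁ θ₂ θ₃ θ₄ = |Real.cos (θ₁ - θ₂) - Real.cos (θ₃ - θ₄)| ^ 2 *
      |Real.cos ((θ₁ + θ₂ - θ₃ - θ₄) / 2)| ^ 2 + |Real.cos (θ₁ - θ₂) + Real.cos (θ₃ - θ₄)| ^ 2 *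
      |Real.sin ((θ₁ + θ₂ - θ₃ - θ₄) / 2)| ^ 2 := by
    unfold D2
    rw [e3, sq_abs, sq_abs, sq_abs, sq_abs]
    linear_combination -(Real.cos (θ₁ - θ₂) ^ 2 + Real.cos (θ₃ - θ₄) ^ 2) * e4
  have hmm : |Real.sin (θ₁ - θ₂) ^ 2 - Real.sin (θ₃ - θ₄) ^ 2| =
      |Real.cos (θ₁ - θ₂) - Real.cos (θ₃ - θ₄)| * |Real.cos (θ₁ - θ₂) + Real.cos (θ₃ - θ₄)| := by
    rw [← abs_mul, ← abs_neg (Real.sin (θ₁ - θ₂) ^ 2 - Real.sin (θ₃ - θ₄) ^ 2)]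
    congr 1
    linear_combination b2 - b1
  rw [hS3] at hS ⊢
  rw [hD2] at htn
  rw [hmm] at hμ2
  have hp1 : |Real.cos (θ₁ - θ₂)| ≤ 1 := Real.abs_cos_le_one _
  have hp2 : |Real.cos (θ₃ - θ₄)| ≤ 1 := Real.abs_cos_le_one _
  have hne : ∀ x y z w : ℝ, 0 ≤ x → 0 ≤ y → 0 ≤ z → 0 ≤ w → 0 < 2 * (x * y) * (z * w) →
      0 < x ∧ 0 < y ∧ 0 < z ∧ 0 < w := by
    intro x y z w hx hy hz hw h
    refine ⟨lt_of_le_of_ne hx ?_, lt_of_le_of_ne hy ?_, lt_of_le_of_ne hz ?_,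
      lt_of_le_of_ne hw ?_⟩ <;>
    · intro h'
      rw [← h'] at h
      simp at h
  obtain ⟨hX, hY, hc, hs⟩ := hne _ _ _ _ (abs_nonneg _) (abs_nonneg _) (abs_nonneg _)
    (abs_nonneg _) hS
  have hsin1 : 0 ≤ Real.sin (θ₁ - θ₂) ^ 2 := sq_nonneg _
  have hsin2 : 0 ≤ Real.sin (θ₃ - θ₄) ^ 2 := sq_nonneg _
  have hs1 : Real.sin (θ₁ - θ₂) ^ 2 ≤ 1 := Real.sin_sq_le_one _
  have hs2 : Real.sin (θ₃ - θ₄) ^ 2 ≤ 1 := Real.sin_sq_le_one _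
  refine Maj_core δ hδ hδ1 _ _ _ _ (Real.sin (θ₁ - θ₂) ^ 2 + Real.sin (θ₃ - θ₄) ^ 2) |t| n μ
    hX hY hc hs ?_ ?_ ?_ ?_ ?_ ?_ (abs_nonneg t) hn hn10 htn hμ1 hμ2
  · rw [sq_abs, sq_abs]; linarith
  · exact (abs_sub _ _).trans (by linarith)
  · exact (abs_add_le _ _).trans (by linarith)
  · rw [← hmm, abs_le]; constructor <;> linarith
  · rw [← hmm, abs_le]; constructor <;> linarith
  · intro h
    by_contra hcon
    push Not at hcon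
    obtain ⟨h1, h2⟩ := hcon
    have h3 : |Real.cos (θ₁ - θ₂) - Real.cos (θ₃ - θ₄)| ^ 2 < 1 := by nlinarith
    have h4 : |Real.cos (θ₁ - θ₂) + Real.cos (θ₃ - θ₄)| ^ 2 < 1 := by nlinarith
    rw [sq_abs] at h3 h4
    nlinarith

end Pool.Agent.H.MP_b7167f_an.SS
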