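import Pool.Agent.H.MP_b7167f_an.SS.Gauss2
import Pool.Agent.H.MP_b7167f_an.SS.Maj

/-!
PROOF.  If `S3 = 0` the right hand side is `⊤` (`ENNReal.zero_rpow_of_neg`, first factor nonzero).
Otherwise let `κ = 1/(4(1+t²))`, `e = ε/κ ∈ (0,1]`.  As `1/aa t = (1+it)/(1+t²)`,
`1/aa(-t) = (1-it)/(1+t²)`, the exponent in `K4` is `-qf (κ cA) (κ cB) (κ cC) x`, so `gauss2`
applies (real parts: `κ(Σcos² + e)`, `κ Σ cos sin`, `κ(Σ sin² + e)`; the determinant condition is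
Cauchy-Schwarz plus `e > 0`).  `NN (κA)(κB)(κC) = κ NN A B C`, the determinant is `κ² cdet`, hence
`‖K4‖ ≤ π/(κ √‖cdet‖) * 3 κ² N²/(4 κ⁴ ‖cdet‖²)` where `N` is the maximum of the `‖NN‖` over
pairs of the four angles.  With `n = N/‖cdet‖` and `μ = ‖cdet‖` (`> 0`): `alg_main` gives the
hypotheses of `maj`, and `‖K4‖ ≤ (3π/4) κ⁻³ n²/√μ`, `κ⁻³ = 64 (1+t²)³`.
-/

open MeasureTheory Set Complex
open scoped ENNReal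

namespace Pool.Agent.H.MP_b7167f_an.SS

private theorem k4b_inv (t : ℝ) : (1 : ℂ) / (4 * aa t) = ((1 / (4 * (1 + t ^ 2)) : ℝ) : ℂ) *
    (1 + t * I) := by
  have h1 : (1 + (t : ℂ) ^ 2) ≠ 0 := by
    have : (0 : ℝ) < 1 + t ^ 2 := by positivity
    have h2 : ((1 + t ^ 2 : ℝ) : ℂ) ≠ 0 := by exact_mod_cast this.ne'
    simpa using h2
  have h2 : (1 - (t : ℂ) * I) * (1 + t * I) = 1 + (t : ℂ) ^ 2 := by
    have := Complex.I_sq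
    linear_combination (-(t : ℂ) ^ 2) * this
  have h3 : (1 - (t : ℂ) * I) ≠ 0 := by
    intro h
    rw [h, zero_mul] at h2
    exact h1 h2.symm
  unfold aa
  push_cast
  rw [one_div_mul_eq_div, div_eq_div_iff (by simpa using h3) (by simpa using h1), ← h2]
  ring

private theorem k4b_inv' (t : ℝ) : (1 : ℂ) / (4 * aa (-t)) = ((1 / (4 * (1 + t ^ 2)) : ℝ) : ℂ) *
    (1 - t * I) := by
  rw [k4b_inv]
  push_cast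
  ring

private theorem k4b_exp (t e θ₁ θ₂ θ₃ θ₄ : ℝ) (x : ℝ × ℝ) :
    -(dt x θ₁ : ℂ) ^ 2 / (4 * aa t) - (dt x θ₂ : ℂ) ^ 2 / (4 * aa t)
      - (dt x θ₃ : ℂ) ^ 2 / (4 * aa (-t)) - (dt x θ₄ : ℂ) ^ 2 / (4 * aa (-t))
      - ((1 / (4 * (1 + t ^ 2)) : ℝ) : ℂ) * e * ((x.1 : ℂ) ^ 2 + (x.2 : ℂ) ^ 2) =
    -qf (((1 / (4 * (1 + t ^ 2)) : ℝ) : ℂ) * cA t e θ₁ θ₂ θ₃ θ₄)
      (((1 / (4 * (1 + t ^ 2)) : ℝ) : ℂ) * cB t θ₁ θ₂ θ₃ θ₄)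
      (((1 / (4 * (1 + t ^ 2)) : ℝ) : ℂ) * cC t e θ₁ θ₂ θ₃ θ₄) x := by
  have e1 : ∀ z : ℂ, z / (4 * aa t) = z * (((1 / (4 * (1 + t ^ 2)) : ℝ) : ℂ) *
    (1 + t * I)) := fun z => by rw [← k4b_inv]; ring
  have e2 : ∀ z : ℂ, z / (4 * aa (-t)) = z * (((1 / (4 * (1 + t ^ 2)) : ℝ) : ℂ) *
    (1 - t * I)) := fun z => by rw [← k4b_inv']; ring
  rw [e1, e1, e2, e2]
  generalize ((1 / (4 * (1 + t ^ 2)) : ℝ) : ℂ) = κ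
  unfold qf cA cB cC dt
  push_cast
  ring

private theorem k4b_NN (κ A B C : ℂ) (θ φ : ℝ) :
    NN (κ * A) (κ * B) (κ * C) θ φ = κ * NN A B C θ φ := by
  unfold NN
  ring

private theorem k4b_cA_re (t e θ₁ θ₂ θ₃ θ₄ : ℝ) : (cA t e θ₁ θ₂ θ₃ θ₄).re =
    Real.cos θ₁ ^ 2 + Real.cos θ₂ ^ 2 + Real.cos θ₃ ^ 2 + Real.cos θ₄ ^ 2 + e := by
  unfold cA
  simp only [add_re, mul_re, sub_re, one_re, ofReal_re, ofReal_im, I_re, I_im, add_im, one_im,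
    mul_im, sub_im]
  ring

private theorem k4b_cC_re (t e θ₁ θ₂ θ₃ θ₄ : ℝ) : (cC t e θ₁ θ₂ θ₃ θ₄).re =
    Real.sin θ₁ ^ 2 + Real.sin θ₂ ^ 2 + Real.sin θ₃ ^ 2 + Real.sin θ₄ ^ 2 + e := by
  unfold cC
  simp only [add_re, mul_re, sub_re, one_re, ofReal_re, ofReal_im, I_re, I_im, add_im, one_im,
    mul_im, sub_im]
  ring

private theorem k4b_cB_re (t θ₁ θ₂ θ₃ θ₄ : ℝ) : (cB t θ₁ θ₂ θ₃ θ₄).re =
    Real.cos θ₁ * Real.sin θ₁ + Real.cos θ₂ * Real.sin θ₂ + Real.cos θ₃ * Real.sin θ₃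
      + Real.cos θ₄ * Real.sin θ₄ := by
  unfold cB
  simp only [add_re, mul_re, sub_re, one_re, ofReal_re, ofReal_im, I_re, I_im, add_im, one_im,
    mul_im, sub_im]
  ring

private theorem k4b_cs (a b c d a' b' c' d' e : ℝ) (he : 0 < e) :
    (a * a' + b * b' + c * c' + d * d') ^ 2 <
      (a ^ 2 + b ^ 2 + c ^ 2 + d ^ 2 + e) * (a' ^ 2 + b' ^ 2 + c' ^ 2 + d' ^ 2 + e) := by
  have h : (a ^ 2 + b ^ 2 + c ^ 2 + d ^ 2 + e) * (a' ^ 2 + b' ^ 2 + c' ^ 2 + d' ^ 2 + e) -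
      (a * a' + b * b' + c * c' + d * d') ^ 2 =
      (a * b' - b * a') ^ 2 + (a * c' - c * a') ^ 2 + (a * d' - d * a') ^ 2 +
      (b * c' - c * b') ^ 2 + (b * d' - d * b') ^ 2 + (c * d' - d * c') ^ 2 +
      e * (a ^ 2 + b ^ 2 + c ^ 2 + d ^ 2) + e * (a' ^ 2 + b' ^ 2 + c' ^ 2 + d' ^ 2) + e ^ 2 := by
    ring
  have h2 : 0 < (a * b' - b * a') ^ 2 + (a * c' - c * a') ^ 2 + (a * d' - d * a') ^ 2 +
      (b * c' - c * b') ^ 2 + (b * d' - d * b') ^ 2 + (c * d' - d * c') ^ 2 +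
      e * (a ^ 2 + b ^ 2 + c ^ 2 + d ^ 2) + e * (a' ^ 2 + b' ^ 2 + c' ^ 2 + d' ^ 2) + e ^ 2 := by
    positivity
  linarith

private theorem k4b_det_pos (t e θ₁ θ₂ θ₃ θ₄ : ℝ) (he : 0 < e) :
    0 < ‖cdet t e θ₁ θ₂ θ₃ θ₄‖ := by
  have h1 := D2_nonneg θ₁ θ₂ θ₃ θ₄
  have h2 : (cdet t e θ₁ θ₂ θ₃ θ₄).re = 2 * Real.sin (θ₁ - θ₂) ^ 2 + 2 * Real.sin (θ₃ - θ₄) ^ 2 +
      (1 + t ^ 2) * D2 θ₁ θ₂ θ₃ θ₄ + 4 * e + e ^ 2 := by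
    rw [alg_det]
    simp only [add_re, mul_re, ofReal_re, ofReal_im, I_re, I_im]
    ring
  have h3 : 0 < (cdet t e θ₁ θ₂ θ₃ θ₄).re := by
    rw [h2]
    positivity
  exact h3.trans_le (Complex.re_le_norm _)

private theorem k4b_real (δ : ℝ) (hδ : 0 < δ) (hδ1 : δ ≤ 1) : ∃ C : ℝ, 0 < C ∧
    ∀ t ε θ₁ θ₂ θ₃ θ₄ : ℝ, 0 < ε → 4 * (1 + t ^ 2) * ε ≤ 1 → 0 < S3 θ₁ θ₂ θ₃ θ₄ →
      ‖K4 t ε θ₁ θ₂ θ₃ θ₄‖ ≤ C * (1 + t ^ 2) ^ 3 * (1 + |t|) ^ (-2 + δ) *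
          S3 θ₁ θ₂ θ₃ θ₄ ^ (-(1 - δ / 3)) := by
  obtain ⟨C0, hC0, hmaj⟩ := maj δ hδ hδ1
  refine ⟨48 * Real.pi * C0, by positivity, ?_⟩
  intro t ε θ₁ θ₂ θ₃ θ₄ hε hε1 hS
  have ht : 0 < 1 + t ^ 2 := by positivity
  set κ : ℝ := 1 / (4 * (1 + t ^ 2)) with hκ
  have hκ0 : 0 < κ := by positivity
  set e : ℝ := 4 * (1 + t ^ 2) * ε with he
  have he0 : 0 < e := by positivity
  have hκe : κ * e = ε := by
    rw [hκ, he]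
    field_simp
  set A := cA t e θ₁ θ₂ θ₃ θ₄ with hA
  set B := cB t θ₁ θ₂ θ₃ θ₄ with hB
  set C := cC t e θ₁ θ₂ θ₃ θ₄ with hC
  have hcdet : A * C - B ^ 2 = cdet t e θ₁ θ₂ θ₃ θ₄ := rfl
  have hAre : 0 < ((κ : ℂ) * A).re := by
    rw [re_ofReal_mul, hA, k4b_cA_re]
    positivity
  have hdet : ((κ : ℂ) * B).re ^ 2 < ((κ : ℂ) * A).re * ((κ : ℂ) * C).re := by
    rw [re_ofReal_mul, re_ofReal_mul, re_ofReal_mul, hA, hB, hC, k4b_cA_re, k4b_cB_re, k4b_cC_re]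
    have := k4b_cs (Real.cos θ₁) (Real.cos θ₂) (Real.cos θ₃) (Real.cos θ₄)
      (Real.sin θ₁) (Real.sin θ₂) (Real.sin θ₃) (Real.sin θ₄) e he0
    have hk2 : 0 < κ ^ 2 := by positivity
    have := mul_lt_mul_of_pos_left this hk2
    calc _ = _ := by ring
      _ < _ := this
      _ = _ := by ring
  obtain ⟨Z, hZ, -, h4⟩ := gauss2 (κ * A) (κ * B) (κ * C) hAre hdet
  have hK : K4 t ε θ₁ θ₂ θ₃ θ₄ = Z * ((NN (κ * A) (κ * B) (κ * C) θ₁ θ₂ *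
      NN (κ * A) (κ * B) (κ * C) θ₃ θ₄ + NN (κ * A) (κ * B) (κ * C) θ₁ θ₃ *
      NN (κ * A) (κ * B) (κ * C) θ₂ θ₄ + NN (κ * A) (κ * B) (κ * C) θ₁ θ₄ *
      NN (κ * A) (κ * B) (κ * C) θ₂ θ₃) / (4 * ((κ * A) * (κ * C) - (κ * B) ^ 2) ^ 2)) := by
    rw [← h4, K4]
    congr 1
    funext x
    congr 2
    have := k4b_exp t e θ₁ θ₂ θ₃ θ₄ x
    rw [← this]
    have h5 : ((κ : ℝ) : ℂ) * e = (ε : ℂ) := by
      rw [← hκe]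
      push_cast
      ring
    rw [← hκ, h5]
  have hdd : (κ * A) * (κ * C) - (κ * B) ^ 2 = (κ : ℂ) ^ 2 * cdet t e θ₁ θ₂ θ₃ θ₄ := by
    rw [← hcdet]
    ring
  rw [hdd] at hZ hK
  simp only [k4b_NN] at hK
  set d := cdet t e θ₁ θ₂ θ₃ θ₄ with hd
  have hμ : 0 < ‖d‖ := k4b_det_pos t e θ₁ θ₂ θ₃ θ₄ he0
  obtain ⟨m1, m2, m3⟩ := alg_main t e θ₁ θ₂ θ₃ θ₄ he0.le hε1
  rw [← hA, ← hB, ← hC, ← hd] at m3
  rw [← hd] at m1 m2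
  -- the maximum
  set N12 := NN A B C θ₁ θ₂
  set N34 := NN A B C θ₃ θ₄
  set N13 := NN A B C θ₁ θ₃
  set N24 := NN A B C θ₂ θ₄
  set N14 := NN A B C θ₁ θ₄
  set N23 := NN A B C θ₂ θ₃
  obtain ⟨N, hN12, hN34, hN13, hN24, hN14, hN23, hN10, hNt, hN0⟩ : ∃ N : ℝ, ‖N12‖ ≤ N ∧
      ‖N34‖ ≤ N ∧ ‖N13‖ ≤ N ∧ ‖N24‖ ≤ N ∧ ‖N14‖ ≤ N ∧ ‖N23‖ ≤ N ∧ N ≤ 10 * ‖d‖ ∧
      |t| * Real.sqrt (D2 θ₁ θ₂ θ₃ θ₄) * N ≤ 10 * ‖d‖ ∧ 0 ≤ N := by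
    have key : ∀ (a b : ℝ) , (a ≤ 10 * ‖d‖ ∧ |t| * Real.sqrt (D2 θ₁ θ₂ θ₃ θ₄) * a ≤ 10 * ‖d‖) →
        (b ≤ 10 * ‖d‖ ∧ |t| * Real.sqrt (D2 θ₁ θ₂ θ₃ θ₄) * b ≤ 10 * ‖d‖) →
        (max a b ≤ 10 * ‖d‖ ∧ |t| * Real.sqrt (D2 θ₁ θ₂ θ₃ θ₄) * max a b ≤ 10 * ‖d‖) := by
      intro a b ha hb
      rcases max_choice a b with h | h <;> rw [h] <;> assumption
    have a12 := m3 θ₁ θ₂ (by simp) (by simp)
    have a34 := m3 θ₃ θ₄ (by simp) (by simp)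
    have a13 := m3 θ₁ θ₃ (by simp) (by simp)
    have a24 := m3 θ₂ θ₄ (by simp) (by simp)
    have a14 := m3 θ₁ θ₄ (by simp) (by simp)
    have a23 := m3 θ₂ θ₃ (by simp) (by simp)
    have := key _ _ a12 (key _ _ a34 (key _ _ a13 (key _ _ a24 (key _ _ a14 a23))))
    refine ⟨_, ?_, ?_, ?_, ?_, ?_, ?_, this.1, this.2, ?_⟩
    · exact le_max_left _ _
    · exact (le_max_left _ _).trans (le_max_right _ _)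
    · exact (le_max_left _ _).trans ((le_max_right _ _).trans (le_max_right _ _))
    · exact (le_max_left _ _).trans ((le_max_right _ _).trans ((le_max_right _ _).trans
        (le_max_right _ _)))
    · exact (le_max_left _ _).trans ((le_max_right _ _).trans ((le_max_right _ _).trans
        ((le_max_right _ _).trans (le_max_right _ _))))
    · exact (le_max_right _ _).trans ((le_max_right _ _).trans ((le_max_right _ _).trans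
        ((le_max_right _ _).trans (le_max_right _ _))))
    · exact le_max_of_le_left (norm_nonneg _)
  have hn := hmaj t θ₁ θ₂ θ₃ θ₄ (N / ‖d‖) ‖d‖ hS (by positivity)
    (by rw [div_le_iff₀ hμ]; exact hN10)
    (by rw [← mul_div_assoc, div_le_iff₀ hμ]; exact hNt) m1 m2
  -- the norm
  have hnum : ‖(κ : ℂ) * N12 * (κ * N34) + κ * N13 * (κ * N24) + κ * N14 * (κ * N23)‖ ≤
      3 * κ ^ 2 * N ^ 2 := by
    have hk : ‖(κ : ℂ)‖ = κ := by rw [Complex.norm_real, Real.norm_of_nonneg hκ0.le]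
    have key : ∀ u v : ℂ, ‖u‖ ≤ N → ‖v‖ ≤ N → ‖(κ : ℂ) * u * (κ * v)‖ ≤ κ ^ 2 * N ^ 2 := by
      intro u v hu hv
      rw [norm_mul, norm_mul, norm_mul, hk]
      have := mul_le_mul hu hv (norm_nonneg _) hN0
      have := mul_le_mul_of_nonneg_left this (sq_nonneg κ)
      nlinarith
    calc _ ≤ ‖(κ : ℂ) * N12 * (κ * N34)‖ + ‖(κ : ℂ) * N13 * (κ * N24)‖ +
        ‖(κ : ℂ) * N14 * (κ * N23)‖ := norm_add₃_le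
      _ ≤ κ ^ 2 * N ^ 2 + κ ^ 2 * N ^ 2 + κ ^ 2 * N ^ 2 :=
        add_le_add (add_le_add (key _ _ hN12 hN34) (key _ _ hN13 hN24)) (key _ _ hN14 hN23)
      _ = _ := by ring
  have hsq : Real.sqrt ‖(κ : ℂ) ^ 2 * d‖ = κ * Real.sqrt ‖d‖ := by
    rw [norm_mul, norm_pow, Complex.norm_real, Real.norm_of_nonneg hκ0.le,
      Real.sqrt_mul (by positivity), Real.sqrt_sq hκ0.le]
  have hden : ‖(4 : ℂ) * ((κ : ℂ) ^ 2 * d) ^ 2‖ = 4 * (κ ^ 4 * ‖d‖ ^ 2) := by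
    rw [norm_mul, norm_pow, norm_mul, norm_pow, Complex.norm_real, Real.norm_of_nonneg hκ0.le]
    norm_num
    ring
  have hbound : ‖K4 t ε θ₁ θ₂ θ₃ θ₄‖ ≤
      Real.pi / (κ * Real.sqrt ‖d‖) * (3 * κ ^ 2 * N ^ 2 / (4 * (κ ^ 4 * ‖d‖ ^ 2))) := by
    rw [hK, norm_mul, hZ, norm_div, hden, hsq]
    gcongr
  have hsd : 0 < Real.sqrt ‖d‖ := Real.sqrt_pos.2 hμ
  have heq : Real.pi / (κ * Real.sqrt ‖d‖) * (3 * κ ^ 2 * N ^ 2 / (4 * (κ ^ 4 * ‖d‖ ^ 2))) =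
      48 * Real.pi * (1 + t ^ 2) ^ 3 * ((N / ‖d‖) ^ 2 / Real.sqrt ‖d‖) := by
    rw [hκ]
    field_simp
    ring
  rw [heq] at hbound
  calc _ ≤ _ := hbound
    _ ≤ 48 * Real.pi * (1 + t ^ 2) ^ 3 * (C0 * (1 + |t|) ^ (-2 + δ) *
        S3 θ₁ θ₂ θ₃ θ₄ ^ (-(1 - δ / 3))) := by gcongr
    _ = _ := by ring

theorem k4_bound (δ : ℝ) (hδ : 0 < δ) (hδ1 : δ ≤ 1) : ∃ C : ℝ, 0 < C ∧
    ∀ t ε θ₁ θ₂ θ₃ θ₄ : ℝ, 0 < ε → 4 * (1 + t ^ 2) * ε ≤ 1 →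
      ‖K4 t ε θ₁ θ₂ θ₃ θ₄‖ₑ ≤
        ENNReal.ofReal (C * (1 + t ^ 2) ^ 3 * (1 + |t|) ^ (-2 + δ)) *
          ENNReal.ofReal (S3 θ₁ θ₂ θ₃ θ₄) ^ (-(1 - δ / 3)) := by
  obtain ⟨C, hC, hb⟩ := k4b_real δ hδ hδ1
  refine ⟨C, hC, ?_⟩
  intro t ε θ₁ θ₂ θ₃ θ₄ hε hε1
  have hpos : 0 < C * (1 + t ^ 2) ^ 3 * (1 + |t|) ^ (-2 + δ) := by positivity
  have hS0 : 0 ≤ S3 θ₁ θ₂ θ₃ θ₄ := abs_nonneg _
  rcases hS0.eq_or_lt with h | h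
  · rw [← h, ENNReal.ofReal_zero, ENNReal.zero_rpow_of_neg (by linarith),
      ENNReal.mul_top (ENNReal.ofReal_pos.2 hpos).ne']
    exact le_top
  · rw [ENNReal.ofReal_rpow_of_pos h, ← ENNReal.ofReal_mul hpos.le, ← ofReal_norm]
    exact ENNReal.ofReal_le_ofReal (hb t ε θ₁ θ₂ θ₃ θ₄ hε hε1 h)

end Pool.Agent.H.MP_b7167f_an.SS
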