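import Pool.Agent.H.MP_b7167f_an.SS.Gauss1

/-!
PROOF.  Let `f(s) = exp(-s) i sin(√s u)` for `s ≥ 0` and `f(s) = 0` for `s < 0`; `f` is continuous
(`√s → 0`) and integrable (`‖f s‖ ≤ exp(-s)` on `s ≥ 0`).
(1) `∫ f(s) exp(iτs) ds = kap u τ`: substitute `s = r²`
 (`integral_comp_rpow_Ioi` or `integral_comp_mul_deriv`-type lemma on `Ioi 0`):
 `= ∫_0^∞ 2 r exp(-(1-iτ)r²) i sin(ru) dr = ∫_ℝ r exp(-(aa τ) r² + i u r) dr` (the integrand
 `r exp(-a r²) i sin(ru)` is even and `r exp(-a r²) cos(ru)` is odd), which is `g1_1` with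
 `A = aa τ` (real part 1), `w = -i u/2`, `w² = -u²/4`.
(2) `kap u` is integrable: `‖aa τ‖² = 1+τ²`, `‖exp(-u²/(4 aa τ))‖ ≤ 1` (real part of `1/aa τ` is
 `1/(1+τ²) > 0`), so `‖kap u τ‖ ≤ |u| √π /2 (1+τ²)^(-3/4)`, continuous in `τ`.
(3) Fourier inversion (`MeasureTheory.Integrable.fourierInv_fourier_eq` /
 `Continuous.fourierInv_fourier_eq`): `kap u τ = 𝓕 f (-τ/(2π))`, so
 `f(s) = ∫ 𝓕 f(ξ) exp(2π i s ξ) dξ = (1/2π) ∫ kap u τ exp(-iτs) dτ`.
-/

open MeasureTheory Set Complex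

namespace Pool.Agent.H.MP_b7167f_an.SS

theorem aa_norm (t : ℝ) : ‖aa t‖ = Real.sqrt (1 + t ^ 2) := by
  have h : Complex.normSq (aa t) = 1 + t ^ 2 := by
    simp [aa, Complex.normSq_apply]
    ring
  rw [Complex.norm_def, h]

private theorem kinv_aa_re (t : ℝ) : (aa t).re = 1 := by simp [aa]

private theorem kinv_aa_ne (t : ℝ) : aa t ≠ 0 := by
  intro h
  have := kinv_aa_re t
  rw [h] at this
  simp at this

private theorem kinv_pos (t : ℝ) : (0 : ℝ) < 1 + t ^ 2 := by positivity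

theorem pref_norm (τ : ℝ) :
    ‖I / (2 * aa τ) * (Real.pi / aa τ) ^ (1 / 2 : ℂ)‖
      = Real.sqrt Real.pi / 2 * (1 + τ ^ 2) ^ (-(3 / 4) : ℝ) := by
  have hp := kinv_pos τ
  have h1 : ‖((Real.pi : ℂ) / aa τ) ^ (1 / 2 : ℂ)‖
      = (Real.pi / Real.sqrt (1 + τ ^ 2)) ^ (1 / 2 : ℝ) := by
    have : (1 / 2 : ℂ) = ((1 / 2 : ℝ) : ℂ) := by push_cast; ring
    rw [this, Complex.norm_cpow_real, norm_div, aa_norm, Complex.norm_real, Real.norm_eq_abs,
      abs_of_pos Real.pi_pos]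
  rw [norm_mul, h1, norm_div, norm_mul, aa_norm, Complex.norm_I, Complex.norm_ofNat]
  rw [Real.sqrt_eq_rpow (1 + τ ^ 2), Real.div_rpow Real.pi_pos.le (by positivity),
    ← Real.rpow_mul hp.le, ← Real.sqrt_eq_rpow Real.pi]
  have h2 : (1 + τ ^ 2) ^ (-(3 / 4) : ℝ)
      = ((1 + τ ^ 2) ^ (1 / 2 : ℝ))⁻¹ * ((1 + τ ^ 2) ^ (1 / 2 * (1 / 2) : ℝ))⁻¹ := by
    rw [← Real.rpow_neg hp.le, ← Real.rpow_neg hp.le, ← Real.rpow_add hp]
    norm_num
  rw [h2]
  field_simp

private theorem kinv_exp_le (u τ : ℝ) : ‖cexp (-(u : ℂ) ^ 2 / (4 * aa τ))‖ ≤ 1 := by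
  rw [Complex.norm_exp, Real.exp_le_one_iff]
  have h1 : (-(u : ℂ) ^ 2 / (4 * aa τ)) = ((-(u ^ 2) / 4 : ℝ) : ℂ) * (aa τ)⁻¹ := by
    push_cast
    field_simp
  rw [h1, Complex.re_ofReal_mul, Complex.inv_re, kinv_aa_re]
  have : 0 ≤ 1 / Complex.normSq (aa τ) := by
    have := Complex.normSq_nonneg (aa τ)
    positivity
  have h3 : -(u ^ 2) / 4 ≤ 0 := by nlinarith [sq_nonneg u]
  exact mul_nonpos_of_nonpos_of_nonneg h3 this

theorem kap_bound (u τ : ℝ) : ‖kap u τ‖ ≤ |u| * (1 + τ ^ 2) ^ (-(3 / 4) : ℝ) := by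
  have hk : kap u τ = u * (I / (2 * aa τ) * (Real.pi / aa τ) ^ (1 / 2 : ℂ)) *
      cexp (-(u : ℂ) ^ 2 / (4 * aa τ)) := by
    unfold kap
    ring
  rw [hk, norm_mul, norm_mul, pref_norm, Complex.norm_real, Real.norm_eq_abs]
  have hsq : Real.sqrt Real.pi ≤ 2 := by
    rw [show (2 : ℝ) = Real.sqrt 4 by
      rw [show (4 : ℝ) = 2 ^ 2 by norm_num, Real.sqrt_sq (by norm_num)]]
    exact Real.sqrt_le_sqrt Real.pi_le_four
  have hP : 0 ≤ (1 + τ ^ 2) ^ (-(3 / 4) : ℝ) := by positivity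
  have h1 : |u| * (Real.sqrt Real.pi / 2 * (1 + τ ^ 2) ^ (-(3 / 4) : ℝ))
      ≤ |u| * (1 + τ ^ 2) ^ (-(3 / 4) : ℝ) := by
    apply mul_le_mul_of_nonneg_left _ (abs_nonneg u)
    have : Real.sqrt Real.pi / 2 ≤ 1 := by linarith
    calc Real.sqrt Real.pi / 2 * (1 + τ ^ 2) ^ (-(3 / 4) : ℝ)
        ≤ 1 * (1 + τ ^ 2) ^ (-(3 / 4) : ℝ) := mul_le_mul_of_nonneg_right this hP
      _ = _ := one_mul _
  have h0 : 0 ≤ |u| * (Real.sqrt Real.pi / 2 * (1 + τ ^ 2) ^ (-(3 / 4) : ℝ)) := by positivity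
  calc |u| * (Real.sqrt Real.pi / 2 * (1 + τ ^ 2) ^ (-(3 / 4) : ℝ)) *
        ‖cexp (-(u : ℂ) ^ 2 / (4 * aa τ))‖
      ≤ |u| * (Real.sqrt Real.pi / 2 * (1 + τ ^ 2) ^ (-(3 / 4) : ℝ)) * 1 :=
        mul_le_mul_of_nonneg_left (kinv_exp_le u τ) h0
    _ ≤ |u| * (1 + τ ^ 2) ^ (-(3 / 4) : ℝ) := by rw [mul_one]; exact h1

private theorem kinv_aa_meas : Measurable aa := by
  unfold aa
  fun_prop

theorem kap_meas : Measurable (fun p : ℝ × ℝ => kap p.1 p.2) := by
  unfold kap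
  have h1 : Measurable (fun p : ℝ × ℝ => aa p.2) := kinv_aa_meas.comp measurable_snd
  have h2 : Measurable (fun p : ℝ × ℝ => (p.1 : ℂ)) :=
    Complex.measurable_ofReal.comp measurable_fst
  refine ((((measurable_const.mul h2).div (measurable_const.mul h1)).mul ?_).mul ?_)
  · exact (measurable_const.div h1).pow_const _
  · exact Complex.measurable_exp.comp (((h2.pow_const 2).neg).div (measurable_const.mul h1))

theorem kap_int (u : ℝ) : Integrable (kap u) := by
  have hm : AEStronglyMeasurable (kap u) volume :=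
    (kap_meas.comp (measurable_const.prodMk measurable_id (f := fun _ : ℝ => u))).aestronglyMeasurable
  have hi : Integrable (fun τ : ℝ => |u| * (1 + ‖τ‖ ^ 2) ^ (-(3 / 2 : ℝ) / 2)) :=
    (integrable_rpow_neg_one_add_norm_sq (E := ℝ) (μ := volume) (r := 3 / 2)
      (by norm_num [Module.finrank_self])).const_mul _
  refine hi.mono' hm (Filter.Eventually.of_forall fun τ => ?_)
  refine (kap_bound u τ).trans (le_of_eq ?_)
  rw [Real.norm_eq_abs, sq_abs]
  norm_num

/-- The function `exp(-s) i sin(√s u)`. -/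
private noncomputable def kf (u s : ℝ) : ℂ := cexp (-(s : ℂ)) * (I * Real.sin (Real.sqrt s * u))

private theorem kf_cont (u : ℝ) : Continuous (kf u) := by
  unfold kf
  have h : Continuous (fun s : ℝ => ((Real.sin (Real.sqrt s * u) : ℝ) : ℂ)) :=
    Complex.continuous_ofReal.comp
      (Real.continuous_sin.comp (Real.continuous_sqrt.mul continuous_const))
  have h2 : Continuous (fun s : ℝ => cexp (-(s : ℂ))) := by fun_prop
  exact h2.mul (continuous_const.mul h)

private theorem kf_neg (u s : ℝ) (hs : s ≤ 0) : kf u s = 0 := by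
  unfold kf
  rw [Real.sqrt_eq_zero_of_nonpos hs]
  simp

private theorem kf_norm (u s : ℝ) : ‖kf u s‖ ≤ Real.exp (-s) := by
  unfold kf
  rw [norm_mul, norm_mul, Complex.norm_exp, Complex.norm_I, Complex.norm_real, one_mul]
  simp only [neg_re, ofReal_re]
  have : ‖Real.sin (Real.sqrt s * u)‖ ≤ 1 := by
    rw [Real.norm_eq_abs]; exact Real.abs_sin_le_one _
  calc Real.exp (-s) * ‖Real.sin (Real.sqrt s * u)‖ ≤ Real.exp (-s) * 1 :=
        mul_le_mul_of_nonneg_left this (Real.exp_pos _).le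
    _ = _ := mul_one _

private theorem kf_ind (u : ℝ) (g : ℝ → ℂ) :
    (fun s => g s * kf u s) = (Ioi (0 : ℝ)).indicator (fun s => g s * kf u s) := by
  funext s
  by_cases hs : s ∈ Ioi (0 : ℝ)
  · rw [indicator_of_mem hs]
  · rw [indicator_of_notMem hs, kf_neg u s (not_lt.1 hs), mul_zero]

private theorem kf_int (u : ℝ) : Integrable (kf u) := by
  have h1 : IntegrableOn (kf u) (Ioi 0) := by
    have h2 : IntegrableOn (fun s : ℝ => Real.exp (-s)) (Ioi 0) := by
      simpa using integrableOn_exp_neg_Ioi 0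
    exact h2.mono' (kf_cont u).aestronglyMeasurable
      (Filter.Eventually.of_forall fun s => kf_norm u s)
  have h3 := kf_ind u (fun _ => 1)
  simp only [one_mul] at h3
  have h4 : kf u = (Ioi (0 : ℝ)).indicator (kf u) := h3
  rw [h4]
  exact h1.integrable_indicator measurableSet_Ioi

/-- The transform. -/
private theorem kf_trans (u τ : ℝ) : ∫ s : ℝ, cexp (I * τ * s) * kf u s = kap u τ := by
  have hre : 0 < (aa τ).re := by rw [kinv_aa_re]; exact one_pos
  -- the Gaussian side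
  have hG := g1_1 (aa τ) (-(I * u) / 2) hre
  have hGi := g1_int (aa τ) (-(I * u) / 2) hre 1
  simp only [pow_one] at hGi
  have hkap : -((-(I * u) / 2) / aa τ) * I0 (aa τ) (-(I * u) / 2) = kap u τ := by
    unfold I0 kap
    have h1 : (-(I * (u : ℂ)) / 2) ^ 2 / aa τ = -(u : ℂ) ^ 2 / (4 * aa τ) := by
      have : (-(I * (u : ℂ)) / 2) ^ 2 = -(u : ℂ) ^ 2 / 4 := by
        have hI := Complex.I_sq
        calc (-(I * (u : ℂ)) / 2) ^ 2 = I ^ 2 * (u : ℂ) ^ 2 / 4 := by ring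
          _ = _ := by rw [hI]; ring
      rw [this, div_div]
    rw [h1]
    have hne := kinv_aa_ne τ
    field_simp
  rw [hkap] at hG
  rw [← hG]
  -- left side
  have hL : ∫ s : ℝ, cexp (I * τ * s) * kf u s
      = ∫ s in Ioi (0 : ℝ), cexp (I * τ * s) * kf u s := by
    conv_lhs => rw [kf_ind u (fun s => cexp (I * τ * s))]
    rw [integral_indicator measurableSet_Ioi]
  rw [hL]
  rw [← integral_comp_rpow_Ioi (fun s : ℝ => cexp (I * τ * s) * kf u s) (p := 2) two_ne_zero]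
  -- right side
  rw [← intervalIntegral.integral_Iic_add_Ioi (b := 0) hGi.integrableOn hGi.integrableOn]
  have hN : ∫ x in Iic (0 : ℝ), (x : ℂ) * cexp (-(aa τ * (x : ℂ) ^ 2) - 2 * (-(I * u) / 2) * x)
      = ∫ x in Ioi (0 : ℝ), -((x : ℂ) * cexp (-(aa τ * (x : ℂ) ^ 2) + 2 * (-(I * u) / 2) * x)) := by
    have := integral_comp_neg_Ioi (0 : ℝ)
      (fun x : ℝ => (x : ℂ) * cexp (-(aa τ * (x : ℂ) ^ 2) - 2 * (-(I * u) / 2) * x))
    rw [neg_zero] at this
    rw [← this]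
    refine integral_congr_ae (Filter.Eventually.of_forall fun x => ?_)
    simp only [ofReal_neg]
    rw [neg_mul]
    congr 3
    ring
  rw [hN, ← integral_add]
  · refine setIntegral_congr_fun measurableSet_Ioi (fun x hx => ?_)
    have hx0 : (0 : ℝ) < x := hx
    beta_reduce
    have hx2 : (x : ℝ) ^ (2 : ℝ) = x ^ 2 := by
      rw [← Real.rpow_natCast]; norm_num
    have hx1 : (x : ℝ) ^ ((2 : ℝ) - 1) = x := by norm_num
    rw [hx2, hx1]
    unfold kf
    rw [Real.sqrt_sq hx0.le]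
    have habs : |(2 : ℝ)| = 2 := by norm_num
    rw [habs, Complex.real_smul]
    have hs : (I * (Real.sin (x * u) : ℝ) : ℂ) =
        (cexp (I * u * x) - cexp (-(I * u * x))) / 2 := by
      rw [Complex.ofReal_sin, Complex.sin]
      push_cast
      have e1 : -((x : ℂ) * u) * I = -(I * u * x) := by ring
      have e2 : ((x : ℂ) * u) * I = I * u * x := by ring
      rw [e1, e2]
      have hI := Complex.I_sq
      calc I * ((cexp (-(I * u * x)) - cexp (I * u * x)) * I / 2)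
          = I ^ 2 * ((cexp (-(I * u * x)) - cexp (I * u * x)) / 2) := by ring
        _ = _ := by rw [hI]; ring
    rw [hs]
    have e3 : cexp (-(aa τ * (x : ℂ) ^ 2) - 2 * (-(I * u) / 2) * x)
        = cexp (I * τ * ((x ^ 2 : ℝ) : ℂ)) * cexp (-((x ^ 2 : ℝ) : ℂ)) * cexp (I * u * x) := by
      rw [← Complex.exp_add, ← Complex.exp_add]
      congr 1
      unfold aa
      push_cast
      ring
    have e4 : cexp (-(aa τ * (x : ℂ) ^ 2) + 2 * (-(I * u) / 2) * x)
        = cexp (I * τ * ((x ^ 2 : ℝ) : ℂ)) * cexp (-((x ^ 2 : ℝ) : ℂ)) *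
          cexp (-(I * u * x)) := by
      rw [← Complex.exp_add, ← Complex.exp_add]
      congr 1
      unfold aa
      push_cast
      ring
    rw [e3, e4]
    push_cast
    ring
  · have := (hGi.comp_neg).integrableOn (s := Ioi (0 : ℝ))
    refine this.congr_fun (fun x _ => ?_) measurableSet_Ioi
    simp only [ofReal_neg]
    rw [neg_mul]
    congr 3
    ring
  · exact hGi.integrableOn

theorem kap_inv (u s : ℝ) (hs : 0 ≤ s) :
    ((1 / (2 * Real.pi) : ℝ) : ℂ) * ∫ τ : ℝ, kap u τ * cexp (-(I * τ * s))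
      = cexp (-(s : ℂ)) * (I * Real.sin (Real.sqrt s * u)) := by
  have hpi : (0 : ℝ) < 2 * Real.pi := by positivity
  have hF : FourierTransform.fourier (kf u) = fun w : ℝ => kap u (-(2 * Real.pi) * w) := by
    funext w
    rw [Real.fourier_real_eq_integral_exp_smul, ← kf_trans]
    refine integral_congr_ae (Filter.Eventually.of_forall fun v => ?_)
    simp only [smul_eq_mul]
    congr 2
    push_cast
    ring
  have hFi : Integrable (FourierTransform.fourier (kf u)) := by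
    rw [hF]
    exact (kap_int u).comp_mul_left' (by linarith : -(2 * Real.pi) ≠ 0)
  have hinv := (kf_cont u).fourierInv_fourier_eq (kf_int u) hFi
  have h1 : FourierTransformInv.fourierInv (FourierTransform.fourier (kf u)) s = kf u s := by
    rw [hinv]
  rw [hF, Real.fourierInv_eq'] at h1
  have h2 := Measure.integral_comp_mul_left (fun τ : ℝ => kap u τ * cexp (-(I * τ * s)))
    (-(2 * Real.pi))
  have h3 : ∫ v : ℝ, cexp (((2 * Real.pi * inner ℝ v s : ℝ) : ℂ) * I) • kap u (-(2 * Real.pi) * v)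
      = ∫ x : ℝ, (fun τ : ℝ => kap u τ * cexp (-(I * τ * s))) (-(2 * Real.pi) * x) := by
    refine integral_congr_ae (Filter.Eventually.of_forall fun v => ?_)
    simp only [smul_eq_mul]
    rw [mul_comm]
    congr 2
    simp only [RCLike.inner_apply, conj_trivial]
    push_cast
    ring
  rw [h3, h2] at h1
  have h4 : |(-(2 * Real.pi))⁻¹| = 1 / (2 * Real.pi) := by
    rw [abs_inv, abs_neg, abs_of_pos hpi, one_div]
  rw [h4, Complex.real_smul] at h1
  exact h1

end Pool.Agent.H.MP_b7167f_an.SS
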