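import Pool.Agent.H.MP_b7167f_an.SS.Defs

/-!
PROOF.  (`sin_one`) for `k = 1` and `k = 2`, every `c` and every bounded interval: with
`F(x) = (ofReal |sin x|)^(-γ)`, which is `π`-periodic, `∫_{[a,b]} F(k x + c) dx ≤ C(γ, b-a) < ⊤`:
substitute, cover the interval `[ka+c, kb+c]` by finitely many translates of `[0,π]`, and on `[0,π]` use
`sin x ≥ (2/π) min(x, π-x)` (`Real.mul_le_sin`, ...) and `∫ x^(-γ) < ⊤` as `γ < 1`.
(`sin_int`) By Tonelli the integral is the integral over `θ₃, θ₄` (`p.2`), then `θ₂`, then `θ₁`, over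
`(-π,π]`, of `F(L₁)F(L₂)F(L₃)` (`ENNReal.ofReal` of a product of absolute values and
`ENNReal.mul_rpow_of_ne_top`).  Substitute `θ₁ = u + θ₂` (translation invariance of Lebesgue measure):
`u` runs in `[-2π,2π]`, `L₁ = u + θ₃ - θ₄`, `L₂ = u - θ₃ + θ₄`, `L₃ = u + 2θ₂ - θ₃ - θ₄`; integrate over
`θ₂ ∈ (-π,π]` first: `∫ F(L₃) dθ₂ ≤ C`.  Then substitute `θ₃ = v + θ₄`: `v ∈ [-2π,2π]`, integrand
`F(u+v)F(u-v)`; substitute `u = w - v`, `w ∈ [-4π,4π]`: `F(w) F(w-2v)`; integrate over `v` (`≤ C`), then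
over `w` (`≤ C`), then over `θ₄`.
-/

open MeasureTheory Set
open scoped ENNReal

namespace Pool.Agent.H.MP_b7167f_an.SS

private noncomputable def SF (γ x : ℝ) : ℝ≥0∞ := ENNReal.ofReal |Real.sin x| ^ (-γ)

private theorem SF_meas (γ : ℝ) : Measurable (SF γ) :=
  (Real.continuous_sin.abs.measurable.ennreal_ofReal).pow_const _

private theorem SF_neg (γ x : ℝ) : SF γ (-x) = SF γ x := by
  unfold SF
  rw [Real.sin_neg, abs_neg]

private theorem SF_per (γ : ℝ) : Function.Periodic (SF γ) Real.pi := by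
  intro x
  unfold SF
  rw [Real.sin_add_pi, abs_neg]

private theorem SF_half (γ : ℝ) (hγ : 0 < γ) (hγ1 : γ < 1) :
    ∫⁻ x in Ioc 0 (Real.pi / 2), SF γ x < ⊤ := by
  have hpi := Real.pi_pos
  have h1 : ∫⁻ x in Ioc 0 (Real.pi / 2), SF γ x ≤
      ∫⁻ x in Ioc 0 (Real.pi / 2), ENNReal.ofReal ((2 / Real.pi) ^ (-γ) * x ^ (-γ)) := by
    refine setLIntegral_mono' measurableSet_Ioc fun x hx => ?_
    have hx0 : 0 < x := hx.1
    have h2 : 2 / Real.pi * x ≤ Real.sin x := Real.mul_le_sin hx.1.le hx.2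
    have h3 : 0 < 2 / Real.pi * x := by positivity
    have h4 : 0 < Real.sin x := h3.trans_le h2
    unfold SF
    rw [abs_of_pos h4, ENNReal.ofReal_rpow_of_pos h4]
    refine ENNReal.ofReal_le_ofReal ?_
    rw [← Real.mul_rpow (by positivity) hx0.le]
    exact Real.rpow_le_rpow_of_nonpos h3 h2 (by linarith)
  refine h1.trans_lt ?_
  have h2 : IntervalIntegrable (fun x : ℝ => x ^ (-γ)) volume 0 (Real.pi / 2) :=
    intervalIntegral.intervalIntegrable_rpow' (by linarith)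
  have h3 : IntegrableOn (fun x : ℝ => x ^ (-γ)) (Ioc 0 (Real.pi / 2)) volume :=
    (intervalIntegrable_iff_integrableOn_Ioc_of_le (by positivity)).1 h2
  exact (h3.const_mul ((2 / Real.pi) ^ (-γ))).lintegral_lt_top

private theorem SF_full (γ : ℝ) (hγ : 0 < γ) (hγ1 : γ < 1) :
    ∫⁻ x in Ioc 0 Real.pi, SF γ x < ⊤ := by
  have hpi := Real.pi_pos
  have h0 := SF_half γ hγ hγ1
  have h1 : ∫⁻ x in Icc (Real.pi / 2) Real.pi, SF γ x = ∫⁻ x in Icc 0 (Real.pi / 2), SF γ x := by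
    rw [← lintegral_indicator measurableSet_Icc, ← lintegral_indicator measurableSet_Icc,
      ← lintegral_sub_left_eq_self _ Real.pi]
    refine lintegral_congr fun x => ?_
    by_cases hx : x ∈ Icc 0 (Real.pi / 2)
    · rw [indicator_of_mem hx, indicator_of_mem (by
        constructor
        · linarith [hx.2]
        · linarith [hx.1])]
      have h2 : Real.pi - x = -x + Real.pi := by ring
      rw [h2, SF_per, SF_neg]
    · rw [indicator_of_notMem hx, indicator_of_notMem]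
      intro h
      exact hx ⟨by linarith [h.2], by linarith [h.1]⟩
  have h2 : ∫⁻ x in Icc 0 (Real.pi / 2), SF γ x = ∫⁻ x in Ioc 0 (Real.pi / 2), SF γ x :=
    setLIntegral_congr Ioc_ae_eq_Icc.symm
  have h3 : Ioc 0 Real.pi ⊆ Ioc 0 (Real.pi / 2) ∪ Icc (Real.pi / 2) Real.pi := by
    intro x hx
    rcases le_total x (Real.pi / 2) with h | h
    · exact Or.inl ⟨hx.1, h⟩
    · exact Or.inr ⟨h, hx.2⟩
  calc ∫⁻ x in Ioc 0 Real.pi, SF γ x
      ≤ ∫⁻ x in Ioc 0 (Real.pi / 2) ∪ Icc (Real.pi / 2) Real.pi, SF γ x := lintegral_mono_set h3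
    _ ≤ (∫⁻ x in Ioc 0 (Real.pi / 2), SF γ x) + ∫⁻ x in Icc (Real.pi / 2) Real.pi, SF γ x :=
        lintegral_union_le _ _ _
    _ < ⊤ := by
        rw [h1, h2]
        exact ENNReal.add_lt_top.2 ⟨h0, h0⟩

private theorem SF_block (γ : ℝ) (m : ℤ) :
    ∫⁻ x in Ioc (m * Real.pi) ((m + 1) * Real.pi), SF γ x = ∫⁻ x in Ioc 0 Real.pi, SF γ x := by
  rw [← lintegral_indicator measurableSet_Ioc, ← lintegral_indicator measurableSet_Ioc,
    ← lintegral_add_right_eq_self _ ((m : ℝ) * Real.pi)]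
  refine lintegral_congr fun x => ?_
  by_cases hx : x ∈ Ioc 0 Real.pi
  · rw [indicator_of_mem hx, indicator_of_mem (by
      constructor
      · linarith [hx.1]
      · linarith [hx.2])]
    exact (SF_per γ).int_mul m x
  · rw [indicator_of_notMem hx, indicator_of_notMem]
    intro h
    exact hx ⟨by linarith [h.1], by linarith [h.2]⟩

private theorem SF_blocks (γ : ℝ) (m : ℤ) (N : ℕ) :
    ∫⁻ x in Ioc (m * Real.pi) ((m + N) * Real.pi), SF γ x ≤ N * ∫⁻ x in Ioc 0 Real.pi, SF γ x := by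
  induction N with
  | zero => simp
  | succ N ih =>
    have h1 : Ioc ((m : ℝ) * Real.pi) ((m + (N + 1 : ℕ)) * Real.pi) ⊆
        Ioc ((m : ℝ) * Real.pi) ((m + N) * Real.pi) ∪
          Ioc (((m + N : ℤ) : ℝ) * Real.pi) ((((m + N : ℤ) : ℝ) + 1) * Real.pi) := by
      intro x hx
      rcases le_or_gt x ((m + N) * Real.pi) with h | h
      · exact Or.inl ⟨hx.1, h⟩
      · refine Or.inr ⟨?_, ?_⟩
        · push_cast
          exact h
        · have := hx.2
          push_cast at this ⊢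
          linarith
    calc ∫⁻ x in Ioc ((m : ℝ) * Real.pi) ((m + (N + 1 : ℕ)) * Real.pi), SF γ x
        ≤ _ := lintegral_mono_set h1
      _ ≤ _ := lintegral_union_le _ _ _
      _ ≤ N * (∫⁻ x in Ioc 0 Real.pi, SF γ x) + ∫⁻ x in Ioc 0 Real.pi, SF γ x :=
          add_le_add ih (SF_block γ (m + N)).le
      _ = (N + 1 : ℕ) * ∫⁻ x in Ioc 0 Real.pi, SF γ x := by
          push_cast
          ring

private theorem SF_int (γ L : ℝ) (hγ : 0 < γ) (hγ1 : γ < 1) : ∃ C : ℝ, 0 < C ∧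
    ∀ a b : ℝ, b - a ≤ L → ∫⁻ x in Icc a b, SF γ x ≤ ENNReal.ofReal C := by
  have hpi := Real.pi_pos
  obtain ⟨I, hI⟩ : ∃ I, I = ∫⁻ x in Ioc 0 Real.pi, SF γ x := ⟨_, rfl⟩
  have hIt : I < ⊤ := by
    rw [hI]
    exact SF_full γ hγ hγ1
  obtain ⟨N, hN⟩ : ∃ N : ℕ, N = ⌈L / Real.pi⌉₊ + 3 := ⟨_, rfl⟩
  have hfin : (N : ℝ≥0∞) * I ≠ ⊤ := (ENNReal.mul_lt_top (ENNReal.natCast_lt_top N) hIt).ne
  refine ⟨((N : ℝ≥0∞) * I).toReal + 1, by positivity, fun a b hab => ?_⟩
  have h1 : Icc a b ⊆ Ioc (((⌊a / Real.pi⌋ - 1 : ℤ) : ℝ) * Real.pi)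
      ((((⌊a / Real.pi⌋ - 1 : ℤ) : ℝ) + N) * Real.pi) := by
    intro x hx
    have h2 : (⌊a / Real.pi⌋ : ℝ) ≤ a / Real.pi := Int.floor_le _
    have h3 : a / Real.pi < ⌊a / Real.pi⌋ + 1 := Int.lt_floor_add_one _
    have h4 : L / Real.pi ≤ (⌈L / Real.pi⌉₊ : ℝ) := Nat.le_ceil _
    rw [le_div_iff₀ hpi] at h2
    rw [div_lt_iff₀ hpi] at h3
    rw [div_le_iff₀ hpi] at h4
    constructor
    · push_cast
      nlinarith [hx.1]
    · rw [hN]
      push_cast
      nlinarith [hx.2]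
  calc ∫⁻ x in Icc a b, SF γ x ≤ _ := lintegral_mono_set h1
    _ ≤ N * ∫⁻ x in Ioc 0 Real.pi, SF γ x := SF_blocks γ _ N
    _ = N * I := by rw [hI]
    _ = ENNReal.ofReal ((N : ℝ≥0∞) * I).toReal := (ENNReal.ofReal_toReal hfin).symm
    _ ≤ _ := ENNReal.ofReal_le_ofReal (by linarith)

private theorem SF_sub (γ k c a b : ℝ) (hk : 1 ≤ k) :
    ∫⁻ x in Icc a b, SF γ (k * x + c) ≤ ∫⁻ x in Icc (k * a + c) (k * b + c), SF γ x := by
  have h1 := lintegral_image_eq_lintegral_abs_deriv_mul (s := Icc a b) (f := fun x => k * x + c)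
    (f' := fun _ => k) measurableSet_Icc (fun x _ => by
      simpa using (((hasDerivAt_id x).const_mul k).add_const c).hasDerivWithinAt)
    (fun x _ y _ h => by
      have h2 : k * x + c = k * y + c := h
      exact mul_left_cancel₀ (by linarith : k ≠ 0) (add_right_cancel h2)) (SF γ)
  have h2 : (fun x => k * x + c) '' Icc a b ⊆ Icc (k * a + c) (k * b + c) := by
    rintro y ⟨x, hx, rfl⟩
    have hk0 : 0 ≤ k := by linarith
    constructor
    · have := mul_le_mul_of_nonneg_left hx.1 hk0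
      simp only
      linarith
    · have := mul_le_mul_of_nonneg_left hx.2 hk0
      simp only
      linarith
  calc ∫⁻ x in Icc a b, SF γ (k * x + c)
      ≤ ∫⁻ x in Icc a b, ENNReal.ofReal |k| * SF γ (k * x + c) := by
        refine lintegral_mono fun x => ?_
        have h3 : (1 : ℝ≥0∞) ≤ ENNReal.ofReal |k| := by
          rw [ENNReal.one_le_ofReal]
          exact hk.trans (le_abs_self k)
        calc SF γ (k * x + c) = 1 * SF γ (k * x + c) := (one_mul _).symm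
          _ ≤ _ := mul_le_mul_left h3 _
    _ = ∫⁻ x in (fun x => k * x + c) '' Icc a b, SF γ x := h1.symm
    _ ≤ _ := lintegral_mono_set h2

theorem sin_one (γ L : ℝ) (hγ : 0 < γ) (hγ1 : γ < 1) : ∃ C : ℝ, 0 < C ∧
    ∀ k c a b : ℝ, (k = 1 ∨ k = -1 ∨ k = 2 ∨ k = -2) → b - a ≤ L →
      ∫⁻ x in Icc a b, ENNReal.ofReal |Real.sin (k * x + c)| ^ (-γ) ≤ ENNReal.ofReal C := by
  obtain ⟨C, hC, h⟩ := SF_int γ (2 * |L|) hγ hγ1
  refine ⟨C, hC, fun k c a b hk hab => ?_⟩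
  have hL := le_abs_self L
  have hL0 := abs_nonneg L
  have key : ∀ k c : ℝ, 1 ≤ k → k ≤ 2 →
      ∫⁻ x in Icc a b, SF γ (k * x + c) ≤ ENNReal.ofReal C := by
    intro k c h1 h2
    refine (SF_sub γ k c a b h1).trans (h _ _ ?_)
    nlinarith
  have hneg : ∀ k c : ℝ, (fun x => SF γ (-k * x + c)) = fun x => SF γ (k * x + -c) := by
    intro k c
    funext x
    rw [← SF_neg γ (k * x + -c)]
    congr 1
    ring
  show ∫⁻ x in Icc a b, SF γ (k * x + c) ≤ ENNReal.ofReal C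
  rcases hk with rfl | rfl | rfl | rfl
  · exact key 1 c le_rfl (by norm_num)
  · rw [show ∫⁻ x in Icc a b, SF γ (-1 * x + c) = ∫⁻ x in Icc a b, SF γ (1 * x + -c) by
      rw [hneg 1 c]]
    exact key 1 (-c) le_rfl (by norm_num)
  · exact key 2 c (by norm_num) le_rfl
  · rw [show ∫⁻ x in Icc a b, SF γ (-2 * x + c) = ∫⁻ x in Icc a b, SF γ (2 * x + -c) by
      rw [hneg 2 c]]
    exact key 2 (-c) (by norm_num) le_rfl

/-- translation -/
private theorem SF_tr (g : ℝ → ℝ≥0∞) (R R' t : ℝ) (ht : |t| ≤ R') :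
    ∫⁻ x in Icc (-R) R, g x ≤ ∫⁻ u in Icc (-(R + R')) (R + R'), g (u + t) := by
  rw [← lintegral_indicator measurableSet_Icc, ← lintegral_indicator measurableSet_Icc,
    ← lintegral_add_right_eq_self _ t]
  refine lintegral_mono fun u => ?_
  obtain ⟨h1, h2⟩ := abs_le.1 ht
  by_cases hx : u + t ∈ Icc (-R) R
  · rw [indicator_of_mem hx, indicator_of_mem (by
      constructor
      · linarith [hx.1]
      · linarith [hx.2])]
  · rw [indicator_of_notMem hx]
    simp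

private theorem SF_nu : nu = volume.restrict (Icc (-Real.pi) Real.pi) :=
  Measure.restrict_congr_set Ioc_ae_eq_Icc

theorem sin_int (γ : ℝ) (hγ : 0 < γ) (hγ1 : γ < 1) : ∃ C : ℝ, 0 < C ∧
    ∫⁻ p : (ℝ × ℝ) × (ℝ × ℝ), ENNReal.ofReal (S3 p.1.1 p.1.2 p.2.1 p.2.2) ^ (-γ)
      ∂((nu.prod nu).prod (nu.prod nu)) ≤ ENNReal.ofReal C := by
  obtain ⟨C, hC, hone⟩ := sin_one γ (8 * Real.pi) hγ hγ1
  have hpi := Real.pi_pos
  have hF := SF_meas γ
  obtain ⟨π, hπ⟩ : ∃ π, π = Real.pi := ⟨_, rfl⟩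
  rw [← hπ] at hone hpi
  have h1 : ∀ p : (ℝ × ℝ) × (ℝ × ℝ), ENNReal.ofReal (S3 p.1.1 p.1.2 p.2.1 p.2.2) ^ (-γ) =
      SF γ (p.1.1 - p.1.2 + p.2.1 - p.2.2) * SF γ (p.1.1 - p.1.2 - p.2.1 + p.2.2) *
        SF γ (p.1.1 + p.1.2 - p.2.1 - p.2.2) := by
    intro p
    unfold S3 SF
    rw [abs_mul, abs_mul, ENNReal.ofReal_mul (by positivity), ENNReal.ofReal_mul (abs_nonneg _),
      ENNReal.mul_rpow_of_ne_top (ENNReal.mul_ne_top ENNReal.ofReal_ne_top ENNReal.ofReal_ne_top)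
        ENNReal.ofReal_ne_top,
      ENNReal.mul_rpow_of_ne_top ENNReal.ofReal_ne_top ENNReal.ofReal_ne_top]
  -- the three inner estimates
  have e2 : ∀ c : ℝ, ∫⁻ x in Icc (-π) π, SF γ (2 * x + c) ≤ ENNReal.ofReal C := fun c =>
    hone 2 c (-π) π (by norm_num) (by linarith)
  have e3 : ∀ c : ℝ, ∫⁻ x in Icc (-(π + π)) (π + π), SF γ (-2 * x + c) ≤ ENNReal.ofReal C :=
    fun c => hone (-2) c (-(π + π)) (π + π) (by norm_num) (by linarith)
  have e4 : ∫⁻ x in Icc (-(π + π + (π + π))) (π + π + (π + π)), SF γ x ≤ ENNReal.ofReal C := by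
    have := hone 1 0 (-(π + π + (π + π))) (π + π + (π + π)) (by norm_num) (by linarith)
    simpa [SF] using this
  have f1 : ∀ θ₃ θ₄ : ℝ, ∫⁻ q : ℝ × ℝ, SF γ (q.1 - q.2 + θ₃ - θ₄) * SF γ (q.1 - q.2 - θ₃ + θ₄) *
      SF γ (q.1 + q.2 - θ₃ - θ₄) ∂((volume.restrict (Icc (-π) π)).prod
        (volume.restrict (Icc (-π) π))) ≤
      ENNReal.ofReal C * ∫⁻ u in Icc (-(π + π)) (π + π),
        SF γ (u + θ₃ - θ₄) * SF γ (u - θ₃ + θ₄) := by
    intro θ₃ θ₄
    rw [lintegral_prod_symm _ (by fun_prop)]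
    calc ∫⁻ θ₂ in Icc (-π) π, ∫⁻ θ₁ in Icc (-π) π, SF γ (θ₁ - θ₂ + θ₃ - θ₄) *
          SF γ (θ₁ - θ₂ - θ₃ + θ₄) * SF γ (θ₁ + θ₂ - θ₃ - θ₄)
        ≤ ∫⁻ θ₂ in Icc (-π) π, ∫⁻ u in Icc (-(π + π)) (π + π), SF γ (u + θ₃ - θ₄) *
          SF γ (u - θ₃ + θ₄) * SF γ (2 * θ₂ + (u - θ₃ - θ₄)) := by
          refine setLIntegral_mono' measurableSet_Icc fun θ₂ hθ => ?_
          refine (SF_tr _ π π θ₂ (abs_le.2 hθ)).trans (le_of_eq ?_)
          refine lintegral_congr fun u => ?_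
          congr 1
          · congr 1
            · congr 1
              ring
            · congr 1
              ring
          · congr 1
            ring
      _ = ∫⁻ u in Icc (-(π + π)) (π + π), ∫⁻ θ₂ in Icc (-π) π, SF γ (u + θ₃ - θ₄) *
          SF γ (u - θ₃ + θ₄) * SF γ (2 * θ₂ + (u - θ₃ - θ₄)) := by
          refine lintegral_lintegral_swap ?_
          exact Measurable.aemeasurable (by fun_prop)
      _ ≤ ∫⁻ u in Icc (-(π + π)) (π + π), SF γ (u + θ₃ - θ₄) * SF γ (u - θ₃ + θ₄) *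
            ENNReal.ofReal C := by
          refine lintegral_mono fun u => ?_
          simp only
          rw [lintegral_const_mul _ (by fun_prop)]
          exact mul_le_mul_right (e2 _) _
      _ = _ := by
          rw [lintegral_mul_const _ (by fun_prop), mul_comm]
  have f2 : ∀ θ₄ ∈ Icc (-π) π, ∫⁻ θ₃ in Icc (-π) π, ∫⁻ u in Icc (-(π + π)) (π + π),
      SF γ (u + θ₃ - θ₄) * SF γ (u - θ₃ + θ₄) ≤
      ∫⁻ v in Icc (-(π + π)) (π + π), ∫⁻ u in Icc (-(π + π)) (π + π),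
        SF γ (u + v) * SF γ (u - v) := by
    intro θ₄ hθ
    refine (SF_tr _ π π θ₄ (abs_le.2 hθ)).trans (le_of_eq ?_)
    refine lintegral_congr fun v => ?_
    refine lintegral_congr fun u => ?_
    congr 1
    · congr 1
      ring
    · congr 1
      ring
  have f3 : ∫⁻ v in Icc (-(π + π)) (π + π), ∫⁻ u in Icc (-(π + π)) (π + π),
      SF γ (u + v) * SF γ (u - v) ≤ ENNReal.ofReal C * ENNReal.ofReal C := by
    calc ∫⁻ v in Icc (-(π + π)) (π + π), ∫⁻ u in Icc (-(π + π)) (π + π),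
          SF γ (u + v) * SF γ (u - v)
        ≤ ∫⁻ v in Icc (-(π + π)) (π + π), ∫⁻ w in Icc (-(π + π + (π + π))) (π + π + (π + π)),
          SF γ w * SF γ (-2 * v + w) := by
          refine setLIntegral_mono' measurableSet_Icc fun v hv => ?_
          refine (SF_tr _ (π + π) (π + π) (-v) (by rw [abs_neg]; exact abs_le.2 hv)).trans
            (le_of_eq ?_)
          refine lintegral_congr fun w => ?_
          congr 1
          · congr 1
            ring
          · congr 1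
            ring
      _ = ∫⁻ w in Icc (-(π + π + (π + π))) (π + π + (π + π)), ∫⁻ v in Icc (-(π + π)) (π + π),
          SF γ w * SF γ (-2 * v + w) := by
          refine lintegral_lintegral_swap ?_
          exact Measurable.aemeasurable (by fun_prop)
      _ ≤ ∫⁻ w in Icc (-(π + π + (π + π))) (π + π + (π + π)), SF γ w * ENNReal.ofReal C := by
          refine lintegral_mono fun w => ?_
          simp only
          rw [lintegral_const_mul _ (by fun_prop)]
          exact mul_le_mul_right (e3 _) _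
      _ = (∫⁻ w in Icc (-(π + π + (π + π))) (π + π + (π + π)), SF γ w) * ENNReal.ofReal C :=
          lintegral_mul_const _ hF
      _ ≤ _ := mul_le_mul_left e4 _
  refine ⟨2 * π * C ^ 3, by positivity, ?_⟩
  rw [lintegral_congr h1, SF_nu, ← hπ]
  calc ∫⁻ p : (ℝ × ℝ) × (ℝ × ℝ), SF γ (p.1.1 - p.1.2 + p.2.1 - p.2.2) *
        SF γ (p.1.1 - p.1.2 - p.2.1 + p.2.2) * SF γ (p.1.1 + p.1.2 - p.2.1 - p.2.2)
        ∂(((volume.restrict (Icc (-π) π)).prod (volume.restrict (Icc (-π) π))).prod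
          ((volume.restrict (Icc (-π) π)).prod (volume.restrict (Icc (-π) π))))
      = ∫⁻ y : ℝ × ℝ, ∫⁻ q : ℝ × ℝ, SF γ (q.1 - q.2 + y.1 - y.2) * SF γ (q.1 - q.2 - y.1 + y.2) *
        SF γ (q.1 + q.2 - y.1 - y.2)
        ∂((volume.restrict (Icc (-π) π)).prod (volume.restrict (Icc (-π) π)))
        ∂((volume.restrict (Icc (-π) π)).prod (volume.restrict (Icc (-π) π))) :=
        lintegral_prod_symm _ (by fun_prop)
    _ ≤ ∫⁻ y : ℝ × ℝ, ENNReal.ofReal C * (∫⁻ u in Icc (-(π + π)) (π + π),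
        SF γ (u + y.1 - y.2) * SF γ (u - y.1 + y.2))
        ∂((volume.restrict (Icc (-π) π)).prod (volume.restrict (Icc (-π) π))) :=
        lintegral_mono fun y => f1 y.1 y.2
    _ = ENNReal.ofReal C * ∫⁻ y : ℝ × ℝ, (∫⁻ u in Icc (-(π + π)) (π + π),
        SF γ (u + y.1 - y.2) * SF γ (u - y.1 + y.2))
        ∂((volume.restrict (Icc (-π) π)).prod (volume.restrict (Icc (-π) π))) := by
        refine lintegral_const_mul _ ?_
        exact Measurable.lintegral_prod_right' (f := fun z : (ℝ × ℝ) × ℝ =>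
          SF γ (z.2 + z.1.1 - z.1.2) * SF γ (z.2 - z.1.1 + z.1.2)) (by fun_prop)
    _ = ENNReal.ofReal C * ∫⁻ θ₄ in Icc (-π) π, ∫⁻ θ₃ in Icc (-π) π,
        ∫⁻ u in Icc (-(π + π)) (π + π), SF γ (u + θ₃ - θ₄) * SF γ (u - θ₃ + θ₄) := by
        congr 1
        refine lintegral_prod_symm _ (Measurable.aemeasurable ?_)
        exact Measurable.lintegral_prod_right' (f := fun z : (ℝ × ℝ) × ℝ =>
          SF γ (z.2 + z.1.1 - z.1.2) * SF γ (z.2 - z.1.1 + z.1.2)) (by fun_prop)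
    _ ≤ ENNReal.ofReal C * ∫⁻ _θ₄ in Icc (-π) π, ENNReal.ofReal C * ENNReal.ofReal C := by
        refine mul_le_mul_right ?_ _
        exact setLIntegral_mono' measurableSet_Icc fun θ₄ hθ => (f2 θ₄ hθ).trans f3
    _ = ENNReal.ofReal (2 * π * C ^ 3) := by
        rw [lintegral_const, Measure.restrict_apply_univ, Real.volume_Icc,
          ← ENNReal.ofReal_mul hC.le, ← ENNReal.ofReal_mul (by positivity),
          ← ENNReal.ofReal_mul hC.le]
        congr 1
        ring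

end Pool.Agent.H.MP_b7167f_an.SS
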