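import Pool.Agent.H.MP_b7167f_an.SS.K4b
import Pool.Agent.H.MP_b7167f_an.SS.SinInt
import Pool.Agent.H.MP_b7167f_an.SS.K2b
import Pool.Agent.H.MP_b7167f_an.SS.Exp2
import Pool.Agent.H.MP_b7167f_an.SS.Exp4

/-!
PROOF.  `t1_L2`: by `exp2` and `k2_int` the integrals with the factor `exp(-ε|x|²)`, `ε = 1/(n+1)`, are
`≤ ofReal (C (1+t²)^(3/2))`; let `n → ∞`: monotone convergence (`lintegral_tendsto_of_tendsto_of_monotone`
or `lintegral_liminf_le`, Fatou).  `t1_L4`: the same with `exp4`, `k4_bound`, `sin_int` (`γ = 1-δ/3`) and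
`ε_n = 1/(4(1+t²)(n+1))`.
-/

open MeasureTheory Set Complex
open scoped ENNReal

namespace Pool.Agent.H.MP_b7167f_an.SS

theorem t1_meas (t : ℝ) (c : ℝ → ℂ) (hc : Measurable c) : Measurable (T1 t c) := by
  have hdt : Continuous (fun p : (ℝ × ℝ) × ℝ => dt p.1 p.2) := by
    unfold dt
    fun_prop
  have h : Measurable (fun p : (ℝ × ℝ) × ℝ =>
      c p.2 * (dt p.1 p.2 : ℂ) * Complex.exp (-(dt p.1 p.2 : ℂ) ^ 2 / (4 * aa t))) := by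
    refine ((hc.comp measurable_snd).mul ?_).mul ?_
    · exact (Complex.continuous_ofReal.comp hdt).measurable
    · have h1 : Continuous (fun p : (ℝ × ℝ) × ℝ => ((dt p.1 p.2 : ℝ) : ℂ)) :=
        Complex.continuous_ofReal.comp hdt
      exact (Complex.continuous_exp.comp ((h1.pow 2).neg.div_const _)).measurable
  have : IsFiniteMeasure nu := by unfold nu; infer_instance
  exact (h.stronglyMeasurable.integral_prod_right' (ν := nu)).measurable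

private theorem ll_fatou (f : ℝ × ℝ → ℝ≥0∞) (hf : Measurable f) (ε : ℕ → ℝ)
    (hε : Filter.Tendsto ε Filter.atTop (nhds 0)) (B : ℝ≥0∞)
    (h : ∀ n, ∫⁻ x : ℝ × ℝ, f x * ENNReal.ofReal (Real.exp (-ε n * (x.1 ^ 2 + x.2 ^ 2))) ≤ B) :
    ∫⁻ x : ℝ × ℝ, f x ≤ B := by
  have hm : ∀ n, Measurable
      (fun x : ℝ × ℝ => f x * ENNReal.ofReal (Real.exp (-ε n * (x.1 ^ 2 + x.2 ^ 2)))) := by
    intro n
    refine hf.mul (ENNReal.measurable_ofReal.comp ?_)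
    exact (Real.continuous_exp.comp (by fun_prop)).measurable
  have hl : ∀ x : ℝ × ℝ, Filter.Tendsto
      (fun n => f x * ENNReal.ofReal (Real.exp (-ε n * (x.1 ^ 2 + x.2 ^ 2)))) Filter.atTop
      (nhds (f x)) := by
    intro x
    have h1 : Filter.Tendsto (fun n => ENNReal.ofReal (Real.exp (-ε n * (x.1 ^ 2 + x.2 ^ 2))))
        Filter.atTop (nhds 1) := by
      have h2 : Filter.Tendsto (fun n => Real.exp (-ε n * (x.1 ^ 2 + x.2 ^ 2))) Filter.atTop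
          (nhds (Real.exp (-0 * (x.1 ^ 2 + x.2 ^ 2)))) :=
        (Real.continuous_exp.tendsto _).comp (hε.neg.mul_const _)
      have h3 := ENNReal.tendsto_ofReal h2
      simpa using h3
    have h4 := ENNReal.Tendsto.const_mul (a := f x) h1 (Or.inl one_ne_zero)
    simpa using h4
  calc ∫⁻ x : ℝ × ℝ, f x
      = ∫⁻ x : ℝ × ℝ, Filter.liminf
          (fun n => f x * ENNReal.ofReal (Real.exp (-ε n * (x.1 ^ 2 + x.2 ^ 2)))) Filter.atTop := by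
        refine lintegral_congr fun x => ?_
        exact ((hl x).liminf_eq).symm
    _ ≤ Filter.liminf (fun n => ∫⁻ x : ℝ × ℝ,
          f x * ENNReal.ofReal (Real.exp (-ε n * (x.1 ^ 2 + x.2 ^ 2)))) Filter.atTop :=
        lintegral_liminf_le hm
    _ ≤ Filter.liminf (fun _ : ℕ => B) Filter.atTop :=
        Filter.liminf_le_liminf (Filter.Eventually.of_forall h)
    _ = B := by simp

private theorem ll_tend (c : ℝ) :
    Filter.Tendsto (fun n : ℕ => c * (1 / ((n : ℝ) + 1))) Filter.atTop (nhds 0) := by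
  have := (tendsto_one_div_add_atTop_nhds_zero_nat (𝕜 := ℝ)).const_mul c
  simpa using this

theorem t1_L2 : ∃ C : ℝ, 0 < C ∧ ∀ (t : ℝ) (c : ℝ → ℂ), Measurable c → (∀ θ, ‖c θ‖ ≤ 1) →
    ∫⁻ x : ℝ × ℝ, ‖T1 t c x‖ₑ ^ 2 ≤ ENNReal.ofReal (C * (1 + t ^ 2) ^ (3 / 2 : ℝ)) := by
  obtain ⟨C, hC, hK⟩ := k2_int
  refine ⟨C, hC, fun t c hc hc1 => ?_⟩
  refine ll_fatou _ ((t1_meas t c hc).enorm.pow_const 2) (fun n => 1 * (1 / ((n : ℝ) + 1)))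
    (ll_tend 1) _ (fun n => ?_)
  have hn : (0 : ℝ) < (n : ℝ) + 1 := by positivity
  have h0 : 0 < 1 * (1 / ((n : ℝ) + 1)) := by positivity
  have h1 : 1 * (1 / ((n : ℝ) + 1)) ≤ 1 := by
    rw [one_mul, div_le_one hn]
    have : (0 : ℝ) ≤ n := Nat.cast_nonneg n
    linarith
  exact (exp2 t _ h0 c hc hc1).trans (hK t _ h0 h1)

theorem t1_L4 (δ : ℝ) (hδ : 0 < δ) (hδ1 : δ ≤ 1) : ∃ C : ℝ, 0 < C ∧
    ∀ (t : ℝ) (c : ℝ → ℂ), Measurable c → (∀ θ, ‖c θ‖ ≤ 1) →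
    ∫⁻ x : ℝ × ℝ, ‖T1 t c x‖ₑ ^ 4
      ≤ ENNReal.ofReal (C * (1 + t ^ 2) ^ 3 * (1 + |t|) ^ (-2 + δ)) := by
  obtain ⟨C1, hC1, hK⟩ := k4_bound δ hδ hδ1
  obtain ⟨C2, hC2, hS⟩ := sin_int (1 - δ / 3) (by linarith) (by linarith)
  refine ⟨C1 * C2, mul_pos hC1 hC2, fun t c hc hc1 => ?_⟩
  have ht : (0 : ℝ) < 4 * (1 + t ^ 2) := by positivity
  refine ll_fatou _ ((t1_meas t c hc).enorm.pow_const 4)
    (fun n => (1 / (4 * (1 + t ^ 2))) * (1 / ((n : ℝ) + 1))) (ll_tend _) _ (fun n => ?_)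
  have hn : (0 : ℝ) < (n : ℝ) + 1 := by positivity
  have h0 : 0 < (1 / (4 * (1 + t ^ 2))) * (1 / ((n : ℝ) + 1)) := by positivity
  have h1 : 4 * (1 + t ^ 2) * ((1 / (4 * (1 + t ^ 2))) * (1 / ((n : ℝ) + 1))) ≤ 1 := by
    rw [← mul_assoc, mul_one_div_cancel ht.ne', one_mul, div_le_one hn]
    have : (0 : ℝ) ≤ n := Nat.cast_nonneg n
    linarith
  have hA : 0 ≤ C1 * (1 + t ^ 2) ^ 3 * (1 + |t|) ^ (-2 + δ) := by positivity
  calc ∫⁻ x : ℝ × ℝ, ‖T1 t c x‖ₑ ^ 4 * ENNReal.ofReal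
        (Real.exp (-((1 / (4 * (1 + t ^ 2))) * (1 / ((n : ℝ) + 1))) * (x.1 ^ 2 + x.2 ^ 2)))
      ≤ ∫⁻ p : (ℝ × ℝ) × (ℝ × ℝ),
          ‖K4 t ((1 / (4 * (1 + t ^ 2))) * (1 / ((n : ℝ) + 1))) p.1.1 p.1.2 p.2.1 p.2.2‖ₑ
          ∂((nu.prod nu).prod (nu.prod nu)) := exp4 t _ h0 c hc hc1
    _ ≤ ∫⁻ p : (ℝ × ℝ) × (ℝ × ℝ),
          ENNReal.ofReal (C1 * (1 + t ^ 2) ^ 3 * (1 + |t|) ^ (-2 + δ)) *
          ENNReal.ofReal (S3 p.1.1 p.1.2 p.2.1 p.2.2) ^ (-(1 - δ / 3))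
          ∂((nu.prod nu).prod (nu.prod nu)) :=
        lintegral_mono fun p => hK t _ p.1.1 p.1.2 p.2.1 p.2.2 h0 h1
    _ = ENNReal.ofReal (C1 * (1 + t ^ 2) ^ 3 * (1 + |t|) ^ (-2 + δ)) *
          ∫⁻ p : (ℝ × ℝ) × (ℝ × ℝ), ENNReal.ofReal (S3 p.1.1 p.1.2 p.2.1 p.2.2) ^ (-(1 - δ / 3))
          ∂((nu.prod nu).prod (nu.prod nu)) := lintegral_const_mul' _ _ ENNReal.ofReal_ne_top
    _ ≤ ENNReal.ofReal (C1 * (1 + t ^ 2) ^ 3 * (1 + |t|) ^ (-2 + δ)) * ENNReal.ofReal C2 := by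
        gcongr
    _ = ENNReal.ofReal (C1 * C2 * (1 + t ^ 2) ^ 3 * (1 + |t|) ^ (-2 + δ)) := by
        rw [← ENNReal.ofReal_mul hA]
        congr 1
        ring

end Pool.Agent.H.MP_b7167f_an.SS
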