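import Pool.Agent.H.MP_b7167f_an.SS.LL

/-!
PROOF.  Let `w = 2 - q/2 ∈ (0,1/2)`, so `q = 2w + 4(1-w)`.  Hölder
(`ENNReal.lintegral_mul_le_Lp_mul_Lq` with exponents `1/w`, `1/(1-w)`):
`∫ ‖T1‖^q = ∫ (‖T1‖²)^w (‖T1‖⁴)^(1-w) ≤ (∫‖T1‖²)^w (∫‖T1‖⁴)^(1-w)
  ≤ C (1+t²)^(3w/2 + 3(1-w)) (1+|t|)^(-(2-δ)(1-w))`.
`3w/2 + 3(1-w) = 3q/4` (as `2w+4(1-w) = q`) and `2(1-w) = q - 2`, so the `q`-th root is
`≤ C (1+t²)^(3/4) (1+|t|)^(-β)`, `β = (q-2)/q - δ(1-w)/q = (q-2)/q - δ(q-2)/(2q)`.  As `(q-2)/q > 1/q`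
for `q > 3`, a small `δ` gives `1/q < β`; also `β < 1`.
-/

open MeasureTheory Set Complex
open scoped ENNReal

namespace Pool.Agent.H.MP_b7167f_an.SS

theorem t1_Lq (q : ℝ) (hq : 3 < q) (hq4 : q < 4) : ∃ β : ℝ, 1 / q < β ∧ β < 1 ∧ ∃ C : ℝ, 0 < C ∧
    ∀ (t : ℝ) (c : ℝ → ℂ), Measurable c → (∀ θ, ‖c θ‖ ≤ 1) →
    eLpNorm (T1 t c) (ENNReal.ofReal q) volume
      ≤ ENNReal.ofReal (C * (1 + t ^ 2) ^ (3 / 4 : ℝ) * (1 + |t|) ^ (-β)) := by
  have hq0 : 0 < q := by linarith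
  have hq2 : 0 < q - 2 := by linarith
  obtain ⟨C2, hC2, h2⟩ := t1_L2
  have hδ0 : 0 < (q - 3) / (q - 2) := div_pos (by linarith) hq2
  have hδ1 : (q - 3) / (q - 2) ≤ 1 := by rw [div_le_one hq2]; linarith
  obtain ⟨C4, hC4, h4⟩ := t1_L4 ((q - 3) / (q - 2)) hδ0 hδ1
  obtain ⟨w, hw⟩ : ∃ w, w = 2 - q / 2 := ⟨_, rfl⟩
  have hw0 : 0 ≤ w := by rw [hw]; linarith
  have hw1 : 0 ≤ 1 - w := by rw [hw]; linarith
  refine ⟨(q - 1) / (2 * q), ?_, ?_, C2 ^ (w / q) * C4 ^ ((1 - w) / q), by positivity,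
    fun t c hc hc1 => ?_⟩
  · rw [div_lt_div_iff₀ hq0 (by linarith)]; nlinarith
  · rw [div_lt_one (by linarith)]; linarith
  have hm := (t1_meas t c hc).enorm
  have hA : 0 < 1 + t ^ 2 := by positivity
  have hB : 0 < 1 + |t| := by positivity
  rw [eLpNorm_eq_lintegral_rpow_enorm_toReal (by simpa using hq0) ENNReal.ofReal_ne_top,
    ENNReal.toReal_ofReal hq0.le]
  have key : ∫⁻ x : ℝ × ℝ, ‖T1 t c x‖ₑ ^ q ≤
      ENNReal.ofReal (C2 * (1 + t ^ 2) ^ (3 / 2 : ℝ)) ^ w *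
      ENNReal.ofReal (C4 * (1 + t ^ 2) ^ 3 * (1 + |t|) ^ (-2 + (q - 3) / (q - 2))) ^ (1 - w) := by
    calc ∫⁻ x : ℝ × ℝ, ‖T1 t c x‖ₑ ^ q
        = ∫⁻ x : ℝ × ℝ, (‖T1 t c x‖ₑ ^ 2) ^ w * (‖T1 t c x‖ₑ ^ 4) ^ (1 - w) := by
          refine lintegral_congr fun x => ?_
          rw [← ENNReal.rpow_natCast, ← ENNReal.rpow_natCast, ← ENNReal.rpow_mul,
            ← ENNReal.rpow_mul, ← ENNReal.rpow_add_of_nonneg _ _ (by positivity) (by positivity)]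
          congr 1
          push_cast
          rw [hw]; ring
      _ ≤ (∫⁻ x : ℝ × ℝ, ‖T1 t c x‖ₑ ^ 2) ^ w * (∫⁻ x : ℝ × ℝ, ‖T1 t c x‖ₑ ^ 4) ^ (1 - w) :=
          ENNReal.lintegral_mul_norm_pow_le (hm.pow_const 2).aemeasurable
            (hm.pow_const 4).aemeasurable hw0 hw1 (by ring)
      _ ≤ _ := by
          gcongr
          · exact h2 t c hc hc1
          · exact h4 t c hc hc1
  calc (∫⁻ x : ℝ × ℝ, ‖T1 t c x‖ₑ ^ q) ^ (1 / q)
      ≤ (ENNReal.ofReal (C2 * (1 + t ^ 2) ^ (3 / 2 : ℝ)) ^ w *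
      ENNReal.ofReal (C4 * (1 + t ^ 2) ^ 3 * (1 + |t|) ^ (-2 + (q - 3) / (q - 2))) ^ (1 - w)) ^
        (1 / q) := by gcongr
    _ = _ := by
        rw [ENNReal.ofReal_rpow_of_nonneg (by positivity) hw0,
          ENNReal.ofReal_rpow_of_nonneg (by positivity) hw1,
          ← ENNReal.ofReal_mul (by positivity),
          ENNReal.ofReal_rpow_of_nonneg (by positivity) (by positivity)]
        congr 1
        have hX : ((1 + t ^ 2) ^ 3 : ℝ) = (1 + t ^ 2) ^ (3 : ℝ) := by norm_cast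
        have d1 : ((C2 * (1 + t ^ 2) ^ (3 / 2 : ℝ)) ^ w) ^ (1 / q) =
            C2 ^ (w / q) * (1 + t ^ 2) ^ (3 / 2 * w * (1 / q)) := by
          rw [← Real.rpow_mul (by positivity), Real.mul_rpow hC2.le (by positivity),
            ← Real.rpow_mul hA.le, mul_one_div w q]
          congr 2
          ring
        have d2 : ((C4 * (1 + t ^ 2) ^ 3 * (1 + |t|) ^ (-2 + (q - 3) / (q - 2))) ^ (1 - w)) ^
            (1 / q) = C4 ^ ((1 - w) / q) * (1 + t ^ 2) ^ (3 * (1 - w) * (1 / q)) *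
            (1 + |t|) ^ ((-2 + (q - 3) / (q - 2)) * (1 - w) * (1 / q)) := by
          rw [hX, ← Real.rpow_mul (by positivity), Real.mul_rpow (by positivity) (by positivity),
            Real.mul_rpow hC4.le (by positivity), ← Real.rpow_mul hA.le, ← Real.rpow_mul hB.le,
            mul_one_div (1 - w) q]
          congr 1
          · congr 2
            ring
          · congr 1
            ring
        rw [Real.mul_rpow (by positivity) (by positivity), d1, d2]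
        have e1 : (1 + t ^ 2) ^ (3 / 4 : ℝ) = (1 + t ^ 2) ^ (3 / 2 * w * (1 / q)) *
            (1 + t ^ 2) ^ (3 * (1 - w) * (1 / q)) := by
          rw [← Real.rpow_add hA]
          congr 1
          rw [hw]
          field_simp
          ring
        have e2 : (-2 + (q - 3) / (q - 2)) * (1 - w) * (1 / q) = -((q - 1) / (2 * q)) := by
          rw [hw]
          have : q - 2 ≠ 0 := hq2.ne'
          field_simp
          ring
        rw [e1, e2]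
        ring

end Pool.Agent.H.MP_b7167f_an.SS
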