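import Pool.Agent.H.MP_b7167f_an.SS.Defs

/-!
Weighted Minkowski inequality.

PROOF.  If `∫ w = ⊤` the right side is `⊤`.  Otherwise, with `q' = q/(q-1)`: for every `x`
`∫ φ(τ,x) dτ = ∫ (φ w^(-1/q')) w^(1/q') dτ ≤ (∫ φ^q w^(1-q) dτ)^(1/q) (∫ w)^(1/q')`
(`ENNReal.lintegral_mul_le_Lp_mul_Lq`; `-q/q' = 1-q`), so
`(∫ φ dτ)^q ≤ (∫ w)^(q-1) ∫ φ^q w^(1-q) dτ`; integrate over `x` (Tonelli, `lintegral_lintegral_swap`):
`≤ (∫ w)^(q-1) ∫ w^(1-q) (∫ φ^q dx) dτ ≤ (∫ w)^(q-1) ∫ w^(1-q) w^q = (∫ w)^q`.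
-/

open MeasureTheory Set Complex
open scoped ENNReal

namespace Pool.Agent.H.MP_b7167f_an.SS

theorem mink (q : ℝ) (hq : 1 < q) (φ : ℝ → ℝ × ℝ → ℝ≥0∞)
    (hφ : Measurable (Function.uncurry φ)) (w : ℝ → ℝ≥0∞) (hw : Measurable w)
    (hw0 : ∀ τ, w τ ≠ 0) (hw1 : ∀ τ, w τ ≠ ⊤)
    (h : ∀ τ, ∫⁻ x, φ τ x ^ q ≤ w τ ^ q) :
    ∫⁻ x, (∫⁻ τ, φ τ x) ^ q ≤ (∫⁻ τ, w τ) ^ q := by
  have hq0 : 0 < q := by linarith
  have hq1 : 0 < q - 1 := by linarith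
  by_cases hW : ∫⁻ τ, w τ = ⊤
  · rw [hW, ENNReal.top_rpow_of_pos hq0]
    exact le_top
  obtain ⟨W, hWd⟩ : ∃ W, W = ∫⁻ τ, w τ := ⟨_, rfl⟩
  rw [← hWd] at hW ⊢
  obtain ⟨p, hp⟩ : ∃ p : ℝ, p = q / (q - 1) := ⟨_, rfl⟩
  have hconj : q.HolderConjugate p := by
    rw [hp]
    exact Real.HolderConjugate.conjExponent hq
  have hp0 : 0 < p := hconj.symm.pos
  have hpq : 1 / p * q = q - 1 := by
    rw [hp]
    field_simp
  -- the pointwise inequality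
  have hpt : ∀ x : ℝ × ℝ, (∫⁻ τ, φ τ x) ^ q ≤ (∫⁻ τ, φ τ x ^ q * w τ ^ (1 - q)) * W ^ (q - 1) := by
    intro x
    have hφx : Measurable fun τ => φ τ x := hφ.comp (measurable_id.prodMk measurable_const)
    have hf : Measurable fun τ => φ τ x * w τ ^ (-(1 / p)) := hφx.mul (hw.pow_const _)
    have hg : Measurable fun τ => w τ ^ (1 / p) := hw.pow_const _
    have e1 : ∀ τ, φ τ x = (φ τ x * w τ ^ (-(1 / p))) * w τ ^ (1 / p) := by
      intro τ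
      rw [mul_assoc, ← ENNReal.rpow_add _ _ (hw0 τ) (hw1 τ), neg_add_cancel, ENNReal.rpow_zero,
        mul_one]
    have hH := ENNReal.lintegral_mul_le_Lp_mul_Lq (volume : Measure ℝ) hconj hf.aemeasurable
      hg.aemeasurable
    have e2 : ∫⁻ τ, φ τ x = ∫⁻ τ, ((fun τ => φ τ x * w τ ^ (-(1 / p))) * fun τ => w τ ^ (1 / p)) τ :=
      lintegral_congr fun τ => e1 τ
    have e3 : ∀ τ, (φ τ x * w τ ^ (-(1 / p))) ^ q = φ τ x ^ q * w τ ^ (1 - q) := by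
      intro τ
      rw [ENNReal.mul_rpow_of_nonneg _ _ hq0.le, ← ENNReal.rpow_mul]
      congr 2
      linarith
    have e4 : ∀ τ, (w τ ^ (1 / p)) ^ p = w τ := by
      intro τ
      rw [← ENNReal.rpow_mul, one_div_mul_cancel hp0.ne', ENNReal.rpow_one]
    rw [e2]
    refine (ENNReal.rpow_le_rpow hH hq0.le).trans (le_of_eq ?_)
    rw [ENNReal.mul_rpow_of_nonneg _ _ hq0.le, ← ENNReal.rpow_mul, ← ENNReal.rpow_mul,
      one_div_mul_cancel hq0.ne', ENNReal.rpow_one, hpq, lintegral_congr e3, lintegral_congr e4, hWd]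
  have hm : Measurable (Function.uncurry fun (x : ℝ × ℝ) (τ : ℝ) => φ τ x ^ q * w τ ^ (1 - q)) := by
    have a1 : Measurable fun y : (ℝ × ℝ) × ℝ => φ y.2 y.1 :=
      hφ.comp (measurable_snd.prodMk measurable_fst)
    exact (a1.pow_const q).mul ((hw.comp measurable_snd).pow_const _)
  calc ∫⁻ x, (∫⁻ τ, φ τ x) ^ q
      ≤ ∫⁻ x, (∫⁻ τ, φ τ x ^ q * w τ ^ (1 - q)) * W ^ (q - 1) := lintegral_mono hpt
    _ = (∫⁻ x, ∫⁻ τ, φ τ x ^ q * w τ ^ (1 - q)) * W ^ (q - 1) :=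
        lintegral_mul_const _ hm.lintegral_prod_right'
    _ = (∫⁻ τ, ∫⁻ x, φ τ x ^ q * w τ ^ (1 - q)) * W ^ (q - 1) := by
        rw [lintegral_lintegral_swap hm.aemeasurable]
    _ ≤ (∫⁻ τ, w τ) * W ^ (q - 1) := by
        refine mul_le_mul_left ?_ _
        refine lintegral_mono fun τ => ?_
        have hφτ : Measurable fun x => φ τ x ^ q :=
          (hφ.comp (measurable_const.prodMk measurable_id)).pow_const q
        rw [lintegral_mul_const _ hφτ]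
        calc (∫⁻ x, φ τ x ^ q) * w τ ^ (1 - q) ≤ w τ ^ q * w τ ^ (1 - q) := mul_le_mul_left (h τ) _
          _ = w τ := by
            rw [← ENNReal.rpow_add _ _ (hw0 τ) (hw1 τ)]
            have : q + (1 - q) = 1 := by ring
            rw [this, ENNReal.rpow_one]
    _ = W ^ q := by
        rw [← hWd]
        by_cases hW0 : W = 0
        · rw [hW0, zero_mul, ENNReal.zero_rpow_of_pos hq0]
        · conv_lhs => rw [← ENNReal.rpow_one W, ← ENNReal.rpow_mul, one_mul]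
          rw [← ENNReal.rpow_add _ _ hW0 hW]
          congr 1
          ring

end Pool.Agent.H.MP_b7167f_an.SS
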