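import Pool.Agent.H.MP_b7167f_an.SS.RScale

/-!
Dyadic decomposition of even functions.

PROOF PLAN (helper71).
adm_ann_scale: along a ray the function is J.indicator (fun r => h (l r cos, l r sin)) with J = Ioc (1/2) 1; variation
<= 1 + 2 (evar_indicator_le with A = 1; the variation of r -> h(l r cos theta, l r sin theta) on J is at most that of h on
Ici 0: eVariationOn.comp_le_of_monotoneOn). ann_scale_zero: l^2 |z|^2 <= l^2/4 = (l/2)^2. ann_sum: induction on N, the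
annuli ((1/2)^(N+1), (1/2)^N] are disjoint. tendsto_E0_ann: tendsto_integral_of_dominated_convergence, bound norm (h z);
for z = 0 ae excluded or: for z not 0 eventually ann h ((1/2)^N) 1 z = h z (if |z|^2 > 1 both are 0 by H.supp).
even_all: g_k = the scaled function of adm_ann_scale with l = (1/2)^k: even, Adm 3, zero for |z|^2 <= 1/4, so
eLpNorm (E0 g_k) <= 3 C (eLpNorm_of_adm with P h = (IsEven h and zero on |z|^2 <= 1/4)); by eLpNorm_E0_scale
eLpNorm (E0 (ann h (l/2) l)) = l^(2-4/q) * eLpNorm (E0 g_k) <= 3 C b^k, b = (1/2)^(2-4/q) < 1. Sum over k < N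
(ann_sum, E0_add / integral_finset_sum, eLpNorm_sum_le): <= 3 C / (1 - b). Limit N -> infinity:
Lp.eLpNorm_lim_le_liminf_eLpNorm with tendsto_E0_ann.
-/

open MeasureTheory Set Filter
open scoped ENNReal NNReal

namespace Pool.Agent.H.MP_b7167f_an.SS

/-- The part of `h` in the annulus `a < |z| ≤ b`. -/
noncomputable def ann (h : ℝ × ℝ → ℂ) (a b : ℝ) (z : ℝ × ℝ) : ℂ :=
  if a ^ 2 < z.1 ^ 2 + z.2 ^ 2 ∧ z.1 ^ 2 + z.2 ^ 2 ≤ b ^ 2 then h z else 0

private theorem RDyad_meas {h : ℝ × ℝ → ℂ} (hm : Measurable h) (a b : ℝ) : Measurable (ann h a b) := by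
  have hR : Measurable fun z : ℝ × ℝ => z.1 ^ 2 + z.2 ^ 2 := by fun_prop
  unfold ann
  refine Measurable.ite ?_ hm measurable_const
  exact (measurableSet_lt measurable_const hR).inter (measurableSet_le hR measurable_const)

private theorem RDyad_norm (h : ℝ × ℝ → ℂ) (a b : ℝ) (z : ℝ × ℝ) : ‖ann h a b z‖ ≤ ‖h z‖ := by
  unfold ann
  split_ifs
  · exact le_rfl
  · rw [norm_zero]
    exact norm_nonneg _

private theorem RDyad_split (h : ℝ × ℝ → ℂ) {c a b : ℝ} (hc : 0 ≤ c) (hca : c ≤ a) (hab : a ≤ b)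
    (z : ℝ × ℝ) : ann h c b z = ann h a b z + ann h c a z := by
  have h1 : c ^ 2 ≤ a ^ 2 := by gcongr
  have h2 : a ^ 2 ≤ b ^ 2 := by
    have : 0 ≤ a := hc.trans hca
    gcongr
  unfold ann
  generalize z.1 ^ 2 + z.2 ^ 2 = R
  by_cases p1 : a ^ 2 < R
  · have p2 : ¬ R ≤ a ^ 2 := not_le.2 p1
    have p3 : c ^ 2 < R := lt_of_le_of_lt h1 p1
    simp [p1, p2, p3]
  · have p2 : R ≤ a ^ 2 := not_lt.1 p1
    have p3 : R ≤ b ^ 2 := p2.trans h2
    simp [p1, p2, p3]

theorem adm_ann_scale {h : ℝ × ℝ → ℂ} (H : Adm 1 h) {l : ℝ} (hl : 0 < l) (hl1 : l ≤ 1) :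
    Adm 3 (fun z => ann h (l / 2) l (l * z.1, l * z.2)) where
  meas := by
    have : Measurable fun z : ℝ × ℝ => (l * z.1, l * z.2) := by fun_prop
    exact (RDyad_meas H.meas _ _).comp this
  bdd z := ((RDyad_norm h _ _ _).trans (H.bdd _)).trans (by norm_num)
  supp z hz := by
    unfold ann
    rw [if_neg]
    rintro ⟨-, h2⟩
    simp only at h2
    have h3 : 0 < l ^ 2 := by positivity
    nlinarith
  var θ := by
    have hray : EqOn (fun r : ℝ => ann h (l / 2) l (l * (r * Real.cos θ), l * (r * Real.sin θ)))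
        ((Ioc (1 / 2 : ℝ) 1).indicator
          ((fun ρ : ℝ => h (ρ * Real.cos θ, ρ * Real.sin θ)) ∘ fun r => l * r)) (Ici 0) := by
      intro r hr
      have hr0 : (0 : ℝ) ≤ r := hr
      have e1 : (l * (r * Real.cos θ)) ^ 2 + (l * (r * Real.sin θ)) ^ 2 = l ^ 2 * r ^ 2 := by
        have := Real.sin_sq_add_cos_sq θ
        linear_combination (l ^ 2 * r ^ 2) * this
      have hl2 : 0 < l ^ 2 := by positivity
      simp only [ann]
      rw [e1]
      by_cases hJ : r ∈ Ioc (1 / 2 : ℝ) 1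
      · rw [indicator_of_mem hJ, if_pos]
        · simp only [Function.comp]
          rw [mul_assoc, mul_assoc]
        · constructor
          · have : (1 / 2 : ℝ) ^ 2 < r ^ 2 := by
              have := hJ.1
              gcongr
            nlinarith
          · have : r ^ 2 ≤ 1 := pow_le_one₀ hr0 hJ.2
            nlinarith
      · rw [indicator_of_notMem hJ, if_neg]
        rintro ⟨h1, h2⟩
        apply hJ
        constructor
        · by_contra hcon
          push Not at hcon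
          have : r ^ 2 ≤ (1 / 2) ^ 2 := by gcongr
          nlinarith
        · by_contra hcon
          push Not at hcon
          have : 1 < r ^ 2 := one_lt_pow₀ hcon two_ne_zero
          nlinarith
    have h1 : eVariationOn (fun r : ℝ => ann h (l / 2) l (l * (r * Real.cos θ), l * (r * Real.sin θ)))
        (Ici 0) = eVariationOn ((Ioc (1 / 2 : ℝ) 1).indicator
          ((fun ρ : ℝ => h (ρ * Real.cos θ, ρ * Real.sin θ)) ∘ fun r => l * r)) (Ici 0) :=
      eVariationOn.eq_of_eqOn hray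
    have h2 := evar_indicator_le (g := (fun ρ : ℝ => h (ρ * Real.cos θ, ρ * Real.sin θ)) ∘
      fun r => l * r) (J := Ioc (1 / 2 : ℝ) 1) (s := Ici 0) ordConnected_Ioc (A := 1)
      (fun x _ => H.bdd _)
    have h3 : eVariationOn ((fun ρ : ℝ => h (ρ * Real.cos θ, ρ * Real.sin θ)) ∘ fun r => l * r)
        (Ioc (1 / 2 : ℝ) 1) ≤ ENNReal.ofReal 1 := by
      refine (eVariationOn.comp_le_of_monotoneOn (t := Ioc (1 / 2 : ℝ) 1) (s := Ici 0)
        (fun ρ : ℝ => h (ρ * Real.cos θ, ρ * Real.sin θ)) (fun r => l * r) ?_ ?_).trans (H.var θ)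
      · intro a _ b _ hab
        exact mul_le_mul_of_nonneg_left hab hl.le
      · intro a ha
        have : 0 < a := lt_trans (by norm_num) ha.1
        exact (mul_pos hl this).le
    rw [h1]
    refine h2.trans ((add_le_add_left h3 _).trans (le_of_eq ?_))
    have e3 : ENNReal.ofReal 3 = 3 := by norm_num
    rw [e3, ENNReal.ofReal_one, ENNReal.coe_one, mul_one]
    norm_num

theorem ann_scale_zero (h : ℝ × ℝ → ℂ) {l : ℝ} (hl : 0 < l) (z : ℝ × ℝ)
    (hz : z.1 ^ 2 + z.2 ^ 2 ≤ 1 / 4) : ann h (l / 2) l (l * z.1, l * z.2) = 0 := by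
  unfold ann
  rw [if_neg]
  rintro ⟨h1, -⟩
  simp only at h1
  have h3 : 0 < l ^ 2 := by positivity
  nlinarith

theorem ann_sum (h : ℝ × ℝ → ℂ) (N : ℕ) (z : ℝ × ℝ) :
    ann h ((1 / 2) ^ N) 1 z =
      ∑ k ∈ Finset.range N, ann h ((1 / 2) ^ k / 2) ((1 / 2) ^ k) z := by
  induction N with
  | zero =>
    unfold ann
    simp only [pow_zero, one_pow, Finset.range_zero, Finset.sum_empty, ite_eq_right_iff]
    rintro ⟨h1, h2⟩
    linarith
  | succ N ih =>
    have e : ((1 / 2 : ℝ)) ^ (N + 1) = (1 / 2) ^ N / 2 := by ring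
    have hp : (0 : ℝ) < (1 / 2) ^ N := by positivity
    rw [Finset.sum_range_succ, ← ih, e]
    exact RDyad_split h (by positivity) (by linarith) (pow_le_one₀ (by norm_num) (by norm_num)) z

private theorem RDyad_int {h : ℝ × ℝ → ℂ} (H : Adm 1 h) (a b : ℝ) : Integrable (ann h a b) :=
  H.integrable.norm.mono' (RDyad_meas H.meas a b).aestronglyMeasurable
    (Eventually.of_forall (RDyad_norm h a b))

theorem tendsto_E0_ann {h : ℝ × ℝ → ℂ} (H : Adm 1 h) (y : (ℝ × ℝ) × ℝ) :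
    Tendsto (fun N : ℕ => E0 (ann h ((1 / 2) ^ N) 1) y) atTop (nhds (E0 h y)) := by
  unfold E0
  refine tendsto_integral_of_dominated_convergence (fun z => ‖h z‖) ?_ H.integrable.norm ?_ ?_
  · intro N
    have hc : Continuous fun z : ℝ × ℝ =>
        Complex.exp (Complex.I * ((y.1.1 * z.1 + y.1.2 * z.2 + y.2 * (z.1 ^ 2 + z.2 ^ 2) : ℝ) : ℂ)) := by
      fun_prop
    exact (RDyad_meas H.meas _ _).aestronglyMeasurable.mul hc.aestronglyMeasurable
  · intro N
    refine Eventually.of_forall fun z => ?_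
    rw [norm_mul, mul_comm Complex.I, Complex.norm_exp_ofReal_mul_I, mul_one]
    exact RDyad_norm h _ _ z
  · have h0 : ∀ᵐ z : ℝ × ℝ, z ∉ ({0} : Set (ℝ × ℝ)) :=
      measure_eq_zero_iff_ae_notMem.1 (measure_singleton 0)
    filter_upwards [h0] with z hz
    refine Tendsto.mul_const _ ?_
    have hz0 : z ≠ 0 := hz
    have hpos : 0 < z.1 ^ 2 + z.2 ^ 2 := by
      rcases eq_or_ne z.1 0 with h1 | h1
      · have h2 : z.2 ≠ 0 := fun h2 => hz0 (Prod.ext h1 h2)
        positivity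
      · positivity
    have ht : Tendsto (fun N : ℕ => ((1 / 2 : ℝ) ^ N) ^ 2) atTop (nhds 0) := by
      have := (tendsto_pow_atTop_nhds_zero_of_lt_one (by norm_num : (0 : ℝ) ≤ 1 / 2)
        (by norm_num)).pow 2
      simpa using this
    refine tendsto_const_nhds.congr' ?_
    filter_upwards [ht.eventually (gt_mem_nhds hpos)] with N hN
    unfold ann
    by_cases h1 : z.1 ^ 2 + z.2 ^ 2 ≤ 1 ^ 2
    · rw [if_pos ⟨hN, h1⟩]
    · rw [if_neg (fun hh => h1 hh.2)]
      exact H.supp z (by rw [one_pow] at h1; exact not_le.1 h1)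

private theorem RDyad_sum {h : ℝ × ℝ → ℂ} (H : Adm 1 h) (N : ℕ) :
    E0 (ann h ((1 / 2) ^ N) 1) =
      ∑ k ∈ Finset.range N, E0 (ann h ((1 / 2) ^ k / 2) ((1 / 2) ^ k)) := by
  have h1 : ann h ((1 / 2) ^ N) 1 =
      fun z => ∑ k ∈ Finset.range N, ann h ((1 / 2) ^ k / 2) ((1 / 2) ^ k) z := by
    funext z
    exact ann_sum h N z
  rw [h1]
  have key : ∀ n : ℕ, E0 (fun z => ∑ k ∈ Finset.range n, ann h ((1 / 2) ^ k / 2) ((1 / 2) ^ k) z) =
      ∑ k ∈ Finset.range n, E0 (ann h ((1 / 2) ^ k / 2) ((1 / 2) ^ k)) := by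
    intro n
    induction n with
    | zero =>
      funext y
      simp [E0]
    | succ n ih =>
      rw [Finset.sum_range_succ, ← ih]
      funext y
      simp only [Finset.sum_range_succ, Pi.add_apply]
      exact E0_add (integrable_finsetSum _ fun k _ => RDyad_int H _ _) (RDyad_int H _ _) y
  exact key N

/-- From annuli to all even functions. -/
theorem even_all {q : ℝ} (hq : 2 < q) {C : ℝ≥0}
    (hC : ∀ h : ℝ × ℝ → ℂ, IsEven h → Adm 1 h →
      (∀ z : ℝ × ℝ, z.1 ^ 2 + z.2 ^ 2 ≤ 1 / 4 → h z = 0) →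
      eLpNorm (E0 h) (ENNReal.ofReal q) volume ≤ C) :
    ∃ C' : ℝ≥0, ∀ h : ℝ × ℝ → ℂ, IsEven h → Adm 1 h →
      eLpNorm (E0 h) (ENNReal.ofReal q) volume ≤ C' := by
  obtain ⟨b, hb⟩ : ∃ b : ℝ, b = (1 / 2 : ℝ) ^ (2 - 4 / q) := ⟨_, rfl⟩
  have hexp : 0 < 2 - 4 / q := by
    have : 4 / q < 2 := by
      rw [div_lt_iff₀ (by linarith)]
      linarith
    linarith
  have hb0 : 0 ≤ b := by rw [hb]; positivity
  have hb1 : b < 1 := by
    rw [hb]
    exact Real.rpow_lt_one (by norm_num) (by norm_num) hexp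
  obtain ⟨D, hD⟩ : ∃ D : ℝ≥0∞, D = ENNReal.ofReal (1 - b)⁻¹ * (ENNReal.ofReal 3 * C) := ⟨_, rfl⟩
  have hDt : D ≠ ⊤ := by
    rw [hD]
    exact ENNReal.mul_ne_top ENNReal.ofReal_ne_top
      (ENNReal.mul_ne_top ENNReal.ofReal_ne_top ENNReal.coe_ne_top)
  refine ⟨D.toNNReal, fun h he H => ?_⟩
  rw [ENNReal.coe_toNNReal hDt]
  have hpiece : ∀ k : ℕ, eLpNorm (E0 (ann h ((1 / 2) ^ k / 2) ((1 / 2) ^ k))) (ENNReal.ofReal q)
      volume ≤ ENNReal.ofReal (b ^ k) * (ENNReal.ofReal 3 * C) := by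
    intro k
    have hl : (0 : ℝ) < (1 / 2) ^ k := by positivity
    have hl1 : ((1 / 2 : ℝ)) ^ k ≤ 1 := pow_le_one₀ (by norm_num) (by norm_num)
    rw [eLpNorm_E0_scale (by linarith : 1 ≤ q) hl (RDyad_int H _ _)]
    have e1 : ((1 / 2 : ℝ) ^ k) ^ (2 - 4 / q) = b ^ k := by
      rw [hb, ← Real.rpow_natCast, ← Real.rpow_natCast, ← Real.rpow_mul (by norm_num),
        ← Real.rpow_mul (by norm_num), mul_comm]
    rw [e1]
    refine mul_le_mul_right ?_ _
    refine eLpNorm_of_adm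
      (P := fun h => IsEven h ∧ ∀ z : ℝ × ℝ, z.1 ^ 2 + z.2 ^ 2 ≤ 1 / 4 → h z = 0) ?_ ?_
      (by norm_num : (0 : ℝ) < 3) ?_ (adm_ann_scale H hl hl1)
    · rintro c g ⟨g1, g2⟩
      refine ⟨fun z => ?_, fun z hz => ?_⟩
      · simp only [g1 z]
      · simp only [g2 z hz, mul_zero]
    · rintro g ⟨g1, g2⟩ g3
      exact hC g g1 g3 g2
    · refine ⟨fun z => ?_, fun z hz => ann_scale_zero h hl z hz⟩
      have e2 : ((1 / 2 : ℝ) ^ k * (-z).1, (1 / 2 : ℝ) ^ k * (-z).2) =
          -((1 / 2 : ℝ) ^ k * z.1, (1 / 2 : ℝ) ^ k * z.2) := by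
        ext <;> simp
      simp only [e2]
      unfold ann
      simp only [Prod.fst_neg, Prod.snd_neg, neg_sq, he _]
  have hN : ∀ N : ℕ, eLpNorm (E0 (ann h ((1 / 2) ^ N) 1)) (ENNReal.ofReal q) volume ≤ D := by
    intro N
    rw [RDyad_sum H N]
    refine (eLpNorm_sum_le (fun k _ => (E0_continuous (RDyad_int H _ _)).aestronglyMeasurable)
      ?_).trans ?_
    · rw [← ENNReal.ofReal_one]
      exact ENNReal.ofReal_le_ofReal (by linarith)
    refine (Finset.sum_le_sum fun k _ => hpiece k).trans ?_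
    rw [← Finset.sum_mul, hD]
    refine mul_le_mul_left ?_ _
    rw [← ENNReal.ofReal_sum_of_nonneg (fun k _ => pow_nonneg hb0 k)]
    refine ENNReal.ofReal_le_ofReal ?_
    rw [← tsum_geometric_of_lt_one hb0 hb1]
    exact (summable_geometric_of_lt_one hb0 hb1).sum_le_tsum _ (fun k _ => pow_nonneg hb0 k)
  refine (Lp.eLpNorm_lim_le_liminf_eLpNorm
    (fun N => (E0_continuous (RDyad_int H ((1 / 2) ^ N) 1)).aestronglyMeasurable) (E0 h)
    (Eventually.of_forall fun y => tendsto_E0_ann H y)).trans ?_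
  refine (liminf_le_liminf (Eventually.of_forall hN)).trans (le_of_eq ?_)
  exact liminf_const D

end Pool.Agent.H.MP_b7167f_an.SS
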