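import Pool.Agent.H.MP_b7167f_an.SS.RCone
import Pool.Agent.H.MP_b7167f_an.SS.RDyad

/-!
From odd functions to all functions, and to all exponents.

PROOF PLAN (helper71).
all_of_odd: even_annulus, even_all and odd/even parts: h = odd part + even part, E0_add, eLpNorm_add_le.
all_larger: norm (E0 h) <= 4, |F|^q' <= 4^(q'-q) |F|^q (eLpNorm_le_eLpNorm_mul_eLpNorm_top or lintegral).
-/

open MeasureTheory Set Filter
open scoped ENNReal NNReal

namespace Pool.Agent.H.MP_b7167f_an.SS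

theorem all_of_odd {q : ℝ} (hq : 2 < q) {C : ℝ≥0}
    (hC : ∀ h : ℝ × ℝ → ℂ, IsOdd h → Adm 1 h →
      eLpNorm (E0 h) (ENNReal.ofReal q) volume ≤ C) :
    ∃ C' : ℝ≥0, ∀ h : ℝ × ℝ → ℂ, Adm 1 h → eLpNorm (E0 h) (ENNReal.ofReal q) volume ≤ C' := by
  have hq1 : (1 : ℝ≥0∞) ≤ ENNReal.ofReal q := by
    rw [← ENNReal.ofReal_one]
    exact ENNReal.ofReal_le_ofReal (by linarith)
  obtain ⟨C', hC'⟩ := even_all (C := 200 * C) hq (fun h hh H h0 => by
    simpa using even_annulus hq1 hC hh H h0)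
  refine ⟨C + C', fun h H => ?_⟩
  have Ho := H.odd_part
  have He := H.even_part
  have e : E0 h = E0 (fun z => (1 / 2 : ℂ) * (h z - h (-z))) +
      E0 (fun z => (1 / 2 : ℂ) * (h z + h (-z))) := by
    funext y
    rw [Pi.add_apply, ← E0_add Ho.integrable He.integrable]
    congr 1
    funext z
    ring
  rw [e, ENNReal.coe_add]
  refine (eLpNorm_add_le (E0_continuous Ho.integrable).aestronglyMeasurable
    (E0_continuous He.integrable).aestronglyMeasurable hq1).trans (add_le_add ?_ ?_)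
  · exact hC _ (fun z => by simp only [neg_neg]; ring) Ho
  · exact hC' _ (fun z => by simp only [neg_neg]; ring) He

/-- Larger exponents. -/
theorem all_larger {q q' : ℝ} (hq : 1 ≤ q) (hqq : q ≤ q') {C : ℝ≥0}
    (hC : ∀ h : ℝ × ℝ → ℂ, Adm 1 h → eLpNorm (E0 h) (ENNReal.ofReal q) volume ≤ C) :
    ∃ C' : ℝ≥0, ∀ h : ℝ × ℝ → ℂ, Adm 1 h →
      eLpNorm (E0 h) (ENNReal.ofReal q') volume ≤ C' := by
  have hq0 : 0 < q := by linarith
  have hq'0 : 0 < q' := by linarith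
  refine ⟨(4 : ℝ≥0) ^ ((q' - q) / q') * C ^ (q / q'), fun h H => ?_⟩
  have hm : AEStronglyMeasurable (E0 h) volume := (E0_continuous H.integrable).aestronglyMeasurable
  have h1 := hC h H
  have e1 : ENNReal.ofReal q ≠ 0 := by simpa using hq0
  have e2 : ENNReal.ofReal q' ≠ 0 := by simpa using hq'0
  rw [eLpNorm_eq_lintegral_rpow_enorm_toReal e1 ENNReal.ofReal_ne_top, ENNReal.toReal_ofReal hq0.le]
    at h1
  rw [eLpNorm_eq_lintegral_rpow_enorm_toReal e2 ENNReal.ofReal_ne_top,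
    ENNReal.toReal_ofReal hq'0.le]
  have hb : ∀ y, ‖E0 h y‖ₑ ≤ (4 : ℝ≥0) := by
    intro y
    rw [← ofReal_norm]
    have := norm_E0_le H y
    refine (ENNReal.ofReal_le_ofReal this).trans ?_
    norm_num
  have h2 : ∫⁻ y, ‖E0 h y‖ₑ ^ q' ≤ (4 : ℝ≥0∞) ^ (q' - q) * ∫⁻ y, ‖E0 h y‖ₑ ^ q := by
    rw [← lintegral_const_mul' _ _ (by
      exact ENNReal.rpow_ne_top_of_nonneg (by linarith) (by norm_num))]
    refine lintegral_mono fun y => ?_
    have : ‖E0 h y‖ₑ ^ q' = ‖E0 h y‖ₑ ^ (q' - q) * ‖E0 h y‖ₑ ^ q := by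
      rw [← ENNReal.rpow_add_of_nonneg _ _ (by linarith) hq0.le]
      congr 1; ring
    rw [this]
    exact mul_le_mul' (ENNReal.rpow_le_rpow (by simpa using hb y) (by linarith)) le_rfl
  have h3 : ∫⁻ y, ‖E0 h y‖ₑ ^ q ≤ (C : ℝ≥0∞) ^ q := by
    rw [← ENNReal.rpow_le_rpow_iff (z := 1 / q) (by positivity), ← ENNReal.rpow_mul]
    have : q * (1 / q) = 1 := by field_simp
    rw [this, ENNReal.rpow_one]
    exact h1
  calc (∫⁻ y, ‖E0 h y‖ₑ ^ q') ^ (1 / q')
      ≤ ((4 : ℝ≥0∞) ^ (q' - q) * (C : ℝ≥0∞) ^ q) ^ (1 / q') :=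
        ENNReal.rpow_le_rpow (h2.trans (mul_le_mul' le_rfl h3)) (by positivity)
    _ = ((4 : ℝ≥0) ^ ((q' - q) / q') * C ^ (q / q') : ℝ≥0) := by
        rw [ENNReal.mul_rpow_of_nonneg _ _ (by positivity), ← ENNReal.rpow_mul,
          ← ENNReal.rpow_mul, ENNReal.coe_mul,
          ENNReal.coe_rpow_of_nonneg _ (div_nonneg (by linarith) hq'0.le),
          ENNReal.coe_rpow_of_nonneg _ (div_nonneg hq0.le hq'0.le)]
        congr 2
        · ring
        · ring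

end Pool.Agent.H.MP_b7167f_an.SS
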