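import Pool.Agent.H.MP_b7167f_an.SS.RTrans

/-!
The parts of an even function in the two cones, divided by a sine: variation along the rays.

On the cone |z2| <= |z1| with 1/4 < |z|^2 <= 1 one has z1^2 >= 1/8, so |sin z1| >= 1/5. Along a ray inside the
cone the function is the indicator of (1/2, 1] times h times 1/sin (r c), and 1/sin (r c) is Lipschitz there.
-/

open MeasureTheory Set
open scoped ENNReal NNReal

namespace Pool.Agent.H.MP_b7167f_an.SS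

/-- The part of `h` in the cone `|z₂| ≤ |z₁|`, divided by `sin z₁`. -/
noncomputable def g1 (h : ℝ × ℝ → ℂ) (z : ℝ × ℝ) : ℂ :=
  if |z.2| ≤ |z.1| then h z / (Real.sin z.1 : ℂ) else 0

/-- The part of `h` in the cone `|z₁| < |z₂|`, divided by `sin z₂`. -/
noncomputable def g2 (h : ℝ × ℝ → ℂ) (z : ℝ × ℝ) : ℂ :=
  if |z.1| < |z.2| then h z / (Real.sin z.2 : ℂ) else 0

theorem RCone1_sin {x : ℝ} (h1 : 1 / 8 ≤ x ^ 2) (h2 : |x| ≤ 1) : 1 / 5 ≤ |Real.sin x| := by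
  have key : ∀ y : ℝ, 0 ≤ y → y ≤ 1 → 1 / 8 ≤ y ^ 2 → 1 / 5 ≤ Real.sin y := by
    intro y hy0 hy1 hy2
    have h3 : 35 / 100 ≤ y := by nlinarith
    have h4 := Real.mul_le_sin hy0 (by linarith [Real.pi_gt_three])
    have h5 : (100 : ℝ) / 158 ≤ 2 / Real.pi := by
      rw [div_le_div_iff₀ (by norm_num) Real.pi_pos]
      linarith [Real.pi_lt_d2]
    have h6 : (100 : ℝ) / 158 * (35 / 100) ≤ 2 / Real.pi * y :=
      mul_le_mul h5 h3 (by norm_num) (by positivity)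
    linarith
  rcases le_total 0 x with h | h
  · rw [abs_of_nonneg h] at h2
    exact (key x h h2 h1).trans (le_abs_self _)
  · rw [abs_of_nonpos h] at h2
    have h3 := key (-x) (by linarith) h2 (by rw [neg_sq]; exact h1)
    rw [Real.sin_neg] at h3
    exact h3.trans (neg_le_abs _)

theorem RCone1_inv {x : ℝ} (h1 : 1 / 8 ≤ x ^ 2) (h2 : |x| ≤ 1) :
    ‖((Real.sin x : ℝ) : ℂ)⁻¹‖ ≤ 5 := by
  rw [norm_inv, Complex.norm_real, Real.norm_eq_abs]
  have h3 := RCone1_sin h1 h2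
  have h4 : |Real.sin x|⁻¹ ≤ (1 / 5)⁻¹ := inv_anti₀ (by norm_num) h3
  linarith [h4, (by norm_num : ((1 : ℝ) / 5)⁻¹ = 5)]

theorem RCone1_sq {c r : ℝ} (hc : 1 / 2 ≤ c ^ 2) (hr : 1 / 2 ≤ r) : 1 / 8 ≤ (r * c) ^ 2 := by
  have h1 : 1 / 4 ≤ r ^ 2 := by nlinarith
  rw [mul_pow]
  nlinarith

theorem RCone1_abs {c r : ℝ} (hc : |c| ≤ 1) (hr : 0 ≤ r) (hr1 : r ≤ 1) : |r * c| ≤ 1 := by
  rw [abs_mul, abs_of_nonneg hr]
  nlinarith [abs_nonneg c]

theorem RCone1_lip {c : ℝ} (hc : 1 / 2 ≤ c ^ 2) (hc1 : |c| ≤ 1) :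
    LipschitzOnWith 25 (fun r : ℝ => ((Real.sin (r * c) : ℝ) : ℂ)⁻¹) (Icc (1 / 2) 1) := by
  refine LipschitzOnWith.of_dist_le_mul fun r hr s hs => ?_
  have hr1 := RCone1_sin (RCone1_sq hc hr.1) (RCone1_abs hc1 (by linarith [hr.1]) hr.2)
  have hs1 := RCone1_sin (RCone1_sq hc hs.1) (RCone1_abs hc1 (by linarith [hs.1]) hs.2)
  have hr0 : Real.sin (r * c) ≠ 0 := by
    intro h
    rw [h, abs_zero] at hr1
    linarith
  have hs0 : Real.sin (s * c) ≠ 0 := by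
    intro h
    rw [h, abs_zero] at hs1
    linarith
  rw [dist_eq_norm, Real.dist_eq]
  have e1 : ((Real.sin (r * c) : ℝ) : ℂ)⁻¹ - ((Real.sin (s * c) : ℝ) : ℂ)⁻¹ =
      (((Real.sin (s * c) - Real.sin (r * c)) * (Real.sin (r * c))⁻¹ * (Real.sin (s * c))⁻¹ : ℝ) :
        ℂ) := by
    have h1 : (Real.sin (r * c))⁻¹ - (Real.sin (s * c))⁻¹ =
        (Real.sin (s * c) - Real.sin (r * c)) * (Real.sin (r * c))⁻¹ * (Real.sin (s * c))⁻¹ := by
      rw [inv_sub_inv hr0 hs0, div_eq_mul_inv, mul_inv, ← mul_assoc]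
    rw [← h1]
    push_cast
    ring
  rw [e1, Complex.norm_real, Real.norm_eq_abs, abs_mul, abs_mul, abs_inv, abs_inv]
  have h2 : |Real.sin (r * c)|⁻¹ ≤ 5 := by
    have h4 : |Real.sin (r * c)|⁻¹ ≤ (1 / 5)⁻¹ := inv_anti₀ (by norm_num) hr1
    linarith [h4, (by norm_num : ((1 : ℝ) / 5)⁻¹ = 5)]
  have h3 : |Real.sin (s * c)|⁻¹ ≤ 5 := by
    have h4 : |Real.sin (s * c)|⁻¹ ≤ (1 / 5)⁻¹ := inv_anti₀ (by norm_num) hs1
    linarith [h4, (by norm_num : ((1 : ℝ) / 5)⁻¹ = 5)]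
  have h4 : |Real.sin (s * c) - Real.sin (r * c)| ≤ |r - s| := by
    have h5 := Real.lipschitzWith_sin.dist_le_mul (s * c) (r * c)
    rw [Real.dist_eq, Real.dist_eq, NNReal.coe_one, one_mul] at h5
    have h6 : s * c - r * c = -((r - s) * c) := by ring
    rw [h6, abs_neg, abs_mul] at h5
    nlinarith [abs_nonneg (r - s), abs_nonneg c]
  have h7 : |Real.sin (s * c) - Real.sin (r * c)| * |Real.sin (r * c)|⁻¹ ≤ |r - s| * 5 :=
    mul_le_mul h4 h2 (by positivity) (abs_nonneg _)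
  have h8 : |Real.sin (s * c) - Real.sin (r * c)| * |Real.sin (r * c)|⁻¹ *
      |Real.sin (s * c)|⁻¹ ≤ |r - s| * 5 * 5 :=
    mul_le_mul h7 h3 (by positivity) (by positivity)
  have h9 : ((25 : ℝ≥0) : ℝ) = 25 := by norm_num
  rw [h9]
  linarith

/-- Variation along a ray inside the cone. -/
theorem RCone1_var {h : ℝ × ℝ → ℂ} (H : Adm 1 h)
    (h0 : ∀ z : ℝ × ℝ, z.1 ^ 2 + z.2 ^ 2 ≤ 1 / 4 → h z = 0) (θ : ℝ) {c : ℝ}
    (hc : 1 / 2 ≤ c ^ 2) (hc1 : |c| ≤ 1) :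
    eVariationOn (fun r : ℝ => h (r * Real.cos θ, r * Real.sin θ) /
      ((Real.sin (r * c) : ℝ) : ℂ)) (Ici 0) ≤ ENNReal.ofReal 100 := by
  have hsq : ∀ r : ℝ, (r * Real.cos θ) ^ 2 + (r * Real.sin θ) ^ 2 = r ^ 2 := by
    intro r
    have := Real.sin_sq_add_cos_sq θ
    linear_combination r ^ 2 * this
  have e1 : EqOn (fun r : ℝ => h (r * Real.cos θ, r * Real.sin θ) / ((Real.sin (r * c) : ℝ) : ℂ))
      ((Ioc (1 / 2 : ℝ) 1).indicator (fun r : ℝ => h (r * Real.cos θ, r * Real.sin θ) *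
        ((Real.sin (r * c) : ℝ) : ℂ)⁻¹)) (Ici 0) := by
    intro r hr
    have hr0 : (0 : ℝ) ≤ r := hr
    by_cases hJ : r ∈ Ioc (1 / 2 : ℝ) 1
    · rw [indicator_of_mem hJ]
      exact div_eq_mul_inv _ _
    · rw [indicator_of_notMem hJ]
      have hz : h (r * Real.cos θ, r * Real.sin θ) = 0 := by
        by_cases h1 : r ≤ 1 / 2
        · refine h0 _ ?_
          show (r * Real.cos θ) ^ 2 + (r * Real.sin θ) ^ 2 ≤ 1 / 4
          rw [hsq]
          nlinarith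
        · refine H.supp _ ?_
          show 1 < (r * Real.cos θ) ^ 2 + (r * Real.sin θ) ^ 2
          rw [hsq]
          have h2 : 1 < r := by
            by_contra h3
            exact hJ ⟨not_le.1 h1, not_lt.1 h3⟩
          nlinarith
      show h (r * Real.cos θ, r * Real.sin θ) / ((Real.sin (r * c) : ℝ) : ℂ) = 0
      rw [hz, zero_div]
  rw [eVariationOn.eq_of_eqOn e1]
  have b1 : ∀ x ∈ Ioc (1 / 2 : ℝ) 1, ‖h (x * Real.cos θ, x * Real.sin θ)‖ ≤ ((1 : ℝ≥0) : ℝ) :=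
    fun x _ => by
      rw [NNReal.coe_one]
      exact H.bdd _
  have b2 : ∀ x ∈ Ioc (1 / 2 : ℝ) 1, ‖((Real.sin (x * c) : ℝ) : ℂ)⁻¹‖ ≤ ((5 : ℝ≥0) : ℝ) :=
    fun x hx => by
      have h1 := RCone1_inv (RCone1_sq hc hx.1.le) (RCone1_abs hc1 (by linarith [hx.1]) hx.2)
      have h9 : ((5 : ℝ≥0) : ℝ) = 5 := by norm_num
      rw [h9]
      exact h1
  have b3 : ∀ x ∈ Ioc (1 / 2 : ℝ) 1, ‖h (x * Real.cos θ, x * Real.sin θ) *
      ((Real.sin (x * c) : ℝ) : ℂ)⁻¹‖ ≤ ((5 : ℝ≥0) : ℝ) := by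
    intro x hx
    rw [norm_mul]
    have h1 := b1 x hx
    have h2 := b2 x hx
    rw [NNReal.coe_one] at h1
    calc ‖h (x * Real.cos θ, x * Real.sin θ)‖ * ‖((Real.sin (x * c) : ℝ) : ℂ)⁻¹‖
        ≤ 1 * ((5 : ℝ≥0) : ℝ) := mul_le_mul h1 h2 (norm_nonneg _) zero_le_one
      _ = ((5 : ℝ≥0) : ℝ) := one_mul _
  refine (evar_indicator_le ordConnected_Ioc b3).trans ?_
  have v1 := evar_mul_le b1 b2
  have v2 : eVariationOn (fun r : ℝ => h (r * Real.cos θ, r * Real.sin θ)) (Ioc (1 / 2 : ℝ) 1) ≤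
      1 := by
    refine (eVariationOn.mono _ ?_).trans ((H.var θ).trans ?_)
    · intro x hx
      exact (by linarith [hx.1] : (0 : ℝ) ≤ x)
    · rw [ENNReal.ofReal_one]
  have v3 : eVariationOn (fun r : ℝ => ((Real.sin (r * c) : ℝ) : ℂ)⁻¹) (Ioc (1 / 2 : ℝ) 1) ≤
      25 := by
    refine (eVariationOn.mono _ Ioc_subset_Icc_self).trans
      ((evar_lip_le (by norm_num) (RCone1_lip hc hc1)).trans ?_)
    have h1 : ENNReal.ofReal (1 - 1 / 2) ≤ 1 := by
      rw [← ENNReal.ofReal_one]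
      exact ENNReal.ofReal_le_ofReal (by norm_num)
    calc ((25 : ℝ≥0) : ℝ≥0∞) * ENNReal.ofReal (1 - 1 / 2) ≤ ((25 : ℝ≥0) : ℝ≥0∞) * 1 := by gcongr
      _ = 25 := by norm_num
  calc eVariationOn (fun r : ℝ => h (r * Real.cos θ, r * Real.sin θ) *
        ((Real.sin (r * c) : ℝ) : ℂ)⁻¹) (Ioc (1 / 2 : ℝ) 1) + 2 * ((5 : ℝ≥0) : ℝ≥0∞)
      ≤ (((1 : ℝ≥0) : ℝ≥0∞) * 25 + ((5 : ℝ≥0) : ℝ≥0∞) * 1) + 2 * ((5 : ℝ≥0) : ℝ≥0∞) := by
        refine add_le_add (v1.trans ?_) le_rfl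
        gcongr
    _ ≤ ENNReal.ofReal 100 := by
        have h1 : ENNReal.ofReal 100 = 100 := by norm_num
        rw [h1]
        norm_num

theorem RCone1_zero {f : ℝ → ℂ} (hf : ∀ r, f r = 0) :
    eVariationOn f (Ici 0) ≤ ENNReal.ofReal 100 := by
  have h1 : f = fun _ => 0 := funext hf
  rw [h1]
  have h2 : eVariationOn (fun _ : ℝ => (0 : ℂ)) (Ici 0) = 0 := by
    refine eVariationOn.constant_on ?_
    intro x hx y hy
    obtain ⟨a, _, rfl⟩ := hx
    obtain ⟨b, _, rfl⟩ := hy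
    rfl
  rw [h2]
  exact zero_le

theorem RCone1_half {θ : ℝ} (h : |Real.sin θ| ≤ |Real.cos θ|) : 1 / 2 ≤ Real.cos θ ^ 2 := by
  have h1 := sq_le_sq.2 h
  have h2 := Real.sin_sq_add_cos_sq θ
  linarith

theorem RCone1_half' {θ : ℝ} (h : |Real.cos θ| < |Real.sin θ|) : 1 / 2 ≤ Real.sin θ ^ 2 := by
  have h1 := sq_lt_sq.2 h
  have h2 := Real.sin_sq_add_cos_sq θ
  linarith

theorem RCone1_bdd {h : ℝ × ℝ → ℂ} (H : Adm 1 h)
    (h0 : ∀ z : ℝ × ℝ, z.1 ^ 2 + z.2 ^ 2 ≤ 1 / 4 → h z = 0) (z : ℝ × ℝ) {x y : ℝ}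
    (hxy : x ^ 2 + y ^ 2 = z.1 ^ 2 + z.2 ^ 2) (hle : |y| ≤ |x|) :
    ‖h z / ((Real.sin x : ℝ) : ℂ)‖ ≤ 100 := by
  by_cases hz : h z = 0
  · rw [hz, zero_div, norm_zero]
    norm_num
  have h1 : 1 / 4 < z.1 ^ 2 + z.2 ^ 2 := by
    by_contra h2
    exact hz (h0 z (not_lt.1 h2))
  have h2 : z.1 ^ 2 + z.2 ^ 2 ≤ 1 := by
    by_contra h3
    exact hz (H.supp z (not_le.1 h3))
  have h3 := sq_le_sq.2 hle
  have h4 : 1 / 8 ≤ x ^ 2 := by linarith
  have h5 : |x| ≤ 1 := by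
    rw [← sq_le_one_iff_abs_le_one]
    nlinarith [sq_nonneg y]
  rw [div_eq_mul_inv, norm_mul]
  calc ‖h z‖ * ‖((Real.sin x : ℝ) : ℂ)⁻¹‖ ≤ 1 * 5 :=
        mul_le_mul (H.bdd z) (RCone1_inv h4 h5) (norm_nonneg _) zero_le_one
    _ ≤ 100 := by norm_num

theorem adm_g1 {h : ℝ × ℝ → ℂ} (H : Adm 1 h)
    (h0 : ∀ z : ℝ × ℝ, z.1 ^ 2 + z.2 ^ 2 ≤ 1 / 4 → h z = 0) : Adm 100 (g1 h) where
  meas := by
    refine Measurable.ite (measurableSet_le ?_ ?_) (H.meas.div ?_) measurable_const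
    · exact measurable_snd.abs
    · exact measurable_fst.abs
    · exact Complex.measurable_ofReal.comp (Real.measurable_sin.comp measurable_fst)
  bdd := by
    intro z
    unfold g1
    split_ifs with hz
    · exact RCone1_bdd H h0 z rfl hz
    · rw [norm_zero]
      norm_num
  supp := by
    intro z hz
    unfold g1
    rw [H.supp z hz, zero_div, ite_self]
  var := by
    intro θ
    by_cases hθ : |Real.sin θ| ≤ |Real.cos θ|
    · have e1 : (fun r : ℝ => g1 h (r * Real.cos θ, r * Real.sin θ)) =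
          fun r : ℝ => h (r * Real.cos θ, r * Real.sin θ) /
            ((Real.sin (r * Real.cos θ) : ℝ) : ℂ) := by
        funext r
        unfold g1
        rw [if_pos]
        show |r * Real.sin θ| ≤ |r * Real.cos θ|
        rw [abs_mul, abs_mul]
        exact mul_le_mul_of_nonneg_left hθ (abs_nonneg _)
      rw [e1]
      exact RCone1_var H h0 θ (RCone1_half hθ) (Real.abs_cos_le_one θ)
    · refine RCone1_zero fun r => ?_
      unfold g1
      rcases eq_or_ne r 0 with hr | hr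
      · have h1 : h (r * Real.cos θ, r * Real.sin θ) = 0 := by
          refine h0 _ ?_
          show (r * Real.cos θ) ^ 2 + (r * Real.sin θ) ^ 2 ≤ 1 / 4
          rw [hr]
          norm_num
        rw [h1, zero_div, ite_self]
      · rw [if_neg]
        show ¬ |r * Real.sin θ| ≤ |r * Real.cos θ|
        rw [abs_mul, abs_mul, not_le]
        exact mul_lt_mul_of_pos_left (not_le.1 hθ) (abs_pos.2 hr)

theorem adm_g2 {h : ℝ × ℝ → ℂ} (H : Adm 1 h)
    (h0 : ∀ z : ℝ × ℝ, z.1 ^ 2 + z.2 ^ 2 ≤ 1 / 4 → h z = 0) : Adm 100 (g2 h) where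
  meas := by
    refine Measurable.ite (measurableSet_lt ?_ ?_) (H.meas.div ?_) measurable_const
    · exact measurable_fst.abs
    · exact measurable_snd.abs
    · exact Complex.measurable_ofReal.comp (Real.measurable_sin.comp measurable_snd)
  bdd := by
    intro z
    unfold g2
    split_ifs with hz
    · exact RCone1_bdd H h0 z (add_comm _ _) hz.le
    · rw [norm_zero]
      norm_num
  supp := by
    intro z hz
    unfold g2
    rw [H.supp z hz, zero_div, ite_self]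
  var := by
    intro θ
    by_cases hθ : |Real.cos θ| < |Real.sin θ|
    · have e1 : (fun r : ℝ => g2 h (r * Real.cos θ, r * Real.sin θ)) =
          fun r : ℝ => h (r * Real.cos θ, r * Real.sin θ) /
            ((Real.sin (r * Real.sin θ) : ℝ) : ℂ) := by
        funext r
        unfold g2
        rcases eq_or_ne r 0 with hr | hr
        · have h1 : h (r * Real.cos θ, r * Real.sin θ) = 0 := by
            refine h0 _ ?_
            show (r * Real.cos θ) ^ 2 + (r * Real.sin θ) ^ 2 ≤ 1 / 4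
            rw [hr]
            norm_num
          rw [h1, zero_div, ite_self]
        · rw [if_pos]
          show |r * Real.cos θ| < |r * Real.sin θ|
          rw [abs_mul, abs_mul]
          exact mul_lt_mul_of_pos_left hθ (abs_pos.2 hr)
      rw [e1]
      exact RCone1_var H h0 θ (RCone1_half' hθ) (Real.abs_sin_le_one θ)
    · refine RCone1_zero fun r => ?_
      unfold g2
      rw [if_neg]
      show ¬ |r * Real.cos θ| < |r * Real.sin θ|
      rw [abs_mul, abs_mul, not_lt]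
      exact mul_le_mul_of_nonneg_left (not_lt.1 hθ) (abs_nonneg _)

end Pool.Agent.H.MP_b7167f_an.SS
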