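import Pool.Agent.H.MP_b7167f_an.SS.RTrans
import Pool.Agent.H.MP_b7167f_an.SS.RCone1

/-!
Even functions that vanish near the origin.

PROOF PLAN (helper71).
On the cone |z2| <= |z1| with 1/4 < |z|^2 <= 1 one has z1^2 > 1/8, so 0.35 < |z1| <= 1 and |sin z1| >= 0.22 (for instance
Real.mul_le_sin: (2/pi) x <= sin x on [0, pi/2], pi < 3.15). If h z is not 0 then 1/4 < |z|^2 <= 1 (h0 and H.supp).
g1_odd, g2_odd: sin is odd, the cones are symmetric. sin_g1_g2: exactly one of the two conditions holds, and sin z_i is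
not 0 when h z is not 0.
adm_g1: measurable: Measurable.ite, measurableSet_le. bdd: 1 / 0.22 <= 5. supp: H.supp. var: for fixed theta put
c = cos theta. If |sin theta| > |cos theta| the function r -> g1 h (r cos, r sin) is 0 for r > 0 and at r = 0 it is
h 0 / sin 0 = 0. Otherwise it equals J.indicator (fun r => h(r cos, r sin) * (sin (r c))^-1) with J = Ioc (1/2) 1
(cos^2 + sin^2 = 1 gives |z|^2 = r^2; outside of J the value h is 0). evar_indicator_le, evar_mul_le on J:
sup |h| <= 1, sup 1/|sin (r c)| <= 5, variation of h on J <= variation on Ici 0 <= 1 (eVariationOn.mono), variation of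
1/sin (r c) on Icc (1/2) 1 <= L/2 with Lipschitz constant L = 25 (derivative c cos(r c)/sin^2(r c), or directly
|1/sin a - 1/sin b| <= 25 |sin a - sin b| <= 25 |a - b|): total <= 12.5 + 5 + 10 <= 100. adm_g2: the same with sin.
even_annulus: h = sin z1 * g1 + sin z2 * g2 (funext), E0_add, eLpNorm_add_le, eLpNorm_sin_fst / snd, eLpNorm_of_adm with
P = IsOdd, M = 100: 100 C + 100 C.
-/

open MeasureTheory Set
open scoped ENNReal NNReal

namespace Pool.Agent.H.MP_b7167f_an.SS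

theorem g1_odd {h : ℝ × ℝ → ℂ} (hh : IsEven h) : IsOdd (g1 h) := by
  intro z
  unfold g1
  rw [Prod.fst_neg, Prod.snd_neg, abs_neg, abs_neg, Real.sin_neg, hh z]
  split_ifs
  · rw [Complex.ofReal_neg, div_neg]
  · rw [neg_zero]

theorem g2_odd {h : ℝ × ℝ → ℂ} (hh : IsEven h) : IsOdd (g2 h) := by
  intro z
  unfold g2
  rw [Prod.fst_neg, Prod.snd_neg, abs_neg, abs_neg, Real.sin_neg, hh z]
  split_ifs
  · rw [Complex.ofReal_neg, div_neg]
  · rw [neg_zero]

private theorem RCone_sin {x : ℝ} (h0 : x ≠ 0) (h1 : x ^ 2 ≤ 1) : (Real.sin x : ℂ) ≠ 0 := by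
  rw [Complex.ofReal_ne_zero]
  have h2 := abs_le.1 ((sq_le_one_iff_abs_le_one x).1 h1)
  have h3 := Real.pi_gt_three
  rcases lt_or_gt_of_ne h0 with h | h
  · exact (Real.sin_neg_of_neg_of_neg_pi_lt h (by linarith)).ne
  · exact (Real.sin_pos_of_pos_of_lt_pi h (by linarith)).ne'

theorem sin_g1_g2 {h : ℝ × ℝ → ℂ} (H : Adm 1 h)
    (h0 : ∀ z : ℝ × ℝ, z.1 ^ 2 + z.2 ^ 2 ≤ 1 / 4 → h z = 0) (z : ℝ × ℝ) :
    h z = (Real.sin z.1 : ℂ) * g1 h z + (Real.sin z.2 : ℂ) * g2 h z := by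
  by_cases hz : h z = 0
  · unfold g1 g2
    rw [hz, zero_div, zero_div, ite_self, ite_self, mul_zero, mul_zero, add_zero]
  · have h1 : 1 / 4 < z.1 ^ 2 + z.2 ^ 2 := by
      by_contra hc
      exact hz (h0 z (not_lt.1 hc))
    have h2 : z.1 ^ 2 + z.2 ^ 2 ≤ 1 := by
      by_contra hc
      exact hz (H.supp z (not_le.1 hc))
    unfold g1 g2
    rcases le_or_gt |z.2| |z.1| with hc | hc
    · have h3 : z.2 ^ 2 ≤ z.1 ^ 2 := sq_le_sq.2 hc
      have h4 : z.1 ≠ 0 := by
        intro h5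
        rw [h5] at h3 h1
        linarith
      have h5 := RCone_sin h4 (by nlinarith [sq_nonneg z.2])
      rw [if_pos hc, if_neg (not_lt.2 hc), mul_zero, add_zero, mul_div_cancel₀ _ h5]
    · have h3 : z.1 ^ 2 < z.2 ^ 2 := sq_lt_sq.2 hc
      have h4 : z.2 ≠ 0 := by
        intro h5
        rw [h5] at h3
        nlinarith [sq_nonneg z.1]
      have h5 := RCone_sin h4 (by nlinarith [sq_nonneg z.1])
      rw [if_neg (not_le.2 hc), if_pos hc, mul_zero, zero_add, mul_div_cancel₀ _ h5]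

/-- Even functions in an annulus. -/
theorem even_annulus {q : ℝ≥0∞} (hq : 1 ≤ q) {C : ℝ≥0}
    (hC : ∀ h : ℝ × ℝ → ℂ, IsOdd h → Adm 1 h → eLpNorm (E0 h) q volume ≤ C)
    {h : ℝ × ℝ → ℂ} (hh : IsEven h) (H : Adm 1 h)
    (h0 : ∀ z : ℝ × ℝ, z.1 ^ 2 + z.2 ^ 2 ≤ 1 / 4 → h z = 0) :
    eLpNorm (E0 h) q volume ≤ 200 * C := by
  have A1 := adm_g1 H h0
  have A2 := adm_g2 H h0
  have I1 := A1.integrable
  have I2 := A2.integrable
  have hP : ∀ (c : ℂ) (h : ℝ × ℝ → ℂ), IsOdd h → IsOdd (fun z => c * h z) := by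
    intro c h hh z
    show c * h (-z) = -(c * h z)
    rw [hh z, mul_neg]
  have J1 : Integrable (fun z : ℝ × ℝ => (Real.sin z.1 : ℂ) * g1 h z) := by
    refine I1.bdd_mul (c := 1) ?_ ?_
    · exact (Complex.continuous_ofReal.comp
        (Real.continuous_sin.comp continuous_fst)).aestronglyMeasurable
    · filter_upwards with z
      rw [Complex.norm_real, Real.norm_eq_abs]
      exact Real.abs_sin_le_one _
  have J2 : Integrable (fun z : ℝ × ℝ => (Real.sin z.2 : ℂ) * g2 h z) := by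
    refine I2.bdd_mul (c := 1) ?_ ?_
    · exact (Complex.continuous_ofReal.comp
        (Real.continuous_sin.comp continuous_snd)).aestronglyMeasurable
    · filter_upwards with z
      rw [Complex.norm_real, Real.norm_eq_abs]
      exact Real.abs_sin_le_one _
  have e1 : E0 h = E0 (fun z => (Real.sin z.1 : ℂ) * g1 h z) +
      E0 (fun z => (Real.sin z.2 : ℂ) * g2 h z) := by
    funext y
    rw [Pi.add_apply, ← E0_add J1 J2]
    exact congrArg (fun k => E0 k y) (funext fun z => sin_g1_g2 H h0 z)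
  have b1 := (eLpNorm_sin_fst hq I1).trans
    (eLpNorm_of_adm hP hC (by norm_num : (0 : ℝ) < 100) (g1_odd hh) A1)
  have b2 := (eLpNorm_sin_snd hq I2).trans
    (eLpNorm_of_adm hP hC (by norm_num : (0 : ℝ) < 100) (g2_odd hh) A2)
  have e2 : ENNReal.ofReal 100 = 100 := by
    rw [← ENNReal.ofReal_ofNat]
  rw [e2] at b1 b2
  rw [e1]
  refine (eLpNorm_add_le (E0_continuous J1).aestronglyMeasurable
    (E0_continuous J2).aestronglyMeasurable hq).trans ((add_le_add b1 b2).trans (le_of_eq ?_))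
  rw [← add_mul]
  norm_num

end Pool.Agent.H.MP_b7167f_an.SS
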