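import Pool.Agent.H.MP_b7167f_an.SS.RVar

/-!
Linearity of the extension operator, and operations on admissible functions.

PROOF PLAN (helper71).
Adm.integrable: h is measurable, bounded by M and zero outside of [-1,1] x [-1,1] (compact, volume 4).
E0_const_mul: integral_const_mul. E0_add: the exponential has norm 1 (the exponent is I times a real), so the integrands
are integrable (Integrable.mul_bdd or bdd_mul). E0_continuous: continuous_of_dominated, bound norm (h z).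
norm_E0_le: norm_integral_le_integral_norm, h is zero outside of the square [-1,1] x [-1,1] of volume 4, norm <= M.
Adm.const_mul: note M >= 0 (norm (h 0) <= M); evar_const_mul_le with A = Real.toNNReal norm c.
Adm.odd_part, even_part: the ray of z -> h (-z) in direction theta is the ray of h in direction theta + pi
(cos (theta + pi) = - cos theta); evar_add_le, evar_const_mul_le with A = 1/2: (1/2)(1 + 1) = 1.
eLpNorm_of_adm: g = (1/M) h is Adm 1 with P, E0 h = M * E0 g, eLpNorm_const_smul.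
-/

open MeasureTheory Set
open scoped ENNReal NNReal

namespace Pool.Agent.H.MP_b7167f_an.SS

private theorem RLin_M0 {M : ℝ} {h : ℝ × ℝ → ℂ} (H : Adm M h) : 0 ≤ M :=
  (norm_nonneg _).trans (H.bdd 0)

private theorem RLin_out {M : ℝ} {h : ℝ × ℝ → ℂ} (H : Adm M h) {z : ℝ × ℝ}
    (hz : z ∉ Icc (-1 : ℝ) 1 ×ˢ Icc (-1 : ℝ) 1) : h z = 0 := by
  apply H.supp
  by_contra hcon
  push Not at hcon
  apply hz
  refine ⟨⟨?_, ?_⟩, ?_, ?_⟩ <;> nlinarith [sq_nonneg z.1, sq_nonneg z.2]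

private theorem RLin_vol : (volume : Measure (ℝ × ℝ)) (Icc (-1 : ℝ) 1 ×ˢ Icc (-1 : ℝ) 1) =
    ENNReal.ofReal 4 := by
  rw [Measure.volume_eq_prod, Measure.prod_prod, Real.volume_Icc,
    ← ENNReal.ofReal_mul (by norm_num)]
  norm_num

theorem Adm.integrable {M : ℝ} {h : ℝ × ℝ → ℂ} (H : Adm M h) : Integrable h := by
  have hms : MeasurableSet (Icc (-1 : ℝ) 1 ×ˢ Icc (-1 : ℝ) 1) :=
    measurableSet_Icc.prod measurableSet_Icc
  have h1 : IntegrableOn h (Icc (-1 : ℝ) 1 ×ˢ Icc (-1 : ℝ) 1) := by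
    refine (integrableOn_const (C := M) ?_).mono' H.meas.aestronglyMeasurable ?_
    · rw [RLin_vol]
      exact ENNReal.ofReal_ne_top
    · exact Filter.Eventually.of_forall H.bdd
  rwa [integrableOn_iff_integrable_of_support_subset] at h1
  intro z hz
  by_contra hcon
  exact hz (RLin_out H hcon)

private theorem RLin_norm (y : (ℝ × ℝ) × ℝ) (z : ℝ × ℝ) :
    ‖Complex.exp (Complex.I * ((y.1.1 * z.1 + y.1.2 * z.2 + y.2 * (z.1 ^ 2 + z.2 ^ 2) : ℝ) : ℂ))‖ =
      1 := by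
  rw [mul_comm]
  exact Complex.norm_exp_ofReal_mul_I _

private theorem RLin_int {h : ℝ × ℝ → ℂ} (hh : Integrable h) (y : (ℝ × ℝ) × ℝ) :
    Integrable fun z : ℝ × ℝ => h z *
      Complex.exp (Complex.I * ((y.1.1 * z.1 + y.1.2 * z.2 + y.2 * (z.1 ^ 2 + z.2 ^ 2) : ℝ) : ℂ)) := by
  refine hh.mul_bdd (c := 1) ?_ ?_
  · have hc : Continuous fun z : ℝ × ℝ =>
        Complex.exp (Complex.I * ((y.1.1 * z.1 + y.1.2 * z.2 + y.2 * (z.1 ^ 2 + z.2 ^ 2) : ℝ) : ℂ)) := by
      fun_prop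
    exact hc.aestronglyMeasurable
  · exact Filter.Eventually.of_forall fun z => (RLin_norm y z).le

theorem E0_const_mul (c : ℂ) (h : ℝ × ℝ → ℂ) (y : (ℝ × ℝ) × ℝ) :
    E0 (fun z => c * h z) y = c * E0 h y := by
  unfold E0
  rw [← integral_const_mul]
  congr 1
  funext z
  ring

theorem E0_add {h g : ℝ × ℝ → ℂ} (hh : Integrable h) (hg : Integrable g) (y : (ℝ × ℝ) × ℝ) :
    E0 (fun z => h z + g z) y = E0 h y + E0 g y := by
  unfold E0
  rw [← integral_add (RLin_int hh y) (RLin_int hg y)]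
  congr 1
  funext z
  ring

theorem E0_continuous {h : ℝ × ℝ → ℂ} (hh : Integrable h) : Continuous (E0 h) := by
  unfold E0
  refine continuous_of_dominated (bound := fun z => ‖h z‖)
    (fun y => (RLin_int hh y).aestronglyMeasurable) ?_ hh.norm ?_
  · intro y
    refine Filter.Eventually.of_forall fun z => ?_
    rw [norm_mul, RLin_norm, mul_one]
  · refine Filter.Eventually.of_forall fun z => ?_
    fun_prop

theorem norm_E0_le {M : ℝ} {h : ℝ × ℝ → ℂ} (H : Adm M h) (y : (ℝ × ℝ) × ℝ) :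
    ‖E0 h y‖ ≤ 4 * M := by
  have hms : MeasurableSet (Icc (-1 : ℝ) 1 ×ˢ Icc (-1 : ℝ) 1) :=
    measurableSet_Icc.prod measurableSet_Icc
  have hvol : (volume : Measure (ℝ × ℝ)) (Icc (-1 : ℝ) 1 ×ˢ Icc (-1 : ℝ) 1) ≠ ⊤ := by
    rw [RLin_vol]
    exact ENNReal.ofReal_ne_top
  unfold E0
  refine (norm_integral_le_integral_norm _).trans ?_
  have h1 : (∫ z : ℝ × ℝ, ‖h z * Complex.exp (Complex.I *
      ((y.1.1 * z.1 + y.1.2 * z.2 + y.2 * (z.1 ^ 2 + z.2 ^ 2) : ℝ) : ℂ))‖) = ∫ z, ‖h z‖ := by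
    congr 1
    funext z
    rw [norm_mul, RLin_norm, mul_one]
  rw [h1]
  have h2 : (∫ z, ‖h z‖) = ∫ z in Icc (-1 : ℝ) 1 ×ˢ Icc (-1 : ℝ) 1, ‖h z‖ := by
    refine (setIntegral_eq_integral_of_forall_compl_eq_zero fun z hz => ?_).symm
    rw [RLin_out H hz, norm_zero]
  rw [h2]
  have h3 : (∫ z in Icc (-1 : ℝ) 1 ×ˢ Icc (-1 : ℝ) 1, ‖h z‖) ≤
      ∫ z in Icc (-1 : ℝ) 1 ×ˢ Icc (-1 : ℝ) 1, M :=
    setIntegral_mono H.integrable.norm.integrableOn (integrableOn_const hvol) fun z => H.bdd z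
  refine h3.trans (le_of_eq ?_)
  rw [setIntegral_const, Measure.real, RLin_vol, ENNReal.toReal_ofReal (by norm_num), smul_eq_mul]

theorem Adm.const_mul {M M' : ℝ} {h : ℝ × ℝ → ℂ} (H : Adm M h) {c : ℂ} (hc : ‖c‖ * M ≤ M') :
    Adm M' (fun z => c * h z) where
  meas := H.meas.const_mul c
  bdd z := by
    rw [norm_mul]
    exact (mul_le_mul_of_nonneg_left (H.bdd z) (norm_nonneg c)).trans hc
  supp z hz := by rw [H.supp z hz, mul_zero]
  var θ := by
    refine (evar_const_mul_le (c := c) (A := ‖c‖₊) le_rfl).trans ?_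
    refine (mul_le_mul_right (H.var θ) _).trans ?_
    rw [← ENNReal.ofReal_coe_nnreal, ← ENNReal.ofReal_mul (by positivity)]
    exact ENNReal.ofReal_le_ofReal hc

private theorem RLin_ray (h : ℝ × ℝ → ℂ) (θ : ℝ) :
    (fun r : ℝ => h (-(r * Real.cos θ, r * Real.sin θ))) =
      fun r : ℝ => h (r * Real.cos (θ + Real.pi), r * Real.sin (θ + Real.pi)) := by
  funext r
  rw [Real.cos_add_pi, Real.sin_add_pi, mul_neg, mul_neg]
  rfl

private theorem RLin_half : ‖(1 / 2 : ℂ)‖ ≤ ((1 / 2 : ℝ≥0) : ℝ) := by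
  simp

private theorem RLin_sum {a b : ℝ≥0∞} (ha : a ≤ ENNReal.ofReal 1) (hb : b ≤ ENNReal.ofReal 1) :
    ((1 / 2 : ℝ≥0) : ℝ≥0∞) * (a + b) ≤ ENNReal.ofReal 1 := by
  refine (mul_le_mul_right (add_le_add ha hb) _).trans (le_of_eq ?_)
  rw [ENNReal.ofReal_one, one_add_one_eq_two]
  have : (2 : ℝ≥0∞) = ((2 : ℝ≥0) : ℝ≥0∞) := rfl
  rw [this, ← ENNReal.coe_mul]
  norm_num

/-- The odd part. -/
theorem Adm.odd_part {h : ℝ × ℝ → ℂ} (H : Adm 1 h) :
    Adm 1 (fun z => (1 / 2 : ℂ) * (h z - h (-z))) where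
  meas := (H.meas.sub (H.meas.comp measurable_neg)).const_mul _
  bdd z := by
    rw [norm_mul]
    have h1 := norm_sub_le (h z) (h (-z))
    have h2 := H.bdd z
    have h3 := H.bdd (-z)
    have h4 : ‖(1 / 2 : ℂ)‖ = 1 / 2 := by simp
    rw [h4]
    linarith
  supp z hz := by
    rw [H.supp z hz, H.supp (-z) (by simpa using hz), sub_zero, mul_zero]
  var θ := by
    refine (evar_const_mul_le (c := (1 / 2 : ℂ)) (A := 1 / 2) RLin_half).trans ?_
    have h1 : (fun r : ℝ => h (r * Real.cos θ, r * Real.sin θ) -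
        h (-(r * Real.cos θ, r * Real.sin θ))) = fun r : ℝ => h (r * Real.cos θ, r * Real.sin θ) +
        (-1 : ℂ) * h (r * Real.cos (θ + Real.pi), r * Real.sin (θ + Real.pi)) := by
      funext r
      rw [← congrFun (RLin_ray h θ) r]
      ring
    rw [h1]
    refine le_trans (mul_le_mul_right evar_add_le _) (RLin_sum (H.var θ) ?_)
    refine (evar_const_mul_le (c := (-1 : ℂ)) (A := 1) (by simp)).trans ?_
    rw [ENNReal.coe_one, one_mul]
    exact H.var (θ + Real.pi)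

/-- The even part. -/
theorem Adm.even_part {h : ℝ × ℝ → ℂ} (H : Adm 1 h) :
    Adm 1 (fun z => (1 / 2 : ℂ) * (h z + h (-z))) where
  meas := (H.meas.add (H.meas.comp measurable_neg)).const_mul _
  bdd z := by
    rw [norm_mul]
    have h1 := norm_add_le (h z) (h (-z))
    have h2 := H.bdd z
    have h3 := H.bdd (-z)
    have h4 : ‖(1 / 2 : ℂ)‖ = 1 / 2 := by simp
    rw [h4]
    linarith
  supp z hz := by
    rw [H.supp z hz, H.supp (-z) (by simpa using hz), add_zero, mul_zero]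
  var θ := by
    refine (evar_const_mul_le (c := (1 / 2 : ℂ)) (A := 1 / 2) RLin_half).trans ?_
    have h1 : (fun r : ℝ => h (r * Real.cos θ, r * Real.sin θ) +
        h (-(r * Real.cos θ, r * Real.sin θ))) = fun r : ℝ => h (r * Real.cos θ, r * Real.sin θ) +
        h (r * Real.cos (θ + Real.pi), r * Real.sin (θ + Real.pi)) := by
      funext r
      rw [← congrFun (RLin_ray h θ) r]
    rw [h1]
    exact le_trans (mul_le_mul_right evar_add_le _) (RLin_sum (H.var θ) (H.var (θ + Real.pi)))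

/-- Homogeneity: a bound for `Adm 1` gives one for `Adm M`. -/
theorem eLpNorm_of_adm {q : ℝ≥0∞} {C : ℝ≥0} {P : (ℝ × ℝ → ℂ) → Prop}
    (hP : ∀ (c : ℂ) (h : ℝ × ℝ → ℂ), P h → P (fun z => c * h z))
    (hC : ∀ h : ℝ × ℝ → ℂ, P h → Adm 1 h → eLpNorm (E0 h) q volume ≤ C) {M : ℝ} (hM : 0 < M)
    {h : ℝ × ℝ → ℂ} (hh : P h) (H : Adm M h) :
    eLpNorm (E0 h) q volume ≤ ENNReal.ofReal M * C := by
  have hMc : (M : ℂ) ≠ 0 := by exact_mod_cast hM.ne'
  have h1 : Adm 1 (fun z => (M : ℂ)⁻¹ * h z) := by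
    refine H.const_mul (le_of_eq ?_)
    rw [norm_inv, Complex.norm_real, Real.norm_of_nonneg hM.le, inv_mul_cancel₀ hM.ne']
  have h2 := hC _ (hP _ _ hh) h1
  have h3 : E0 h = (M : ℂ) • E0 (fun z => (M : ℂ)⁻¹ * h z) := by
    funext y
    rw [Pi.smul_apply, smul_eq_mul, E0_const_mul, mul_inv_cancel_left₀ hMc]
  rw [h3, eLpNorm_const_smul]
  have h4 : ‖(M : ℂ)‖ₑ = ENNReal.ofReal M := by
    rw [← ofReal_norm, Complex.norm_real, Real.norm_of_nonneg hM.le]
  rw [h4]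
  exact mul_le_mul_right h2 _

end Pool.Agent.H.MP_b7167f_an.SS
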