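import Pool.Agent.H.MP_b7167f_an.SS.RLin

/-!
Scaling.

PROOF PLAN (helper71).
E0_scale: substitution z -> l z in the integral (Measure.integral_comp_smul on ℝ × ℝ, finrank = 2, or twice in one
variable); the phase x.(l z) + t |l z|^2 = (l x).z + (l^2 t) |z|^2.
eLpNorm_diag: eLpNorm_eq_lintegral_rpow_enorm (q >= 1), then the lintegral of G ((a y1, b y2), c y3) is
(a b c)^-1 times the lintegral of G: Measure.map of the product map is the product of the maps (Measure.map_prod_map)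
and Real.map_volume_mul_left, or lintegral_prod and the one dimensional scaling three times; finally (x^-1)^(1/q).
eLpNorm_E0_scale: E0_scale, eLpNorm_const_smul (norm l^2), eLpNorm_diag with a = b = l, c = l^2:
l^2 * (l^4)^(-1/q) = l^(2 - 4/q). Continuity of E0 of the scaled function: E0_continuous (RLin), its integrability from
hh (Integrable.comp_smul).
-/

open MeasureTheory Set
open scoped ENNReal NNReal

namespace Pool.Agent.H.MP_b7167f_an.SS

theorem E0_scale {l : ℝ} (hl : 0 < l) (h : ℝ × ℝ → ℂ) (y : (ℝ × ℝ) × ℝ) :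
    E0 h y = (l : ℂ) ^ 2 *
      E0 (fun z => h (l * z.1, l * z.2)) ((l * y.1.1, l * y.1.2), l ^ 2 * y.2) := by
  have hl0 : (l : ℂ) ≠ 0 := by exact_mod_cast hl.ne'
  set G : ℝ × ℝ → ℂ := fun z => h z *
    Complex.exp (Complex.I * ((y.1.1 * z.1 + y.1.2 * z.2 + y.2 * (z.1 ^ 2 + z.2 ^ 2) : ℝ) : ℂ))
    with hG
  have h1 : E0 (fun z => h (l * z.1, l * z.2)) ((l * y.1.1, l * y.1.2), l ^ 2 * y.2) =
      ∫ z, G (l • z) := by
    unfold E0
    refine integral_congr_ae (Filter.Eventually.of_forall fun z => ?_)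
    simp only [hG, Prod.smul_fst, Prod.smul_snd, smul_eq_mul]
    have e1 : (l • z : ℝ × ℝ) = (l * z.1, l * z.2) := rfl
    have e2 : l * y.1.1 * z.1 + l * y.1.2 * z.2 + l ^ 2 * y.2 * (z.1 ^ 2 + z.2 ^ 2) =
        y.1.1 * (l * z.1) + y.1.2 * (l * z.2) + y.2 * ((l * z.1) ^ 2 + (l * z.2) ^ 2) := by ring
    rw [e1, e2]
  have h2 := Measure.integral_comp_smul (volume : Measure (ℝ × ℝ)) G l
  have h3 : Module.finrank ℝ (ℝ × ℝ) = 2 := by simp
  rw [h3] at h2
  rw [h1, h2, abs_of_pos (by positivity), Complex.real_smul]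
  have h4 : E0 h y = ∫ z, G z := rfl
  rw [h4]
  push_cast
  field_simp

private theorem RScale_map {a b c : ℝ} (ha : 0 < a) (hb : 0 < b) (hc : 0 < c) :
    Measure.map (fun y : (ℝ × ℝ) × ℝ => ((a * y.1.1, b * y.1.2), c * y.2)) volume =
      ENNReal.ofReal ((a * b * c)⁻¹) • (volume : Measure ((ℝ × ℝ) × ℝ)) := by
  have hm : ∀ t : ℝ, Measurable fun x : ℝ => t * x := fun t => measurable_const_mul t
  have h1 : ∀ t : ℝ, 0 < t → Measure.map (fun x : ℝ => t * x) volume =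
      ENNReal.ofReal t⁻¹ • (volume : Measure ℝ) := by
    intro t ht
    rw [Real.map_volume_mul_left ht.ne', abs_of_pos (inv_pos.2 ht)]
  have e : (fun y : (ℝ × ℝ) × ℝ => ((a * y.1.1, b * y.1.2), c * y.2)) =
      Prod.map (Prod.map (fun x : ℝ => a * x) (fun x : ℝ => b * x)) (fun x : ℝ => c * x) := rfl
  rw [e, Measure.volume_eq_prod, ← Measure.map_prod_map _ _ ((hm a).prodMap (hm b)) (hm c),
    Measure.volume_eq_prod, ← Measure.map_prod_map _ _ (hm a) (hm b), h1 a ha, h1 b hb, h1 c hc]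
  simp only [Measure.prod_smul_left, Measure.prod_smul_right, smul_smul]
  congr 1
  rw [← ENNReal.ofReal_mul (by positivity), ← ENNReal.ofReal_mul (by positivity)]
  congr 1
  field_simp

/-- Change of variables for a diagonal map. -/
theorem eLpNorm_diag {q : ℝ} (hq : 1 ≤ q) {a b c : ℝ} (ha : 0 < a) (hb : 0 < b) (hc : 0 < c)
    {F : (ℝ × ℝ) × ℝ → ℂ} (hF : Continuous F) :
    eLpNorm (fun y : (ℝ × ℝ) × ℝ => F ((a * y.1.1, b * y.1.2), c * y.2)) (ENNReal.ofReal q)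
      volume = ENNReal.ofReal ((a * b * c) ^ (-(1 / q))) *
      eLpNorm F (ENNReal.ofReal q) volume := by
  have hm : Measurable (fun y : (ℝ × ℝ) × ℝ => ((a * y.1.1, b * y.1.2), c * y.2)) := by fun_prop
  have h1 := eLpNorm_map_measure (p := ENNReal.ofReal q) (μ := (volume : Measure ((ℝ × ℝ) × ℝ)))
    (g := F) (f := fun y : (ℝ × ℝ) × ℝ => ((a * y.1.1, b * y.1.2), c * y.2))
    hF.aestronglyMeasurable hm.aemeasurable
  have h2 : (fun y : (ℝ × ℝ) × ℝ => F ((a * y.1.1, b * y.1.2), c * y.2)) =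
      F ∘ fun y : (ℝ × ℝ) × ℝ => ((a * y.1.1, b * y.1.2), c * y.2) := rfl
  rw [h2, ← h1, RScale_map ha hb hc, eLpNorm_smul_measure_of_ne_top ENNReal.ofReal_ne_top,
    ENNReal.toReal_div, ENNReal.toReal_one, ENNReal.toReal_ofReal (by linarith), smul_eq_mul]
  congr 1
  rw [ENNReal.ofReal_rpow_of_pos (by positivity)]
  congr 1
  rw [Real.rpow_neg (by positivity), ← Real.inv_rpow (by positivity)]

theorem eLpNorm_E0_scale {q : ℝ} (hq : 1 ≤ q) {l : ℝ} (hl : 0 < l) {h : ℝ × ℝ → ℂ}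
    (hh : Integrable h) :
    eLpNorm (E0 h) (ENNReal.ofReal q) volume = ENNReal.ofReal (l ^ (2 - 4 / q)) *
      eLpNorm (E0 (fun z => h (l * z.1, l * z.2))) (ENNReal.ofReal q) volume := by
  set g : ℝ × ℝ → ℂ := fun z => h (l * z.1, l * z.2) with hg
  have hgi : Integrable g := by
    have h1 := hh.comp_smul hl.ne'
    exact h1
  have h1 : E0 h = ((l : ℂ) ^ 2) • fun y : (ℝ × ℝ) × ℝ =>
      E0 g ((l * y.1.1, l * y.1.2), l ^ 2 * y.2) := by
    funext y
    exact E0_scale hl h y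
  rw [h1, eLpNorm_const_smul, eLpNorm_diag hq hl hl (by positivity) (E0_continuous hgi)]
  rw [← mul_assoc]
  congr 1
  have h2 : ‖(l : ℂ) ^ 2‖ₑ = ENNReal.ofReal (l ^ 2) := by
    rw [← ofReal_norm, norm_pow, Complex.norm_real, Real.norm_of_nonneg hl.le]
  rw [h2, ← ENNReal.ofReal_mul (by positivity)]
  congr 1
  have h3 : l * l * l ^ 2 = l ^ (4 : ℝ) := by
    rw [show (4 : ℝ) = ((4 : ℕ) : ℝ) by norm_num, Real.rpow_natCast]
    ring
  have h4 : l ^ 2 = l ^ (2 : ℝ) := by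
    rw [show (2 : ℝ) = ((2 : ℕ) : ℝ) by norm_num, Real.rpow_natCast]
  rw [h3, h4, ← Real.rpow_mul hl.le, ← Real.rpow_add hl]
  congr 1
  ring

end Pool.Agent.H.MP_b7167f_an.SS
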