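import Pool.Agent.H.MP_b7167f_an.SS.RLin

/-!
Multiplication by the sine of a coordinate.

PROOF PLAN (helper71).
E0_sin_fst: sin z1 = (e^{i z1} - e^{-i z1})/(2i) and e^{i z1} e^{i(x.z + t|z|^2)} = e^{i((x+e1).z + t|z|^2)}; the
integrals are split with integrability (norm of the exponential is 1). The same for snd.
eLpNorm_sin_fst: norm (1/(2i)) = 1/2, triangle inequality eLpNorm_sub_le (1 <= q; E0 g is continuous by E0_continuous in
RLin, so aestronglyMeasurable), and both translates have the same eLpNorm (measurePreserving_add_right on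
(ℝ × ℝ) × ℝ; eLpNorm_comp_measurePreserving). (1/2)(a + a) = a.
-/

open MeasureTheory Set
open scoped ENNReal NNReal

namespace Pool.Agent.H.MP_b7167f_an.SS

/-- The integrand of `E0` is integrable. -/
theorem RTrans_integrable {g : ℝ × ℝ → ℂ} (hg : Integrable g) (y : (ℝ × ℝ) × ℝ) :
    Integrable (fun z : ℝ × ℝ => g z * Complex.exp (Complex.I *
      ((y.1.1 * z.1 + y.1.2 * z.2 + y.2 * (z.1 ^ 2 + z.2 ^ 2) : ℝ) : ℂ))) := by
  refine hg.mul_bdd (c := 1) ?_ ?_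
  · exact (by fun_prop : Continuous (fun z : ℝ × ℝ => Complex.exp (Complex.I *
      ((y.1.1 * z.1 + y.1.2 * z.2 + y.2 * (z.1 ^ 2 + z.2 ^ 2) : ℝ) : ℂ)))).aestronglyMeasurable
  · refine Filter.Eventually.of_forall fun z => ?_
    rw [mul_comm Complex.I, Complex.norm_exp_ofReal_mul_I]

theorem RTrans_sin (x : ℝ) :
    (Real.sin x : ℂ) = (Complex.exp (Complex.I * (x : ℂ)) - Complex.exp (Complex.I * ((-x : ℝ) : ℂ)))
      / (2 * Complex.I) := by
  have hI : (2 * Complex.I : ℂ) ≠ 0 := by simp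
  rw [eq_div_iff hI, Complex.ofReal_sin, Complex.sin, Complex.ofReal_neg]
  have e1 : Complex.I * -(x : ℂ) = -(x : ℂ) * Complex.I := by ring
  have e2 : Complex.I * (x : ℂ) = (x : ℂ) * Complex.I := by ring
  rw [e1, e2]
  have hI2 : Complex.I * Complex.I = -1 := Complex.I_mul_I
  linear_combination (Complex.exp (-(x : ℂ) * Complex.I) - Complex.exp ((x : ℂ) * Complex.I)) * hI2

theorem E0_sin_fst {g : ℝ × ℝ → ℂ} (hg : Integrable g) (y : (ℝ × ℝ) × ℝ) :
    E0 (fun z => (Real.sin z.1 : ℂ) * g z) y =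
      (E0 g ((y.1.1 + 1, y.1.2), y.2) - E0 g ((y.1.1 - 1, y.1.2), y.2)) / (2 * Complex.I) := by
  unfold E0
  rw [← integral_sub (RTrans_integrable hg ((y.1.1 + 1, y.1.2), y.2))
    (RTrans_integrable hg ((y.1.1 - 1, y.1.2), y.2)), ← integral_div]
  refine integral_congr_ae (Filter.Eventually.of_forall fun z => ?_)
  simp only
  have e1 : Complex.I * (((y.1.1 + 1) * z.1 + y.1.2 * z.2 + y.2 * (z.1 ^ 2 + z.2 ^ 2) : ℝ) : ℂ)
      = Complex.I * ((z.1 : ℝ) : ℂ) + Complex.I *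
        ((y.1.1 * z.1 + y.1.2 * z.2 + y.2 * (z.1 ^ 2 + z.2 ^ 2) : ℝ) : ℂ) := by
    push_cast; ring
  have e2 : Complex.I * (((y.1.1 - 1) * z.1 + y.1.2 * z.2 + y.2 * (z.1 ^ 2 + z.2 ^ 2) : ℝ) : ℂ)
      = Complex.I * ((-z.1 : ℝ) : ℂ) + Complex.I *
        ((y.1.1 * z.1 + y.1.2 * z.2 + y.2 * (z.1 ^ 2 + z.2 ^ 2) : ℝ) : ℂ) := by
    push_cast; ring
  rw [e1, e2, Complex.exp_add, Complex.exp_add, RTrans_sin]
  ring

theorem E0_sin_snd {g : ℝ × ℝ → ℂ} (hg : Integrable g) (y : (ℝ × ℝ) × ℝ) :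
    E0 (fun z => (Real.sin z.2 : ℂ) * g z) y =
      (E0 g ((y.1.1, y.1.2 + 1), y.2) - E0 g ((y.1.1, y.1.2 - 1), y.2)) / (2 * Complex.I) := by
  unfold E0
  rw [← integral_sub (RTrans_integrable hg ((y.1.1, y.1.2 + 1), y.2))
    (RTrans_integrable hg ((y.1.1, y.1.2 - 1), y.2)), ← integral_div]
  refine integral_congr_ae (Filter.Eventually.of_forall fun z => ?_)
  simp only
  have e1 : Complex.I * ((y.1.1 * z.1 + (y.1.2 + 1) * z.2 + y.2 * (z.1 ^ 2 + z.2 ^ 2) : ℝ) : ℂ)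
      = Complex.I * ((z.2 : ℝ) : ℂ) + Complex.I *
        ((y.1.1 * z.1 + y.1.2 * z.2 + y.2 * (z.1 ^ 2 + z.2 ^ 2) : ℝ) : ℂ) := by
    push_cast; ring
  have e2 : Complex.I * ((y.1.1 * z.1 + (y.1.2 - 1) * z.2 + y.2 * (z.1 ^ 2 + z.2 ^ 2) : ℝ) : ℂ)
      = Complex.I * ((-z.2 : ℝ) : ℂ) + Complex.I *
        ((y.1.1 * z.1 + y.1.2 * z.2 + y.2 * (z.1 ^ 2 + z.2 ^ 2) : ℝ) : ℂ) := by
    push_cast; ring
  rw [e1, e2, Complex.exp_add, Complex.exp_add, RTrans_sin]
  ring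

/-- Half the difference of two translates has no larger norm. -/
theorem RTrans_eLpNorm {q : ℝ≥0∞} (hq : 1 ≤ q) {f : (ℝ × ℝ) × ℝ → ℂ} (hf : Continuous f)
    (a b : (ℝ × ℝ) × ℝ) :
    eLpNorm (fun y => (f (y + a) - f (y + b)) / (2 * Complex.I)) q volume
      ≤ eLpNorm f q volume := by
  have h1 : (fun y => (f (y + a) - f (y + b)) / (2 * Complex.I))
      = (1 / (2 * Complex.I) : ℂ) • ((fun y => f (y + a)) - (fun y => f (y + b))) := by
    funext y
    simp only [Pi.smul_apply, Pi.sub_apply, smul_eq_mul]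
    ring
  have hL : (volume : Measure ((ℝ × ℝ) × ℝ)).IsAddHaarMeasure := by
    rw [Measure.volume_eq_prod]; infer_instance
  have ta : eLpNorm (fun y => f (y + a)) q volume = eLpNorm f q volume :=
    eLpNorm_comp_measurePreserving (μ := volume) (ν := volume) hf.aestronglyMeasurable
      (measurePreserving_add_right volume a)
  have tb : eLpNorm (fun y => f (y + b)) q volume = eLpNorm f q volume :=
    eLpNorm_comp_measurePreserving (μ := volume) (ν := volume) hf.aestronglyMeasurable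
      (measurePreserving_add_right volume b)
  have hn : ‖(1 / (2 * Complex.I) : ℂ)‖ₑ = (2 : ℝ≥0∞)⁻¹ := by
    rw [← ofReal_norm]
    have : ‖(1 / (2 * Complex.I) : ℂ)‖ = (2 : ℝ)⁻¹ := by simp
    rw [this, ENNReal.ofReal_inv_of_pos (by norm_num)]
    norm_num
  rw [h1, eLpNorm_const_smul, hn]
  calc (2 : ℝ≥0∞)⁻¹ * eLpNorm ((fun y => f (y + a)) - fun y => f (y + b)) q volume
      ≤ (2 : ℝ≥0∞)⁻¹ * (eLpNorm (fun y => f (y + a)) q volume
          + eLpNorm (fun y => f (y + b)) q volume) := by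
        gcongr
        exact eLpNorm_sub_le (hf.comp (continuous_add_const a)).aestronglyMeasurable
          (hf.comp (continuous_add_const b)).aestronglyMeasurable hq
    _ = eLpNorm f q volume := by
        rw [ta, tb, ← two_mul, ← mul_assoc, ENNReal.inv_mul_cancel (by norm_num) (by norm_num),
          one_mul]

theorem eLpNorm_sin_fst {q : ℝ≥0∞} (hq : 1 ≤ q) {g : ℝ × ℝ → ℂ} (hg : Integrable g) :
    eLpNorm (E0 (fun z => (Real.sin z.1 : ℂ) * g z)) q volume ≤ eLpNorm (E0 g) q volume := by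
  have h : E0 (fun z => (Real.sin z.1 : ℂ) * g z) =
      fun y => (E0 g (y + ((1, 0), 0)) - E0 g (y + ((-1, 0), 0))) / (2 * Complex.I) := by
    funext y
    rw [E0_sin_fst hg]
    congr 3 <;> (ext <;> simp <;> ring)
  rw [h]
  exact RTrans_eLpNorm hq (E0_continuous hg) _ _

theorem eLpNorm_sin_snd {q : ℝ≥0∞} (hq : 1 ≤ q) {g : ℝ × ℝ → ℂ} (hg : Integrable g) :
    eLpNorm (E0 (fun z => (Real.sin z.2 : ℂ) * g z)) q volume ≤ eLpNorm (E0 g) q volume := by
  have h : E0 (fun z => (Real.sin z.2 : ℂ) * g z) =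
      fun y => (E0 g (y + ((0, 1), 0)) - E0 g (y + ((0, -1), 0))) / (2 * Complex.I) := by
    funext y
    rw [E0_sin_snd hg]
    congr 3 <;> (ext <;> simp <;> ring)
  rw [h]
  exact RTrans_eLpNorm hq (E0_continuous hg) _ _

end Pool.Agent.H.MP_b7167f_an.SS
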