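import Pool.Agent.H.MP_b7167f_an.SS.Defs

/-!
Lemmas on the variation of functions.

PROOF PLAN (helper71).
evar_indicator_le: let u be monotone with values in s (iSup over partitions). For each i the term
edist (F (u (i+1))) (F (u i)), F = J.indicator g, is at most T i + B i, where T i = edist (g (u (i+1))) (g (u i)) if both
points lie in J and 0 otherwise, B i = A if exactly one of them lies in J and 0 otherwise. At most one i < n enters J
(u i not in J, u (i+1) in J) and at most one leaves J (J is order connected, u monotone; Finset.card_le_one), so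
sum B <= 2 A. If I = {i <= n : u i in J} is empty, T = 0; otherwise with i0 = min I, i1 = max I the sequence
v i = u (max i0 (min i i1)) is monotone with values in J, and T i <= edist (g (v (i+1))) (g (v i)); eVariationOn.sum_le.
evar_mul_le: edist (f x * g x) (f y * g y) <= A * edist (g x) (g y) + B * edist (f x) (f y) for x, y in s; sum.
evar_add_le: the same with edist_add_add_le. evar_const_mul_le, evar_lip_le: LipschitzOnWith.comp_eVariationOn_le
(for evar_lip_le compose with id and use eVariationOn_id_Icc), or directly.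
-/

open MeasureTheory Set
open scoped ENNReal NNReal

namespace Pool.Agent.H.MP_b7167f_an.SS

/-- the general scheme: a bound for all the finite sums -/
private theorem RVar_le {f : ℝ → ℂ} {s : Set ℝ} {C : ℝ≥0∞}
    (h : ∀ (n : ℕ) (u : ℕ → ℝ), Monotone u → (∀ i, u i ∈ s) →
      ∑ i ∈ Finset.range n, edist (f (u (i + 1))) (f (u i)) ≤ C) : eVariationOn f s ≤ C := by
  apply iSup_le _
  rintro ⟨n, ⟨u, hu, us⟩⟩
  exact h n u hu us

/-- a sum of terms at most one of which is different from zero -/
private theorem RVar_one {n : ℕ} {p : ℕ → Prop} [DecidablePred p] {A : ℝ≥0∞}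
    (hp : ∀ i j, i < j → p i → p j → False) :
    ∑ i ∈ Finset.range n, (if p i then A else 0) ≤ A := by
  rw [← Finset.sum_filter, Finset.sum_const]
  have h1 : ((Finset.range n).filter p).card ≤ 1 := by
    rw [Finset.card_le_one]
    intro i hi j hj
    rw [Finset.mem_filter] at hi hj
    rcases lt_trichotomy i j with h | h | h
    · exact (hp i j h hi.2 hj.2).elim
    · exact h
    · exact (hp j i h hj.2 hi.2).elim
  calc ((Finset.range n).filter p).card • A ≤ 1 • A := nsmul_le_nsmul_left zero_le h1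
    _ = A := one_nsmul A

private theorem RVar_inner {g : ℝ → ℂ} {J : Set ℝ} [DecidablePred (· ∈ J)] (hJ : J.OrdConnected)
    {n : ℕ} {u : ℕ → ℝ} (hu : Monotone u) :
    ∑ i ∈ Finset.range n, (if u i ∈ J ∧ u (i + 1) ∈ J then edist (g (u (i + 1))) (g (u i)) else 0) ≤
      eVariationOn g J := by
  by_cases hne : ((Finset.range (n + 1)).filter fun i => u i ∈ J).Nonempty
  · obtain ⟨I, hI⟩ : ∃ I, I = (Finset.range (n + 1)).filter fun i => u i ∈ J := ⟨_, rfl⟩
    rw [← hI] at hne
    obtain ⟨i0, hi0⟩ : ∃ i0, i0 = I.min' hne := ⟨_, rfl⟩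
    obtain ⟨i1, hi1⟩ : ∃ i1, i1 = I.max' hne := ⟨_, rfl⟩
    have hm0 : u i0 ∈ J := by
      have := I.min'_mem hne
      rw [← hi0, hI] at this
      exact (Finset.mem_filter.1 this).2
    have hm1 : u i1 ∈ J := by
      have := I.max'_mem hne
      rw [← hi1, hI] at this
      exact (Finset.mem_filter.1 this).2
    have hmem : ∀ i, i < n + 1 → u i ∈ J → i0 ≤ i ∧ i ≤ i1 := by
      intro i hi hiJ
      have h1 : i ∈ I := by
        rw [hI, Finset.mem_filter, Finset.mem_range]
        exact ⟨hi, hiJ⟩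
      rw [hi0, hi1]
      exact ⟨I.min'_le i h1, I.le_max' i h1⟩
    have h2 : ∑ i ∈ Finset.Ico i0 i1, edist (g (u (i + 1))) (g (u i)) ≤ eVariationOn g J := by
      refine eVariationOn.sum_le_of_monotoneOn_Icc (hu.monotoneOn _) fun i hi => ?_
      exact hJ.out hm0 hm1 ⟨hu hi.1, hu hi.2⟩
    refine le_trans ?_ h2
    rw [← Finset.sum_filter]
    refine Finset.sum_le_sum_of_subset fun i hi => ?_
    rw [Finset.mem_filter, Finset.mem_range] at hi
    rw [Finset.mem_Ico]
    have h3 := hmem i (by omega) hi.2.1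
    have h4 := hmem (i + 1) (by omega) hi.2.2
    omega
  · rw [Finset.not_nonempty_iff_eq_empty] at hne
    rw [Finset.sum_eq_zero]
    · exact zero_le
    · intro i hi
      rw [if_neg]
      intro h
      have h1 : i ∈ (Finset.range (n + 1)).filter fun i => u i ∈ J := by
        rw [Finset.mem_filter, Finset.mem_range]
        rw [Finset.mem_range] at hi
        exact ⟨by omega, h.1⟩
      rw [hne] at h1
      exact Finset.notMem_empty _ h1

private theorem RVar_norm {x : ℂ} {A : ℝ≥0} (h : ‖x‖ ≤ A) : ‖x‖ₑ ≤ A := by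
  rw [enorm_le_coe]
  exact_mod_cast h

/-- Cutting a function off outside an interval. -/
theorem evar_indicator_le {g : ℝ → ℂ} {J s : Set ℝ} (hJ : J.OrdConnected) {A : ℝ≥0}
    (hA : ∀ x ∈ J, ‖g x‖ ≤ A) :
    eVariationOn (J.indicator g) s ≤ eVariationOn g J + 2 * A := by
  classical
  refine RVar_le fun n u hu us => ?_
  have h1 : ∀ i, edist (J.indicator g (u (i + 1))) (J.indicator g (u i)) ≤
      (if u i ∈ J ∧ u (i + 1) ∈ J then edist (g (u (i + 1))) (g (u i)) else 0) +
      ((if u i ∉ J ∧ u (i + 1) ∈ J then (A : ℝ≥0∞) else 0) +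
        (if u i ∈ J ∧ u (i + 1) ∉ J then (A : ℝ≥0∞) else 0)) := by
    intro i
    by_cases ha : u i ∈ J <;> by_cases hb : u (i + 1) ∈ J
    · simp [ha, hb]
    · simp only [ha, hb, indicator_of_mem, indicator_of_notMem, not_false_eq_true, and_self,
        and_false, if_true, if_false, zero_add, not_true_eq_false]
      rw [edist_comm, edist_eq_enorm_sub, sub_zero]
      exact RVar_norm (hA _ ha)
    · simp only [ha, hb, indicator_of_mem, indicator_of_notMem, not_false_eq_true, and_self,
        false_and, if_true, if_false, zero_add, add_zero, not_true_eq_false]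
      rw [edist_eq_enorm_sub, sub_zero]
      exact RVar_norm (hA _ hb)
    · simp [ha, hb]
  have h2 : ∑ i ∈ Finset.range n, (if u i ∉ J ∧ u (i + 1) ∈ J then (A : ℝ≥0∞) else 0) ≤ A := by
    refine RVar_one fun i j hij hi hj => ?_
    exact hj.1 (hJ.out hi.2 hj.2 ⟨hu (by omega), hu (by omega)⟩)
  have h3 : ∑ i ∈ Finset.range n, (if u i ∈ J ∧ u (i + 1) ∉ J then (A : ℝ≥0∞) else 0) ≤ A := by
    refine RVar_one fun i j hij hi hj => ?_
    exact hi.2 (hJ.out hi.1 hj.1 ⟨hu (by omega), hu (by omega)⟩)
  refine (Finset.sum_le_sum fun i _ => h1 i).trans ?_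
  rw [Finset.sum_add_distrib, Finset.sum_add_distrib, two_mul]
  exact add_le_add (RVar_inner hJ hu) (add_le_add h2 h3)

theorem evar_mul_le {f g : ℝ → ℂ} {s : Set ℝ} {A B : ℝ≥0} (hf : ∀ x ∈ s, ‖f x‖ ≤ A)
    (hg : ∀ x ∈ s, ‖g x‖ ≤ B) :
    eVariationOn (fun x => f x * g x) s ≤ A * eVariationOn g s + B * eVariationOn f s := by
  refine RVar_le fun n u hu us => ?_
  have h1 : ∀ i, edist (f (u (i + 1)) * g (u (i + 1))) (f (u i) * g (u i)) ≤
      A * edist (g (u (i + 1))) (g (u i)) + B * edist (f (u (i + 1))) (f (u i)) := by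
    intro i
    rw [edist_eq_enorm_sub, edist_eq_enorm_sub, edist_eq_enorm_sub]
    have h2 : f (u (i + 1)) * g (u (i + 1)) - f (u i) * g (u i) =
        f (u (i + 1)) * (g (u (i + 1)) - g (u i)) + g (u i) * (f (u (i + 1)) - f (u i)) := by
      ring
    rw [h2]
    refine (enorm_add_le _ _).trans ?_
    rw [enorm_mul, enorm_mul]
    exact add_le_add (mul_le_mul_left (RVar_norm (hf _ (us _))) _)
      (mul_le_mul_left (RVar_norm (hg _ (us _))) _)
  refine (Finset.sum_le_sum fun i _ => h1 i).trans ?_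
  rw [Finset.sum_add_distrib, ← Finset.mul_sum, ← Finset.mul_sum]
  exact add_le_add (mul_le_mul_right (eVariationOn.sum_le hu us) _)
    (mul_le_mul_right (eVariationOn.sum_le hu us) _)

theorem evar_add_le {f g : ℝ → ℂ} {s : Set ℝ} :
    eVariationOn (fun x => f x + g x) s ≤ eVariationOn f s + eVariationOn g s := by
  refine RVar_le fun n u hu us => ?_
  refine (Finset.sum_le_sum fun i _ => edist_add_add_le _ _ _ _).trans ?_
  rw [Finset.sum_add_distrib]
  exact add_le_add (eVariationOn.sum_le hu us) (eVariationOn.sum_le hu us)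

theorem evar_const_mul_le {c : ℂ} {f : ℝ → ℂ} {s : Set ℝ} {A : ℝ≥0} (hc : ‖c‖ ≤ A) :
    eVariationOn (fun x => c * f x) s ≤ A * eVariationOn f s := by
  refine RVar_le fun n u hu us => ?_
  have h1 : ∀ i, edist (c * f (u (i + 1))) (c * f (u i)) ≤
      A * edist (f (u (i + 1))) (f (u i)) := by
    intro i
    rw [edist_eq_enorm_sub, edist_eq_enorm_sub, ← mul_sub, enorm_mul]
    exact mul_le_mul_left (RVar_norm hc) _
  refine (Finset.sum_le_sum fun i _ => h1 i).trans ?_
  rw [← Finset.mul_sum]
  exact mul_le_mul_right (eVariationOn.sum_le hu us) _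

theorem evar_lip_le {f : ℝ → ℂ} {a b : ℝ} {L : ℝ≥0} (hab : a ≤ b)
    (hf : LipschitzOnWith L f (Icc a b)) :
    eVariationOn f (Icc a b) ≤ L * ENNReal.ofReal (b - a) := by
  have h1 := hf.comp_eVariationOn_le (g := (id : ℝ → ℝ)) (s := Icc a b) (mapsTo_id _)
  rw [eVariationOn_id_Icc] at h1
  exact h1

end Pool.Agent.H.MP_b7167f_an.SS
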